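import Mathlib
import Pool.Agent.H709R3.Fock

set_option autoImplicit false

namespace Pool.Agent.X89.PC

open MvPolynomial ComplexConjugate Finset Matrix
open scoped ComplexOrder
open Pool.Agent.H709R3

/-- multiply the polynomial with coefficient list `L` by `a x + b y`, with a carry. -/
def mulL (a b : GaussianInt) : List GaussianInt → GaussianInt → List GaussianInt
  | [], r => [r]
  | c :: cs, r => (r + b * c) :: mulL a b cs (a * c)

/-- the coefficient list of a product of linear forms. -/
def poly : List (GaussianInt × GaussianInt) → List GaussianInt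
  | [] => [1]
  | p :: t => mulL p.1 p.2 (poly t) 0

/-- the weighted norm of a coefficient list. -/
def nrmL : ℕ → ℕ → List GaussianInt → ℤ
  | _, _, [] => 0
  | j, m, c :: cs => (j.factorial * m.factorial : ℤ) * (c.re * c.re + c.im * c.im) + nrmL (j + 1) (m - 1) cs

noncomputable abbrev tc : GaussianInt →+* ℂ := GaussianInt.toComplex

lemma mulL_getD_zero (a b : GaussianInt) (L : List GaussianInt) (r : GaussianInt) :
    (mulL a b L r).getD 0 0 = r + b * L.getD 0 0 := by
  cases L <;> simp [mulL]

lemma mulL_getD_succ (a b : GaussianInt) (L : List GaussianInt) (r : GaussianInt) (j : ℕ) :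
    (mulL a b L r).getD (j + 1) 0 = a * L.getD j 0 + b * L.getD (j + 1) 0 := by
  induction L generalizing r j with
  | nil => simp [mulL]
  | cons c cs ih =>
    rw [mulL, List.getD_cons_succ]
    cases j with
    | zero => rw [mulL_getD_zero]; simp
    | succ j => rw [ih]; simp

lemma length_mulL (a b : GaussianInt) (L : List GaussianInt) (r : GaussianInt) :
    (mulL a b L r).length = L.length + 1 := by
  induction L generalizing r with
  | nil => rfl
  | cons c cs ih => rw [mulL, List.length_cons, ih]; rfl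

lemma length_poly (l : List (GaussianInt × GaussianInt)) : (poly l).length = l.length + 1 := by
  induction l with
  | nil => rfl
  | cons p t ih => rw [poly, length_mulL, ih]; rfl

/-- the exponent. -/
noncomputable def ex (j m : ℕ) : Fin 2 →₀ ℕ := Finsupp.single 0 j + Finsupp.single 1 m

lemma ex_zero (j m : ℕ) : ex j m 0 = j := by simp [ex]
lemma ex_one (j m : ℕ) : ex j m 1 = m := by simp [ex]

/-- the homogeneous polynomial with the given coefficients. -/
noncomputable def H (c : ℕ → ℂ) (n : ℕ) : MvPolynomial (Fin 2) ℂ :=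
  ∑ j ∈ range (n + 1), monomial (ex j (n - j)) (c j)

lemma ell_two (u : Fin 2 → ℂ) : ell u = C (u 0) * X 0 + C (u 1) * X 1 := by
  unfold ell
  rw [Fin.sum_univ_two, MvPolynomial.smul_eq_C_mul, MvPolynomial.smul_eq_C_mul]

lemma ex_s0 (j m : ℕ) : Finsupp.single 0 1 + ex j m = ex (j + 1) m := by
  ext i
  fin_cases i <;> simp [ex, add_comm]

lemma ex_s1 (j m : ℕ) : Finsupp.single 1 1 + ex j m = ex j (m + 1) := by
  ext i
  fin_cases i <;> simp [ex, add_comm]

lemma X0_mul (a c : ℂ) (j m : ℕ) : C a * X 0 * monomial (ex j m) c = monomial (ex (j + 1) m) (a * c) := by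
  rw [X, C_mul_monomial, monomial_mul, mul_one, ex_s0]

lemma X1_mul (a c : ℂ) (j m : ℕ) : C a * X 1 * monomial (ex j m) c = monomial (ex j (m + 1)) (a * c) := by
  rw [X, C_mul_monomial, monomial_mul, mul_one, ex_s1]

lemma ell_mul_H (u : Fin 2 → ℂ) (c c' : ℕ → ℂ) (n : ℕ) (hc : c (n + 1) = 0)
    (h0 : c' 0 = u 1 * c 0) (hs : ∀ j, c' (j + 1) = u 0 * c j + u 1 * c (j + 1)) :
    ell u * H c n = H c' (n + 1) := by
  have e1 : C (u 0) * X 0 * H c n = ∑ j ∈ range (n + 1), monomial (ex (j + 1) (n - j)) (u 0 * c j) := by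
    unfold H; rw [Finset.mul_sum]
    exact Finset.sum_congr rfl fun j _ => X0_mul _ _ _ _
  have e2 : C (u 1) * X 1 * H c n = ∑ j ∈ range (n + 1), monomial (ex j (n + 1 - j)) (u 1 * c j) := by
    unfold H; rw [Finset.mul_sum]
    refine Finset.sum_congr rfl fun j hj => ?_
    rw [X1_mul]
    have : n - j + 1 = n + 1 - j := by have := Finset.mem_range.1 hj; omega
    rw [this]
  have e3 : ∑ j ∈ range (n + 1), monomial (ex j (n + 1 - j)) (u 1 * c j)
      = ∑ j ∈ range (n + 1 + 1), (monomial (ex j (n + 1 - j)) (u 1 * c j) : MvPolynomial (Fin 2) ℂ) := by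
    rw [Finset.sum_range_succ _ (n + 1), hc, mul_zero, map_zero, add_zero]
  rw [ell_two, add_mul, e1, e2, e3]
  unfold H
  rw [Finset.sum_range_succ' _ (n + 1), Finset.sum_range_succ' _ (n + 1), ← add_assoc,
    ← Finset.sum_add_distrib, h0]
  congr 1
  refine Finset.sum_congr rfl fun j hj => ?_
  rw [hs, map_add]
  have : n + 1 - (j + 1) = n - j := by omega
  rw [this]

/-- the vector attached to a pair of Gaussian integers. -/
noncomputable def vec (p : GaussianInt × GaussianInt) : Fin 2 → ℂ := ![tc p.1, tc p.2]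

lemma getD_poly_length (l : List (GaussianInt × GaussianInt)) :
    (poly l).getD (l.length + 1) 0 = 0 := by
  apply List.getD_eq_default
  rw [length_poly]

theorem prod_ell (l : List (GaussianInt × GaussianInt)) :
    (l.map (fun p => ell (vec p))).prod = H (fun j => tc ((poly l).getD j 0)) l.length := by
  induction l with
  | nil =>
    simp only [List.map_nil, List.prod_nil, poly, List.length_nil, H]
    rw [Finset.sum_range_one]
    have h0 : ex 0 (0 - 0) = 0 := by simp [ex]
    rw [h0]
    simp only [List.getD_cons_zero, map_one]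
    rfl
  | cons p t ih =>
    rw [List.map_cons, List.prod_cons, ih, List.length_cons]
    apply ell_mul_H
    · simp only [getD_poly_length, map_zero]
    · rw [poly, mulL_getD_zero, zero_add, map_mul]; rfl
    · intro j
      rw [poly, mulL_getD_succ, map_add, map_mul, map_mul]; rfl

lemma coeff_H (c : ℕ → ℂ) (n j : ℕ) (hj : j < n + 1) : coeff (ex j (n - j)) (H c n) = c j := by
  unfold H
  rw [coeff_sum, Finset.sum_eq_single j]
  · rw [coeff_monomial, if_pos rfl]
  · intro i _ hi
    rw [coeff_monomial, if_neg]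
    intro h
    apply hi
    have := DFunLike.congr_fun h 0
    rwa [ex_zero, ex_zero] at this
  · intro h; exact absurd (Finset.mem_range.2 hj) h

lemma ip_H (c : ℕ → ℂ) (n : ℕ) :
    ip (H c n) (H c n) = ∑ j ∈ range (n + 1), ((j.factorial * (n - j).factorial : ℕ) : ℂ) * (conj (c j) * c j) := by
  classical
  have hinj : Function.Injective (fun j : ℕ => ex j (n - j)) := by
    intro i j h
    have := DFunLike.congr_fun h 0
    simpa [ex_zero] using this
  rw [ip_eq_sum (s := (range (n + 1)).image (fun j => ex j (n - j)))]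
  · rw [Finset.sum_image (fun i _ j _ h => hinj h)]
    refine Finset.sum_congr rfl fun j hj => ?_
    rw [coeff_H _ _ _ (Finset.mem_range.1 hj)]
    congr 1
    unfold fac
    rw [Fin.prod_univ_two, ex_zero, ex_one]
    push_cast; rfl
  · unfold H
    refine MvPolynomial.support_sum.trans ?_
    intro x hx
    rw [Finset.mem_biUnion] at hx
    obtain ⟨j, hj, hx⟩ := hx
    have := support_monomial_subset hx
    rw [Finset.mem_singleton] at this
    rw [this]
    exact Finset.mem_image_of_mem _ hj

lemma normSq_tc (z : GaussianInt) : conj (tc z) * tc z = ((z.re * z.re + z.im * z.im : ℤ) : ℂ) := by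
  rw [← Complex.normSq_eq_conj_mul_self]
  simp only [Complex.normSq_apply]
  have h1 : (tc z).re = z.re := by simp [tc]
  have h2 : (tc z).im = z.im := by simp [tc]
  rw [h1, h2]
  push_cast; rfl

lemma nrmL_eq (L : List GaussianInt) (j m : ℕ) :
    (nrmL j m L : ℂ) = ∑ i ∈ range L.length, (((j + i).factorial * (m - i).factorial : ℕ) : ℂ)
      * (conj (tc (L.getD i 0)) * tc (L.getD i 0)) := by
  induction L generalizing j m with
  | nil => simp [nrmL]
  | cons c cs ih =>
    rw [nrmL, List.length_cons, Finset.sum_range_succ']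
    push_cast
    rw [ih]
    simp only [List.getD_cons_succ, List.getD_cons_zero, add_zero, Nat.sub_zero]
    rw [normSq_tc, add_comm]
    congr 1
    · refine Finset.sum_congr rfl fun i _ => ?_
      have h1 : j + (i + 1) = j + 1 + i := by ring
      have h2 : m - (i + 1) = m - 1 - i := by omega
      rw [h1, h2]
      push_cast; rfl
    · push_cast; ring

/-- permanent of the Gram matrix of a finite family. -/
theorem wick' {κ : Type} [Fintype κ] [DecidableEq κ] (u : κ → Fin 2 → ℂ) :
    (Matrix.of fun i j => dot (u i) (u j)).permanent = ip (∏ i, ell (u i)) (∏ i, ell (u i)) := by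
  have e := Fintype.equivFin κ
  have h1 : ∏ i, ell (u i) = ∏ i, ell (u (e.symm i)) := (Equiv.prod_comp e.symm (fun i => ell (u i))).symm
  rw [h1, wick]
  unfold Matrix.permanent
  rw [← Equiv.sum_comp (Equiv.permCongr e)]
  refine Finset.sum_congr rfl fun σ _ => ?_
  rw [← Equiv.prod_comp e]
  refine Finset.prod_congr rfl fun i _ => ?_
  simp

theorem per_list {κ : Type} [Fintype κ] [DecidableEq κ] (f : κ → GaussianInt × GaussianInt)
    (l : List (GaussianInt × GaussianInt)) (h : (univ.val.map f : Multiset _) = (l : Multiset _)) :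
    (Matrix.of fun i j => dot (vec (f i)) (vec (f j))).permanent
      = (nrmL 0 l.length (poly l) : ℂ) := by
  rw [wick' (fun i => vec (f i))]
  have h1 : ∏ i, ell (vec (f i)) = (l.map (fun p => ell (vec p))).prod := by
    have : ∏ i, ell (vec (f i)) = ((univ.val.map f).map (fun p => ell (vec p))).prod := by
      rw [Multiset.map_map]; rfl
    rw [this, h]; simp
  rw [h1, prod_ell, ip_H, nrmL_eq, length_poly]
  refine Finset.sum_congr rfl fun j _ => ?_
  rw [zero_add]


section viol

/-- the inequality fails for some positive semidefinite matrix. -/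
def Viol (ι : Type) [Fintype ι] [DecidableEq ι] (i : ι) : Prop :=
  ∃ A : Matrix ι ι ℂ, A.PosSemidef ∧ A.permanent.re <
    ∑ k, if k = i then 0 else ‖A i k‖ ^ 2 *
      (A.submatrix (Subtype.val : {j // j ≠ i ∧ j ≠ k} → ι) Subtype.val).permanent.re

lemma permanent_submatrix_equiv {α β : Type} [Fintype α] [DecidableEq α] [Fintype β]
    [DecidableEq β] (e : α ≃ β) (M : Matrix β β ℂ) :
    (M.submatrix e e).permanent = M.permanent := by
  unfold Matrix.permanent
  rw [← Equiv.sum_comp (Equiv.permCongr e)]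
  refine Finset.sum_congr rfl fun σ _ => ?_
  rw [← Equiv.prod_comp e]
  refine Finset.prod_congr rfl fun i _ => ?_
  simp

/-- the subtype attached to an equivalence. -/
def subE {ι κ : Type} (e : ι ≃ κ) (i k : ι) :
    {j : ι // j ≠ i ∧ j ≠ k} ≃ {j : κ // j ≠ e i ∧ j ≠ e k} where
  toFun j := ⟨e j.1, fun h => j.2.1 (e.injective h), fun h => j.2.2 (e.injective h)⟩
  invFun j := ⟨e.symm j.1, fun h => j.2.1 ((Equiv.symm_apply_eq e).1 h),
    fun h => j.2.2 ((Equiv.symm_apply_eq e).1 h)⟩
  left_inv j := by ext; simp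
  right_inv j := by ext; simp

theorem viol_equiv {ι κ : Type} [Fintype ι] [DecidableEq ι] [Fintype κ] [DecidableEq κ]
    (e : ι ≃ κ) (i : ι) (h : Viol ι i) : Viol κ (e i) := by
  obtain ⟨A, hA, hlt⟩ := h
  refine ⟨A.submatrix e.symm e.symm, hA.submatrix _, ?_⟩
  rw [permanent_submatrix_equiv e.symm A, ← Equiv.sum_comp e]
  refine hlt.trans_le (le_of_eq (Finset.sum_congr rfl fun k _ => ?_))
  by_cases hk : k = i
  · rw [if_pos hk, if_pos (by rw [hk])]
  · rw [if_neg hk, if_neg (fun h => hk (e.injective h))]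
    rw [← permanent_submatrix_equiv (subE e i k)
      ((A.submatrix e.symm e.symm).submatrix (Subtype.val : {j // j ≠ e i ∧ j ≠ e k} → κ) Subtype.val)]
    simp only [Matrix.submatrix_apply, Equiv.symm_apply_apply]
    congr 3
    ext x y
    simp [subE]

/-- a block matrix with an extra one. -/
def ex1 {ι : Type} (A : Matrix ι ι ℂ) : Matrix (Option ι) (Option ι) ℂ :=
  fun x y => match x, y with
    | some i, some j => A i j
    | none, none => 1
    | _, _ => 0

lemma ex1_star {ι : Type} (A : Matrix ι ι ℂ) : (ex1 A).conjTranspose = ex1 A.conjTranspose := by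
  ext x y
  cases x <;> cases y <;> simp [ex1]

lemma ex1_psd {ι : Type} [Fintype ι] [DecidableEq ι] {A : Matrix ι ι ℂ} (hA : A.PosSemidef) :
    (ex1 A).PosSemidef := by
  rw [Matrix.posSemidef_iff_dotProduct_mulVec] at hA ⊢
  obtain ⟨h1, h2⟩ := hA
  refine ⟨?_, fun x => ?_⟩
  · show (ex1 A).conjTranspose = ex1 A
    rw [ex1_star, h1]
  · have h3 : star x ⬝ᵥ (ex1 A *ᵥ x) = star (x none) * x none +
        star (fun i => x (some i)) ⬝ᵥ (A *ᵥ (fun i => x (some i))) := by
      simp [dotProduct, Matrix.mulVec, Fintype.sum_option, ex1]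
    rw [h3]
    exact add_nonneg (star_mul_self_nonneg _) (h2 _)

lemma ex1_per {ι : Type} [Fintype ι] [DecidableEq ι] (A : Matrix ι ι ℂ) :
    (ex1 A).permanent = A.permanent := by
  unfold Matrix.permanent
  rw [← Equiv.sum_comp Equiv.Perm.decomposeOption.symm, Fintype.sum_prod_type, Fintype.sum_option]
  have h0 : ∑ j : ι, ∑ σ : Equiv.Perm ι, ∏ x, ex1 A (Equiv.Perm.decomposeOption.symm (some j, σ) x) x = 0 := by
    refine Finset.sum_eq_zero fun j _ => Finset.sum_eq_zero fun σ _ => ?_
    rw [Fintype.prod_option]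
    simp [ex1]
  rw [h0, add_zero]
  refine Finset.sum_congr rfl fun σ _ => ?_
  rw [Fintype.prod_option]
  simp [ex1]

/-- the subtype of the extended index set. -/
def subO {ι : Type} (i k : ι) :
    Option {j : ι // j ≠ i ∧ j ≠ k} ≃ {j : Option ι // j ≠ some i ∧ j ≠ some k} where
  toFun
    | none => ⟨none, by simp, by simp⟩
    | some j => ⟨some j.1, by simpa using j.2.1, by simpa using j.2.2⟩
  invFun
    | ⟨none, _⟩ => none
    | ⟨some j, h⟩ => some ⟨j, by simpa using h.1, by simpa using h.2⟩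
  left_inv j := by cases j <;> rfl
  right_inv j := by rcases j with ⟨_ | j, h⟩ <;> rfl

theorem viol_option {ι : Type} [Fintype ι] [DecidableEq ι] (i : ι) (h : Viol ι i) :
    Viol (Option ι) (some i) := by
  obtain ⟨A, hA, hlt⟩ := h
  refine ⟨ex1 A, ex1_psd hA, ?_⟩
  rw [ex1_per, Fintype.sum_option]
  have h0 : ex1 A (some i) none = 0 := rfl
  rw [if_neg (by simp), h0, norm_zero, zero_pow (by norm_num), zero_mul, zero_add]
  refine hlt.trans_le (le_of_eq (Finset.sum_congr rfl fun k _ => ?_))
  by_cases hk : k = i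
  · rw [if_pos hk, if_pos (by rw [hk])]
  · rw [if_neg hk, if_neg (by simpa using hk)]
    rw [← permanent_submatrix_equiv (subO i k) ((ex1 A).submatrix
      (Subtype.val : {j // j ≠ some i ∧ j ≠ some k} → Option ι) Subtype.val), ← ex1_per]
    have h1 : ex1 (A.submatrix (Subtype.val : {j // j ≠ i ∧ j ≠ k} → ι) Subtype.val) =
      ((ex1 A).submatrix (Subtype.val : {j // j ≠ some i ∧ j ≠ some k} → Option ι)
        Subtype.val).submatrix (subO i k) (subO i k) := by
      ext x y
      cases x <;> cases y <;> rfl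
    rw [h1]
    rfl

end viol

section base

/-- the twelve vectors. -/
def F : Fin 12 → GaussianInt × GaussianInt :=
  ![(1, 0), (0, 1), (7, 5), (9, ⟨2, 6⟩), (7, ⟨-4, 3⟩), (7, ⟨-4, -3⟩), (9, ⟨2, -6⟩),
    (7, ⟨11, 8⟩), (8, ⟨-5, 15⟩), (1, -2), (8, ⟨-5, -15⟩), (7, ⟨11, -8⟩)]

/-- the list of all the vectors. -/
def L0 : List (GaussianInt × GaussianInt) := (List.finRange 12).map F

/-- the list of the vectors without two of them. -/
def L1 (k : Fin 12) : List (GaussianInt × GaussianInt) :=
  ((List.finRange 12).filter (fun j => j ≠ 0 ∧ j ≠ k)).map F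

lemma mset0 : ((univ : Finset (Fin 12)).val.map F : Multiset _) = (L0 : Multiset _) := by
  decide +kernel

lemma mset1 : ∀ k : Fin 12, ((univ : Finset {j : Fin 12 // j ≠ 0 ∧ j ≠ k}).val.map
    (fun j => F j.1) : Multiset _) = (L1 k : Multiset _) := by
  decide +kernel

lemma num : nrmL 0 L0.length (poly L0) <
    ∑ k : Fin 12, if k = 0 then 0 else ((F k).1.re ^ 2 + (F k).1.im ^ 2) * nrmL 0 (L1 k).length (poly (L1 k)) := by
  decide +kernel

/-- the Gram matrix. -/
noncomputable def G : Matrix (Fin 12) (Fin 12) ℂ := Matrix.of fun i j => dot (vec (F i)) (vec (F j))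

lemma G_psd : G.PosSemidef := by
  have : G = (Matrix.of fun (i : Fin 12) (l : Fin 2) => conj (vec (F i) l)) *
      (Matrix.of fun (i : Fin 12) (l : Fin 2) => conj (vec (F i) l)).conjTranspose := by
    ext i j
    simp [G, Matrix.mul_apply, dot]
  rw [this]
  exact Matrix.posSemidef_self_mul_conjTranspose _

lemma G_zero (k : Fin 12) : ‖G 0 k‖ ^ 2 = (((F k).1.re ^ 2 + (F k).1.im ^ 2 : ℤ) : ℝ) := by
  have h1 : G 0 k = tc (F k).1 := by
    simp [G, dot, vec, F]
  rw [h1, ← Complex.normSq_eq_norm_sq, Complex.normSq_apply]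
  have h1 : (tc (F k).1).re = (F k).1.re := by simp [tc]
  have h2 : (tc (F k).1).im = (F k).1.im := by simp [tc]
  rw [h1, h2]; push_cast; ring

theorem viol12 : Viol (Fin 12) 0 := by
  refine ⟨G, G_psd, ?_⟩
  have h0 : G.permanent.re = ((nrmL 0 L0.length (poly L0) : ℤ) : ℝ) := by
    rw [G, per_list F L0 mset0, Complex.intCast_re]
  have h1 : ∀ k : Fin 12, (G.submatrix (Subtype.val : {j : Fin 12 // j ≠ 0 ∧ j ≠ k} → Fin 12)
      Subtype.val).permanent.re = ((nrmL 0 (L1 k).length (poly (L1 k)) : ℤ) : ℝ) := by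
    intro k
    have h2 : (G.submatrix (Subtype.val : {j : Fin 12 // j ≠ 0 ∧ j ≠ k} → Fin 12) Subtype.val)
      = Matrix.of fun i j : {j : Fin 12 // j ≠ 0 ∧ j ≠ k} => dot (vec (F i.1)) (vec (F j.1)) := rfl
    rw [h2, per_list (fun j : {j : Fin 12 // j ≠ 0 ∧ j ≠ k} => F j.1) (L1 k) (mset1 k),
      Complex.intCast_re]
  rw [h0]
  have h3 := num
  rw [← Int.cast_lt (R := ℝ)] at h3
  refine h3.trans_le (le_of_eq ?_)
  rw [Int.cast_sum]
  refine Finset.sum_congr rfl fun k _ => ?_
  by_cases hk : k = 0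
  · rw [if_pos hk, if_pos hk, Int.cast_zero]
  · rw [if_neg hk, if_neg hk, h1, G_zero, Int.cast_mul]

end base

theorem viol_fin (n : ℕ) (hn : 11 ≤ n) : Viol (Fin (n + 1)) 0 := by
  induction n, hn using Nat.le_induction with
  | base => exact viol12
  | succ n hn ih =>
    have h := viol_equiv finSuccEquivLast.symm (some 0) (viol_option (0 : Fin (n + 1)) ih)
    exact h

theorem main (n : ℕ) (hn : 11 ≤ n) :
    ∃ A : Matrix (Fin (n + 1)) (Fin (n + 1)) ℂ, A.PosSemidef ∧
      A.permanent.re < ∑ k : Fin n, ‖A 0 k.succ‖ ^ 2 *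
        (A.submatrix (Subtype.val : {j : Fin (n + 1) // j ≠ 0 ∧ j ≠ k.succ} → Fin (n + 1))
          Subtype.val).permanent.re := by
  obtain ⟨A, hA, hlt⟩ := viol_fin n hn
  refine ⟨A, hA, ?_⟩
  rw [Fin.sum_univ_succ, if_pos rfl, zero_add] at hlt
  refine hlt.trans_le (le_of_eq (Finset.sum_congr rfl fun k _ => ?_))
  rw [if_neg (Fin.succ_ne_zero k)]

end Pool.Agent.X89.PC
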