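import Mathlib

namespace Pool.Agent.X89.BW

open Matrix Complex ComplexConjugate InnerProductSpace

/-! ### Merging two vectors -/

/-- Numerical core: a nonzero solution of the three real linear equations. -/
theorem exists_delta (g11 g22 : ℝ) (g12 X11 X22 X12 X21 : ℂ) :
    ∃ (d1 d2 : ℝ) (z : ℂ), (d1 ≠ 0 ∨ d2 ≠ 0 ∨ z ≠ 0) ∧
      d1 * g11 + d2 * g22 + 2 * (z * g12).re = 0 ∧
      (d1 : ℂ) * X11 + d2 * X22 + z * X12 + conj z * X21 = 0 := by
  let f : (Fin 4 → ℝ) →ₗ[ℝ] (Fin 3 → ℝ) :=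
    { toFun := fun v => ![v 0 * g11 + v 1 * g22 + 2 * (((v 2 : ℂ) + v 3 * I) * g12).re,
        ((v 0 : ℂ) * X11 + v 1 * X22 + ((v 2 : ℂ) + v 3 * I) * X12 +
          ((v 2 : ℂ) - v 3 * I) * X21).re,
        ((v 0 : ℂ) * X11 + v 1 * X22 + ((v 2 : ℂ) + v 3 * I) * X12 +
          ((v 2 : ℂ) - v 3 * I) * X21).im]
      map_add' := by
        intro v w
        funext i
        fin_cases i <;> simp <;> ring
      map_smul' := by
        intro c v
        funext i
        fin_cases i <;> simp <;> ring }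
  have hker : LinearMap.ker f ≠ ⊥ := by
    apply LinearMap.ker_ne_bot_of_finrank_lt
    simp
  obtain ⟨v, hv, hv0⟩ := Submodule.exists_mem_ne_zero_of_ne_bot hker
  rw [LinearMap.mem_ker] at hv
  refine ⟨v 0, v 1, (v 2 : ℂ) + v 3 * I, ?_, ?_, ?_⟩
  · by_contra hcon
    push Not at hcon
    obtain ⟨h0, h1, h2⟩ := hcon
    apply hv0
    have h3 : v 2 = 0 := by simpa using congrArg Complex.re h2
    have h4 : v 3 = 0 := by simpa using congrArg Complex.im h2
    funext i
    fin_cases i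
    · exact h0
    · exact h1
    · exact h3
    · exact h4
  · exact congrFun hv 0
  · have hc : conj ((v 2 : ℂ) + v 3 * I) = (v 2 : ℂ) - v 3 * I := by
      simp [sub_eq_add_neg]
    rw [hc]
    apply Complex.ext
    · exact congrFun hv 1
    · exact congrFun hv 2

/-- Numerical core of the merging lemma. -/
theorem exists_ab (g11 g22 : ℝ) (g12 X11 X22 X12 X21 : ℂ) (s11 s22 : ℝ) (s12 : ℂ)
    (h1 : 0 < g11) (h2 : 0 < g22) (h3 : ‖g12‖ ^ 2 < g11 * g22) :
    ∃ a b : ℂ, ‖a‖ ^ 2 * g11 + ‖b‖ ^ 2 * g22 + 2 * (conj a * b * g12).re = g11 + g22 ∧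
      ((‖a‖ ^ 2 : ℝ) : ℂ) * X11 + ((‖b‖ ^ 2 : ℝ) : ℂ) * X22 + conj a * b * X12 +
        conj b * a * X21 = X11 + X22 ∧
      s11 + s22 ≤ ‖a‖ ^ 2 * s11 + ‖b‖ ^ 2 * s22 + 2 * (conj a * b * s12).re := by
  -- choose `Δ` with nonnegative `s`-value
  obtain ⟨d1, d2, z, hne, hg, hX, hs⟩ : ∃ (d1 d2 : ℝ) (z : ℂ), (d1 ≠ 0 ∨ d2 ≠ 0 ∨ z ≠ 0) ∧
      d1 * g11 + d2 * g22 + 2 * (z * g12).re = 0 ∧
      (d1 : ℂ) * X11 + d2 * X22 + z * X12 + conj z * X21 = 0 ∧
      0 ≤ d1 * s11 + d2 * s22 + 2 * (z * s12).re := by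
    obtain ⟨d1, d2, z, hne, hg, hX⟩ := exists_delta g11 g22 g12 X11 X22 X12 X21
    by_cases hs : 0 ≤ d1 * s11 + d2 * s22 + 2 * (z * s12).re
    · exact ⟨d1, d2, z, hne, hg, hX, hs⟩
    · refine ⟨-d1, -d2, -z, ?_, ?_, ?_, ?_⟩
      · rcases hne with h | h | h
        · exact Or.inl (neg_ne_zero.mpr h)
        · exact Or.inr (Or.inl (neg_ne_zero.mpr h))
        · exact Or.inr (Or.inr (neg_ne_zero.mpr h))
      · rw [neg_mul z, Complex.neg_re]; linarith
      · rw [map_neg]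
        push_cast
        linear_combination -hX
      · rw [neg_mul z, Complex.neg_re]; linarith
  -- the smallest eigenvalue of `Δ`
  set R : ℝ := Real.sqrt (((d1 - d2) / 2) ^ 2 + ‖z‖ ^ 2) with hR
  have hR2 : R ^ 2 = ((d1 - d2) / 2) ^ 2 + ‖z‖ ^ 2 := Real.sq_sqrt (by positivity)
  have hR0 : 0 ≤ R := Real.sqrt_nonneg _
  set l : ℝ := (d1 + d2) / 2 - R with hl
  have hl0 : l < 0 := by
    by_contra hcon
    push Not at hcon
    have hz2 : ‖z‖ ^ 2 ≤ d1 * d2 := by
      have : R ^ 2 ≤ ((d1 + d2) / 2) ^ 2 := by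
        apply pow_le_pow_left₀ hR0
        linarith
      nlinarith
    have hd : 0 ≤ d1 + d2 := by linarith
    have hd12 : 0 ≤ d1 * d2 := le_trans (by positivity) hz2
    have hd1 : 0 ≤ d1 := by
      by_contra hh
      push Not at hh
      have : d2 ≤ 0 := by nlinarith
      linarith
    have hd2 : 0 ≤ d2 := by
      by_contra hh
      push Not at hh
      have : d1 ≤ 0 := by nlinarith
      linarith
    have hre : |(z * g12).re| ≤ ‖z‖ * ‖g12‖ := by
      have := Complex.abs_re_le_norm (z * g12)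
      rwa [norm_mul] at this
    have h4 : (d1 * g11 + d2 * g22) ^ 2 ≤ 4 * (‖z‖ * ‖g12‖) ^ 2 := by
      have h5 : d1 * g11 + d2 * g22 = -(2 * (z * g12).re) := by linarith
      rw [h5, neg_sq, mul_pow]
      have h6 : (z * g12).re ^ 2 ≤ (‖z‖ * ‖g12‖) ^ 2 := by
        rw [← sq_abs]
        exact pow_le_pow_left₀ (abs_nonneg _) hre 2
      nlinarith
    by_cases hdz : d1 * d2 = 0
    · have hz0 : ‖z‖ = 0 := by
        have : ‖z‖ ^ 2 ≤ 0 := by rw [← hdz]; exact hz2
        have h5 : ‖z‖ ^ 2 = 0 := le_antisymm this (by positivity)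
        exact pow_eq_zero_iff (two_ne_zero) |>.mp h5
      rw [hz0, zero_mul] at h4
      have h5 : d1 * g11 + d2 * g22 = 0 := by
        have h6 : (d1 * g11 + d2 * g22) ^ 2 ≤ 0 := by nlinarith
        exact pow_eq_zero_iff (two_ne_zero) |>.mp (le_antisymm h6 (by positivity))
      have h7 : d1 * g11 = 0 := by nlinarith [mul_nonneg hd1 h1.le, mul_nonneg hd2 h2.le]
      have h8 : d2 * g22 = 0 := by nlinarith [mul_nonneg hd1 h1.le, mul_nonneg hd2 h2.le]
      rcases hne with h | h | h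
      · exact h ((mul_eq_zero.mp h7).resolve_right h1.ne')
      · exact h ((mul_eq_zero.mp h8).resolve_right h2.ne')
      · exact h (norm_eq_zero.mp hz0)
    · have hpos : 0 < d1 * d2 := lt_of_le_of_ne hd12 (Ne.symm hdz)
      have h5 : (‖z‖ * ‖g12‖) ^ 2 < (d1 * d2) * (g11 * g22) := by
        rw [mul_pow]
        calc ‖z‖ ^ 2 * ‖g12‖ ^ 2 ≤ (d1 * d2) * ‖g12‖ ^ 2 := by gcongr
          _ < _ := by gcongr
      nlinarith [sq_nonneg (d1 * g11 - d2 * g22)]
  set t : ℝ := -1 / l with ht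
  have ht0 : 0 < t := div_pos_of_neg_of_neg (by norm_num) hl0
  have htl : 1 + t * l = 0 := by rw [ht, div_mul_cancel₀ _ hl0.ne]; ring
  have hp1 : 0 ≤ 1 + t * d1 := by
    have : l ≤ d1 := by
      have h5 : |(d1 - d2) / 2| ≤ R := by
        rw [← Real.sqrt_sq_eq_abs]
        exact Real.sqrt_le_sqrt (by have : 0 ≤ ‖z‖ ^ 2 := by positivity
                                    linarith)
      have := neg_abs_le ((d1 - d2) / 2)
      linarith
    nlinarith
  have hp2 : 0 ≤ 1 + t * d2 := by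
    have : l ≤ d2 := by
      have h5 : |(d1 - d2) / 2| ≤ R := by
        rw [← Real.sqrt_sq_eq_abs]
        exact Real.sqrt_le_sqrt (by have : 0 ≤ ‖z‖ ^ 2 := by positivity
                                    linarith)
      have := le_abs_self ((d1 - d2) / 2)
      linarith
    nlinarith
  have hdet : (1 + t * d1) * (1 + t * d2) = t ^ 2 * ‖z‖ ^ 2 := by
    have h5 : (1 + t * l) * (1 + t * (d1 + d2 - l)) = 0 := by rw [htl, zero_mul]
    have h6 : l * (d1 + d2 - l) = d1 * d2 - ‖z‖ ^ 2 := by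
      rw [hl]
      linear_combination -hR2
    have h7 : (1 + t * d1) * (1 + t * d2) - t ^ 2 * ‖z‖ ^ 2 =
        (1 + t * l) * (1 + t * (d1 + d2 - l)) := by
      have : (1 + t * l) * (1 + t * (d1 + d2 - l)) = 1 + t * (d1 + d2) +
        t ^ 2 * (l * (d1 + d2 - l)) := by ring
      rw [this, h6]; ring
    linarith
  obtain ⟨a, b, ha, hb, hab⟩ : ∃ a b : ℂ, ‖a‖ ^ 2 = 1 + t * d1 ∧ ‖b‖ ^ 2 = 1 + t * d2 ∧
      conj a * b = t * z := by
    rcases hp1.eq_or_lt with h5 | h5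
    · have hz : (t : ℂ) * z = 0 := by
        rw [← h5, zero_mul] at hdet
        have h6 : ‖(t : ℂ) * z‖ ^ 2 = 0 := by
          rw [norm_mul, Complex.norm_real, Real.norm_of_nonneg ht0.le, mul_pow]
          exact hdet.symm
        exact norm_eq_zero.mp (pow_eq_zero_iff (two_ne_zero) |>.mp h6)
      refine ⟨0, (Real.sqrt (1 + t * d2) : ℝ), ?_, ?_, ?_⟩
      · rw [← h5]; simp
      · rw [Complex.norm_real, Real.norm_of_nonneg (Real.sqrt_nonneg _), Real.sq_sqrt hp2]
      · rw [hz]; simp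
    · have hsq : 0 < Real.sqrt (1 + t * d1) := Real.sqrt_pos.mpr h5
      refine ⟨(Real.sqrt (1 + t * d1) : ℝ), (t : ℂ) * z / (Real.sqrt (1 + t * d1) : ℝ), ?_, ?_, ?_⟩
      · rw [Complex.norm_real, Real.norm_of_nonneg (Real.sqrt_nonneg _), Real.sq_sqrt hp1]
      · rw [norm_div, norm_mul, Complex.norm_real, Complex.norm_real,
          Real.norm_of_nonneg (Real.sqrt_nonneg _), Real.norm_of_nonneg ht0.le, div_pow,
          Real.sq_sqrt hp1, mul_pow, ← hdet]
        field_simp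
      · rw [Complex.conj_ofReal]
        have : ((Real.sqrt (1 + t * d1) : ℝ) : ℂ) ≠ 0 := by exact_mod_cast hsq.ne'
        field_simp
  have hba : conj b * a = t * conj z := by
    have := congrArg conj hab
    rw [map_mul, Complex.conj_conj, map_mul, Complex.conj_ofReal] at this
    rw [mul_comm]; exact this
  refine ⟨a, b, ?_, ?_, ?_⟩
  · rw [ha, hb, hab, mul_assoc, Complex.re_ofReal_mul]
    linear_combination t * hg
  · rw [ha, hb, hab, hba]
    push_cast
    linear_combination (t : ℂ) * hX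
  · rw [ha, hb, hab, mul_assoc, Complex.re_ofReal_mul]
    nlinarith

end Pool.Agent.X89.BW
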