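import Mathlib
import Pool.Agent.X89.BW1

namespace Pool.Agent.X89.BW

open Matrix Complex ComplexConjugate InnerProductSpace

section Merge

variable {H : Type*} [NormedAddCommGroup H] [InnerProductSpace ℂ H]

theorem norm_sq_lin (T : H →ₗ[ℂ] H) (a b : ℂ) (u v : H) :
    ‖T (a • u + b • v)‖ ^ 2 = ‖a‖ ^ 2 * ‖T u‖ ^ 2 + ‖b‖ ^ 2 * ‖T v‖ ^ 2 +
      2 * (conj a * b * ⟪T u, T v⟫_ℂ).re := by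
  rw [map_add, map_smul, map_smul, norm_add_sq (𝕜 := ℂ), norm_smul, norm_smul, inner_smul_left,
    inner_smul_right, mul_pow, mul_pow, ← mul_assoc]
  simp only [RCLike.re_to_complex]
  ring

theorem merge (X X' : H →ₗ[ℂ] H) (u v : H) : ∃ ψ : H, ‖ψ‖ ^ 2 = ‖u‖ ^ 2 + ‖v‖ ^ 2 ∧
    ⟪ψ, X ψ⟫_ℂ = ⟪u, X u⟫_ℂ + ⟪v, X v⟫_ℂ ∧
    (‖X u‖ ^ 2 + ‖X' u‖ ^ 2) + (‖X v‖ ^ 2 + ‖X' v‖ ^ 2) ≤ ‖X ψ‖ ^ 2 + ‖X' ψ‖ ^ 2 := by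
  have hdep : ∀ (w : H) (c : ℂ), ∃ ψ : H, ‖ψ‖ ^ 2 = ‖w‖ ^ 2 + ‖c • w‖ ^ 2 ∧
      ⟪ψ, X ψ⟫_ℂ = ⟪w, X w⟫_ℂ + ⟪c • w, X (c • w)⟫_ℂ ∧
      (‖X w‖ ^ 2 + ‖X' w‖ ^ 2) + (‖X (c • w)‖ ^ 2 + ‖X' (c • w)‖ ^ 2) ≤
        ‖X ψ‖ ^ 2 + ‖X' ψ‖ ^ 2 := by
    intro w c
    have h0 : (0 : ℝ) ≤ 1 + ‖c‖ ^ 2 := by positivity
    have hs : ‖((Real.sqrt (1 + ‖c‖ ^ 2) : ℝ) : ℂ)‖ ^ 2 = 1 + ‖c‖ ^ 2 := by
      rw [Complex.norm_real, Real.norm_of_nonneg (Real.sqrt_nonneg _), Real.sq_sqrt h0]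
    have hs2 : ((Real.sqrt (1 + ‖c‖ ^ 2) : ℝ) : ℂ) * ((Real.sqrt (1 + ‖c‖ ^ 2) : ℝ) : ℂ) =
        1 + (‖c‖ : ℂ) ^ 2 := by
      rw [← Complex.ofReal_mul, Real.mul_self_sqrt h0]
      push_cast; rfl
    have hc2 : conj c * c = (‖c‖ : ℂ) ^ 2 := by
      rw [mul_comm, Complex.mul_conj, Complex.normSq_eq_norm_sq]
      push_cast; rfl
    refine ⟨((Real.sqrt (1 + ‖c‖ ^ 2) : ℝ) : ℂ) • w, ?_, ?_, ?_⟩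
    · rw [norm_smul, norm_smul, mul_pow, mul_pow, hs]; ring
    · rw [map_smul, map_smul, inner_smul_left, inner_smul_right, inner_smul_left,
        inner_smul_right, Complex.conj_ofReal, ← mul_assoc, ← mul_assoc, hs2, hc2]
      ring
    · rw [map_smul, map_smul, map_smul, map_smul, norm_smul, norm_smul, norm_smul, norm_smul,
        mul_pow, mul_pow, mul_pow, mul_pow, hs]
      apply le_of_eq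
      ring
  by_cases hu : u = 0
  · subst hu
    refine ⟨v, by simp, by simp, by simp⟩
  by_cases hv : v = 0
  · subst hv
    refine ⟨u, by simp, by simp, by simp⟩
  by_cases hcs : ‖⟪u, v⟫_ℂ‖ = ‖u‖ * ‖v‖
  · obtain ⟨c, -, rfl⟩ := (norm_inner_eq_norm_iff hu hv).mp hcs
    exact hdep u c
  have hlt : ‖⟪u, v⟫_ℂ‖ < ‖u‖ * ‖v‖ := lt_of_le_of_ne (norm_inner_le_norm u v) hcs
  have hu' : 0 < ‖u‖ ^ 2 := by positivity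
  have hv' : 0 < ‖v‖ ^ 2 := by positivity
  obtain ⟨a, b, h1, h2, h3⟩ := exists_ab (‖u‖ ^ 2) (‖v‖ ^ 2) ⟪u, v⟫_ℂ ⟪u, X u⟫_ℂ ⟪v, X v⟫_ℂ
    ⟪u, X v⟫_ℂ ⟪v, X u⟫_ℂ (‖X u‖ ^ 2 + ‖X' u‖ ^ 2) (‖X v‖ ^ 2 + ‖X' v‖ ^ 2)
    (⟪X u, X v⟫_ℂ + ⟪X' u, X' v⟫_ℂ) hu' hv' (by
      rw [← mul_pow]
      exact pow_lt_pow_left₀ hlt (norm_nonneg _) two_ne_zero)
  refine ⟨a • u + b • v, ?_, ?_, ?_⟩
  · rw [← h1]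
    exact norm_sq_lin LinearMap.id a b u v
  · rw [← h2, map_add, map_smul, map_smul, inner_add_left, inner_add_right, inner_add_right,
      inner_smul_left, inner_smul_left, inner_smul_left, inner_smul_left, inner_smul_right,
      inner_smul_right, inner_smul_right, inner_smul_right]
    have ha : conj a * a = ((‖a‖ ^ 2 : ℝ) : ℂ) := by
      rw [mul_comm, Complex.mul_conj, Complex.normSq_eq_norm_sq]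
    have hb : conj b * b = ((‖b‖ ^ 2 : ℝ) : ℂ) := by
      rw [mul_comm, Complex.mul_conj, Complex.normSq_eq_norm_sq]
    rw [← ha, ← hb]
    ring
  · rw [norm_sq_lin, norm_sq_lin]
    refine h3.trans (le_of_eq ?_)
    rw [mul_add (conj a * b), Complex.add_re]
    ring

theorem merge_finset {ι : Type*} (s : Finset ι) (X X' : H →ₗ[ℂ] H) (φ : ι → H) :
    ∃ ψ : H, ‖ψ‖ ^ 2 = ∑ i ∈ s, ‖φ i‖ ^ 2 ∧ ⟪ψ, X ψ⟫_ℂ = ∑ i ∈ s, ⟪φ i, X (φ i)⟫_ℂ ∧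
      ∑ i ∈ s, (‖X (φ i)‖ ^ 2 + ‖X' (φ i)‖ ^ 2) ≤ ‖X ψ‖ ^ 2 + ‖X' ψ‖ ^ 2 := by
  classical
  induction s using Finset.induction_on with
  | empty => exact ⟨0, by simp, by simp, by simp⟩
  | insert i s hi ih =>
    obtain ⟨ψ, h1, h2, h3⟩ := ih
    obtain ⟨ψ', h4, h5, h6⟩ := merge X X' (φ i) ψ
    refine ⟨ψ', ?_, ?_, ?_⟩
    · rw [Finset.sum_insert hi, h4, h1]
    · rw [Finset.sum_insert hi, h5, h2]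
    · rw [Finset.sum_insert hi]
      linarith

/-- the basic estimate for one vector -/
theorem one_vector (X X' : H →ₗ[ℂ] H) (hadj : ∀ u v, ⟪X' u, v⟫_ℂ = ⟪u, X v⟫_ℂ) (κ : ℝ)
    (hκ : ∀ v w : H, ‖v‖ ≤ 1 → ‖w‖ ≤ 1 → ⟪v, w⟫_ℂ = 0 → ‖X v‖ ^ 2 + ‖X w‖ ^ 2 ≤ κ) (ψ : H) :
    ‖X ψ‖ ^ 2 + ‖X' ψ‖ ^ 2 ≤ κ * ‖ψ‖ ^ 2 + 2 * ‖⟪ψ, X ψ⟫_ℂ‖ ^ 2 / ‖ψ‖ ^ 2 := by
  by_cases hψ : ψ = 0
  · subst hψ; simp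
  -- normalise
  have key : ∀ ψ : H, ‖ψ‖ = 1 → ‖X ψ‖ ^ 2 + ‖X' ψ‖ ^ 2 ≤ κ + 2 * ‖⟪ψ, X ψ⟫_ℂ‖ ^ 2 := by
    intro ψ hψ1
    have hψψ : ⟪ψ, ψ⟫_ℂ = 1 := by
      rw [inner_self_eq_norm_sq_to_K, hψ1]; simp
    set μ : ℂ := ⟪ψ, X ψ⟫_ℂ with hμ
    -- `X' ψ = conj μ ψ + χ`
    set χ : H := X' ψ - conj μ • ψ with hχ
    have hX'ψ : ⟪ψ, X' ψ⟫_ℂ = conj μ := by
      rw [hμ, ← hadj, ← inner_conj_symm]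
    have horth : ⟪ψ, χ⟫_ℂ = 0 := by
      rw [hχ, inner_sub_right, inner_smul_right, hψψ, hX'ψ, mul_one, sub_self]
    have hn : ‖X' ψ‖ ^ 2 = ‖μ‖ ^ 2 + ‖χ‖ ^ 2 := by
      have h1 : X' ψ = conj μ • ψ + χ := by rw [hχ]; abel
      rw [h1, norm_add_sq (𝕜 := ℂ), inner_smul_left, horth, norm_smul, hψ1]
      simp
    by_cases hχ0 : χ = 0
    · have h1 := hκ ψ 0 hψ1.le (by simp) (by simp)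
      rw [hn, hχ0]
      simp only [map_zero, norm_zero] at h1 ⊢
      have : 0 ≤ ‖μ‖ ^ 2 := by positivity
      linarith
    · have hχp : 0 < ‖χ‖ := norm_pos_iff.mpr hχ0
      set w : H := ((‖χ‖⁻¹ : ℝ) : ℂ) • χ with hw
      have hw1 : ‖w‖ = 1 := by
        rw [hw, norm_smul, Complex.norm_real, Real.norm_of_nonneg (by positivity),
          inv_mul_cancel₀ hχp.ne']
      have hwo : ⟪ψ, w⟫_ℂ = 0 := by rw [hw, inner_smul_right, horth, mul_zero]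
      have h1 := hκ ψ w hψ1.le hw1.le hwo
      have h2 : ‖χ‖ ≤ ‖X w‖ := by
        have h3 : ⟪ψ, X w⟫_ℂ = (‖χ‖ : ℂ) := by
          rw [← hadj]
          have h4 : X' ψ = conj μ • ψ + χ := by rw [hχ]; abel
          rw [h4, inner_add_left, inner_smul_left, hwo, mul_zero, zero_add, hw, inner_smul_right,
            inner_self_eq_norm_sq_to_K]
          have : (‖χ‖ : ℂ) ≠ 0 := by exact_mod_cast hχp.ne'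
          push_cast
          field_simp
          rfl
        have h4 := norm_inner_le_norm (𝕜 := ℂ) ψ (X w)
        rw [h3, hψ1, one_mul, Complex.norm_real, Real.norm_of_nonneg hχp.le] at h4
        exact h4
      have h3 : ‖χ‖ ^ 2 ≤ ‖X w‖ ^ 2 := pow_le_pow_left₀ hχp.le h2 2
      rw [hn]
      have : 0 ≤ ‖μ‖ ^ 2 := by positivity
      linarith
  have hp : 0 < ‖ψ‖ := norm_pos_iff.mpr hψ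
  set c : ℂ := ((‖ψ‖⁻¹ : ℝ) : ℂ) with hc
  have hcn : ‖c‖ = ‖ψ‖⁻¹ := by
    rw [hc, Complex.norm_real, Real.norm_of_nonneg (by positivity)]
  have h1 := key (c • ψ) (by rw [norm_smul, hcn, inv_mul_cancel₀ hp.ne'])
  rw [map_smul, map_smul, inner_smul_left, inner_smul_right, norm_smul, norm_smul, norm_mul,
    norm_mul, RCLike.norm_conj, hcn] at h1
  have h2 : ‖ψ‖ ^ 2 * ((‖ψ‖⁻¹ * ‖X ψ‖) ^ 2 + (‖ψ‖⁻¹ * ‖X' ψ‖) ^ 2) ≤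
      ‖ψ‖ ^ 2 * (κ + 2 * (‖ψ‖⁻¹ * (‖ψ‖⁻¹ * ‖⟪ψ, X ψ⟫_ℂ‖)) ^ 2) :=
    mul_le_mul_of_nonneg_left h1 (by positivity)
  have h3 : ‖ψ‖ ^ 2 * ((‖ψ‖⁻¹ * ‖X ψ‖) ^ 2 + (‖ψ‖⁻¹ * ‖X' ψ‖) ^ 2) = ‖X ψ‖ ^ 2 + ‖X' ψ‖ ^ 2 := by
    field_simp
  have h4 : ‖ψ‖ ^ 2 * (κ + 2 * (‖ψ‖⁻¹ * (‖ψ‖⁻¹ * ‖⟪ψ, X ψ⟫_ℂ‖)) ^ 2) =
      κ * ‖ψ‖ ^ 2 + 2 * ‖⟪ψ, X ψ⟫_ℂ‖ ^ 2 / ‖ψ‖ ^ 2 := by
    field_simp
  rw [h3, h4] at h2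
  exact h2

/-- Density form: the variance bound. -/
theorem variance_bound {ι : Type*} (s : Finset ι) (X X' : H →ₗ[ℂ] H)
    (hadj : ∀ u v, ⟪X' u, v⟫_ℂ = ⟪u, X v⟫_ℂ) (κ : ℝ)
    (hκ : ∀ v w : H, ‖v‖ ≤ 1 → ‖w‖ ≤ 1 → ⟪v, w⟫_ℂ = 0 → ‖X v‖ ^ 2 + ‖X w‖ ^ 2 ≤ κ) (φ : ι → H) :
    ∃ μ : ℂ, ∑ i ∈ s, (‖X (φ i) - μ • φ i‖ ^ 2 + ‖X' (φ i) - conj μ • φ i‖ ^ 2) ≤
      κ * ∑ i ∈ s, ‖φ i‖ ^ 2 := by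
  obtain ⟨ψ, h1, h2, h3⟩ := merge_finset s X X' φ
  refine ⟨⟪ψ, X ψ⟫_ℂ / ((‖ψ‖ ^ 2 : ℝ) : ℂ), ?_⟩
  set μ : ℂ := ⟪ψ, X ψ⟫_ℂ / ((‖ψ‖ ^ 2 : ℝ) : ℂ) with hμ
  have hexp : ∀ u : H, ‖X u - μ • u‖ ^ 2 + ‖X' u - conj μ • u‖ ^ 2 =
      ‖X u‖ ^ 2 + ‖X' u‖ ^ 2 - 4 * (conj μ * ⟪u, X u⟫_ℂ).re + 2 * ‖μ‖ ^ 2 * ‖u‖ ^ 2 := by
    intro u
    rw [norm_sub_sq (𝕜 := ℂ), norm_sub_sq (𝕜 := ℂ), inner_smul_right, inner_smul_right, norm_smul,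
      norm_smul, RCLike.norm_conj, hadj, ← inner_conj_symm (X u) u]
    simp only [RCLike.re_to_complex]
    have h0 : ∀ z : ℂ, (μ * conj z).re = (conj μ * z).re := by
      intro z
      simp [Complex.mul_re]
    rw [h0]
    ring
  have hsum : ∑ i ∈ s, (‖X (φ i) - μ • φ i‖ ^ 2 + ‖X' (φ i) - conj μ • φ i‖ ^ 2) =
      ∑ i ∈ s, (‖X (φ i)‖ ^ 2 + ‖X' (φ i)‖ ^ 2) - 4 * (conj μ * ⟪ψ, X ψ⟫_ℂ).re +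
        2 * ‖μ‖ ^ 2 * ‖ψ‖ ^ 2 := by
    simp_rw [hexp]
    rw [Finset.sum_add_distrib, Finset.sum_sub_distrib, ← Finset.mul_sum, ← Finset.mul_sum, h1, h2,
      Finset.mul_sum (s := s) (a := conj μ), Complex.re_sum]
  have hone := one_vector X X' hadj κ hκ ψ
  rw [hsum, ← h1]
  by_cases hψ : ψ = 0
  · subst hψ
    simp only [map_zero, norm_zero] at h3 hone ⊢
    simp only [inner_zero_left, mul_zero, Complex.zero_re] at *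
    nlinarith
  have hp : 0 < ‖ψ‖ ^ 2 := by positivity
  have h4 : (conj μ * ⟪ψ, X ψ⟫_ℂ).re = ‖⟪ψ, X ψ⟫_ℂ‖ ^ 2 / ‖ψ‖ ^ 2 := by
    rw [hμ, map_div₀, Complex.conj_ofReal, div_mul_eq_mul_div, mul_comm, Complex.mul_conj,
      Complex.normSq_eq_norm_sq, ← Complex.ofReal_div, Complex.ofReal_re]
  have h5 : ‖μ‖ ^ 2 * ‖ψ‖ ^ 2 = ‖⟪ψ, X ψ⟫_ℂ‖ ^ 2 / ‖ψ‖ ^ 2 := by
    rw [hμ, norm_div, Complex.norm_real, Real.norm_of_nonneg hp.le]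
    field_simp
  have h6 : 2 * ‖μ‖ ^ 2 * ‖ψ‖ ^ 2 = 2 * (‖⟪ψ, X ψ⟫_ℂ‖ ^ 2 / ‖ψ‖ ^ 2) := by rw [← h5]; ring
  rw [h4, h6]
  have h7 : 2 * ‖⟪ψ, X ψ⟫_ℂ‖ ^ 2 / ‖ψ‖ ^ 2 = 2 * (‖⟪ψ, X ψ⟫_ℂ‖ ^ 2 / ‖ψ‖ ^ 2) := by ring
  rw [h7] at hone
  linarith

end Merge

end Pool.Agent.X89.BW
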