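import Mathlib
import Pool.Agent.X89.BW2

namespace Pool.Agent.X89.BW

open Matrix Complex ComplexConjugate InnerProductSpace

/-- The squared Frobenius norm. -/
noncomputable def frobSq {ι κ : Type} [Fintype ι] [Fintype κ] (Z : Matrix ι κ ℂ) : ℝ :=
  ∑ i, ∑ j, ‖Z i j‖ ^ 2

set_option linter.unusedSectionVars false

section Frob

variable {ι κ l : Type} [Fintype ι] [Fintype κ] [Fintype l] [DecidableEq ι] [DecidableEq κ]
  [DecidableEq l]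

theorem frobSq_nonneg (Z : Matrix ι κ ℂ) : 0 ≤ frobSq Z := by unfold frobSq; positivity

theorem frobSq_trace (Z : Matrix ι κ ℂ) : ((frobSq Z : ℝ) : ℂ) = (Zᴴ * Z).trace := by
  unfold frobSq
  rw [Finset.sum_comm]
  push_cast
  simp only [Matrix.trace, Matrix.diag, Matrix.mul_apply, Matrix.conjTranspose_apply]
  refine Finset.sum_congr rfl fun j _ => Finset.sum_congr rfl fun i _ => ?_
  have h : ∀ z : ℂ, (‖z‖ : ℂ) ^ 2 = star z * z := by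
    intro z
    have h1 : star z * z = conj z * z := rfl
    rw [h1, ← Complex.normSq_eq_conj_mul_self, Complex.normSq_eq_norm_sq]
    push_cast; rfl
  exact h _

theorem frobSq_conjTranspose (Z : Matrix ι κ ℂ) : frobSq Zᴴ = frobSq Z := by
  unfold frobSq
  rw [Finset.sum_comm]
  simp

theorem frobSq_smul (c : ℂ) (Z : Matrix ι κ ℂ) : frobSq (c • Z) = ‖c‖ ^ 2 * frobSq Z := by
  unfold frobSq
  rw [Finset.mul_sum]
  refine Finset.sum_congr rfl fun i _ => ?_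
  rw [Finset.mul_sum]
  refine Finset.sum_congr rfl fun j _ => ?_
  rw [Matrix.smul_apply, smul_eq_mul, norm_mul, mul_pow]

/-- the columns as vectors -/
noncomputable def colv (Z : Matrix ι κ ℂ) (j : κ) : EuclideanSpace ℂ ι :=
  WithLp.toLp 2 (fun i => Z i j)

theorem sum_colv (Z : Matrix ι κ ℂ) : ∑ j, ‖colv Z j‖ ^ 2 = frobSq Z := by
  unfold frobSq
  rw [Finset.sum_comm]
  refine Finset.sum_congr rfl fun j _ => ?_
  rw [EuclideanSpace.norm_sq_eq]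
  rfl

theorem lin_colv (M : Matrix l ι ℂ) (Z : Matrix ι κ ℂ) (j : κ) :
    Matrix.toEuclideanLin M (colv Z j) = colv (M * Z) j := by
  unfold colv
  rw [Matrix.toLpLin_toLp]
  rfl

/-- The parallelogram estimate. -/
theorem comm_le (X Y : Matrix ι ι ℂ) : frobSq (X * Y - Y * X) ≤
    frobSq (X * Y) + frobSq (Xᴴ * Y) + (frobSq (X * Yᴴ) + frobSq (Xᴴ * Yᴴ)) := by
  have h1 : frobSq (X * Y - Y * X) + frobSq (Xᴴ * Y + Y * Xᴴ) =
      frobSq (X * Y) + frobSq (Xᴴ * Y) + (frobSq (X * Yᴴ) + frobSq (Xᴴ * Yᴴ)) := by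
    have h2 : frobSq (X * Yᴴ) = frobSq (Y * Xᴴ) := by
      rw [← frobSq_conjTranspose (X * Yᴴ), Matrix.conjTranspose_mul, Matrix.conjTranspose_conjTranspose]
    have h3 : frobSq (Xᴴ * Yᴴ) = frobSq (Y * X) := by
      rw [← frobSq_conjTranspose (Xᴴ * Yᴴ), Matrix.conjTranspose_mul,
        Matrix.conjTranspose_conjTranspose, Matrix.conjTranspose_conjTranspose]
    rw [h2, h3]
    have h4 : (((frobSq (X * Y - Y * X) + frobSq (Xᴴ * Y + Y * Xᴴ)) : ℝ) : ℂ) =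
        ((frobSq (X * Y) + frobSq (Xᴴ * Y) + (frobSq (Y * Xᴴ) + frobSq (Y * X)) : ℝ) : ℂ) := by
      push_cast
      simp only [frobSq_trace]
      simp only [Matrix.conjTranspose_sub, Matrix.conjTranspose_add, Matrix.conjTranspose_mul,
        Matrix.conjTranspose_conjTranspose, Matrix.sub_mul, Matrix.mul_sub, Matrix.add_mul,
        Matrix.mul_add, Matrix.trace_add, Matrix.trace_sub]
      have e1 : (Yᴴ * X * (Y * Xᴴ)).trace = (Xᴴ * Yᴴ * (X * Y)).trace := by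
        rw [Matrix.mul_assoc Yᴴ, ← Matrix.mul_assoc X, ← Matrix.mul_assoc, Matrix.trace_mul_comm]
        simp only [Matrix.mul_assoc]
      have e2 : (X * Yᴴ * (Xᴴ * Y)).trace = (Yᴴ * Xᴴ * (Y * X)).trace := by
        rw [Matrix.mul_assoc X, Matrix.trace_mul_comm]
        simp only [Matrix.mul_assoc]
      rw [e1, e2]
      ring
    exact_mod_cast h4
  have := frobSq_nonneg (Xᴴ * Y + Y * Xᴴ)
  linarith

theorem lin_adj (X : Matrix ι ι ℂ) (u v : EuclideanSpace ℂ ι) :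
    ⟪Matrix.toEuclideanLin Xᴴ u, v⟫_ℂ = ⟪u, Matrix.toEuclideanLin X v⟫_ℂ := by
  rw [Matrix.toEuclideanLin_conjTranspose_eq_adjoint, LinearMap.adjoint_inner_left]

/-- The square case. -/
theorem sq_bound (X Y : Matrix ι ι ℂ) (κ : ℝ)
    (hκ : ∀ v w : EuclideanSpace ℂ ι, ‖v‖ ≤ 1 → ‖w‖ ≤ 1 → ⟪v, w⟫_ℂ = 0 →
      ‖Matrix.toEuclideanLin X v‖ ^ 2 + ‖Matrix.toEuclideanLin X w‖ ^ 2 ≤ κ) :
    frobSq (X * Y - Y * X) ≤ 2 * κ * frobSq Y := by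
  let φ : ι ⊕ ι → EuclideanSpace ℂ ι := Sum.elim (colv Y) (colv Yᴴ)
  obtain ⟨μ, hμ⟩ := variance_bound Finset.univ (Matrix.toEuclideanLin X)
    (Matrix.toEuclideanLin Xᴴ) (lin_adj X) κ hκ φ
  have hsum : ∑ i, ‖φ i‖ ^ 2 = 2 * frobSq Y := by
    rw [Fintype.sum_sum_type]
    show ∑ i, ‖colv Y i‖ ^ 2 + ∑ i, ‖colv Yᴴ i‖ ^ 2 = _
    rw [sum_colv, sum_colv, frobSq_conjTranspose]
    ring
  set Z : Matrix ι ι ℂ := X - μ • 1 with hZ
  have hlinZ : ∀ u : EuclideanSpace ℂ ι, Matrix.toEuclideanLin Z u =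
      Matrix.toEuclideanLin X u - μ • u := by
    intro u
    rw [hZ, map_sub, map_smul, LinearMap.sub_apply, LinearMap.smul_apply, Matrix.toEuclideanLin,
      Matrix.toLpLin_one]
    rfl
  have hlinZ' : ∀ u : EuclideanSpace ℂ ι, Matrix.toEuclideanLin Zᴴ u =
      Matrix.toEuclideanLin Xᴴ u - conj μ • u := by
    intro u
    rw [hZ, Matrix.conjTranspose_sub, Matrix.conjTranspose_smul, Matrix.conjTranspose_one, map_sub,
      map_smul, LinearMap.sub_apply, LinearMap.smul_apply, Matrix.toEuclideanLin,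
      Matrix.toLpLin_one]
    rfl
  have hcomm : X * Y - Y * X = Z * Y - Y * Z := by
    rw [hZ, Matrix.sub_mul, Matrix.mul_sub, Matrix.smul_mul, Matrix.mul_smul, Matrix.one_mul,
      Matrix.mul_one]
    abel
  rw [hcomm]
  refine (comm_le Z Y).trans ?_
  have hrw : ∑ i, (‖Matrix.toEuclideanLin X (φ i) - μ • φ i‖ ^ 2 +
      ‖Matrix.toEuclideanLin Xᴴ (φ i) - conj μ • φ i‖ ^ 2) =
      frobSq (Z * Y) + frobSq (Zᴴ * Y) + (frobSq (Z * Yᴴ) + frobSq (Zᴴ * Yᴴ)) := by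
    rw [Fintype.sum_sum_type]
    show ∑ i, (‖Matrix.toEuclideanLin X (colv Y i) - μ • colv Y i‖ ^ 2 +
      ‖Matrix.toEuclideanLin Xᴴ (colv Y i) - conj μ • colv Y i‖ ^ 2) +
      ∑ i, (‖Matrix.toEuclideanLin X (colv Yᴴ i) - μ • colv Yᴴ i‖ ^ 2 +
      ‖Matrix.toEuclideanLin Xᴴ (colv Yᴴ i) - conj μ • colv Yᴴ i‖ ^ 2) = _
    have e1 : ∀ W : Matrix ι ι ℂ, ∑ i, (‖Matrix.toEuclideanLin X (colv W i) - μ • colv W i‖ ^ 2 +
        ‖Matrix.toEuclideanLin Xᴴ (colv W i) - conj μ • colv W i‖ ^ 2) =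
        frobSq (Z * W) + frobSq (Zᴴ * W) := by
      intro W
      rw [← sum_colv (Z * W), ← sum_colv (Zᴴ * W), ← Finset.sum_add_distrib]
      refine Finset.sum_congr rfl fun i _ => ?_
      rw [← hlinZ, ← hlinZ', lin_colv, lin_colv]
    rw [e1, e1]
  rw [hrw, hsum] at hμ
  linarith

end Frob

/-! ### Singular values -/

section SV

/-- The singular values of a matrix in non-increasing order, numbered from `0`. -/
noncomputable def sv {m n : ℕ} (Z : Matrix (Fin m) (Fin n) ℂ) (k : ℕ) : ℝ :=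
  (Matrix.toEuclideanLin Z).singularValues k

variable {m n : ℕ} (Z : Matrix (Fin m) (Fin n) ℂ)

theorem exists_eig : ∃ b : OrthonormalBasis (Fin n) ℂ (EuclideanSpace ℂ (Fin n)),
    ∀ v : EuclideanSpace ℂ (Fin n), ‖Matrix.toEuclideanLin Z v‖ ^ 2 =
      ∑ k : Fin n, sv Z k ^ 2 * ‖⟪b k, v⟫_ℂ‖ ^ 2 := by
  set T := Matrix.toEuclideanLin Z with hT
  have hn : Module.finrank ℂ (EuclideanSpace ℂ (Fin n)) = n := finrank_euclideanSpace_fin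
  refine ⟨T.isSymmetric_adjoint_comp_self.eigenvectorBasis hn, fun v => ?_⟩
  set b := T.isSymmetric_adjoint_comp_self.eigenvectorBasis hn with hb
  have h1 : ∀ k, (LinearMap.adjoint T ∘ₗ T) (b k) = ((sv Z k ^ 2 : ℝ) : ℂ) • b k := by
    intro k
    have h2 := T.isSymmetric_adjoint_comp_self.apply_eigenvectorBasis hn k
    rw [hb, h2]
    congr 1
    unfold sv
    rw [← hT, T.sq_singularValues_fin hn k]
    rfl
  have h2 : ((‖T v‖ ^ 2 : ℝ) : ℂ) =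
      ∑ k : Fin n, ((sv Z k ^ 2 : ℝ) : ℂ) * ((‖⟪b k, v⟫_ℂ‖ ^ 2 : ℝ) : ℂ) := by
    have h3 : ((‖T v‖ ^ 2 : ℝ) : ℂ) = ⟪v, (LinearMap.adjoint T ∘ₗ T) v⟫_ℂ := by
      rw [LinearMap.comp_apply, LinearMap.adjoint_inner_right, inner_self_eq_norm_sq_to_K]
      push_cast; rfl
    rw [h3, ← b.sum_inner_mul_inner]
    refine Finset.sum_congr rfl fun k _ => ?_
    have h4 : ⟪b k, (LinearMap.adjoint T ∘ₗ T) v⟫_ℂ = ((sv Z k ^ 2 : ℝ) : ℂ) * ⟪b k, v⟫_ℂ := by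
      rw [← T.isSymmetric_adjoint_comp_self, h1, inner_smul_left, Complex.conj_ofReal]
    rw [h4, ← inner_conj_symm v (b k)]
    have h5 : conj ⟪b k, v⟫_ℂ * ⟪b k, v⟫_ℂ = ((‖⟪b k, v⟫_ℂ‖ ^ 2 : ℝ) : ℂ) := by
      rw [← Complex.normSq_eq_conj_mul_self, Complex.normSq_eq_norm_sq]
    rw [← h5]
    ring
  exact_mod_cast h2

theorem sv_nonneg (k : ℕ) : 0 ≤ sv Z k := LinearMap.singularValues_nonneg _ _

theorem sv_anti {i j : ℕ} (h : i ≤ j) : sv Z j ≤ sv Z i := LinearMap.singularValues_antitone _ h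

theorem norm_le_sv (v : EuclideanSpace ℂ (Fin n)) :
    ‖Matrix.toEuclideanLin Z v‖ ≤ sv Z 0 * ‖v‖ := by
  obtain ⟨b, hb⟩ := exists_eig Z
  have h1 : ‖Matrix.toEuclideanLin Z v‖ ^ 2 ≤ (sv Z 0 * ‖v‖) ^ 2 := by
    rw [hb v, mul_pow, ← b.sum_sq_norm_inner_right v, Finset.mul_sum]
    refine Finset.sum_le_sum fun k _ => ?_
    have := sv_anti Z (Nat.zero_le k)
    have := sv_nonneg Z k
    gcongr
  exact (pow_le_pow_iff_left₀ (norm_nonneg _) (mul_nonneg (sv_nonneg Z 0) (norm_nonneg _))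
    two_ne_zero).mp h1

/-- the Ky Fan bound -/
theorem kyfan (v w : EuclideanSpace ℂ (Fin n))
    (h1 : ∀ u : EuclideanSpace ℂ (Fin n), ‖u‖ = 1 → ‖⟪u, v⟫_ℂ‖ ^ 2 + ‖⟪u, w⟫_ℂ‖ ^ 2 ≤ 1)
    (h2 : ‖v‖ ^ 2 + ‖w‖ ^ 2 ≤ 2) :
    ‖Matrix.toEuclideanLin Z v‖ ^ 2 + ‖Matrix.toEuclideanLin Z w‖ ^ 2 ≤
      sv Z 0 ^ 2 + sv Z 1 ^ 2 := by
  obtain ⟨b, hb⟩ := exists_eig Z
  rw [hb v, hb w, ← Finset.sum_add_distrib]
  set W : Fin n → ℝ := fun k => ‖⟪b k, v⟫_ℂ‖ ^ 2 + ‖⟪b k, w⟫_ℂ‖ ^ 2 with hW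
  have hW1 : ∀ k, W k ≤ 1 := fun k => h1 (b k) (b.orthonormal.1 k)
  have hW0 : ∀ k, 0 ≤ W k := fun k => by positivity
  have hWs : ∑ k, W k ≤ 2 := by
    rw [hW, Finset.sum_add_distrib, b.sum_sq_norm_inner_right, b.sum_sq_norm_inner_right]
    exact h2
  have hs01 : sv Z 1 ^ 2 ≤ sv Z 0 ^ 2 :=
    pow_le_pow_left₀ (sv_nonneg Z 1) (sv_anti Z zero_le_one) 2
  have hs1 : 0 ≤ sv Z 1 ^ 2 := by positivity
  calc ∑ k : Fin n, (sv Z k ^ 2 * ‖⟪b k, v⟫_ℂ‖ ^ 2 + sv Z k ^ 2 * ‖⟪b k, w⟫_ℂ‖ ^ 2)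
      ≤ ∑ k : Fin n, (sv Z 1 ^ 2 * W k + if (k : ℕ) = 0 then (sv Z 0 ^ 2 - sv Z 1 ^ 2) else 0) := by
        refine Finset.sum_le_sum fun k _ => ?_
        have h3 : sv Z k ^ 2 * ‖⟪b k, v⟫_ℂ‖ ^ 2 + sv Z k ^ 2 * ‖⟪b k, w⟫_ℂ‖ ^ 2 =
            sv Z k ^ 2 * W k := by rw [hW]; ring
        rw [h3]
        split_ifs with hk
        · rw [hk]
          have := hW1 k
          nlinarith
        · rw [add_zero]
          have h4 : sv Z k ^ 2 ≤ sv Z 1 ^ 2 :=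
            pow_le_pow_left₀ (sv_nonneg Z k) (sv_anti Z (by omega)) 2
          exact mul_le_mul_of_nonneg_right h4 (hW0 k)
    _ = sv Z 1 ^ 2 * ∑ k, W k + ∑ k : Fin n, (if (k : ℕ) = 0 then (sv Z 0 ^ 2 - sv Z 1 ^ 2) else 0) := by
        rw [Finset.sum_add_distrib, Finset.mul_sum]
    _ ≤ sv Z 1 ^ 2 * 2 + (sv Z 0 ^ 2 - sv Z 1 ^ 2) := by
        refine add_le_add (mul_le_mul_of_nonneg_left hWs hs1) ?_
        rcases n with _ | n
        · simp only [Finset.univ_eq_empty, Finset.sum_empty]; linarith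
        · rw [Finset.sum_eq_single (0 : Fin (n + 1))]
          · simp
          · intro k _ hk
            rw [if_neg]
            intro h
            exact hk (Fin.ext h)
          · intro h; exact absurd (Finset.mem_univ _) h
    _ = _ := by ring

/-- Bessel for an orthogonal pair of contractive vectors. -/
theorem bessel2 {H : Type*} [NormedAddCommGroup H] [InnerProductSpace ℂ H] (u v w : H)
    (hv : ‖v‖ ≤ 1) (hw : ‖w‖ ≤ 1) (hvw : ⟪v, w⟫_ℂ = 0) :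
    ‖⟪u, v⟫_ℂ‖ ^ 2 + ‖⟪u, w⟫_ℂ‖ ^ 2 ≤ ‖u‖ ^ 2 := by
  have hwv : ⟪w, v⟫_ℂ = 0 := by rw [← inner_conj_symm, hvw, map_zero]
  set a : ℂ := ⟪v, u⟫_ℂ with ha
  set c : ℂ := ⟪w, u⟫_ℂ with hc
  have h1 : ‖u - (a • v + c • w)‖ ^ 2 = ‖u‖ ^ 2 - 2 * (‖a‖ ^ 2 + ‖c‖ ^ 2) +
      (‖a‖ ^ 2 * ‖v‖ ^ 2 + ‖c‖ ^ 2 * ‖w‖ ^ 2) := by
    rw [norm_sub_sq (𝕜 := ℂ), norm_add_sq (𝕜 := ℂ), inner_add_right, inner_smul_right,
      inner_smul_right, inner_smul_left, inner_smul_right, hvw, norm_smul, norm_smul,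
      ← inner_conj_symm u v, ← inner_conj_symm u w, ← ha, ← hc, Complex.mul_conj, Complex.mul_conj,
      Complex.normSq_eq_norm_sq, Complex.normSq_eq_norm_sq]
    simp only [RCLike.re_to_complex, mul_zero, Complex.zero_re, Complex.add_re, Complex.ofReal_re]
    ring
  have h2 : ‖⟪u, v⟫_ℂ‖ = ‖a‖ := by rw [ha, ← inner_conj_symm u v, RCLike.norm_conj]
  have h3 : ‖⟪u, w⟫_ℂ‖ = ‖c‖ := by rw [hc, ← inner_conj_symm u w, RCLike.norm_conj]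
  rw [h2, h3]
  have h4 : 0 ≤ ‖u - (a • v + c • w)‖ ^ 2 := by positivity
  have h5 : ‖a‖ ^ 2 * ‖v‖ ^ 2 ≤ ‖a‖ ^ 2 := by
    have : ‖v‖ ^ 2 ≤ 1 := pow_le_one₀ (norm_nonneg _) hv
    nlinarith [sq_nonneg ‖a‖]
  have h6 : ‖c‖ ^ 2 * ‖w‖ ^ 2 ≤ ‖c‖ ^ 2 := by
    have : ‖w‖ ^ 2 ≤ 1 := pow_le_one₀ (norm_nonneg _) hw
    nlinarith [sq_nonneg ‖c‖]
  rw [h1] at h4
  linarith

end SV

end Pool.Agent.X89.BW
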