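import Pool.Agent.X89.CA2

set_option autoImplicit false

open Set Real

namespace Pool.Agent.X89.CA

/-- The main real inequality. -/
theorem RL {r p e T R δ α κ σ : ℝ} (hr0 : 0 < r) (hr1 : r < 1) (hr : 2 * r ≤ (1 - r) ^ 2)
    (hα0 : 0 ≤ α) (hα : 2 * r * α ≤ (1 - r) ^ 2)
    (hκ : κ = (1 + r ^ 2) / (1 - r ^ 2)) (hσ : σ = 2 * r / (1 - r ^ 2))
    (hp0 : 0 ≤ p) (hp1 : p ≤ 1) (he : 0 < e) (heT : e ^ 2 ≤ T) (hT : T ≤ 2 * κ * e - 1)
    (hR0 : 0 ≤ R) (hR : R ^ 2 = 1 - 2 * p * (2 * e ^ 2 - T) + p ^ 2 * T ^ 2)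
    (hδ0 : 0 ≤ δ) (hδ1 : δ < 1) (hδ : δ ^ 2 * (1 + 2 * κ * p * e + κ ^ 2 * p ^ 2 * T) = σ ^ 2 * p ^ 2 * T) :
    ((1 + p) * R + p * (2 * κ * e - 1 - T)) * ((1 + δ) / (1 - δ)) ^ α ≤ 1 + 2 * κ * p * e + p ^ 2 * T := by
  have h1r : 0 < 1 - r ^ 2 := by nlinarith only [hr0, hr1]
  have hκ0 : 0 < κ := by rw [hκ]; positivity
  have hσ0 : 0 < σ := by rw [hσ]; positivity
  have hκσ : κ ^ 2 = 1 + σ ^ 2 := by rw [hκ, hσ]; field_simp; ring
  set m : ℝ := (1 - r) / (1 + r) with hm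
  have hm0 : 0 < m := by rw [hm]; apply div_pos <;> linarith
  set s : ℝ := m ^ 2 with hs
  have hss : √s = m := by rw [hs]; exact sqrt_sq hm0.le
  have hs0 : 0 < s := by positivity
  have hm1 : m < 1 := by rw [hm, div_lt_one (by linarith)]; linarith
  have hs1 : s < 1 := by rw [hs]; nlinarith only [hm0, hm1]
  have hs3 : 1 / 3 ≤ s := by
    rw [hs, hm, div_pow, div_le_div_iff₀ (by norm_num) (by positivity)]
    nlinarith only [hr]
  have hκm : κ * (2 * m) = 1 + s := by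
    rw [hκ, hs, hm]
    have : (1 - r ^ 2) = (1 - r) * (1 + r) := by ring
    have h2 : (1 - r) ≠ 0 := by linarith
    have h3 : (1 + r) ≠ 0 := by linarith
    rw [this]; field_simp; ring
  have hσm : σ * (2 * m) = 1 - s := by
    rw [hσ, hs, hm]
    have : (1 - r ^ 2) = (1 - r) * (1 + r) := by ring
    have h2 : (1 - r) ≠ 0 := by linarith
    have h3 : (1 + r) ≠ 0 := by linarith
    rw [this]; field_simp; ring
  have hmσ : m / σ = (1 - r) ^ 2 / (2 * r) := by
    rw [hσ, hm]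
    have : (1 - r ^ 2) = (1 - r) * (1 + r) := by ring
    have h2 : (1 - r) ≠ 0 := by linarith
    have h3 : (1 + r) ≠ 0 := by linarith
    rw [this]; field_simp
  have hαm : α ≤ m / σ := by
    rw [hmσ, le_div_iff₀ (by linarith)]; linarith
  set T1 : ℝ := 2 * κ * e - 1 with hT1
  have hTpos : 0 < T := lt_of_lt_of_le (by positivity) heT
  have hT1pos : 0 < T1 := hTpos.trans_le hT
  have hT1e : 1 + T1 = 2 * κ * e := by rw [hT1]; ring
  have heT1 : e ^ 2 ≤ T1 := heT.trans hT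
  have hTk : (1 + T1) ^ 2 ≤ 4 * κ ^ 2 * T1 := by
    rw [hT1e]
    have := mul_le_mul_of_nonneg_left heT1 (by positivity : 0 ≤ 4 * κ ^ 2)
    calc (2 * κ * e) ^ 2 = 4 * κ ^ 2 * e ^ 2 := by ring
      _ ≤ _ := this
  -- T1 between s and 1/s
  have hprod : 0 ≤ (T1 - s) * (1 - T1 * s) := by
    have h1 : s * (1 + T1) ^ 2 ≤ T1 * (1 + s) ^ 2 := by
      have h2 := mul_le_mul_of_nonneg_left hTk hs0.le
      have h3 : s * (4 * κ ^ 2 * T1) = T1 * (κ * (2 * m)) ^ 2 := by rw [hs]; ring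
      rw [h3, hκm] at h2
      exact h2
    have h4 : T1 * (1 + s) ^ 2 - s * (1 + T1) ^ 2 = (T1 - s) * (1 - T1 * s) := by ring
    linarith only [h1, h4]
  have hTs : s ≤ T1 ∧ T1 * s ≤ 1 := by
    by_cases h : s ≤ T1
    · refine ⟨h, ?_⟩
      by_contra hc
      push Not at hc
      have hlt : s < T1 := by
        rcases h.lt_or_eq with h' | h'
        · exact h'
        · rw [← h'] at hc
          have : s * s < 1 * 1 := mul_lt_mul'' hs1 hs1 hs0.le hs0.le
          linarith only [this, hc]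
      have h5 : (T1 - s) * (1 - T1 * s) < 0 := mul_neg_of_pos_of_neg (by linarith only [hlt]) (by linarith only [hc])
      linarith only [h5, hprod]
    · exfalso
      push Not at h
      have h6 : T1 * s < 1 * 1 := mul_lt_mul'' (h.trans hs1) hs1 hT1pos.le hs0.le
      have h5 : (T1 - s) * (1 - T1 * s) < 0 := mul_neg_of_neg_of_pos (by linarith only [h]) (by linarith only [h6])
      linarith only [h5, hprod]
  obtain ⟨G, hG, hG0, hG1⟩ := exists_G hs3 hs1 hT1pos hTs.2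
  rw [hss] at hG
  have hT1sq : √T1 ^ 2 = T1 := sq_sqrt hT1pos.le
  have hsT1 : 0 < √T1 := sqrt_pos.2 hT1pos
  -- k = 4 e^2
  have hes : e * (1 + s) = m * (1 + T1) := by
    rw [hT1e, ← hκm]; ring
  have hkν : 4 * (m * √T1) ≤ 4 * e ^ 2 := by
    have h1 : m * √T1 ≤ (s + T1) / 2 := by
      have h11 := sq_nonneg (m - √T1)
      have h12 : (m - √T1) ^ 2 = s - 2 * (m * √T1) + T1 := by rw [hs]; linear_combination hT1sq
      linarith only [h11, h12]
    have h2 : (s + T1) / 2 * (1 + s) ^ 2 ≤ e ^ 2 * (1 + s) ^ 2 := by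
      have h3 : e ^ 2 * (1 + s) ^ 2 = s * (1 + T1) ^ 2 := by
        calc e ^ 2 * (1 + s) ^ 2 = (e * (1 + s)) ^ 2 := by ring
          _ = _ := by rw [hes, hs]; ring
      rw [h3]
      have h4 : 0 ≤ (T1 - s) * (2 * s * T1 + s ^ 2 + 2 * s - 1) := by
        apply mul_nonneg (by linarith only [hTs.1])
        have h41 : s * s ≤ s * T1 := mul_le_mul_of_nonneg_left hTs.1 hs0.le
        have h42 : 0 ≤ (3 * s - 1) * (s + 1) := mul_nonneg (by linarith only [hs3]) (by linarith only [hs0])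
        nlinarith only [h41, h42]
      have h43 : s * (1 + T1) ^ 2 - (s + T1) / 2 * (1 + s) ^ 2 =
          (T1 - s) * (2 * s * T1 + s ^ 2 + 2 * s - 1) / 2 := by ring
      linarith only [h4, h43]
    have h5 := le_of_mul_le_mul_right h2 (by positivity)
    linarith
  have hR1 : (1 - 4 * e ^ 2 / (1 + T1) ^ 2) * exp (2 * G 1) ≤ 1 := by
    have h1 : 1 - 4 * e ^ 2 / (1 + T1) ^ 2 = ((1 - s) / (1 + s)) ^ 2 := by
      have h2 : 4 * e ^ 2 / (1 + T1) ^ 2 = 4 * s / (1 + s) ^ 2 := by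
        rw [div_eq_div_iff (by positivity) (by positivity)]
        have : e ^ 2 * (1 + s) ^ 2 = s * (1 + T1) ^ 2 := by
          calc e ^ 2 * (1 + s) ^ 2 = (e * (1 + s)) ^ 2 := by ring
            _ = _ := by rw [hes, hs]; ring
        linarith
      rw [h2]; field_simp; ring
    have h3 : exp (G 1) ≤ (1 + s) / (1 - s) := by
      rw [← exp_log (show 0 < (1 + s) / (1 - s) by apply div_pos <;> linarith)]
      exact exp_le_exp.2 hG1
    have h4 : exp (2 * G 1) ≤ ((1 + s) / (1 - s)) ^ 2 := by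
      rw [two_mul, exp_add, ← sq]
      exact pow_le_pow_left₀ (exp_pos _).le h3 2
    rw [h1]
    calc _ ≤ ((1 - s) / (1 + s)) ^ 2 * ((1 + s) / (1 - s)) ^ 2 := mul_le_mul_of_nonneg_left h4 (by positivity)
      _ = 1 := by
        have : (1 - s) ≠ 0 := by linarith
        have : (1 + s) ≠ 0 := by linarith
        field_simp
  have hPL := PL hT1pos (by positivity) (by positivity) hkν hG hG0 hR1 hp0 hp1
  have hVL := VL hT1pos hm0 hσ0 hκσ hTk hG hG0 hp0
  set z := p * √T1 / √((1 + p) * (1 + p * T1)) with hz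
  set v := arsinh (σ * z) with hv
  have hpT : 0 < 1 + p * T1 := by positivity
  set D := (1 + p) * (1 + p * T1) with hD
  have hDp : 0 < D := by positivity
  have hz0 : 0 ≤ z := by positivity
  have hz2 : z ^ 2 = p ^ 2 * T1 / D := by
    rw [hz, div_pow, mul_pow, hT1sq, sq_sqrt hDp.le]
  have hv0 : 0 ≤ v := by rw [hv]; exact arsinh_nonneg_iff.2 (by positivity)
  -- R1
  have hR1nn : 0 ≤ (1 + p * T1) ^ 2 - 4 * p * e ^ 2 := by
    have h1 := sq_nonneg (1 - p * T1)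
    have h2 := mul_le_mul_of_nonneg_left heT1 hp0
    nlinarith only [h1, h2]
  set R1 := √((1 + p * T1) ^ 2 - 4 * p * e ^ 2) with hR1def
  have hR1sq : R1 ^ 2 = (1 + p * T1) ^ 2 - 4 * p * e ^ 2 := sq_sqrt hR1nn
  have hR10 : 0 ≤ R1 := sqrt_nonneg _
  have hR1le : R1 ≤ 1 + p * T1 := by
    apply abs_le_of_sq_le_sq' _ hpT.le |>.2
    rw [hR1sq]
    have h1 := mul_nonneg hp0 (sq_nonneg e)
    linarith only [h1]
  have hRle : R ≤ 1 + p * T := by
    apply abs_le_of_sq_le_sq' _ (by positivity) |>.2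
    rw [hR]
    have h1 := mul_nonneg hp0 (sq_nonneg e)
    nlinarith only [h1]
  have hd : 0 ≤ T1 - T := by linarith
  have hdiff : p * (T1 - T) ≤ R1 - R := by
    by_contra hc
    push Not at hc
    have h1 : (R1 - R) * (R1 + R) = p * (T1 - T) * (2 + p * (T1 + T)) := by
      have : (R1 - R) * (R1 + R) = R1 ^ 2 - R ^ 2 := by ring
      rw [this, hR1sq, hR]; ring
    have h2 : R1 + R ≤ 2 + p * (T1 + T) := by nlinarith only [hR1le, hRle]
    have h3 : 0 ≤ R1 + R := by positivity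
    have h4 : 0 ≤ p * (T1 - T) := by positivity
    rcases h3.lt_or_eq with h5 | h5
    · have h6 : (R1 - R) * (R1 + R) < p * (T1 - T) * (R1 + R) := mul_lt_mul_of_pos_right hc h5
      have h7 : p * (T1 - T) * (R1 + R) ≤ p * (T1 - T) * (2 + p * (T1 + T)) := mul_le_mul_of_nonneg_left h2 h4
      linarith
    · rw [← h5, mul_zero] at h1
      have h8 : 0 < 2 + p * (T1 + T) := by positivity
      have h9 : p * (T1 - T) = 0 := by
        rcases mul_eq_zero.1 h1.symm with h | h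
        · exact h
        · linarith
      rw [h9] at hc
      linarith
  have hA : ((1 + p) * R + p * (T1 - T)) * (1 + p * T1) ≤ R1 * (1 + 2 * κ * p * e + p ^ 2 * T) := by
    have hden : 1 + 2 * κ * p * e + p ^ 2 * T = D - p ^ 2 * (T1 - T) := by
      rw [hD]; linear_combination (-p) * hT1e
    rw [hden, hD]
    have h1 := mul_le_mul_of_nonneg_left hdiff (by positivity : 0 ≤ (1 + p) * (1 + p * T1))
    have h2 := mul_le_mul_of_nonneg_right hR1le (by positivity : 0 ≤ p ^ 2 * (T1 - T))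
    linear_combination h1 + h2
  -- δ ≤ tanh v
  have hS : (σ * z) ^ 2 = σ ^ 2 * p ^ 2 * T1 / D := by rw [mul_pow, hz2]; ring
  set C := √(1 + (σ * z) ^ 2) with hC
  have hC2 : C ^ 2 = 1 + (σ * z) ^ 2 := sq_sqrt (by positivity)
  have hC0 : 0 < C := sqrt_pos.2 (by positivity)
  have hδC : δ * C ≤ σ * z := by
    apply abs_le_of_sq_le_sq' _ (by positivity) |>.2
    rw [mul_pow, hC2, hS]
    have hX : 0 < 1 + 2 * κ * p * e + κ ^ 2 * p ^ 2 * T := by positivity
    have h1 : δ ^ 2 * (D + σ ^ 2 * p ^ 2 * T1) ≤ σ ^ 2 * p ^ 2 * T1 := by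
      have h2 : D + σ ^ 2 * p ^ 2 * T1 = 1 + 2 * κ * p * e + κ ^ 2 * p ^ 2 * T1 := by
        rw [hκσ, hD]; linear_combination p * hT1e
      rw [h2]
      apply le_of_mul_le_mul_right _ hX
      calc δ ^ 2 * (1 + 2 * κ * p * e + κ ^ 2 * p ^ 2 * T1) * (1 + 2 * κ * p * e + κ ^ 2 * p ^ 2 * T)
          = (δ ^ 2 * (1 + 2 * κ * p * e + κ ^ 2 * p ^ 2 * T)) * (1 + 2 * κ * p * e + κ ^ 2 * p ^ 2 * T1) := by ring
        _ = (σ ^ 2 * p ^ 2 * T) * (1 + 2 * κ * p * e + κ ^ 2 * p ^ 2 * T1) := by rw [hδ]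
        _ ≤ (σ ^ 2 * p ^ 2 * T1) * (1 + 2 * κ * p * e + κ ^ 2 * p ^ 2 * T) := by
          have h3 : 0 ≤ σ ^ 2 * p ^ 2 * (T1 - T) * (1 + 2 * κ * p * e) := by positivity
          linear_combination h3
    have h4 : δ ^ 2 * (1 + σ ^ 2 * p ^ 2 * T1 / D) = δ ^ 2 * (D + σ ^ 2 * p ^ 2 * T1) / D := by
      field_simp
    rw [h4]
    exact div_le_div_of_nonneg_right h1 hDp.le
  have hev : exp v = C + σ * z := by rw [hv, exp_arsinh, hC]; ring
  have hev' : exp (-v) = C - σ * z := by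
    have h1 : exp v * exp (-v) = 1 := by rw [← exp_add]; simp
    have h2 : exp v * (C - σ * z) = 1 := by
      rw [hev]
      have : (C + σ * z) * (C - σ * z) = C ^ 2 - (σ * z) ^ 2 := by ring
      rw [this, hC2]; ring
    exact mul_left_cancel₀ (exp_pos v).ne' (h1.trans h2.symm)
  have hB : (1 + δ) / (1 - δ) ≤ exp (2 * v) := by
    rw [div_le_iff₀ (by linarith)]
    have h1 : (1 + δ) * exp (-v) ≤ (1 - δ) * exp v := by
      rw [hev, hev']
      linear_combination 2 * hδC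
    have h2 := mul_le_mul_of_nonneg_right h1 (exp_pos v).le
    have h3 : (1 + δ) * exp (-v) * exp v = 1 + δ := by rw [mul_assoc, ← exp_add]; simp
    have h4 : (1 - δ) * exp v * exp v = exp (2 * v) * (1 - δ) := by rw [mul_assoc, ← exp_add, two_mul]; ring
    rw [h3, h4] at h2; exact h2
  have hB0 : 0 ≤ (1 + δ) / (1 - δ) := by apply div_nonneg <;> linarith
  have hBα : ((1 + δ) / (1 - δ)) ^ α ≤ exp (G p) := by
    calc ((1 + δ) / (1 - δ)) ^ α ≤ (exp (2 * v)) ^ α := rpow_le_rpow hB0 hB hα0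
      _ = exp (2 * v * α) := by rw [← exp_mul]
      _ ≤ exp (G p) := by
        apply exp_le_exp.2
        calc 2 * v * α ≤ 2 * v * (m / σ) := mul_le_mul_of_nonneg_left hαm (by positivity)
          _ = 2 * (m / σ) * v := by ring
          _ ≤ G p := hVL
  have hR1G : R1 * exp (G p) ≤ 1 + p * T1 := by
    apply abs_le_of_sq_le_sq' _ hpT.le |>.2
    have h1 : (R1 * exp (G p)) ^ 2 = (1 - 4 * e ^ 2 * p / (1 + p * T1) ^ 2) * exp (2 * G p) * (1 + p * T1) ^ 2 := by
      rw [mul_pow, hR1sq, two_mul, exp_add]; field_simp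
    rw [h1]
    calc _ ≤ 1 * (1 + p * T1) ^ 2 := mul_le_mul_of_nonneg_right hPL (by positivity)
      _ = _ := one_mul _
  have hNum0 : 0 ≤ (1 + p) * R + p * (T1 - T) := by positivity
  have hDen0 : 0 ≤ 1 + 2 * κ * p * e + p ^ 2 * T := by positivity
  apply le_of_mul_le_mul_right _ hpT
  calc ((1 + p) * R + p * (T1 - T)) * ((1 + δ) / (1 - δ)) ^ α * (1 + p * T1)
      = (((1 + p) * R + p * (T1 - T)) * (1 + p * T1)) * ((1 + δ) / (1 - δ)) ^ α := by ring
    _ ≤ (R1 * (1 + 2 * κ * p * e + p ^ 2 * T)) * exp (G p) := by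
        apply mul_le_mul hA hBα (rpow_nonneg hB0 _) (by positivity)
    _ = (R1 * exp (G p)) * (1 + 2 * κ * p * e + p ^ 2 * T) := by ring
    _ ≤ (1 + p * T1) * (1 + 2 * κ * p * e + p ^ 2 * T) := mul_le_mul_of_nonneg_right hR1G hDen0
    _ = _ := by ring

end Pool.Agent.X89.CA
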