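import Mathlib
import Pool.Agent.Helper203.NSBase

set_option autoImplicit false

open Set Metric Complex
open scoped ComplexConjugate

namespace Pool.Agent.X89.CA

def InU (α : ℝ) (F : ℂ → ℂ) : Prop :=
  DifferentiableOn ℂ F (ball 0 1) ∧ F 0 = 0 ∧ deriv F 0 = 1 ∧
  ∀ z ∈ ball (0 : ℂ) 1, deriv F z ≠ 0 ∧
    ‖-(conj z) + (1 - (‖z‖ : ℂ) ^ 2) * deriv (deriv F) z / (2 * deriv F z)‖ ≤ α

theorem conj_mul_self' (z : ℂ) : conj z * z = ((‖z‖ ^ 2 : ℝ) : ℂ) := by
  rw [mul_comm, Complex.mul_conj, Complex.normSq_eq_norm_sq]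

theorem hasDerivAt_log_norm {g : ℝ → ℂ} {g' : ℂ} {t : ℝ} (hg : HasDerivAt g g' t) (h0 : g t ≠ 0) :
    HasDerivAt (fun s => Real.log (‖g s‖ ^ 2)) (2 * (g' / g t).re) t := by
  have h1 := hg.norm_sq
  have hn : 0 < ‖g t‖ ^ 2 := by positivity
  have h2 := h1.log hn.ne'
  refine h2.congr_deriv ?_
  rw [Complex.inner, ← Complex.normSq_eq_norm_sq, Complex.div_re, Complex.normSq_apply]
  simp only [Complex.mul_re, Complex.conj_re, Complex.conj_im]
  have : (g t).re * (g t).re + (g t).im * (g t).im ≠ 0 := by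
    rw [← Complex.normSq_apply, Complex.normSq_eq_norm_sq]; exact hn.ne'
  field_simp
  ring

theorem distortion {α : ℝ} {F : ℂ → ℂ} (hF : InU α F) {z w : ℂ} (hz : ‖z‖ < 1) (hw : ‖w‖ < 1)
    (hzw : w ≠ z) :
    ‖deriv F w‖ * (1 - ‖w‖ ^ 2) ≤ ‖deriv F z‖ * (1 - ‖z‖ ^ 2) *
      ((1 + ‖(w - z) / (1 - conj z * w)‖) / (1 - ‖(w - z) / (1 - conj z * w)‖)) ^ α := by
  obtain ⟨hd, -, -, hU⟩ := hF
  set β : ℂ := (w - z) / (1 - conj z * w) with hβ
  have hne : 1 - conj z * w ≠ 0 := Pool.Agent.Helper203.NS.one_sub_ne hz hw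
  have hβ0 : β ≠ 0 := div_ne_zero (sub_ne_zero.2 hzw) hne
  set δ : ℝ := ‖β‖ with hδ
  have hδ0 : 0 < δ := norm_pos_iff.2 hβ0
  have hδ1 : δ < 1 := Pool.Agent.Helper203.NS.mob_lt hz hw
  set η : ℂ := β / δ with hη
  have hηn : ‖η‖ = 1 := by
    rw [hη, norm_div, Complex.norm_real, Real.norm_of_nonneg hδ0.le, ← hδ, div_self hδ0.ne']
  have hδc : (δ : ℂ) ≠ 0 := by exact_mod_cast hδ0.ne'
  have hδη : (δ : ℂ) * η = β := by
    rw [hη]; field_simp
  -- the geodesic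
  set γ : ℝ → ℂ := fun t => (z + t * η) / (1 + conj z * (t * η)) with hγ
  have hden : ∀ t : ℝ, 0 ≤ t → t ≤ δ → 1 + conj z * (t * η) ≠ 0 := by
    intro t ht0 ht1 h
    have h1 : conj z * (t * η) = -1 := eq_neg_of_add_eq_zero_right h
    have h2 : ‖conj z * (t * η)‖ < 1 := by
      rw [norm_mul, norm_mul, hηn, Complex.norm_real, Real.norm_of_nonneg ht0, RCLike.norm_conj, mul_one]
      calc ‖z‖ * t ≤ 1 * t := by gcongr
        _ < 1 := by linarith
    rw [h1] at h2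
    simp at h2
  have hid : ∀ t : ℝ, 0 ≤ t → t ≤ δ → 1 - ‖γ t‖ ^ 2 = (1 - ‖z‖ ^ 2) * (1 - t ^ 2) / ‖1 + conj z * (t * η)‖ ^ 2 := by
    intro t ht0 ht1
    have hp : 0 < ‖1 + conj z * (t * η)‖ ^ 2 := by
      have := norm_pos_iff.2 (hden t ht0 ht1); positivity
    have h1 := Pool.Agent.Helper203.NS.mob_id (-z) (t * η)
    rw [norm_neg, map_neg, neg_mul, sub_neg_eq_add, sub_neg_eq_add, norm_mul, hηn, Complex.norm_real,
      Real.norm_of_nonneg ht0, mul_one] at h1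
    rw [hγ]
    simp only [norm_div, div_pow]
    rw [eq_div_iff hp.ne', sub_mul, div_mul_cancel₀ _ hp.ne', one_mul, add_comm z, h1]
  have hz1 : 0 < 1 - ‖z‖ ^ 2 := by nlinarith [norm_nonneg z]
  have hγlt : ∀ t : ℝ, 0 ≤ t → t ≤ δ → 0 < 1 - ‖γ t‖ ^ 2 := by
    intro t ht0 ht1
    rw [hid t ht0 ht1]
    have : 0 < 1 - t ^ 2 := by nlinarith
    have := norm_pos_iff.2 (hden t ht0 ht1)
    positivity
  have hγball : ∀ t : ℝ, 0 ≤ t → t ≤ δ → γ t ∈ ball (0 : ℂ) 1 := by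
    intro t ht0 ht1
    rw [mem_ball_zero_iff]
    have := hγlt t ht0 ht1
    by_contra hc
    push Not at hc
    nlinarith
  have hγd : ∀ t : ℝ, 0 ≤ t → t ≤ δ → HasDerivAt γ ((1 - (‖z‖ : ℂ) ^ 2) * η / (1 + conj z * (t * η)) ^ 2) t := by
    intro t ht0 ht1
    have c1 : HasDerivAt (fun t : ℝ => (t : ℂ) * η) η t := by
      simpa using (Complex.ofRealCLM.hasDerivAt (x := t)).mul_const η
    have c2 := c1.const_add z
    have c3 := (c1.const_mul (conj z)).const_add 1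
    refine (c2.fun_div c3 (hden t ht0 ht1)).congr_deriv ?_
    have hzz := conj_mul_self' z
    push_cast at hzz
    congr 1
    linear_combination (-η) * hzz
  have hγ0 : γ 0 = z := by simp [hγ]
  have hγδ : γ δ = w := by
    have hden' := hden δ hδ0.le le_rfl
    simp only [hγ]
    rw [div_eq_iff hden', hδη, hβ]
    have h3 : (w - z) / (1 - conj z * w) * (1 - conj z * w) = w - z := div_mul_cancel₀ _ hne
    generalize (w - z) / (1 - conj z * w) = X at h3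
    linear_combination h3
  have hdF : ∀ x ∈ ball (0 : ℂ) 1, HasDerivAt (deriv F) (deriv (deriv F) x) x := by
    intro x hx
    exact ((hd.deriv isOpen_ball).differentiableAt (isOpen_ball.mem_nhds hx)).hasDerivAt
  -- the comparison function
  set U : ℝ → ℝ := fun t => α * (Real.log (1 + t) - Real.log (1 - t)) -
    (Real.log (‖deriv F (γ t)‖ ^ 2) / 2 + Real.log (1 - ‖γ t‖ ^ 2)) with hUdef
  have hder : ∀ t : ℝ, 0 ≤ t → t ≤ δ → ∃ u : ℝ, 0 ≤ u ∧ HasDerivAt U u t := by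
    intro t ht0 ht1
    have hb := hγball t ht0 ht1
    obtain ⟨hF0, hFα⟩ := hU _ hb
    have hp := hγlt t ht0 ht1
    have hgd := hγd t ht0 ht1
    set γ' : ℂ := (1 - (‖z‖ : ℂ) ^ 2) * η / (1 + conj z * (t * η)) ^ 2 with hγ'
    have d1 : HasDerivAt (fun s : ℝ => deriv F (γ s)) (deriv (deriv F) (γ t) * γ') t :=
      (hdF _ hb).comp t hgd
    have d2 := hasDerivAt_log_norm d1 hF0
    have d3 := (hgd.norm_sq.const_sub 1).log hp.ne'
    have e1 : HasDerivAt (fun s : ℝ => 1 + s) 1 t := by simpa using (hasDerivAt_id t).const_add 1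
    have e2 : HasDerivAt (fun s : ℝ => 1 - s) (-1) t := by simpa using (hasDerivAt_id t).const_sub 1
    have e3 := ((e1.log (by linarith)).fun_sub (e2.log (by linarith))).const_mul α
    have d4 := e3.fun_sub ((d2.div_const 2).fun_add d3)
    refine ⟨_, ?_, d4⟩
    have hn' : ‖γ'‖ = (1 - ‖z‖ ^ 2) / ‖1 + conj z * (t * η)‖ ^ 2 := by
      have : (1 - (‖z‖ : ℂ) ^ 2) = ((1 - ‖z‖ ^ 2 : ℝ) : ℂ) := by push_cast; rfl
      rw [hγ', norm_div, norm_mul, hηn, this, Complex.norm_real, Real.norm_of_nonneg hz1.le, norm_pow,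
        mul_one]
    have ht2 : 0 < 1 - t ^ 2 := by nlinarith
    have hratio : ‖γ'‖ = (1 - ‖γ t‖ ^ 2) / (1 - t ^ 2) := by
      have := norm_pos_iff.2 (hden t ht0 ht1)
      rw [hn', hid t ht0 ht1]; field_simp
    have hmain : (deriv (deriv F) (γ t) * γ' / deriv F (γ t)).re - 2 * (conj (γ t) * γ').re / (1 - ‖γ t‖ ^ 2)
        ≤ 2 * α / (1 - t ^ 2) := by
      set S : ℂ := -(conj (γ t)) + (1 - (‖γ t‖ : ℂ) ^ 2) * deriv (deriv F) (γ t) / (2 * deriv F (γ t)) with hS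
      have h1 : (S * γ').re ≤ α * ‖γ'‖ :=
        (Complex.re_le_norm _).trans (by rw [norm_mul]; exact mul_le_mul_of_nonneg_right hFα (norm_nonneg _))
      have h2 : S * γ' = -(conj (γ t) * γ') + ((((1 - ‖γ t‖ ^ 2) / 2 : ℝ)) : ℂ) * (deriv (deriv F) (γ t) * γ' / deriv F (γ t)) := by
        rw [hS]; push_cast; field_simp
      rw [h2, Complex.add_re, Complex.neg_re, Complex.re_ofReal_mul, hratio] at h1
      have h3 : (deriv (deriv F) (γ t) * γ' / deriv F (γ t)).re - 2 * (conj (γ t) * γ').re / (1 - ‖γ t‖ ^ 2)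
          = 2 / (1 - ‖γ t‖ ^ 2) * (-(conj (γ t) * γ').re + (1 - ‖γ t‖ ^ 2) / 2 * (deriv (deriv F) (γ t) * γ' / deriv F (γ t)).re) := by
        field_simp
        ring
      rw [h3]
      calc _ ≤ 2 / (1 - ‖γ t‖ ^ 2) * (α * ((1 - ‖γ t‖ ^ 2) / (1 - t ^ 2))) :=
            mul_le_mul_of_nonneg_left h1 (by positivity)
        _ = _ := by field_simp
    have hin : inner ℝ (γ t) γ' = (conj (γ t) * γ').re := by
      rw [Complex.inner]; ring_nf
    rw [hin]
    have h5 : α * (1 / (1 + t) - -1 / (1 - t)) = 2 * α / (1 - t ^ 2) := by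
      have h6 : 1 + t ≠ 0 := by linarith
      have h7 : 1 - t ≠ 0 := by linarith
      have h8 : 1 - t ^ 2 = (1 + t) * (1 - t) := by ring
      rw [h8]; field_simp; ring
    rw [h5]
    have h9 : -(2 * (conj (γ t) * γ').re) / (1 - ‖γ t‖ ^ 2) = -(2 * (conj (γ t) * γ').re / (1 - ‖γ t‖ ^ 2)) := by
      rw [neg_div]
    rw [h9]
    linarith
  have hmono : MonotoneOn U (Icc 0 δ) := by
    apply monotoneOn_of_deriv_nonneg (convex_Icc 0 δ)
    · intro t ht; obtain ⟨u, -, h⟩ := hder t ht.1 ht.2; exact h.continuousAt.continuousWithinAt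
    · intro t ht; rw [interior_Icc] at ht
      obtain ⟨u, -, h⟩ := hder t ht.1.le ht.2.le; exact h.differentiableAt.differentiableWithinAt
    · intro t ht; rw [interior_Icc] at ht
      obtain ⟨u, hu, h⟩ := hder t ht.1.le ht.2.le; rw [h.deriv]; exact hu
  have hfin := hmono (left_mem_Icc.2 hδ0.le) (right_mem_Icc.2 hδ0.le) hδ0.le
  simp only [hUdef, hγ0, hγδ] at hfin
  have hFz : 0 < ‖deriv F z‖ := norm_pos_iff.2 (hU z (by simpa using hz)).1
  have hFw : 0 < ‖deriv F w‖ := norm_pos_iff.2 (hU w (by simpa using hw)).1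
  have hw1 : 0 < 1 - ‖w‖ ^ 2 := by nlinarith [norm_nonneg w]
  have hB : 0 < (1 + δ) / (1 - δ) := div_pos (by linarith) (by linarith)
  rw [Real.log_pow, Real.log_pow] at hfin
  have hl : Real.log (‖deriv F w‖ * (1 - ‖w‖ ^ 2)) ≤
      Real.log (‖deriv F z‖ * (1 - ‖z‖ ^ 2) * ((1 + δ) / (1 - δ)) ^ α) := by
    rw [Real.log_mul hFw.ne' hw1.ne', Real.log_mul (by positivity) (by positivity),
      Real.log_mul hFz.ne' hz1.ne', Real.log_rpow hB, Real.log_div (by linarith) (by linarith)]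
    simp at hfin
    linarith
  exact (Real.log_le_log_iff (by positivity) (by positivity)).1 hl

end Pool.Agent.X89.CA
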