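import Mathlib
import Pool.Agent.X89.CA3
import Pool.Agent.X89.CA4

set_option autoImplicit false

open Set Metric Complex
open scoped ComplexConjugate

namespace Pool.Agent.X89.CA

theorem PWL {a r α : ℝ} {z ω E wd : ℂ} (hz : ‖z‖ = r) (hr0 : 0 < r) (hr1 : r < 1)
    (h2 : 2 * r ≤ (1 - r) ^ 2) (hα0 : 0 ≤ α) (hα : 2 * r * α ≤ (1 - r) ^ 2)
    (ha0 : 0 ≤ a) (ha1 : a < 1) (hω : ‖ω‖ ≤ r) (hE : ‖E‖ * (1 - r ^ 2) ≤ r ^ 2 - ‖ω‖ ^ 2)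
    (hwd : wd * (1 - a * ω) ^ 2 = a - 2 * ω + a * ω ^ 2 - (1 - (a : ℂ) ^ 2) * E)
    {w : ℂ} (hw : w = z * ((a - ω) / (1 - a * ω))) (hw1 : ‖w‖ < 1) :
    ‖wd‖ * (1 - r ^ 2) * ((1 + ‖(w - z) / (1 - conj z * w)‖) / (1 - ‖(w - z) / (1 - conj z * w)‖)) ^ α
      ≤ 1 - ‖w‖ ^ 2 := by
  have h1r : 0 < 1 - r ^ 2 := by nlinarith only [hr0, hr1]
  have hω1 : ‖ω‖ < 1 := hω.trans_lt hr1
  have hωn := norm_nonneg ω
  have hω2 : ‖ω‖ ^ 2 ≤ r ^ 2 := by nlinarith only [hω, hωn]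
  have hω3 : ‖ω‖ ^ 2 < 1 := by nlinarith only [hω2, h1r]
  have ha' : (0 : ℝ) < 1 + a := by linarith
  have hac : (1 + (a : ℂ)) ≠ 0 := by exact_mod_cast ha'.ne'
  have h1ω : (1 : ℂ) - ω ≠ 0 := by
    intro h
    have : ω = 1 := (sub_eq_zero.1 h).symm
    rw [this] at hω1; simp at hω1
  have haω : ‖(a : ℂ) * ω‖ < 1 := by
    rw [norm_mul, Complex.norm_real, Real.norm_of_nonneg ha0]
    nlinarith only [ha0, ha1, hω1, hωn]
  have hK : (1 : ℂ) - a * ω ≠ 0 := by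
    intro h
    have : (a : ℂ) * ω = 1 := (sub_eq_zero.1 h).symm
    rw [this] at haω; simp at haω
  set p : ℝ := (1 - a) / (1 + a) with hp
  have hp0 : 0 ≤ p := div_nonneg (by linarith) ha'.le
  have hp1 : p ≤ 1 := by rw [hp, div_le_one ha']; linarith
  set Y : ℂ := (1 + ω) / (1 - ω) with hY
  set κ : ℝ := (1 + r ^ 2) / (1 - r ^ 2) with hκ
  set σ : ℝ := 2 * r / (1 - r ^ 2) with hσ
  set N : ℝ := ‖(1 : ℂ) - ω‖ ^ 2 with hN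
  have hN0 : 0 < N := by have := norm_pos_iff.2 h1ω; positivity
  have hYN : Y.re * N = 1 - ‖ω‖ ^ 2 := by
    rw [hY, hN, Complex.div_re, ← Complex.normSq_eq_norm_sq, ← Complex.normSq_eq_norm_sq]
    have : Complex.normSq (1 - ω) ≠ 0 := by
      rw [Complex.normSq_eq_norm_sq]; exact hN0.ne'
    field_simp
    simp only [Complex.normSq_apply]
    simp
    ring
  have hTN : ‖Y‖ ^ 2 * N = 2 + 2 * ‖ω‖ ^ 2 - N := by
    rw [hY, norm_div, div_pow, hN, div_mul_cancel₀ _ hN0.ne']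
    simp only [← Complex.normSq_eq_norm_sq, Complex.normSq_apply]
    simp
    ring
  have he0 : 0 < Y.re := by
    have : 0 < Y.re * N := by rw [hYN]; linarith
    exact (pos_iff_pos_of_mul_pos this).2 hN0
  have heT : Y.re ^ 2 ≤ ‖Y‖ ^ 2 := by
    rw [← Complex.normSq_eq_norm_sq, Complex.normSq_apply]; nlinarith only [sq_nonneg Y.im]
  have hVN : (2 * κ * Y.re - 1 - ‖Y‖ ^ 2) * N * (1 - r ^ 2) = 4 * (r ^ 2 - ‖ω‖ ^ 2) := by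
    have hk : κ * (1 - r ^ 2) = 1 + r ^ 2 := by rw [hκ, div_mul_cancel₀ _ h1r.ne']
    linear_combination (2 * κ * (1 - r ^ 2)) * hYN - (1 - r ^ 2) * hTN + 2 * (1 - ‖ω‖ ^ 2) * hk
  have hV0 : 0 ≤ 2 * κ * Y.re - 1 - ‖Y‖ ^ 2 := by
    have h : 0 ≤ (2 * κ * Y.re - 1 - ‖Y‖ ^ 2) * (N * (1 - r ^ 2)) := by
      rw [← mul_assoc, hVN]; linarith
    exact nonneg_of_mul_nonneg_left h (by positivity)
  set R : ℝ := ‖1 - p * Y ^ 2‖ with hR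
  have hR2 : R ^ 2 = 1 - 2 * p * (2 * Y.re ^ 2 - ‖Y‖ ^ 2) + p ^ 2 * (‖Y‖ ^ 2) ^ 2 := by
    rw [hR]
    simp only [← Complex.normSq_eq_norm_sq, Complex.normSq_apply]
    simp [pow_two]
    ring
  -- factorisations
  obtain ⟨X, hX⟩ : ∃ X : ℂ, X = (1 + a) / 2 * (1 - ω) := ⟨_, rfl⟩
  have hX0 : X ≠ 0 := by rw [hX]; exact mul_ne_zero (div_ne_zero hac two_ne_zero) h1ω
  have hpc : (p : ℂ) = (1 - a) / (1 + a) := by rw [hp]; push_cast; ring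
  have hKX : (1 : ℂ) - a * ω = X * (1 + p * Y) := by
    rw [hX, hY, hpc]; field_simp; ring
  have hAX : (a : ℂ) - ω = X * (1 - p * Y) := by
    rw [hX, hY, hpc]; field_simp; ring
  have hc : ‖X‖ ^ 2 = (1 + a) ^ 2 / 4 * N := by
    rw [hX, norm_mul, mul_pow, hN]
    have : ((1 : ℂ) + a) / 2 = (((1 + a) / 2 : ℝ) : ℂ) := by push_cast; ring
    rw [this, Complex.norm_real, Real.norm_of_nonneg (by positivity)]
    ring
  have hpa : p * (1 + a) = 1 - a := by rw [hp, div_mul_cancel₀ _ ha'.ne']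
  -- bound for wd
  have hD : ‖wd‖ * ‖(1 : ℂ) - a * ω‖ ^ 2 ≤ ‖X‖ ^ 2 * ((1 + p) * R + p * (2 * κ * Y.re - 1 - ‖Y‖ ^ 2)) := by
    have h3 : (a : ℂ) - 2 * ω + a * ω ^ 2 = (1 + a) / 2 * ((1 - ω) ^ 2 * (1 - p * Y ^ 2)) := by
      rw [hY, hpc]; field_simp; ring
    have h4 : ‖(a : ℂ) - 2 * ω + a * ω ^ 2‖ = (1 + a) / 2 * (N * R) := by
      rw [h3, norm_mul, norm_mul, norm_pow, hN, hR]
      have : ((1 : ℂ) + a) / 2 = (((1 + a) / 2 : ℝ) : ℂ) := by push_cast; ring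
      rw [this, Complex.norm_real, Real.norm_of_nonneg (by positivity)]
    have h5 : ‖wd‖ * ‖(1 : ℂ) - a * ω‖ ^ 2 ≤ (1 + a) / 2 * (N * R) + (1 - a ^ 2) * ‖E‖ := by
      rw [← norm_pow, ← norm_mul, hwd]
      refine (norm_sub_le _ _).trans ?_
      rw [h4, norm_mul]
      have : (1 : ℂ) - (a : ℂ) ^ 2 = ((1 - a ^ 2 : ℝ) : ℂ) := by push_cast; ring
      rw [this, Complex.norm_real, Real.norm_of_nonneg (by nlinarith only [ha0, ha1])]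
    refine h5.trans ?_
    have h6 : (1 - a ^ 2) * ‖E‖ ≤ (1 + a) ^ 2 / 4 * N * (p * (2 * κ * Y.re - 1 - ‖Y‖ ^ 2)) := by
      have h7 : (1 + a) ^ 2 / 4 * N * (p * (2 * κ * Y.re - 1 - ‖Y‖ ^ 2)) * (1 - r ^ 2)
          = (1 - a ^ 2) * (r ^ 2 - ‖ω‖ ^ 2) := by
        linear_combination ((1 + a) ^ 2 / 4 * p) * hVN + ((1 + a) * (r ^ 2 - ‖ω‖ ^ 2)) * hpa
      have h8 : (1 - a ^ 2) * ‖E‖ * (1 - r ^ 2) ≤
          (1 + a) ^ 2 / 4 * N * (p * (2 * κ * Y.re - 1 - ‖Y‖ ^ 2)) * (1 - r ^ 2) := by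
        rw [h7, mul_assoc]
        exact mul_le_mul_of_nonneg_left hE (by nlinarith only [ha0, ha1])
      exact le_of_mul_le_mul_right h8 h1r
    have h9 : (1 + a) / 2 * (N * R) = (1 + a) ^ 2 / 4 * N * ((1 + p) * R) := by
      linear_combination (-(1 + a) / 4 * N * R) * hpa
    rw [hc, mul_add, h9]
    linarith
  -- the denominator
  have hw2 : (1 - ‖w‖ ^ 2) * ‖(1 : ℂ) - a * ω‖ ^ 2 = ‖X‖ ^ 2 * ((1 - r ^ 2) * (1 + 2 * κ * p * Y.re + p ^ 2 * ‖Y‖ ^ 2)) := by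
    have hKn : 0 < ‖(1 : ℂ) - a * ω‖ ^ 2 := by have := norm_pos_iff.2 hK; positivity
    have h3 : ‖w‖ ^ 2 * ‖(1 : ℂ) - a * ω‖ ^ 2 = r ^ 2 * ‖(a : ℂ) - ω‖ ^ 2 := by
      rw [hw, norm_mul, norm_div, hz]
      field_simp
    have h4 : ‖1 + (p : ℂ) * Y‖ ^ 2 = 1 + 2 * p * Y.re + p ^ 2 * ‖Y‖ ^ 2 := by
      simp only [← Complex.normSq_eq_norm_sq, Complex.normSq_apply]
      simp
      ring
    have h5 : ‖1 - (p : ℂ) * Y‖ ^ 2 = 1 - 2 * p * Y.re + p ^ 2 * ‖Y‖ ^ 2 := by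
      simp only [← Complex.normSq_eq_norm_sq, Complex.normSq_apply]
      simp
      ring
    have hk : κ * (1 - r ^ 2) = 1 + r ^ 2 := by rw [hκ, div_mul_cancel₀ _ h1r.ne']
    rw [sub_mul, h3, one_mul, hKX, hAX, norm_mul, norm_mul, mul_pow, mul_pow, h4, h5]
    linear_combination (-2 * p * Y.re * ‖X‖ ^ 2) * hk
  -- δ
  set δ : ℝ := ‖(w - z) / (1 - conj z * w)‖ with hδ
  have hz1 : ‖z‖ < 1 := by rw [hz]; exact hr1
  have hδ1 : δ < 1 := Pool.Agent.Helper203.NS.mob_lt hz1 hw1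
  have hδ0 : 0 ≤ δ := norm_nonneg _
  have hδeq : δ ^ 2 * (1 + 2 * κ * p * Y.re + κ ^ 2 * p ^ 2 * ‖Y‖ ^ 2) = σ ^ 2 * p ^ 2 * ‖Y‖ ^ 2 := by
    have hkc : (κ : ℂ) * (1 - (r : ℂ) ^ 2) = 1 + (r : ℂ) ^ 2 := by
      have hk : κ * (1 - r ^ 2) = 1 + r ^ 2 := by rw [hκ, div_mul_cancel₀ _ h1r.ne']
      exact_mod_cast hk
    have hzz : conj z * z = (r : ℂ) ^ 2 := by
      rw [conj_mul_self', hz]; push_cast; ring
    have h3 : (w - z) * (1 - a * ω) = -(z * (2 * p * X * Y)) := by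
      rw [hw]
      have : (z * ((↑a - ω) / (1 - ↑a * ω)) - z) * (1 - ↑a * ω) = z * ((a - ω) - (1 - a * ω)) := by
        field_simp
      rw [this, hKX, hAX]; ring
    have h4 : (1 - conj z * w) * (1 - a * ω) = X * (1 - (r : ℂ) ^ 2) * (1 + κ * p * Y) := by
      rw [hw]
      have : (1 - conj z * (z * ((↑a - ω) / (1 - ↑a * ω)))) * (1 - ↑a * ω) = (1 - a * ω) - (conj z * z) * (a - ω) := by
        field_simp
      rw [this, hzz, hKX, hAX]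
      linear_combination (-(X * p * Y)) * hkc
    have hne : 1 - conj z * w ≠ 0 := Pool.Agent.Helper203.NS.one_sub_ne hz1 hw1
    have hr1c : (1 - (r : ℂ) ^ 2) = ((1 - r ^ 2 : ℝ) : ℂ) := by push_cast; ring
    have h5 : δ * ‖1 + (κ : ℂ) * p * Y‖ = σ * p * ‖Y‖ := by
      have h6 : δ * (‖X‖ * (1 - r ^ 2) * ‖1 + (κ : ℂ) * p * Y‖) = r * (2 * p * ‖X‖ * ‖Y‖) := by
        have e1 : ‖X‖ * (1 - r ^ 2) * ‖1 + (κ : ℂ) * p * Y‖ = ‖(1 - conj z * w) * (1 - a * ω)‖ := by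
          rw [h4, norm_mul, norm_mul, hr1c, Complex.norm_real, Real.norm_of_nonneg h1r.le]
        have e2 : r * (2 * p * ‖X‖ * ‖Y‖) = ‖(w - z) * (1 - a * ω)‖ := by
          rw [h3, norm_neg, norm_mul, norm_mul, norm_mul, norm_mul, hz, Complex.norm_real,
            Real.norm_of_nonneg hp0]
          simp
        have := norm_pos_iff.2 hne
        rw [e1, e2, hδ, norm_div, norm_mul, norm_mul, ← mul_assoc, div_mul_cancel₀ _ this.ne']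
      have hXn : 0 < ‖X‖ := norm_pos_iff.2 hX0
      rw [hσ]
      have h7 : (δ * ‖1 + (κ : ℂ) * p * Y‖ - 2 * r / (1 - r ^ 2) * p * ‖Y‖) * (‖X‖ * (1 - r ^ 2)) = 0 := by
        field_simp
        linear_combination h6
      rcases mul_eq_zero.1 h7 with h | h
      · linarith
      · exfalso
        have : 0 < ‖X‖ * (1 - r ^ 2) := by positivity
        linarith
    have h8 : ‖1 + (κ : ℂ) * p * Y‖ ^ 2 = 1 + 2 * κ * p * Y.re + κ ^ 2 * p ^ 2 * ‖Y‖ ^ 2 := by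
      simp only [← Complex.normSq_eq_norm_sq, Complex.normSq_apply]
      simp
      ring
    rw [← h8, ← mul_pow, h5]; ring
  have key := RL hr0 hr1 h2 hα0 hα hκ hσ hp0 hp1 he0 heT (by linarith) (norm_nonneg _) hR2 hδ0 hδ1 hδeq
  have hKn : 0 < ‖(1 : ℂ) - a * ω‖ ^ 2 := by have := norm_pos_iff.2 hK; positivity
  have hB : 0 ≤ ((1 + δ) / (1 - δ)) ^ α := by
    apply Real.rpow_nonneg; apply div_nonneg <;> linarith
  have hXn : 0 ≤ ‖X‖ ^ 2 := by positivity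
  have fin : ‖wd‖ * (1 - r ^ 2) * ((1 + δ) / (1 - δ)) ^ α * ‖(1 : ℂ) - a * ω‖ ^ 2 ≤
      (1 - ‖w‖ ^ 2) * ‖(1 : ℂ) - a * ω‖ ^ 2 := by
    rw [hw2]
    calc ‖wd‖ * (1 - r ^ 2) * ((1 + δ) / (1 - δ)) ^ α * ‖(1 : ℂ) - a * ω‖ ^ 2
        = (‖wd‖ * ‖(1 : ℂ) - a * ω‖ ^ 2) * ((1 - r ^ 2) * ((1 + δ) / (1 - δ)) ^ α) := by ring
      _ ≤ (‖X‖ ^ 2 * ((1 + p) * R + p * (2 * κ * Y.re - 1 - ‖Y‖ ^ 2))) * ((1 - r ^ 2) * ((1 + δ) / (1 - δ)) ^ α) :=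
          mul_le_mul_of_nonneg_right hD (mul_nonneg h1r.le hB)
      _ = ‖X‖ ^ 2 * ((1 - r ^ 2) * (((1 + p) * R + p * (2 * κ * Y.re - 1 - ‖Y‖ ^ 2)) * ((1 + δ) / (1 - δ)) ^ α)) := by ring
      _ ≤ ‖X‖ ^ 2 * ((1 - r ^ 2) * (1 + 2 * κ * p * Y.re + p ^ 2 * ‖Y‖ ^ 2)) :=
          mul_le_mul_of_nonneg_left (mul_le_mul_of_nonneg_left key h1r.le) hXn
  exact le_of_mul_le_mul_right fin hKn

end Pool.Agent.X89.CA
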