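import Mathlib
import Pool.Agent.X89.CA5

set_option autoImplicit false

open Set Metric Complex Filter Topology
open scoped ComplexConjugate

namespace Pool.Agent.X89.CA

/-- Schwarz-Pick for maps into the closed disk -/
theorem sp_closed {φ : ℂ → ℂ} (hφ : DifferentiableOn ℂ φ (ball (0 : ℂ) 1))
    (hm : ∀ x : ℂ, ‖x‖ < 1 → ‖φ x‖ ≤ 1) {w : ℂ} (hw : ‖w‖ < 1) :
    ‖deriv φ w‖ * (1 - ‖w‖ ^ 2) ≤ 1 - ‖φ w‖ ^ 2 := by
  have key : ∀ ρ : ℝ, ρ ∈ Ioo (0 : ℝ) 1 → ρ * (‖deriv φ w‖ * (1 - ‖w‖ ^ 2)) ≤ 1 - ρ ^ 2 * ‖φ w‖ ^ 2 := by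
    intro ρ hρ
    have h1 := Pool.Agent.Helper203.NS.schwarz_pick_deriv (φ := fun x => (ρ : ℂ) * φ x)
      (hφ.const_mul _) (fun x hx => by
        rw [mem_ball_zero_iff] at hx ⊢
        rw [norm_mul, Complex.norm_real, Real.norm_of_nonneg hρ.1.le]
        have := hm x hx
        have h2 := norm_nonneg (φ x)
        nlinarith only [this, h2, hρ.1, hρ.2]) hw
    rw [deriv_const_mul_field, norm_mul, norm_mul, Complex.norm_real, Real.norm_of_nonneg hρ.1.le] at h1
    nlinarith only [h1]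
  have h1 : Tendsto (fun ρ : ℝ => ρ * (‖deriv φ w‖ * (1 - ‖w‖ ^ 2))) (𝓝[<] 1)
      (𝓝 (1 * (‖deriv φ w‖ * (1 - ‖w‖ ^ 2)))) :=
    (Continuous.tendsto (by fun_prop) _).mono_left nhdsWithin_le_nhds
  have h2 : Tendsto (fun ρ : ℝ => 1 - ρ ^ 2 * ‖φ w‖ ^ 2) (𝓝[<] 1)
      (𝓝 (1 - 1 ^ 2 * ‖φ w‖ ^ 2)) :=
    (Continuous.tendsto (by fun_prop) _).mono_left nhdsWithin_le_nhds
  have h3 := le_of_tendsto_of_tendsto h1 h2 (by
    filter_upwards [Ioo_mem_nhdsLT (show (0 : ℝ) < 1 by norm_num)] with ρ hρ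
    exact key ρ hρ)
  simpa using h3

theorem main {α : ℝ} (hα1 : 1 ≤ α) {F f w : ℂ → ℂ} (hF : InU α F)
    (hw : DifferentiableOn ℂ w (ball 0 1)) (hwz : ∀ z ∈ ball (0 : ℂ) 1, ‖w z‖ ≤ ‖z‖)
    (hf : ∀ z ∈ ball (0 : ℂ) 1, f z = F (w z)) (him : (deriv f 0).im = 0) (hre : 0 ≤ (deriv f 0).re)
    {z : ℂ} (hz : ‖z‖ < α + 1 - √(α ^ 2 + 2 * α)) :
    ‖deriv f z‖ ≤ ‖deriv F z‖ := by
  -- radius
  have hα0 : 0 ≤ α := by linarith
  have hsq : √(α ^ 2 + 2 * α) ^ 2 = α ^ 2 + 2 * α := Real.sq_sqrt (by positivity)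
  have hs0 : 0 ≤ √(α ^ 2 + 2 * α) := Real.sqrt_nonneg _
  have hsα : α < √(α ^ 2 + 2 * α) := by
    apply Real.lt_sqrt_of_sq_lt; nlinarith only [hα1]
  have hrn := norm_nonneg z
  have hr1 : ‖z‖ < 1 := by linarith
  have hrq : 2 * ‖z‖ * α ≤ (1 - ‖z‖) ^ 2 := by
    have h1 : √(α ^ 2 + 2 * α) ≤ α + 1 - ‖z‖ := by linarith
    nlinarith only [h1, hsq, hs0]
  have hr2 : 2 * ‖z‖ ≤ (1 - ‖z‖) ^ 2 := by nlinarith only [hrq, hrn, hα1]
  -- basic facts on w
  have hw0 : w 0 = 0 := by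
    have := hwz 0 (by simp)
    rw [norm_zero] at this
    exact norm_le_zero_iff.1 this
  have hwlt : ∀ x : ℂ, ‖x‖ < 1 → ‖w x‖ < 1 := fun x hx => (hwz x (by simpa using hx)).trans_lt hx
  have hwm : MapsTo w (ball 0 1) (closedBall (w 0) 1) := by
    intro x hx
    rw [hw0, mem_closedBall_zero_iff]
    exact (hwlt x (by simpa using hx)).le
  have hderf : ∀ x : ℂ, ‖x‖ < 1 → deriv f x = deriv F (w x) * deriv w x := by
    intro x hx
    have hx' : x ∈ ball (0 : ℂ) 1 := by simpa using hx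
    have hev : f =ᶠ[𝓝 x] fun y => F (w y) :=
      eventually_of_mem (isOpen_ball.mem_nhds hx') hf
    rw [hev.deriv_eq]
    have hwx : w x ∈ ball (0 : ℂ) 1 := by simpa using hwlt x hx
    have h1 : DifferentiableAt ℂ F (w x) := hF.1.differentiableAt (isOpen_ball.mem_nhds hwx)
    have h2 : DifferentiableAt ℂ w x := hw.differentiableAt (isOpen_ball.mem_nhds hx')
    exact deriv_comp (h := w) (h₂ := F) x h1 h2
  set φ : ℂ → ℂ := dslope w 0 with hφ
  have hφd : DifferentiableOn ℂ φ (ball 0 1) := (differentiableOn_dslope (ball_mem_nhds _ one_pos)).2 hw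
  have hφ1 : ∀ x : ℂ, ‖x‖ < 1 → ‖φ x‖ ≤ 1 := by
    intro x hx
    have := norm_dslope_le_div_of_mapsTo_ball hw hwm (z := x) (by simpa using hx)
    simpa using this
  have hwφ : ∀ x : ℂ, w x = x * φ x := by
    intro x
    have := sub_smul_dslope w 0 x
    rw [hw0, sub_zero, sub_zero, smul_eq_mul] at this
    exact this.symm
  have hφ0 : φ 0 = deriv w 0 := by rw [hφ, dslope_same]
  have hder0 : deriv f 0 = deriv w 0 := by
    rw [hderf 0 (by simp), hw0, hF.2.2.1, one_mul]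
  set a : ℝ := (deriv f 0).re with ha
  have haφ : φ 0 = a := by
    rw [hφ0, ← hder0]
    apply Complex.ext
    · simp [ha]
    · simp [him]
  have ha1 : a ≤ 1 := by
    have := hφ1 0 (by simp)
    rw [haφ, Complex.norm_real, Real.norm_of_nonneg hre] at this
    exact this
  rcases ha1.eq_or_lt with ha1 | ha1
  · -- w = id
    have h1 : EqOn w (fun x => w 0 + (x - 0) • dslope w 0 0) (ball 0 1) :=
      affine_of_mapsTo_ball_of_norm_dslope_eq_div hw hwm (by simp) (by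
        rw [← hφ, haφ, ha1]; simp)
    have h2 : ∀ x ∈ ball (0 : ℂ) 1, w x = x := by
      intro x hx
      rw [h1 hx, ← hφ, haφ, ha1, hw0]; simp
    have hzb : z ∈ ball (0 : ℂ) 1 := by simpa using hr1
    have hev : w =ᶠ[𝓝 z] fun y => y := eventually_of_mem (isOpen_ball.mem_nhds hzb) h2
    rw [hderf z hr1, h2 z hzb, hev.deriv_eq]
    simp
  · rcases eq_or_ne z 0 with rfl | hz0
    · rw [hF.2.2.1, hder0, ← hφ0]
      simpa using hφ1 0 (by simp)
    -- main case
    have hr0 : 0 < ‖z‖ := norm_pos_iff.2 hz0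
    have hzb : z ∈ ball (0 : ℂ) 1 := by simpa using hr1
    have haφn : ∀ x : ℂ, ‖x‖ < 1 → (1 : ℂ) - a * φ x ≠ 0 := by
      intro x hx h
      have h1 : (a : ℂ) * φ x = 1 := (sub_eq_zero.1 h).symm
      have h2 : ‖(a : ℂ) * φ x‖ < 1 := by
        rw [norm_mul, Complex.norm_real, Real.norm_of_nonneg hre]
        have h3 := hφ1 x hx
        have h4 := norm_nonneg (φ x)
        nlinarith only [h3, h4, ha1, hre]
      rw [h1] at h2; simp at h2
    set ω : ℂ → ℂ := fun x => (a - φ x) / (1 - a * φ x) with hω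
    have hωd : DifferentiableOn ℂ ω (ball 0 1) := by
      apply DifferentiableOn.div
      · exact hφd.const_sub _
      · exact (hφd.const_mul _).const_sub _
      · intro x hx; exact haφn x (by simpa using hx)
    have hω0 : ω 0 = 0 := by simp [hω, haφ]
    have hωle1 : ∀ x : ℂ, ‖x‖ < 1 → ‖ω x‖ ≤ 1 := by
      intro x hx
      rw [hω]; simp only
      rw [norm_div, div_le_one (norm_pos_iff.2 (haφn x hx))]
      have h := Pool.Agent.Helper203.NS.mob_id (a : ℂ) (φ x)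
      rw [Complex.conj_ofReal, Complex.norm_real, Real.norm_of_nonneg hre] at h
      have h1 : 0 ≤ (1 - a ^ 2) * (1 - ‖φ x‖ ^ 2) := by
        have h3 := hφ1 x hx
        have h4 := norm_nonneg (φ x)
        apply mul_nonneg
        · nlinarith only [ha1, hre]
        · nlinarith only [h3, h4]
      rw [norm_sub_rev]
      apply le_of_sq_le_sq _ (norm_nonneg _)
      linarith
    have hωm : MapsTo ω (ball 0 1) (closedBall (ω 0) 1) := by
      intro x hx
      rw [hω0, mem_closedBall_zero_iff]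
      exact hωle1 x (by simpa using hx)
    have hωle : ∀ x : ℂ, ‖x‖ < 1 → ‖ω x‖ ≤ ‖x‖ := by
      intro x hx
      exact norm_le_norm_of_mapsTo_ball hωd (by rw [hω0] at hωm; exact hωm) hω0 hx
    set χ : ℂ → ℂ := dslope ω 0 with hχ
    have hχd : DifferentiableOn ℂ χ (ball 0 1) := (differentiableOn_dslope (ball_mem_nhds _ one_pos)).2 hωd
    have hχ1 : ∀ x : ℂ, ‖x‖ < 1 → ‖χ x‖ ≤ 1 := by
      intro x hx
      have := norm_dslope_le_div_of_mapsTo_ball hωd hωm (z := x) (by simpa using hx)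
      simpa using this
    have hωχ : ∀ x : ℂ, ω x = x * χ x := by
      intro x
      have := sub_smul_dslope ω 0 x
      rw [hω0, sub_zero, sub_zero, smul_eq_mul] at this
      exact this.symm
    have haωn : ∀ x : ℂ, ‖x‖ < 1 → (1 : ℂ) - a * ω x ≠ 0 := by
      intro x hx h
      have h1 : (a : ℂ) * ω x = 1 := (sub_eq_zero.1 h).symm
      have h2 : ‖(a : ℂ) * ω x‖ < 1 := by
        rw [norm_mul, Complex.norm_real, Real.norm_of_nonneg hre]
        have h3 := hωle1 x hx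
        have h4 := norm_nonneg (ω x)
        nlinarith only [h3, h4, ha1, hre]
      rw [h1] at h2; simp at h2
    have hφω : ∀ x : ℂ, ‖x‖ < 1 → φ x = (a - ω x) / (1 - a * ω x) := by
      intro x hx
      rw [eq_div_iff (haωn x hx)]
      have h1 : ω x * (1 - a * φ x) = a - φ x := by
        rw [hω]; simp only; exact div_mul_cancel₀ _ (haφn x hx)
      linear_combination h1
    have hwω : ∀ x : ℂ, ‖x‖ < 1 → w x = x * ((a - ω x) / (1 - a * ω x)) := by
      intro x hx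
      rw [hwφ x, hφω x hx]
    have hev : w =ᶠ[𝓝 z] fun x => x * ((a - ω x) / (1 - a * ω x)) :=
      eventually_of_mem (isOpen_ball.mem_nhds hzb) (fun x hx => hwω x (by simpa using hx))
    have hχz : HasDerivAt χ (deriv χ z) z := (hχd.differentiableAt (isOpen_ball.mem_nhds hzb)).hasDerivAt
    have hωz : HasDerivAt ω (χ z + z * deriv χ z) z := by
      have h1 : HasDerivAt (fun x => x * χ x) (1 * χ z + z * deriv χ z) z := (hasDerivAt_id z).fun_mul hχz
      have h2 : ω = fun x => x * χ x := funext hωχ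
      rw [h2]
      exact h1.congr_deriv (by ring)
    have hwz' : deriv w z * (1 - a * ω z) ^ 2 = a - 2 * ω z + a * ω z ^ 2 - (1 - (a : ℂ) ^ 2) * (z ^ 2 * deriv χ z) := by
      rw [hev.deriv_eq]
      have h1 : HasDerivAt (fun x => (a : ℂ) - ω x) (-(χ z + z * deriv χ z)) z := hωz.const_sub _
      have h2 : HasDerivAt (fun x => (1 : ℂ) - a * ω x) (-(a * (χ z + z * deriv χ z))) z :=
        (hωz.const_mul _).const_sub _
      have h3 := (hasDerivAt_id z).fun_mul (h1.fun_div h2 (haωn z hr1))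
      have h4 : (fun x => x * ((a - ω x) / (1 - a * ω x))) = (fun y => id y * ((a - ω y) / (1 - a * ω y))) := rfl
      rw [h4, h3.deriv]
      have h5 := haωn z hr1
      have h6 := hωχ z
      simp only [id_eq]
      field_simp
      rw [h6]
      ring
    have hE : ‖z ^ 2 * deriv χ z‖ * (1 - ‖z‖ ^ 2) ≤ ‖z‖ ^ 2 - ‖ω z‖ ^ 2 := by
      have h1 := sp_closed hχd hχ1 hr1
      rw [hωχ z, norm_mul, norm_mul, norm_pow]
      have h2 : 0 ≤ ‖z‖ ^ 2 := by positivity
      nlinarith only [mul_le_mul_of_nonneg_left h1 h2]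
    have hw1 : ‖w z‖ < 1 := hwlt z hr1
    have key := PWL rfl hr0 hr1 hr2 hα0 hrq hre ha1 (hωle z hr1) hE hwz' (hwω z hr1) hw1
    -- w z ≠ z
    have hwne : w z ≠ z := by
      intro h
      have h1 := hwφ z
      rw [h] at h1
      have h2 : φ z = 1 := by
        have : z * (φ z - 1) = 0 := by linear_combination -h1
        rcases mul_eq_zero.1 this with h3 | h3
        · exact absurd h3 hz0
        · exact sub_eq_zero.1 h3
      have h3 := hωle z hr1
      have h4 : ω z = -1 := by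
        rw [hω]; simp only
        rw [h2, mul_one]
        have : (1 : ℂ) - a ≠ 0 := by
          have := haφn z hr1
          rwa [h2, mul_one] at this
        field_simp
        ring
      rw [h4] at h3
      simp at h3
      linarith
    have hdist := distortion hF hr1 hw1 hwne
    rw [hderf z hr1, norm_mul]
    have hw2 : 0 < 1 - ‖w z‖ ^ 2 := by nlinarith only [hw1, norm_nonneg (w z)]
    set B : ℝ := ((1 + ‖(w z - z) / (1 - conj z * w z)‖) / (1 - ‖(w z - z) / (1 - conj z * w z)‖)) ^ α with hB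
    have fin : ‖deriv F (w z)‖ * ‖deriv w z‖ * (1 - ‖w z‖ ^ 2) ≤ ‖deriv F z‖ * (1 - ‖w z‖ ^ 2) := by
      calc ‖deriv F (w z)‖ * ‖deriv w z‖ * (1 - ‖w z‖ ^ 2)
          = ‖deriv w z‖ * (‖deriv F (w z)‖ * (1 - ‖w z‖ ^ 2)) := by ring
        _ ≤ ‖deriv w z‖ * (‖deriv F z‖ * (1 - ‖z‖ ^ 2) * B) :=
            mul_le_mul_of_nonneg_left hdist (norm_nonneg _)
        _ = ‖deriv F z‖ * (‖deriv w z‖ * (1 - ‖z‖ ^ 2) * B) := by ring
        _ ≤ ‖deriv F z‖ * (1 - ‖w z‖ ^ 2) := mul_le_mul_of_nonneg_left key (norm_nonneg _)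
    exact le_of_mul_le_mul_right fin hw2

end Pool.Agent.X89.CA
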