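import Pool.Agent.X89.QN4

set_option autoImplicit false

open Quaternion

namespace Pool.Agent.X89.QN

theorem exists_third {n : ℕ} (hn : 3 ≤ n) (i j : Fin n) : ∃ k : Fin n, i ≠ k ∧ j ≠ k := by
  by_contra hcon
  push Not at hcon
  have h1 : (Finset.univ : Finset (Fin n)) ⊆ {i, j} := by
    intro k _
    by_cases h : i = k
    · simp [h]
    · simp [hcon k h]
  have h2 := Finset.card_le_card h1
  have h3 : ({i, j} : Finset (Fin n)).card ≤ 2 := Finset.card_le_two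
  rw [Finset.card_univ, Fintype.card_fin] at h2
  omega

theorem alg5 {R : Type*} [Ring R] [Algebra ℝ R] {m p b c : R} (hm : p * m = 1) (a : ℝ) (x : R)
    (h : ((3/5:ℝ) • (1:R)) * (a • (1:R)) * ((3/5:ℝ) • (1:R)) + ((3/5:ℝ) • (1:R)) * b * ((4/5:ℝ) • m)
      + (((4/5:ℝ) • p) * c * ((3/5:ℝ) • (1:R)) + ((4/5:ℝ) • p) * (a • (1:R)) * ((4/5:ℝ) • m)) + x = 0)
    (hx : x = -(a • (1:R))) : b * m + p * c = 0 := by
  have e : (12/25 : ℝ) • (b * m + p * c) = 0 := by
    rw [hx] at h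
    rw [← h]
    simp only [smul_mul_assoc, mul_smul_comm, one_mul, mul_one, hm]
    module
  rcases smul_eq_zero.1 e with h1 | h1
  · norm_num at h1
  · exact h1

theorem three_only_if {n : ℕ} (hn : 3 ≤ n) {φ : ℍ[ℝ] →ₗ[ℝ] ℍ[ℝ]} (hφ : IsInvolution φ) {q : ℍ[ℝ]}
    (hf : ∀ x, φ x = -(q * star x * q)) (hq : q * q = -1)
    (A : Matrix (Fin n) (Fin n) ℍ[ℝ]) (hb : Bornology.IsBounded (W φ 1 A)) :
    ∃ a : ℝ, A = a • (1 : Matrix (Fin n) (Fin n) ℍ[ℝ]) := by
  have hφ1 : φ 1 = 1 := by rw [hf]; simp [hq]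
  have hφq : φ q = -q := by
    rw [hf, star_of_sq hq, mul_neg, neg_mul, neg_neg, hq]; simp
  obtain ⟨w, hw, hwq⟩ := exists_w hq
  have hw' : (q * w) * (q * w) = -1 := by
    calc (q * w) * (q * w) = q * (w * q) * w := by simp only [mul_assoc]
      _ = -((q * q) * (w * w)) := by rw [hwq]; simp only [mul_neg, neg_mul, mul_assoc]
      _ = -1 := by rw [hq, hw]; simp
  have hwq' : (q * w) * q = -(q * (q * w)) := by
    rw [mul_assoc, hwq, mul_neg]
  have hw0 : w ≠ 0 := by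
    intro h0; rw [h0] at hw; simp at hw
  have hq0 : q ≠ 0 := by
    intro h0; rw [h0] at hq; simp at hq
  have P := pair hφ hf hq hw hwq A hb
  have P' := pair hφ hf hq hw' hwq' A hb
  have diag : ∀ i j, A i i = A j j := by
    intro i j
    obtain ⟨k, hik, hjk⟩ := exists_third hn i j
    rw [eq_neg_of_add_eq_zero_left (P i k hik).2.2, eq_neg_of_add_eq_zero_left (P j k hjk).2.2]
  set i0 : Fin n := ⟨0, by omega⟩ with hi0
  obtain ⟨a, ha⟩ : ∃ a : ℝ, A i0 i0 = (a : ℍ[ℝ]) := by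
    obtain ⟨k, hk, -⟩ := exists_third hn i0 i0
    obtain ⟨p1, -, p3⟩ := P i0 k hk
    refine real_of_comm hq hw hwq p1 ?_
    rw [diag k i0] at p3
    have : w * (A i0 i0 + w * A i0 i0 * w) = 0 := by rw [p3]; simp
    rw [mul_add, ← mul_assoc, ← mul_assoc, hw] at this
    have h2 : w * A i0 i0 - A i0 i0 * w = 0 := by
      rw [← this]; simp [sub_eq_add_neg]
    exact sub_eq_zero.1 h2
  have hd : ∀ i, A i i = a • (1 : ℍ[ℝ]) := by
    intro i
    rw [diag i i0, ha, ← coe_mul_eq_smul, mul_one]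
  have off : ∀ i j, i ≠ j → A i j = 0 := by
    intro i j hij
    obtain ⟨k, hik, hjk⟩ := exists_third hn i j
    have X : ∀ m : ℍ[ℝ], φ m * m = 1 → A i j * m + φ m * A j i = 0 := by
      intro m hm
      have hv : ∀ M : Matrix (Fin n) (Fin n) ℍ[ℝ],
          B φ M (Pi.single i ((3/5:ℝ) • (1:ℍ[ℝ])) + Pi.single j ((4/5:ℝ) • m))
            (Pi.single i ((3/5:ℝ) • (1:ℍ[ℝ])) + Pi.single j ((4/5:ℝ) • m)) =
          ((3/5:ℝ) • (1:ℍ[ℝ])) * M i i * ((3/5:ℝ) • (1:ℍ[ℝ])) + ((3/5:ℝ) • (1:ℍ[ℝ])) * M i j * ((4/5:ℝ) • m)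
      + (((4/5:ℝ) • φ m) * M j i * ((3/5:ℝ) • (1:ℍ[ℝ])) + ((4/5:ℝ) • φ m) * M j j * ((4/5:ℝ) • m)) := by
        intro M
        rw [B_add_left, B_add_right, B_add_right, B_single, B_single, B_single, B_single, map_smul,
          map_smul, hφ1]
      have h1 := key hφ hf hq hw hwq A hb
        (Pi.single i ((3/5:ℝ) • (1:ℍ[ℝ])) + Pi.single j ((4/5:ℝ) • m)) k ?_ ?_
      · obtain ⟨-, -, h2⟩ := h1
        rw [hv, hd i, hd j, hd k] at h2
        refine alg5 hm a (w * (a • 1) * w) h2 ?_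
        rw [mul_smul_comm, smul_mul_assoc, mul_one, hw, smul_neg]
      · rw [← form_one, hv, Matrix.one_apply_eq, Matrix.one_apply_eq, Matrix.one_apply_ne hij,
          Matrix.one_apply_ne hij.symm]
        simp only [smul_mul_assoc, mul_smul_comm, one_mul, mul_one, mul_zero, zero_mul, smul_zero, hm]
        module
      · rw [Pi.add_apply, Pi.single_eq_of_ne hik.symm, Pi.single_eq_of_ne hjk.symm, add_zero]
    have x1 := X 1 (by rw [hφ1, one_mul])
    have x2 := X q (by rw [hφq, neg_mul, hq, neg_neg])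
    rw [hφ1, mul_one, one_mul] at x1
    have hji : A j i = -A i j := eq_neg_of_add_eq_zero_right x1
    have c1 : A i j * w = w * A i j := by
      have := (P i j hij).2.1
      rw [hji, mul_neg, ← sub_eq_add_neg] at this
      exact sub_eq_zero.1 this
    have c2 : A i j * (q * w) = (q * w) * A i j := by
      have := (P' i j hij).2.1
      rw [hji, mul_neg, ← sub_eq_add_neg] at this
      exact sub_eq_zero.1 this
    have c3 : A i j * q = q * A i j := by
      apply mul_right_cancel₀ hw0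
      rw [mul_assoc, c2, mul_assoc, ← c1, mul_assoc]
    rw [hφq, hji, neg_mul_neg, c3, ← two_smul ℝ] at x2
    rcases smul_eq_zero.1 x2 with h | h
    · norm_num at h
    · rcases mul_eq_zero.1 h with h | h
      · exact absurd h hq0
      · exact h
  refine ⟨a, Matrix.ext fun i j => ?_⟩
  by_cases hij : i = j
  · subst hij
    rw [hd i, Matrix.smul_apply, Matrix.one_apply_eq]
  · rw [off i j hij, Matrix.smul_apply, Matrix.one_apply_ne hij, smul_zero]

theorem scalar_if {n : ℕ} {φ : ℍ[ℝ] →ₗ[ℝ] ℍ[ℝ]} (a : ℝ) :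
    Bornology.IsBounded (W φ 1 (a • (1 : Matrix (Fin n) (Fin n) ℍ[ℝ]))) := by
  rw [isBounded_iff_forall_norm_le]
  refine ⟨|a|, ?_⟩
  rintro z ⟨x, hx, rfl⟩
  have h1 : ∑ i, ∑ j, φ (x i) * (a • (1 : Matrix (Fin n) (Fin n) ℍ[ℝ])) i j * x j = a • (1 : ℍ[ℝ]) := by
    have h2 : ∑ i, φ (x i) * x i = 1 := hx
    rw [← h2, Finset.smul_sum]
    refine Finset.sum_congr rfl fun i _ => ?_
    rw [Finset.sum_eq_single i]
    · rw [Matrix.smul_apply, Matrix.one_apply_eq, mul_smul_comm, smul_mul_assoc, mul_one]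
    · intro b _ hb; rw [Matrix.smul_apply, Matrix.one_apply_ne' hb]; simp
    · intro h; exact absurd (Finset.mem_univ _) h
  rw [h1, norm_smul, norm_one, mul_one, Real.norm_eq_abs]

theorem scale {n : ℕ} {φ : ℍ[ℝ] →ₗ[ℝ] ℍ[ℝ]} (hm : ∀ x y, φ (x * y) = φ y * φ x) {q : ℍ[ℝ]}
    (hf : ∀ x, φ x = -(q * star x * q)) (hq : q * q = -1) {α l : ℍ[ℝ]} (hl : φ l * l = α)
    (h0 : l ≠ 0) (A : Matrix (Fin n) (Fin n) ℍ[ℝ]) :
    Bornology.IsBounded (W φ α A) ↔ Bornology.IsBounded (W φ 1 A) := by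
  have hφ1 : φ 1 = 1 := by rw [hf]; simp [hq]
  have hln : 0 < ‖l‖ := norm_pos_iff.2 h0
  rw [isBounded_iff_forall_norm_le, isBounded_iff_forall_norm_le]
  constructor
  · rintro ⟨C, hC⟩
    refine ⟨C / (‖l‖ * ‖l‖), ?_⟩
    rintro z ⟨x, hx, rfl⟩
    have h1 := hC (B φ A (fun i => x i * l) (fun i => x i * l)) ⟨fun i => x i * l, by
      show ∑ i, φ (x i * l) * (x i * l) = α
      have h2 : ∑ i, φ (x i) * x i = 1 := hx
      calc ∑ i, φ (x i * l) * (x i * l) = φ l * (∑ i, φ (x i) * x i) * l := by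
            rw [Finset.mul_sum, Finset.sum_mul]
            refine Finset.sum_congr rfl fun i _ => ?_
            rw [hm]; simp only [mul_assoc]
        _ = α := by rw [h2, mul_one, hl], rfl⟩
    rw [B_mul_left A hm, B_mul_right, norm_mul, norm_mul, norm_phi hf hq] at h1
    rw [le_div_iff₀ (mul_pos hln hln)]
    calc _ = ‖l‖ * (‖B φ A x x‖ * ‖l‖) := by unfold B; ring
      _ ≤ C := h1
  · rintro ⟨C, hC⟩
    refine ⟨C * (‖l‖ * ‖l‖), ?_⟩
    rintro z ⟨x, hx, rfl⟩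
    have h1 := hC (B φ A (fun i => x i * l⁻¹) (fun i => x i * l⁻¹)) ⟨fun i => x i * l⁻¹, by
      show ∑ i, φ (x i * l⁻¹) * (x i * l⁻¹) = 1
      have h2 : ∑ i, φ (x i) * x i = α := hx
      calc ∑ i, φ (x i * l⁻¹) * (x i * l⁻¹) = φ l⁻¹ * (∑ i, φ (x i) * x i) * l⁻¹ := by
            rw [Finset.mul_sum, Finset.sum_mul]
            refine Finset.sum_congr rfl fun i _ => ?_
            rw [hm]; simp only [mul_assoc]
        _ = 1 := by
            rw [h2, ← hl, mul_assoc, mul_assoc, mul_inv_cancel₀ h0, mul_one, ← hm,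
              mul_inv_cancel₀ h0, hφ1], rfl⟩
    rw [B_mul_left A hm, B_mul_right, norm_mul, norm_mul, norm_phi hf hq, norm_inv] at h1
    have h3 : ‖B φ A x x‖ = (‖l‖⁻¹ * (‖B φ A x x‖ * ‖l‖⁻¹)) * (‖l‖ * ‖l‖) := by
      field_simp
    calc _ = ‖B φ A x x‖ := rfl
      _ = _ := h3
      _ ≤ _ := mul_le_mul_of_nonneg_right h1 (by positivity)

theorem exists_root {φ : ℍ[ℝ] →ₗ[ℝ] ℍ[ℝ]} {q : ℍ[ℝ]}
    (hf : ∀ x, φ x = -(q * star x * q)) (hq : q * q = -1) {α : ℍ[ℝ]} (hα : φ α = α) (h0 : α ≠ 0) :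
    ∃ l : ℍ[ℝ], l ≠ 0 ∧ φ l * l = α := by
  have hφ1 : φ 1 = 1 := by rw [hf]; simp [hq]
  set r := ‖α‖ with hr
  have hrp : 0 < r := norm_pos_iff.2 h0
  have hsq : α * α = (2 * α.re) • α - (r * r) • (1 : ℍ[ℝ]) := by
    have h1 : star α * α = (r * r) • (1 : ℍ[ℝ]) := by
      rw [star_mul_self, normSq_eq_norm_mul_self, ← coe_mul_eq_smul, mul_one]
    have h2 : α + star α = (2 * α.re) • (1 : ℍ[ℝ]) := by
      rw [← coe_two_re, ← coe_mul_eq_smul, mul_one]
    rw [← h1]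
    have h3 : (α + star α) * α = (2 * α.re) • α := by rw [h2]; simp
    rw [← h3, add_mul]; abel
  have hn2 : normSq α = r * r := normSq_eq_norm_mul_self α
  have hle : 0 ≤ α.re + r := by
    have h1 : α.re ^ 2 ≤ r * r := by
      rw [← hn2, normSq_def']
      nlinarith [sq_nonneg α.imI, sq_nonneg α.imJ, sq_nonneg α.imK]
    have h2 : |α.re| ≤ r := abs_le_of_sq_le_sq (by linarith) hrp.le
    linarith [neg_abs_le α.re]
  rcases hle.lt_or_eq with hpos | hzero
  · set D := Real.sqrt (2 * (α.re + r)) with hD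
    have hDp : 0 < D := Real.sqrt_pos.2 (by linarith)
    have hDD : D * D = 2 * (α.re + r) := Real.mul_self_sqrt (by linarith)
    set l : ℍ[ℝ] := D⁻¹ • (α + r • (1 : ℍ[ℝ])) with hl
    have h1 : φ l = l := by
      rw [hl, map_smul, map_add, map_smul, hα, hφ1]
    have h2 : l * l = α := by
      have h3 : (α + r • (1 : ℍ[ℝ])) * (α + r • (1 : ℍ[ℝ])) = (2 * (α.re + r)) • α := by
        rw [add_mul, mul_add, mul_add, hsq]
        simp only [smul_mul_assoc, mul_smul_comm, one_mul, mul_one]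
        module
      rw [hl, smul_mul_smul_comm, h3, ← hDD, smul_smul]
      have : D⁻¹ * D⁻¹ * (D * D) = 1 := by field_simp
      rw [this, one_smul]
    refine ⟨l, ?_, by rw [h1, h2]⟩
    intro hl0
    rw [hl0] at h2
    simp at h2
    exact h0 h2.symm
  · obtain ⟨w, hw, hwq⟩ := exists_w hq
    have hφw := phi_w hf hq hw hwq
    have him : α = -(r • (1 : ℍ[ℝ])) := by
      have h1 : α.re = -r := by linarith
      rw [normSq_def', h1] at hn2
      have h2 : α.imI ^ 2 + α.imJ ^ 2 + α.imK ^ 2 = 0 := by nlinarith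
      have i1 : α.imI = 0 := by nlinarith [sq_nonneg α.imI, sq_nonneg α.imJ, sq_nonneg α.imK]
      have i2 : α.imJ = 0 := by nlinarith [sq_nonneg α.imI, sq_nonneg α.imJ, sq_nonneg α.imK]
      have i3 : α.imK = 0 := by nlinarith [sq_nonneg α.imI, sq_nonneg α.imJ, sq_nonneg α.imK]
      apply Quaternion.ext
      · simp [h1]
      · simp [i1]
      · simp [i2]
      · simp [i3]
    refine ⟨Real.sqrt r • w, ?_, ?_⟩
    · intro h
      rcases smul_eq_zero.1 h with h | h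
      · exact (Real.sqrt_pos.2 hrp).ne' h
      · rw [h] at hw; simp at hw
    · rw [map_smul, hφw, smul_mul_smul_comm, hw, Real.mul_self_sqrt hrp.le, him, smul_neg]

theorem one_bdd {φ : ℍ[ℝ] →ₗ[ℝ] ℍ[ℝ]} {α : ℍ[ℝ]} (h0 : α ≠ 0) {n : ℕ} (hn : n ≤ 1)
    (A : Matrix (Fin n) (Fin n) ℍ[ℝ]) : Bornology.IsBounded (W φ α A) := by
  interval_cases n
  · rw [isBounded_iff_forall_norm_le]
    refine ⟨0, ?_⟩
    rintro z ⟨x, hx, rfl⟩
    have h2 : ∑ i, φ (x i) * x i = α := hx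
    rw [Finset.sum_of_isEmpty] at h2
    exact absurd h2.symm h0
  · rw [isBounded_iff_forall_norm_le]
    refine ⟨‖α‖ * ‖A 0 0‖, ?_⟩
    rintro z ⟨x, hx, rfl⟩
    have h2 : ∑ i, φ (x i) * x i = α := hx
    rw [Fin.sum_univ_one] at h2
    rw [Fin.sum_univ_one, Fin.sum_univ_one, norm_mul, norm_mul, ← h2, norm_mul]
    apply le_of_eq; ring

end Pool.Agent.X89.QN
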