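import Mathlib

set_option autoImplicit false

namespace Pool.Agent.X89.MT

open Matrix Finset
open scoped ComplexOrder

theorem pointwise {κ ι : Type} [Fintype κ] [DecidableEq κ] [Fintype ι] [DecidableEq ι]
    (C : Matrix κ ι ℂ) (μ : κ → ℝ) (hμ : ∀ k, 0 ≤ μ k)
    (hC : C * Cᴴ = diagonal (fun k => (μ k : ℂ))) (g : ι → ℝ) (hg0 : ∀ a, 0 ≤ g a)
    (hg : ∀ a, (Cᴴ * C) a a = g a) (t : ℝ) (ht : 0 < t) :
    ∑ a, g a / (g a + t) - ∑ a, ∑ b, (if a = b then 0 else
      ‖(Cᴴ * C) a b‖ ^ 2 / ((g a + t) * (g b + t))) ≤ ∑ k, μ k / (μ k + t) := by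
  have htC : (t : ℂ) ≠ 0 := by exact_mod_cast ht.ne'
  have hgt : ∀ a, g a + t ≠ 0 := fun a => by have := hg0 a; positivity
  have hμt : ∀ k, μ k + t ≠ 0 := fun k => by have := hμ k; positivity
  have hgtC : ∀ a, (g a : ℂ) + t ≠ 0 := fun a => by exact_mod_cast hgt a
  have hμtC : ∀ k, (μ k : ℂ) + t ≠ 0 := fun k => by exact_mod_cast hμt k
  set G : Matrix ι ι ℂ := Cᴴ * C with hG
  set Dt : Matrix κ κ ℂ := diagonal (fun k => ((1 / (μ k + t) : ℝ) : ℂ)) with hDt
  set X : Matrix ι ι ℂ := Cᴴ * Dt * C with hX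
  set Y : Matrix ι ι ℂ := (1 / (t : ℂ)) • G with hY
  set Q : Matrix ι ι ℂ := diagonal (fun a => ((t / (g a + t) : ℝ) : ℂ)) with hQ
  have hGh : Gᴴ = G := by rw [hG, conjTranspose_mul, conjTranspose_conjTranspose]
  have key : Y = X + Y * X := by
    have e1 : G * X = Cᴴ * (diagonal (fun k => (μ k : ℂ)) * Dt) * C := by
      rw [hG, hX, ← hC]; simp only [Matrix.mul_assoc]
    have e2 : Dt + (1 / (t : ℂ)) • (diagonal (fun k => (μ k : ℂ)) * Dt) = (1 / (t : ℂ)) • 1 := by
      rw [hDt, diagonal_mul_diagonal, ← diagonal_smul, diagonal_add, ← diagonal_one, ← diagonal_smul]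
      congr 1
      ext k
      have := hμtC k
      simp only [Pi.smul_apply, smul_eq_mul]
      push_cast
      field_simp
      ring
    calc Y = Cᴴ * ((1 / (t : ℂ)) • (1 : Matrix κ κ ℂ)) * C := by
          rw [hY, hG, Matrix.mul_smul, Matrix.smul_mul, Matrix.mul_one]
      _ = Cᴴ * (Dt + (1 / (t : ℂ)) • (diagonal (fun k => (μ k : ℂ)) * Dt)) * C := by rw [e2]
      _ = X + Y * X := by
          rw [hY, Matrix.smul_mul, e1, Matrix.mul_add, Matrix.add_mul, Matrix.mul_smul, Matrix.smul_mul]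
  have hMZ : (1 + Y) * (1 - X) = 1 := by
    have : (1 + Y) * (1 - X) = 1 + (Y - (X + Y * X)) := by noncomm_ring
    rw [this, ← key, sub_self, add_zero]
  have hDth : Dtᴴ = Dt := by
    rw [hDt, diagonal_conjTranspose]; congr 1; ext k
    simp only [Pi.star_apply]
    exact Complex.conj_ofReal _
  have hXh : Xᴴ = X := by
    rw [hX, conjTranspose_mul, conjTranspose_mul, hDth, conjTranspose_conjTranspose, Matrix.mul_assoc]
  have hYh : Yᴴ = Y := by
    rw [hY, conjTranspose_smul, hGh]
    congr 1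
    simp
  have hZM : (1 - X) * (1 + Y) = 1 := by
    have := congrArg conjTranspose hMZ
    rwa [conjTranspose_mul, conjTranspose_one, conjTranspose_sub, conjTranspose_add, hXh, hYh,
      conjTranspose_one] at this
  have hQh : Qᴴ = Q := by
    rw [hQ, diagonal_conjTranspose]; congr 1; ext k
    simp only [Pi.star_apply]
    exact Complex.conj_ofReal _
  -- positivity
  have hMpsd : (1 + Y).PosSemidef := by
    apply PosSemidef.one.add
    rw [hY, hG]
    apply (posSemidef_conjTranspose_mul_self C).smul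
    have : (0 : ℂ) ≤ ((1 / t : ℝ) : ℂ) := by
      rw [Complex.zero_le_real]; positivity
    simpa using this
  set W : Matrix ι ι ℂ := Q - (1 - X) with hW
  have hWh : Wᴴ = W := by
    rw [hW, conjTranspose_sub, conjTranspose_sub, conjTranspose_one, hQh, hXh]
  have hpos : 0 ≤ (trace (G * (W * (1 + Y) * W))).re := by
    have h1 : ((C * W) * (1 + Y) * (C * W)ᴴ).PosSemidef := hMpsd.mul_mul_conjTranspose_same (C * W)
    have h2 : trace ((C * W) * (1 + Y) * (C * W)ᴴ) = trace (G * (W * (1 + Y) * W)) := by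
      rw [conjTranspose_mul, hWh, hG]
      rw [← Matrix.mul_assoc (C * W * (1 + Y)) W Cᴴ, trace_mul_comm]
      simp only [Matrix.mul_assoc]
    rw [← h2]
    have := h1.trace_nonneg
    exact (Complex.le_def.1 this).1
  have hK : W * (1 + Y) * W = Q * (1 + Y) * Q - Q - Q + (1 - X) := by
    rw [hW]
    have : (Q - (1 - X)) * (1 + Y) * (Q - (1 - X)) = Q * (1 + Y) * Q - Q * ((1 + Y) * (1 - X))
      - ((1 - X) * (1 + Y)) * Q + (1 - X) * ((1 + Y) * (1 - X)) := by noncomm_ring
    rw [this, hMZ, hZM, mul_one, one_mul, mul_one]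
  have hGY : G = (t : ℂ) • ((1 + Y) - 1) := by
    rw [add_sub_cancel_left, hY, smul_smul, mul_one_div_cancel htC, one_smul]
  have htr : trace (G * (W * (1 + Y) * W)) = (t : ℂ) * (trace ((1 + Y) * Q * ((1 + Y) * Q))
      - 2 * trace ((1 + Y) * Q) + trace (1 : Matrix ι ι ℂ)
      - (trace (Q * (1 + Y) * Q) - 2 * trace Q + trace (1 - X))) := by
    rw [hK, hGY, Matrix.smul_mul, trace_smul, smul_eq_mul]
    congr 1
    have : (1 + Y - 1) * (Q * (1 + Y) * Q - Q - Q + (1 - X)) =
        (1 + Y) * Q * ((1 + Y) * Q) - (1 + Y) * Q - (1 + Y) * Q + (1 + Y) * (1 - X)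
        - (Q * (1 + Y) * Q - Q - Q + (1 - X)) := by noncomm_ring
    rw [this, hMZ]
    simp only [trace_add, trace_sub]
    ring
  -- entries
  have hMaa : ∀ a, (1 + Y) a a = ((g a + t) / t : ℝ) := by
    intro a
    rw [Matrix.add_apply, one_apply_eq, hY, Matrix.smul_apply, hg, smul_eq_mul]
    push_cast
    field_simp
    ring
  have t1 : trace ((1 + Y) * Q) = (Fintype.card ι : ℂ) := by
    have : ∀ a, ((1 + Y) * Q) a a = 1 := by
      intro a
      rw [hQ, mul_diagonal, hMaa]
      have := hgtC a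
      push_cast
      field_simp
    rw [trace]
    simp only [diag_apply, this, sum_const, card_univ, nsmul_eq_mul, mul_one]
  have t2 : trace (Q * (1 + Y) * Q) = trace Q := by
    have : ∀ a, (Q * (1 + Y) * Q) a a = Q a a := by
      intro a
      rw [hQ, mul_diagonal, diagonal_mul, hMaa, diagonal_apply_eq]
      have := hgtC a
      push_cast
      field_simp
    rw [trace, trace]
    simp only [diag_apply, this]
  have t3 : trace (1 - X) = (Fintype.card ι : ℂ) - ((∑ k, μ k / (μ k + t) : ℝ) : ℂ) := by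
    rw [trace_sub, trace_one, hX, Matrix.mul_assoc, trace_mul_comm, Matrix.mul_assoc, hC, hDt,
      diagonal_mul_diagonal, trace_diagonal]
    push_cast
    congr 1
    refine Finset.sum_congr rfl fun k _ => ?_
    rw [one_div, mul_comm, ← div_eq_mul_inv]
  have t4 : trace Q = ((∑ a, t / (g a + t) : ℝ) : ℂ) := by
    rw [hQ, trace_diagonal]; push_cast; rfl
  have t5 : (trace ((1 + Y) * Q * ((1 + Y) * Q))) = (((Fintype.card ι : ℝ) + ∑ a, ∑ b, (if a = b then 0 else
      ‖G a b‖ ^ 2 / ((g a + t) * (g b + t))) : ℝ) : ℂ) := by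
    have e0 : ∀ a b, ((1 + Y) * Q) a b * ((1 + Y) * Q) b a = (((if a = b then 1 else 0) + (if a = b then 0 else
      ‖G a b‖ ^ 2 / ((g a + t) * (g b + t))) : ℝ) : ℂ) := by
      intro a b
      rw [hQ, mul_diagonal, mul_diagonal]
      by_cases hab : a = b
      · subst hab
        rw [hMaa, if_pos rfl, if_pos rfl]
        have := hgtC a
        push_cast
        field_simp
        ring
      · rw [if_neg hab, if_neg hab, Matrix.add_apply, Matrix.add_apply, one_apply_ne hab,
          one_apply_ne (Ne.symm hab), hY, Matrix.smul_apply, Matrix.smul_apply, zero_add, zero_add,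
          smul_eq_mul, smul_eq_mul]
        have hba : G b a = star (G a b) := by
          conv_lhs => rw [← hGh]
          rfl
        have hn : G a b * G b a = ((‖G a b‖ ^ 2 : ℝ) : ℂ) := by
          rw [hba]
          have := Complex.mul_conj (G a b)
          rw [Complex.normSq_eq_norm_sq] at this
          exact this
        have h1 := hgtC a
        have h2 := hgtC b
        have : (1 / (t : ℂ) * G a b * ((t / (g b + t) : ℝ) : ℂ)) * (1 / (t : ℂ) * G b a * ((t / (g a + t) : ℝ) : ℂ))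
          = (G a b * G b a) * (1 / (((g a : ℂ) + t) * (g b + t))) := by
          push_cast
          field_simp
        rw [this, hn]
        push_cast
        ring
    have e1 : trace ((1 + Y) * Q * ((1 + Y) * Q)) = ((∑ a, ∑ b, ((if a = b then 1 else 0) + (if a = b then 0 else
      ‖G a b‖ ^ 2 / ((g a + t) * (g b + t)))) : ℝ) : ℂ) := by
      rw [trace, Complex.ofReal_sum]
      refine Finset.sum_congr rfl fun a _ => ?_
      rw [diag_apply, Matrix.mul_apply (M := (1 + Y) * Q) (N := (1 + Y) * Q), Complex.ofReal_sum]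
      exact Finset.sum_congr rfl fun b _ => e0 a b
    rw [e1]
    congr 1
    simp only [Finset.sum_add_distrib]
    congr 1
    simp
  rw [htr, t1, t2, t3, t4, t5, trace_one] at hpos
  have hre : ((t : ℂ) * ((((Fintype.card ι : ℝ) + ∑ a, ∑ b, (if a = b then 0 else
      ‖G a b‖ ^ 2 / ((g a + t) * (g b + t))) : ℝ) : ℂ) - 2 * (Fintype.card ι : ℂ) + (Fintype.card ι : ℂ)
      - (((∑ a, t / (g a + t) : ℝ) : ℂ) - 2 * ((∑ a, t / (g a + t) : ℝ) : ℂ) +
        ((Fintype.card ι : ℂ) - ((∑ k, μ k / (μ k + t) : ℝ) : ℂ))))) =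
      ((t * ((∑ a, ∑ b, (if a = b then 0 else
      ‖G a b‖ ^ 2 / ((g a + t) * (g b + t)))) + (∑ a, t / (g a + t)) - (Fintype.card ι : ℝ) +
        (∑ k, μ k / (μ k + t))) : ℝ) : ℂ) := by
    push_cast; ring
  rw [hre, Complex.ofReal_re] at hpos
  have hpos2 := nonneg_of_mul_nonneg_right hpos ht
  have h6 : ∑ a, g a / (g a + t) = (Fintype.card ι : ℝ) - ∑ a, t / (g a + t) := by
    have : ∀ a, g a / (g a + t) = 1 - t / (g a + t) := by
      intro a
      have := hgt a
      field_simp
      ring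
    simp only [this, Finset.sum_sub_distrib, sum_const, card_univ, nsmul_eq_mul, mul_one]
  linarith

end Pool.Agent.X89.MT
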