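import Mathlib

set_option autoImplicit false

namespace Pool.Agent.X89.MT

open MeasureTheory Set Filter Topology

lemma tendsto_arctan_div (x : ℝ) (hx : 0 < x) :
    Tendsto (fun s : ℝ => Real.arctan (s / x)) atTop (𝓝 (Real.pi / 2)) :=
  (tendsto_nhds_of_tendsto_nhdsWithin Real.tendsto_arctan_atTop).comp
    (tendsto_id.atTop_div_const hx)

lemma hasDerivAt_arctan_div (x s : ℝ) (hx : 0 < x) :
    HasDerivAt (fun s : ℝ => Real.arctan (s / x)) (x / (x ^ 2 + s ^ 2)) s := by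
  have h := (Real.hasDerivAt_arctan (s / x)).comp s ((hasDerivAt_id s).div_const x)
  have e : x / (x ^ 2 + s ^ 2) = 1 / (1 + (s / x) ^ 2) * (1 / x) := by
    have : x ^ 2 + s ^ 2 ≠ 0 := by positivity
    field_simp
  rw [e]
  exact h

lemma int1 (x : ℝ) (hx : 0 ≤ x) :
    IntegrableOn (fun s : ℝ => x ^ 2 / (x ^ 2 + s ^ 2)) (Ioi 0) ∧
      ∫ s in Ioi (0 : ℝ), x ^ 2 / (x ^ 2 + s ^ 2) = Real.pi / 2 * x := by
  rcases hx.eq_or_lt with rfl | hx
  · simp
  have hd : ∀ s ∈ Ioi (0 : ℝ), HasDerivAt (fun s : ℝ => x * Real.arctan (s / x)) (x ^ 2 / (x ^ 2 + s ^ 2)) s := by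
    intro s _
    have h := (hasDerivAt_arctan_div x s hx).const_mul x
    have e : x ^ 2 / (x ^ 2 + s ^ 2) = x * (x / (x ^ 2 + s ^ 2)) := by ring
    rw [e]
    exact h
  have hc : ContinuousWithinAt (fun s : ℝ => x * Real.arctan (s / x)) (Ici 0) 0 := by
    apply Continuous.continuousWithinAt
    fun_prop
  have hl : Tendsto (fun s : ℝ => x * Real.arctan (s / x)) atTop (𝓝 (x * (Real.pi / 2))) :=
    (tendsto_arctan_div x hx).const_mul x
  have hp : ∀ s ∈ Ioi (0 : ℝ), 0 ≤ x ^ 2 / (x ^ 2 + s ^ 2) := fun s _ => by positivity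
  refine ⟨integrableOn_Ioi_deriv_of_nonneg hc hd hp hl, ?_⟩
  rw [integral_Ioi_of_hasDerivAt_of_nonneg hc hd hp hl]
  simp
  ring

lemma int2 (x y : ℝ) (hx : 0 ≤ x) (hy : 0 ≤ y) :
    IntegrableOn (fun s : ℝ => x ^ 2 * y ^ 2 / ((x ^ 2 + s ^ 2) * (y ^ 2 + s ^ 2))) (Ioi 0) ∧
      ∫ s in Ioi (0 : ℝ), x ^ 2 * y ^ 2 / ((x ^ 2 + s ^ 2) * (y ^ 2 + s ^ 2)) =
        Real.pi / 2 * (x * y / (x + y)) := by
  rcases hx.eq_or_lt with rfl | hx
  · simp
  rcases hy.eq_or_lt with rfl | hy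
  · simp
  by_cases hxy : x = y
  · subst hxy
    have hd : ∀ s ∈ Ioi (0 : ℝ), HasDerivAt (fun s : ℝ => x ^ 2 / 2 * (s / (s ^ 2 + x ^ 2)) +
        x / 2 * Real.arctan (s / x)) (x ^ 2 * x ^ 2 / ((x ^ 2 + s ^ 2) * (x ^ 2 + s ^ 2))) s := by
      intro s _
      have h0 : s ^ 2 + x ^ 2 ≠ 0 := by positivity
      have h1 := ((hasDerivAt_id s).div (((hasDerivAt_pow 2 s).add_const (x ^ 2))) h0).const_mul (x ^ 2 / 2)
      have h2 := (hasDerivAt_arctan_div x s hx).const_mul (x / 2)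
      have h3 := h1.add h2
      have h4 : x ^ 2 + s ^ 2 ≠ 0 := by positivity
      have e : x ^ 2 * x ^ 2 / ((x ^ 2 + s ^ 2) * (x ^ 2 + s ^ 2)) =
          x ^ 2 / 2 * ((1 * (s ^ 2 + x ^ 2) - s * ((2 : ℕ) * s ^ (2 - 1))) / (s ^ 2 + x ^ 2) ^ 2) +
          x / 2 * (x / (x ^ 2 + s ^ 2)) := by
        have h5 : s ^ 2 + x ^ 2 = x ^ 2 + s ^ 2 := by ring
        rw [h5]
        push_cast
        field_simp
        ring
      rw [e]
      exact h3
    have hc : ContinuousWithinAt (fun s : ℝ => x ^ 2 / 2 * (s / (s ^ 2 + x ^ 2)) +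
        x / 2 * Real.arctan (s / x)) (Ici 0) 0 := by
      apply Continuous.continuousWithinAt
      apply Continuous.add
      · apply Continuous.mul continuous_const
        apply Continuous.div continuous_id (by fun_prop)
        intro s; positivity
      · fun_prop
    have hl : Tendsto (fun s : ℝ => x ^ 2 / 2 * (s / (s ^ 2 + x ^ 2)) +
        x / 2 * Real.arctan (s / x)) atTop (𝓝 (x ^ 2 / 2 * 0 + x / 2 * (Real.pi / 2))) := by
      apply Tendsto.add
      · apply Tendsto.const_mul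
        have h5 : Tendsto (fun s : ℝ => 1 / s) atTop (𝓝 0) := by
          simpa using tendsto_inv_atTop_zero (𝕜 := ℝ)
        refine squeeze_zero' (Eventually.mono (eventually_gt_atTop 0) fun s hs => by positivity)
          (Eventually.mono (eventually_gt_atTop 0) fun s hs => ?_) h5
        rw [div_le_div_iff₀ (by positivity) hs]
        nlinarith [sq_nonneg x]
      · exact (tendsto_arctan_div x hx).const_mul _
    have hp : ∀ s ∈ Ioi (0 : ℝ), 0 ≤ x ^ 2 * x ^ 2 / ((x ^ 2 + s ^ 2) * (x ^ 2 + s ^ 2)) :=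
      fun s _ => by positivity
    refine ⟨integrableOn_Ioi_deriv_of_nonneg hc hd hp hl, ?_⟩
    rw [integral_Ioi_of_hasDerivAt_of_nonneg hc hd hp hl]
    simp
    field_simp
    ring
  · obtain ⟨i1, e1⟩ := int1 x hx.le
    obtain ⟨i2, e2⟩ := int1 y hy.le
    have hne : y ^ 2 - x ^ 2 ≠ 0 := by
      intro h
      apply hxy
      have : (y - x) * (y + x) = 0 := by linarith [h]
      rcases mul_eq_zero.1 this with h1 | h1
      · linarith
      · linarith
    have hf : (fun s : ℝ => x ^ 2 * y ^ 2 / ((x ^ 2 + s ^ 2) * (y ^ 2 + s ^ 2))) =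
        fun s : ℝ => (y ^ 2 / (y ^ 2 - x ^ 2)) * (x ^ 2 / (x ^ 2 + s ^ 2)) -
          (x ^ 2 / (y ^ 2 - x ^ 2)) * (y ^ 2 / (y ^ 2 + s ^ 2)) := by
      ext s
      have h1 : x ^ 2 + s ^ 2 ≠ 0 := by positivity
      have h2 : y ^ 2 + s ^ 2 ≠ 0 := by positivity
      field_simp
      ring
    rw [hf]
    refine ⟨(i1.const_mul _).sub (i2.const_mul _), ?_⟩
    rw [integral_sub (i1.const_mul _) (i2.const_mul _), integral_const_mul, integral_const_mul, e1, e2]
    have h3 : x + y ≠ 0 := by positivity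
    have h4 : y ^ 2 - x ^ 2 = (y - x) * (x + y) := by ring
    have h5 : y - x ≠ 0 := fun h => hxy (by linarith)
    rw [h4]
    field_simp

end Pool.Agent.X89.MT
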