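import Mathlib
import Pool.Agent.X89.MT1
import Pool.Agent.X89.MT2

set_option autoImplicit false

namespace Pool.Agent.X89.MT

open Matrix Finset MeasureTheory
open scoped ComplexOrder MatrixOrder

/-- The trace of the square root of a Gram type matrix in terms of the Gram matrix. -/
theorem sum_sqrt {κ ι : Type} [Fintype κ] [DecidableEq κ] [Fintype ι] [DecidableEq ι]
    (V : Matrix κ ι ℂ) (hV : ∀ a, (Vᴴ * V) a a = 1) (d : ι → ℝ) (hd : ∀ a, 0 ≤ d a)
    (μ : κ → ℝ) (hμ : ∀ k, 0 ≤ μ k)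
    (hC : (V * diagonal (fun a => (d a : ℂ))) * (V * diagonal (fun a => (d a : ℂ)))ᴴ =
      diagonal (fun k => (μ k : ℂ))) :
    ∑ a, d a - ∑ a, ∑ b, (if a = b then 0 else ‖(Vᴴ * V) a b‖ ^ 2 * (d a * d b / (d a + d b)))
      ≤ ∑ k, √(μ k) := by
  have hG : ∀ a b, ((V * diagonal (fun a => (d a : ℂ)))ᴴ * (V * diagonal (fun a => (d a : ℂ)))) a b
      = d a * (Vᴴ * V) a b * d b := by
    intro a b
    have hdh : (diagonal (fun a => (d a : ℂ)))ᴴ = diagonal (fun a => (d a : ℂ)) := by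
      rw [diagonal_conjTranspose]; congr 1; ext k
      simp only [Pi.star_apply]
      exact Complex.conj_ofReal _
    rw [conjTranspose_mul, hdh, Matrix.mul_assoc, diagonal_mul, ← Matrix.mul_assoc, mul_diagonal, mul_assoc]
  have hpt : ∀ s ∈ Set.Ioi (0 : ℝ), ∑ a, d a ^ 2 / (d a ^ 2 + s ^ 2) - ∑ a, ∑ b, (if a = b then 0 else
      ‖(Vᴴ * V) a b‖ ^ 2 * (d a ^ 2 * d b ^ 2 / ((d a ^ 2 + s ^ 2) * (d b ^ 2 + s ^ 2)))) ≤
      ∑ k, √(μ k) ^ 2 / (√(μ k) ^ 2 + s ^ 2) := by
    intro s hs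
    have h := pointwise (V * diagonal (fun a => (d a : ℂ))) μ hμ hC (fun a => d a ^ 2)
      (fun a => by positivity) (fun a => by rw [hG, hV]; push_cast; ring) (s ^ 2) (by have := Set.mem_Ioi.1 hs; positivity)
    refine le_trans (le_of_eq ?_) (h.trans (le_of_eq ?_))
    · congr 1
      refine Finset.sum_congr rfl fun a _ => Finset.sum_congr rfl fun b _ => ?_
      by_cases hab : a = b
      · rw [if_pos hab, if_pos hab]
      · rw [if_neg hab, if_neg hab, hG, norm_mul, norm_mul, Complex.norm_real, Complex.norm_real,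
          Real.norm_of_nonneg (hd a), Real.norm_of_nonneg (hd b)]
        ring
    · refine Finset.sum_congr rfl fun k _ => ?_
      rw [Real.sq_sqrt (hμ k)]
  have i1 : ∀ x : ℝ, 0 ≤ x → Integrable (fun s : ℝ => x ^ 2 / (x ^ 2 + s ^ 2)) (volume.restrict (Set.Ioi 0)) :=
    fun x hx => (int1 x hx).1
  have hiL : Integrable (fun s : ℝ => ∑ a, ∑ b, (if a = b then 0 else
      ‖(Vᴴ * V) a b‖ ^ 2 * (d a ^ 2 * d b ^ 2 / ((d a ^ 2 + s ^ 2) * (d b ^ 2 + s ^ 2)))))
      (volume.restrict (Set.Ioi 0)) := by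
    refine integrable_finsetSum _ fun a _ => integrable_finsetSum _ fun b _ => ?_
    by_cases hab : a = b
    · simp only [if_pos hab]; exact integrable_zero _ _ _
    · simp only [if_neg hab]
      exact ((int2 (d a) (d b) (hd a) (hd b)).1).const_mul _
  have hiA : Integrable (fun s : ℝ => ∑ a, d a ^ 2 / (d a ^ 2 + s ^ 2)) (volume.restrict (Set.Ioi 0)) :=
    integrable_finsetSum _ fun a _ => i1 (d a) (hd a)
  have hiR : Integrable (fun s : ℝ => ∑ k, √(μ k) ^ 2 / (√(μ k) ^ 2 + s ^ 2)) (volume.restrict (Set.Ioi 0)) :=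
    integrable_finsetSum _ fun k _ => i1 _ (Real.sqrt_nonneg _)
  have hint := setIntegral_mono_on (hiA.sub hiL) hiR measurableSet_Ioi hpt
  have e1 : ∫ s in Set.Ioi (0 : ℝ), ((∑ a, d a ^ 2 / (d a ^ 2 + s ^ 2)) - ∑ a, ∑ b, (if a = b then 0 else
      ‖(Vᴴ * V) a b‖ ^ 2 * (d a ^ 2 * d b ^ 2 / ((d a ^ 2 + s ^ 2) * (d b ^ 2 + s ^ 2))))) =
      Real.pi / 2 * (∑ a, d a - ∑ a, ∑ b, (if a = b then 0 else ‖(Vᴴ * V) a b‖ ^ 2 * (d a * d b / (d a + d b)))) := by
    rw [integral_sub hiA hiL, integral_finsetSum _ (fun a _ => i1 (d a) (hd a)), mul_sub]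
    congr 1
    · rw [Finset.mul_sum]
      exact Finset.sum_congr rfl fun a _ => (int1 (d a) (hd a)).2
    · rw [integral_finsetSum, Finset.mul_sum]
      · refine Finset.sum_congr rfl fun a _ => ?_
        rw [integral_finsetSum, Finset.mul_sum]
        · refine Finset.sum_congr rfl fun b _ => ?_
          by_cases hab : a = b
          · simp only [if_pos hab]; simp
          · simp only [if_neg hab]
            rw [integral_const_mul, (int2 (d a) (d b) (hd a) (hd b)).2]
            ring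
        · intro b _
          by_cases hab : a = b
          · simp only [if_pos hab]; exact integrable_zero _ _ _
          · simp only [if_neg hab]
            exact ((int2 (d a) (d b) (hd a) (hd b)).1).const_mul _
      · intro a _
        refine integrable_finsetSum _ fun b _ => ?_
        by_cases hab : a = b
        · simp only [if_pos hab]; exact integrable_zero _ _ _
        · simp only [if_neg hab]
          exact ((int2 (d a) (d b) (hd a) (hd b)).1).const_mul _
  have e2 : ∫ s in Set.Ioi (0 : ℝ), (∑ k, √(μ k) ^ 2 / (√(μ k) ^ 2 + s ^ 2)) = Real.pi / 2 * ∑ k, √(μ k) := by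
    rw [integral_finsetSum _ (fun k _ => i1 _ (Real.sqrt_nonneg _)), Finset.mul_sum]
    exact Finset.sum_congr rfl fun k _ => (int1 _ (Real.sqrt_nonneg _)).2
  have hint' : Real.pi / 2 * (∑ a, d a - ∑ a, ∑ b, (if a = b then 0 else ‖(Vᴴ * V) a b‖ ^ 2 * (d a * d b / (d a + d b))))
      ≤ Real.pi / 2 * ∑ k, √(μ k) := by
    rw [← e1, ← e2]; exact hint
  exact le_of_mul_le_mul_left hint' (by positivity)

/-- trace of the square root of a unitarily diagonalised matrix. -/
theorem trace_sqrt {κ : Type} [Fintype κ] [DecidableEq κ] (W : Matrix κ κ ℂ) (hW : Wᴴ * W = 1)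
    (μ : κ → ℝ) (hμ : ∀ k, 0 ≤ μ k) :
    (CFC.sqrt (W * diagonal (fun k => (μ k : ℂ)) * Wᴴ)).trace.re = ∑ k, √(μ k) := by
  have h : CFC.sqrt (W * diagonal (fun k => (μ k : ℂ)) * Wᴴ) = W * diagonal (fun k => ((√(μ k) : ℝ) : ℂ)) * Wᴴ := by
    apply CFC.sqrt_unique
    · have : W * diagonal (fun k => ((√(μ k) : ℝ) : ℂ)) * Wᴴ * (W * diagonal (fun k => ((√(μ k) : ℝ) : ℂ)) * Wᴴ)
        = W * (diagonal (fun k => ((√(μ k) : ℝ) : ℂ)) * (Wᴴ * W) * diagonal (fun k => ((√(μ k) : ℝ) : ℂ))) * Wᴴ := by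
        simp only [Matrix.mul_assoc]
      rw [this, hW, Matrix.mul_one, diagonal_mul_diagonal]
      congr 3
      ext k
      rw [← Complex.ofReal_mul, Real.mul_self_sqrt (hμ k)]
    · rw [Matrix.nonneg_iff_posSemidef]
      apply PosSemidef.mul_mul_conjTranspose_same
      rw [posSemidef_diagonal_iff]
      intro k
      exact_mod_cast Real.sqrt_nonneg _
  rw [h, trace_mul_comm, ← Matrix.mul_assoc, hW, Matrix.one_mul, trace_diagonal, Complex.re_sum]
  simp

end Pool.Agent.X89.MT
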