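import Mathlib
import Pool.Agent.X89.MT3

set_option autoImplicit false

namespace Pool.Agent.X89.MT

open Matrix Finset
open scoped ComplexOrder MatrixOrder

variable {κ : Type} [Fintype κ] [DecidableEq κ]

lemma exists_diag (A : Matrix κ κ ℂ) (hA : A.IsHermitian) :
    ∃ (W : Matrix κ κ ℂ) (x : κ → ℝ), Wᴴ * W = 1 ∧ W * Wᴴ = 1 ∧
      A = W * diagonal (fun k => (x k : ℂ)) * Wᴴ ∧ (A.PosSemidef → ∀ k, 0 ≤ x k) := by
  refine ⟨hA.eigenvectorUnitary, hA.eigenvalues, ?_, ?_, ?_, fun h => ?_⟩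
  · exact Unitary.coe_star_mul_self hA.eigenvectorUnitary
  · exact Unitary.coe_mul_star_self hA.eigenvectorUnitary
  · have := hA.spectral_theorem
    conv_lhs => rw [this]
    rfl
  · intro k
    exact h.eigenvalues_nonneg k

/-- the trace norm. -/
noncomputable def traceNorm (X : Matrix κ κ ℂ) : ℝ := (CFC.sqrt (Xᴴ * X)).trace.re

lemma traceNorm_diag (W : Matrix κ κ ℂ) (x : κ → ℝ) (hW : Wᴴ * W = 1) :
    traceNorm (W * diagonal (fun k => (x k : ℂ)) * Wᴴ) = ∑ k, |x k| := by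
  have h : (W * diagonal (fun k => (x k : ℂ)) * Wᴴ)ᴴ * (W * diagonal (fun k => (x k : ℂ)) * Wᴴ) =
      W * diagonal (fun k => ((x k ^ 2 : ℝ) : ℂ)) * Wᴴ := by
    have hd : (diagonal (fun k => (x k : ℂ)))ᴴ = diagonal (fun k => (x k : ℂ)) := by
      rw [diagonal_conjTranspose]; congr 1; ext k
      simp only [Pi.star_apply]
      exact Complex.conj_ofReal _
    rw [conjTranspose_mul, conjTranspose_mul, hd, conjTranspose_conjTranspose]
    have : W * (diagonal (fun k => (x k : ℂ)) * Wᴴ) * (W * diagonal (fun k => (x k : ℂ)) * Wᴴ) =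
        W * (diagonal (fun k => (x k : ℂ)) * (Wᴴ * W) * diagonal (fun k => (x k : ℂ))) * Wᴴ := by
      simp only [Matrix.mul_assoc]
    rw [this, hW, Matrix.mul_one, diagonal_mul_diagonal]
    congr 3
    ext k
    push_cast; ring
  unfold traceNorm
  rw [h, trace_sqrt W hW _ (fun k => sq_nonneg _)]
  exact Finset.sum_congr rfl fun k _ => Real.sqrt_sq_eq_abs _

lemma elem (l m : ℝ) (hl : 0 ≤ l) (hm : 0 ≤ m) (p r : ℂ) :
    l * m / (l + m) * ‖p + r‖ ^ 2 ≤ m * ‖p‖ ^ 2 + l * ‖r‖ ^ 2 := by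
  rcases (add_nonneg hl hm).eq_or_lt with h | h
  · rw [← h, div_zero, zero_mul]; positivity
  have h1 : ‖p + r‖ ^ 2 ≤ (‖p‖ + ‖r‖) ^ 2 := by
    have := norm_add_le p r
    gcongr
  rw [div_mul_eq_mul_div, div_le_iff₀ h]
  have h2 : l * m * ‖p + r‖ ^ 2 ≤ l * m * (‖p‖ + ‖r‖) ^ 2 := by gcongr
  nlinarith [sq_nonneg (l * ‖r‖ - m * ‖p‖)]

lemma diag_mul_conj {α β : Type} [Fintype α] [Fintype β] (N : Matrix α β ℂ) (a : α) :
    (N * Nᴴ) a a = ((∑ b, ‖N a b‖ ^ 2 : ℝ) : ℂ) := by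
  rw [Matrix.mul_apply]
  push_cast
  refine Finset.sum_congr rfl fun b _ => ?_
  rw [conjTranspose_apply]
  have := Complex.mul_conj (N a b)
  rw [Complex.normSq_eq_norm_sq] at this
  rw [← Complex.ofReal_pow]
  exact this

theorem pair (X Y : Matrix κ κ ℂ) (l m : κ → ℝ) (hX : Xᴴ * X = 1) (hX' : X * Xᴴ = 1)
    (hY : Yᴴ * Y = 1) (hY' : Y * Yᴴ = 1) (hl : ∀ a, 0 ≤ l a) (hm : ∀ a, 0 ≤ m a) :
    traceNorm (X * diagonal (fun k => (l k : ℂ)) * Xᴴ - Y * diagonal (fun k => (m k : ℂ)) * Yᴴ)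
      ≤ ∑ a, l a + ∑ a, m a - 2 * ∑ a, ∑ b, ‖(Xᴴ * Y) a b‖ ^ 2 * (l a * m b / (l a + m b)) := by
  set A := X * diagonal (fun k => (l k : ℂ)) * Xᴴ with hA
  set B := Y * diagonal (fun k => (m k : ℂ)) * Yᴴ with hB
  have hreal : ∀ f : κ → ℝ, (diagonal (fun k => (f k : ℂ)))ᴴ = diagonal (fun k => (f k : ℂ)) := by
    intro f
    rw [diagonal_conjTranspose]; congr 1; ext k
    simp only [Pi.star_apply]
    exact Complex.conj_ofReal _
  have hher : (A - B).IsHermitian := by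
    show (A - B)ᴴ = A - B
    rw [conjTranspose_sub, hA, hB]
    simp only [conjTranspose_mul, conjTranspose_conjTranspose, hreal, Matrix.mul_assoc]
  obtain ⟨W, x, hW, hW', hAB, -⟩ := exists_diag (A - B) hher
  rw [hAB, traceNorm_diag W x hW]
  set P := W * diagonal (fun k => (((if 0 ≤ x k then 1 else 0 : ℝ)) : ℂ)) * Wᴴ with hP
  have hPP : P * P = P := by
    rw [hP]
    have : W * diagonal (fun k => (((if 0 ≤ x k then 1 else 0 : ℝ)) : ℂ)) * Wᴴ *
        (W * diagonal (fun k => (((if 0 ≤ x k then 1 else 0 : ℝ)) : ℂ)) * Wᴴ) =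
        W * (diagonal (fun k => (((if 0 ≤ x k then 1 else 0 : ℝ)) : ℂ)) * (Wᴴ * W) *
          diagonal (fun k => (((if 0 ≤ x k then 1 else 0 : ℝ)) : ℂ))) * Wᴴ := by
      simp only [Matrix.mul_assoc]
    rw [this, hW, Matrix.mul_one, diagonal_mul_diagonal]
    congr 3
    ext k
    split_ifs <;> simp
  have hPh : Pᴴ = P := by
    rw [hP]
    simp only [conjTranspose_mul, conjTranspose_conjTranspose, hreal, Matrix.mul_assoc]
  -- the sum of absolute values
  have habs : ((∑ k, |x k| : ℝ) : ℂ) = 2 * trace (A * P) - trace A - 2 * trace (B * P) + trace B := by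
    have h1 : trace ((A - B) * (2 • P - 1)) = ((∑ k, |x k| : ℝ) : ℂ) := by
      have h2 : (A - B) * (2 • P - 1) = W * (diagonal (fun k => (x k : ℂ)) *
          (2 • diagonal (fun k => (((if 0 ≤ x k then 1 else 0 : ℝ)) : ℂ)) - 1)) * Wᴴ := by
        have h3 : (2 • P - 1) = W * (2 • diagonal (fun k => (((if 0 ≤ x k then 1 else 0 : ℝ)) : ℂ)) - 1) * Wᴴ := by
          rw [mul_sub, sub_mul, mul_one, hW', mul_smul_comm, smul_mul_assoc, hP]
        rw [h3, hAB]
        have : W * diagonal (fun k => (x k : ℂ)) * Wᴴ * (W * (2 • diagonal (fun k => (((if 0 ≤ x k then 1 else 0 : ℝ)) : ℂ)) - 1) * Wᴴ)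
          = W * (diagonal (fun k => (x k : ℂ)) * (Wᴴ * W) * (2 • diagonal (fun k => (((if 0 ≤ x k then 1 else 0 : ℝ)) : ℂ)) - 1)) * Wᴴ := by
          simp only [Matrix.mul_assoc]
        rw [this, hW, Matrix.mul_one]
      rw [h2, trace_mul_comm, ← Matrix.mul_assoc, hW, Matrix.one_mul, mul_sub, mul_one, mul_smul_comm,
        diagonal_mul_diagonal, trace_sub, trace_smul, trace_diagonal, trace_diagonal, Finset.smul_sum,
        ← Finset.sum_sub_distrib, Complex.ofReal_sum]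
      refine Finset.sum_congr rfl fun k _ => ?_
      by_cases hk : 0 ≤ x k
      · rw [if_pos hk, abs_of_nonneg hk]; push_cast; ring
      · rw [if_neg hk, abs_of_neg (not_le.1 hk)]; push_cast; ring
    rw [← h1]
    have : (A - B) * (2 • P - 1) = 2 • (A * P) - A - 2 • (B * P) + B := by noncomm_ring
    rw [this]
    simp only [trace_add, trace_sub, trace_smul]
    ring
  have htA : trace A = ((∑ a, l a : ℝ) : ℂ) := by
    rw [hA, trace_mul_comm, ← Matrix.mul_assoc, hX, Matrix.one_mul, trace_diagonal]; push_cast; rfl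
  have htB : trace B = ((∑ a, m a : ℝ) : ℂ) := by
    rw [hB, trace_mul_comm, ← Matrix.mul_assoc, hY, Matrix.one_mul, trace_diagonal]; push_cast; rfl
  set p := Xᴴ * P * Y with hp
  set r := Xᴴ * (1 - P) * Y with hr
  have hg : ∀ a b, (Xᴴ * Y) a b = p a b + r a b := by
    intro a b
    have : Xᴴ * Y = p + r := by rw [hp, hr]; noncomm_ring
    rw [this]; rfl
  have hBP : trace (B * P) = ((∑ a, ∑ b, m b * ‖p a b‖ ^ 2 : ℝ) : ℂ) := by
    have h1 : trace (B * P) = trace (diagonal (fun k => (m k : ℂ)) * (pᴴ * (pᴴ)ᴴ)) := by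
      have h2 : pᴴ * (pᴴ)ᴴ = Yᴴ * P * Y := by
        rw [conjTranspose_conjTranspose, hp]
        simp only [conjTranspose_mul, conjTranspose_conjTranspose, hPh]
        have : Yᴴ * (P * X) * (Xᴴ * P * Y) = Yᴴ * (P * (X * Xᴴ) * P) * Y := by
          simp only [Matrix.mul_assoc]
        rw [this, hX', Matrix.mul_one, hPP]
      rw [h2, hB, Matrix.mul_assoc, Matrix.mul_assoc, trace_mul_comm]
      simp only [Matrix.mul_assoc]
    rw [h1, Finset.sum_comm]
    rw [trace, Complex.ofReal_sum]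
    refine Finset.sum_congr rfl fun b _ => ?_
    rw [diag_apply, diagonal_mul, diag_mul_conj, ← Complex.ofReal_mul, Finset.mul_sum]
    congr 1
    refine Finset.sum_congr rfl fun a _ => ?_
    rw [conjTranspose_apply, norm_star]
  have hAP : trace A - trace (A * P) = ((∑ a, ∑ b, l a * ‖r a b‖ ^ 2 : ℝ) : ℂ) := by
    have h0 : trace A - trace (A * P) = trace (A * (1 - P)) := by
      rw [mul_sub, mul_one, trace_sub]
    have h1 : trace (A * (1 - P)) = trace (diagonal (fun k => (l k : ℂ)) * (r * rᴴ)) := by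
      have hP1 : (1 - P) * (1 - P) = 1 - P := by
        have : (1 - P) * (1 - P) = 1 - P - P + P * P := by noncomm_ring
        rw [this, hPP]; abel
      have hP1h : (1 - P)ᴴ = 1 - P := by rw [conjTranspose_sub, conjTranspose_one, hPh]
      have h2 : r * rᴴ = Xᴴ * (1 - P) * X := by
        rw [hr]
        simp only [conjTranspose_mul, conjTranspose_conjTranspose, hP1h]
        have : Xᴴ * (1 - P) * Y * (Yᴴ * ((1 - P) * X)) = Xᴴ * ((1 - P) * (Y * Yᴴ) * (1 - P)) * X := by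
          simp only [Matrix.mul_assoc]
        rw [this, hY', Matrix.mul_one, hP1]
      rw [h2, hA, Matrix.mul_assoc, Matrix.mul_assoc, trace_mul_comm]
      simp only [Matrix.mul_assoc]
    rw [h0, h1, trace, Complex.ofReal_sum]
    refine Finset.sum_congr rfl fun a _ => ?_
    rw [diag_apply, diagonal_mul, diag_mul_conj, ← Complex.ofReal_mul, Finset.mul_sum]
  have hfin : (∑ k, |x k| : ℝ) = ∑ a, l a + ∑ a, m a - 2 * (∑ a, ∑ b, (m b * ‖p a b‖ ^ 2 + l a * ‖r a b‖ ^ 2)) := by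
    have hc : ((∑ k, |x k| : ℝ) : ℂ) = ((∑ a, l a + ∑ a, m a - 2 * (∑ a, ∑ b, (m b * ‖p a b‖ ^ 2 + l a * ‖r a b‖ ^ 2)) : ℝ) : ℂ) := by
      rw [habs]
      have h1 : trace (A * P) = trace A - ((∑ a, ∑ b, l a * ‖r a b‖ ^ 2 : ℝ) : ℂ) := by rw [← hAP]; ring
      rw [h1, hBP, htA, htB]
      simp only [Finset.sum_add_distrib]
      push_cast
      ring
    exact_mod_cast hc
  rw [hfin]
  have : ∑ a, ∑ b, ‖(Xᴴ * Y) a b‖ ^ 2 * (l a * m b / (l a + m b)) ≤
      ∑ a, ∑ b, (m b * ‖p a b‖ ^ 2 + l a * ‖r a b‖ ^ 2) := by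
    refine Finset.sum_le_sum fun a _ => Finset.sum_le_sum fun b _ => ?_
    rw [hg, mul_comm]
    exact elem _ _ (hl a) (hm b) _ _
  linarith

end Pool.Agent.X89.MT
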