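import Mathlib
import Pool.Agent.X89.MT4

set_option autoImplicit false

namespace Pool.Agent.X89.MT

open Matrix Finset
open scoped ComplexOrder MatrixOrder

variable {κ : Type} [Fintype κ] [DecidableEq κ]

lemma sum_offdiag {n : ℕ} (H : Fin n → Fin n → ℝ) (hs : ∀ j k, H j k = H k j) :
    ∑ j, ∑ k, (if j = k then 0 else H j k) = ∑ j, ∑ k ∈ Ioi j, 2 * H j k := by
  have h1 : ∀ j k : Fin n, (if j = k then 0 else H j k) = (if j < k then H j k else 0) + (if k < j then H k j else 0) := by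
    intro j k
    rcases lt_trichotomy j k with h | h | h
    · rw [if_neg h.ne, if_pos h, if_neg h.not_gt, add_zero]
    · subst h; simp
    · rw [if_neg h.ne', if_neg h.not_gt, if_pos h, zero_add, hs]
  simp only [h1, Finset.sum_add_distrib]
  rw [Finset.sum_comm (f := fun j k => if k < j then H k j else 0), ← Finset.sum_add_distrib]
  refine Finset.sum_congr rfl fun j _ => ?_
  rw [← Finset.sum_add_distrib, ← Finset.sum_filter_add_sum_filter_not univ (fun k => j < k)]
  have h2 : ∑ x ∈ univ.filter (fun k => ¬ j < k), ((if j < x then H j x else 0) + if j < x then H j x else 0) = 0 := by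
    refine Finset.sum_eq_zero fun x hx => ?_
    rw [if_neg (Finset.mem_filter.1 hx).2, add_zero]
  rw [h2, add_zero]
  have h3 : univ.filter (fun k => j < k) = Ioi j := by ext; simp
  rw [h3]
  refine Finset.sum_congr rfl fun x hx => ?_
  rw [if_pos (Finset.mem_Ioi.1 hx)]; ring

theorem main {n : ℕ} (A : Fin n → Matrix κ κ ℂ) (hA : ∀ j, (A j).PosSemidef) :
    ∑ j, ∑ k ∈ Ioi j, (traceNorm (A j - A k) - (A j + A k).trace.re) ≤
      (CFC.sqrt (∑ j, A j ^ 2)).trace.re - ∑ j, (A j).trace.re := by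
  choose Y l hY hY' hYA hl using fun j => exists_diag (A j) (hA j).1
  have hl0 : ∀ j a, 0 ≤ l j a := fun j => hl j (hA j)
  have hreal : ∀ f : κ → ℝ, (diagonal (fun k => (f k : ℂ)))ᴴ = diagonal (fun k => (f k : ℂ)) := by
    intro f
    rw [diagonal_conjTranspose]; congr 1; ext k
    simp only [Pi.star_apply]
    exact Complex.conj_ofReal _
  have hsq : ∀ j, A j ^ 2 = Y j * diagonal (fun k => ((l j k ^ 2 : ℝ) : ℂ)) * (Y j)ᴴ := by
    intro j
    conv_lhs => rw [hYA j]
    have : (Y j * diagonal (fun k => (l j k : ℂ)) * (Y j)ᴴ) ^ 2 =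
        Y j * (diagonal (fun k => (l j k : ℂ)) * ((Y j)ᴴ * Y j) * diagonal (fun k => (l j k : ℂ))) * (Y j)ᴴ := by
      rw [sq]; simp only [Matrix.mul_assoc]
    rw [this, hY, Matrix.mul_one, diagonal_mul_diagonal]
    congr 3
    ext k
    push_cast; ring
  set S := ∑ j, A j ^ 2 with hS
  have hSpsd : S.PosSemidef := by
    rw [hS]
    apply Matrix.posSemidef_sum
    intro j _
    rw [hsq]
    apply PosSemidef.mul_mul_conjTranspose_same
    rw [posSemidef_diagonal_iff]
    intro k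
    exact Complex.zero_le_real.2 (sq_nonneg _)
  obtain ⟨W, μ, hW, hW', hSW, hμ⟩ := exists_diag S hSpsd.1
  have hμ0 := hμ hSpsd
  rw [hSW, trace_sqrt W hW μ hμ0]
  -- the big matrix of eigenvectors
  set U : Matrix κ (Fin n × κ) ℂ := fun x ja => Y ja.1 x ja.2 with hU
  set d : Fin n × κ → ℝ := fun ja => l ja.1 ja.2 with hd
  have hUU : ∀ ja kb, (Uᴴ * U) ja kb = ((Y ja.1)ᴴ * Y kb.1) ja.2 kb.2 := by
    intro ja kb
    rw [Matrix.mul_apply, Matrix.mul_apply]
    rfl
  have hVV : (Wᴴ * U)ᴴ * (Wᴴ * U) = Uᴴ * U := by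
    rw [conjTranspose_mul, conjTranspose_conjTranspose]
    have : Uᴴ * W * (Wᴴ * U) = Uᴴ * (W * Wᴴ) * U := by simp only [Matrix.mul_assoc]
    rw [this, hW', Matrix.mul_one]
  have h1 : ∀ a, ((Wᴴ * U)ᴴ * (Wᴴ * U)) a a = 1 := by
    intro a
    rw [hVV, hUU, hY, one_apply_eq]
  have hUS : (U * diagonal (fun a => (d a : ℂ))) * (U * diagonal (fun a => (d a : ℂ)))ᴴ = S := by
    ext x y
    rw [Matrix.mul_apply, Fintype.sum_prod_type, hS, Matrix.sum_apply]
    refine Finset.sum_congr rfl fun j _ => ?_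
    rw [hsq, Matrix.mul_apply]
    refine Finset.sum_congr rfl fun a _ => ?_
    rw [mul_diagonal, conjTranspose_apply, mul_diagonal, conjTranspose_apply, mul_diagonal, star_mul']
    have : star ((d (j, a) : ℝ) : ℂ) = ((d (j, a) : ℝ) : ℂ) := Complex.conj_ofReal _
    rw [this]
    simp only [hU, hd]
    push_cast; ring
  have h2 : ((Wᴴ * U) * diagonal (fun a => (d a : ℂ))) * ((Wᴴ * U) * diagonal (fun a => (d a : ℂ)))ᴴ =
      diagonal (fun k => (μ k : ℂ)) := by
    have e : ((Wᴴ * U) * diagonal (fun a => (d a : ℂ))) * ((Wᴴ * U) * diagonal (fun a => (d a : ℂ)))ᴴ =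
        Wᴴ * ((U * diagonal (fun a => (d a : ℂ))) * (U * diagonal (fun a => (d a : ℂ)))ᴴ) * W := by
      simp only [conjTranspose_mul, conjTranspose_conjTranspose, Matrix.mul_assoc]
    rw [e, hUS, hSW]
    have : Wᴴ * (W * diagonal (fun k => (μ k : ℂ)) * Wᴴ) * W = (Wᴴ * W) * diagonal (fun k => (μ k : ℂ)) * (Wᴴ * W) := by
      simp only [Matrix.mul_assoc]
    rw [this, hW, Matrix.one_mul, Matrix.mul_one]
  have h3 := sum_sqrt (Wᴴ * U) h1 d (fun a => hl0 a.1 a.2) μ hμ0 h2
  rw [hVV] at h3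
  set H : Fin n → Fin n → ℝ := fun j k => ∑ a, ∑ b, ‖((Y j)ᴴ * Y k) a b‖ ^ 2 * (l j a * l k b / (l j a + l k b)) with hH
  have hHs : ∀ j k, H j k = H k j := by
    intro j k
    simp only [hH]
    rw [Finset.sum_comm]
    refine Finset.sum_congr rfl fun b _ => Finset.sum_congr rfl fun a _ => ?_
    have : ((Y k)ᴴ * Y j) b a = star (((Y j)ᴴ * Y k) a b) := by
      rw [← conjTranspose_apply, conjTranspose_mul, conjTranspose_conjTranspose]
    rw [this, norm_star, mul_comm (l k b), add_comm (l k b)]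
  have h4 : ∑ a, ∑ b, (if a = b then 0 else ‖(Uᴴ * U) a b‖ ^ 2 * (d a * d b / (d a + d b))) =
      ∑ j, ∑ k, (if j = k then 0 else H j k) := by
    rw [Fintype.sum_prod_type]
    refine Finset.sum_congr rfl fun j _ => ?_
    have e1 : ∀ a : κ, ∑ b : Fin n × κ, (if (j, a) = b then 0 else ‖(Uᴴ * U) (j, a) b‖ ^ 2 * (d (j, a) * d b / (d (j, a) + d b)))
        = ∑ k, ∑ b, (if j = k then 0 else ‖((Y j)ᴴ * Y k) a b‖ ^ 2 * (l j a * l k b / (l j a + l k b))) := by
      intro a
      rw [Fintype.sum_prod_type]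
      refine Finset.sum_congr rfl fun k _ => Finset.sum_congr rfl fun b _ => ?_
      rw [hUU]
      by_cases hjk : j = k
      · subst hjk
        rw [if_pos rfl]
        by_cases hab : a = b
        · subst hab; simp
        · rw [if_neg (by simpa using hab), hY, one_apply_ne hab]; simp
      · rw [if_neg hjk, if_neg (fun h => hjk (congrArg Prod.fst h))]
    simp only [e1]
    rw [Finset.sum_comm]
    refine Finset.sum_congr rfl fun k _ => ?_
    by_cases hjk : j = k
    · simp only [if_pos hjk, Finset.sum_const_zero]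
    · simp only [if_neg hjk, hH]
  rw [h4, sum_offdiag H hHs] at h3
  have h5 : ∑ a, d a = ∑ j, (A j).trace.re := by
    rw [Fintype.sum_prod_type]
    refine Finset.sum_congr rfl fun j _ => ?_
    conv_rhs => rw [hYA j]
    rw [trace_mul_comm, ← Matrix.mul_assoc, hY, Matrix.one_mul, trace_diagonal, Complex.re_sum]
    simp [hd]
  have htr : ∀ j, (A j).trace.re = ∑ a, l j a := by
    intro j
    conv_lhs => rw [hYA j]
    rw [trace_mul_comm, ← Matrix.mul_assoc, hY, Matrix.one_mul, trace_diagonal, Complex.re_sum]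
    simp
  have h6 : ∑ j, ∑ k ∈ Ioi j, (traceNorm (A j - A k) - (A j + A k).trace.re) ≤
      ∑ j, ∑ k ∈ Ioi j, (-(2 * H j k)) := by
    refine Finset.sum_le_sum fun j _ => Finset.sum_le_sum fun k _ => ?_
    have := pair (Y j) (Y k) (l j) (l k) (hY j) (hY' j) (hY k) (hY' k) (hl0 j) (hl0 k)
    rw [← hYA j, ← hYA k] at this
    rw [trace_add, Complex.add_re, htr, htr]
    simp only [hH]
    linarith
  refine h6.trans ?_
  simp only [Finset.sum_neg_distrib]
  rw [← h5]
  linarith

end Pool.Agent.X89.MT
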