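import Mathlib

set_option autoImplicit false

open Set Real

namespace Pool.Agent.X89.CA

/-- quadratic sign argument -/
theorem PL {T k ν : ℝ} (hT : 0 < T) (hk : 0 ≤ k) (hν : 0 ≤ ν) (hkν : 4 * ν ≤ k) {G : ℝ → ℝ}
    (hG : ∀ t : ℝ, 0 ≤ t → HasDerivAt G (2 * ν / ((1 + t) * (1 + t * T))) t) (hG0 : G 0 = 0)
    (h1 : (1 - k / (1 + T) ^ 2) * exp (2 * G 1) ≤ 1) {p : ℝ} (hp0 : 0 ≤ p) (hp1 : p ≤ 1) :
    (1 - k * p / (1 + p * T) ^ 2) * exp (2 * G p) ≤ 1 := by
  set P : ℝ → ℝ := fun t => (1 - k * t / (1 + t * T) ^ 2) * exp (2 * G t) with hP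
  set Q : ℝ → ℝ := fun t => k / 2 * (1 - t * T) * (1 + t) - 2 * ν * ((1 + t * T) ^ 2 - k * t) with hQ
  have hder : ∀ t : ℝ, 0 ≤ t → HasDerivAt P (-(2 * Q t / ((1 + t) * (1 + t * T) ^ 3)) * exp (2 * G t)) t := by
    intro t ht
    have hpos : 0 < 1 + t * T := by positivity
    have hpos1 : 0 < 1 + t := by positivity
    have d1 : HasDerivAt (fun t : ℝ => 1 + t * T) T t := by
      simpa using ((hasDerivAt_id t).mul_const T).const_add 1
    have d2 : HasDerivAt (fun t : ℝ => k * t) k t := by
      simpa using (hasDerivAt_id t).const_mul k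
    have hne : (1 + t * T) ^ 2 ≠ 0 := pow_ne_zero 2 hpos.ne'
    have d3 := (d2.fun_div (d1.fun_pow 2) hne).const_sub 1
    have d4 := ((hG t ht).const_mul 2).exp
    have d5 := d3.fun_mul d4
    refine HasDerivAt.congr_deriv d5 ?_
    simp only [hQ]
    field_simp
    ring
  have hP0 : P 0 = 1 := by simp [hP, hG0]
  have hP1 : P 1 ≤ 1 := by
    simp only [hP, mul_one, one_mul]; exact h1
  have hid : ∀ a b : ℝ, b * Q a - a * Q b = (b - a) * (k / 2 - 2 * ν) + (k / 2 * T + 2 * ν * T ^ 2) * (a * b * (b - a)) := by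
    intro a b; simp only [hQ]; ring
  have hcc : 0 ≤ k / 2 * T + 2 * ν * T ^ 2 := by positivity
  have hc0 : 0 ≤ k / 2 - 2 * ν := by linarith
  show P p ≤ 1
  by_cases hQp : 0 ≤ Q p
  · -- P is antitone on [0,p]
    have hanti : AntitoneOn P (Icc 0 p) := by
      apply antitoneOn_of_deriv_nonpos (convex_Icc 0 p)
      · intro t ht; exact (hder t ht.1).continuousAt.continuousWithinAt
      · intro t ht; rw [interior_Icc] at ht
        exact (hder t ht.1.le).differentiableAt.differentiableWithinAt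
      · intro t ht; rw [interior_Icc] at ht
        rw [(hder t ht.1.le).deriv]
        have h0t := ht.1.le
        have hQt : 0 ≤ Q t := by
          have h2 := hid t p
          have hpt : 0 ≤ p - t := by linarith [ht.2]
          have h3 : 0 ≤ p * Q t - t * Q p := by rw [h2]; positivity
          have h4 : 0 ≤ t * Q p := mul_nonneg h0t hQp
          have h5 : 0 ≤ p * Q t := by linarith
          exact nonneg_of_mul_nonneg_right h5 (lt_trans ht.1 ht.2)
        have : 0 ≤ 2 * Q t / ((1 + t) * (1 + t * T) ^ 3) := by positivity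
        have he := exp_pos (2 * G t)
        nlinarith
    have := hanti (left_mem_Icc.2 hp0) (right_mem_Icc.2 hp0) hp0
    linarith
  · push Not at hQp
    have hppos : 0 < p := by
      rcases hp0.lt_or_eq with h | h
      · exact h
      · exfalso
        rw [← h] at hQp
        simp only [hQ] at hQp
        nlinarith
    have hmono : MonotoneOn P (Icc p 1) := by
      apply monotoneOn_of_deriv_nonneg (convex_Icc p 1)
      · intro t ht; exact (hder t (hp0.trans ht.1)).continuousAt.continuousWithinAt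
      · intro t ht; rw [interior_Icc] at ht
        exact (hder t (hp0.trans ht.1.le)).differentiableAt.differentiableWithinAt
      · intro t ht; rw [interior_Icc] at ht
        have h0t : 0 ≤ t := hp0.trans ht.1.le
        rw [(hder t h0t).deriv]
        have hQt : Q t ≤ 0 := by
          have h2 := hid p t
          have hpt : 0 ≤ t - p := by linarith [ht.1]
          have h3 : 0 ≤ t * Q p - p * Q t := by rw [h2]; positivity
          have h4 : t * Q p ≤ 0 := mul_nonpos_of_nonneg_of_nonpos h0t hQp.le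
          have h5 : p * Q t ≤ 0 := by linarith
          by_contra hc
          push Not at hc
          have := mul_pos hppos hc
          linarith
        have h6 : 2 * Q t / ((1 + t) * (1 + t * T) ^ 3) ≤ 0 := by
          apply div_nonpos_of_nonpos_of_nonneg
          · linarith
          · positivity
        have he := exp_pos (2 * G t)
        nlinarith
    have := hmono (left_mem_Icc.2 hp1) (right_mem_Icc.2 hp1) hp1
    linarith

/-- comparison of the arsinh term with `G` -/
theorem VL {T m σ κ : ℝ} (hT : 0 < T) (hm : 0 < m) (hσ : 0 < σ) (hκ : κ ^ 2 = 1 + σ ^ 2)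
    (hTk : (1 + T) ^ 2 ≤ 4 * κ ^ 2 * T) {G : ℝ → ℝ}
    (hG : ∀ t : ℝ, 0 ≤ t → HasDerivAt G (2 * (m * √T) / ((1 + t) * (1 + t * T))) t) (hG0 : G 0 = 0)
    {p : ℝ} (hp0 : 0 ≤ p) :
    2 * (m / σ) * arsinh (σ * (p * √T / √((1 + p) * (1 + p * T)))) ≤ G p := by
  set W : ℝ → ℝ := fun t => G t - 2 * (m / σ) * arsinh (σ * (t * √T / √((1 + t) * (1 + t * T)))) with hW
  have hder : ∀ t : ℝ, 0 ≤ t → ∃ w : ℝ, 0 ≤ w ∧ HasDerivAt W w t := by
    intro t ht
    have hpos : 0 < 1 + t * T := by positivity
    have hpos1 : 0 < 1 + t := by positivity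
    set D := (1 + t) * (1 + t * T) with hD
    have hDp : 0 < D := by positivity
    have hsD : 0 < √D := sqrt_pos.2 hDp
    have hDD : √D ^ 2 = D := sq_sqrt hDp.le
    have d1 : HasDerivAt (fun t : ℝ => (1 + t) * (1 + t * T)) (1 * (1 + t * T) + (1 + t) * T) t := by
      have a1 : HasDerivAt (fun t : ℝ => 1 + t) 1 t := by simpa using (hasDerivAt_id t).const_add 1
      have a2 : HasDerivAt (fun t : ℝ => 1 + t * T) T t := by
        simpa using ((hasDerivAt_id t).mul_const T).const_add 1
      exact a1.mul a2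
    have d2 := d1.sqrt hDp.ne'
    have d3 : HasDerivAt (fun t : ℝ => t * √T) (√T) t := by
      simpa using (hasDerivAt_id t).mul_const (√T)
    have d4 := ((d3.div d2 hsD.ne').const_mul σ).arsinh
    have d5 := (hG t ht).sub (d4.const_mul (2 * (m / σ)))
    refine ⟨_, ?_, d5⟩
    have hsT : √T ^ 2 = T := sq_sqrt hT.le
    -- simplify
    have e1 : (√T * √D - t * √T * ((1 * (1 + t * T) + (1 + t) * T) / (2 * √D))) / √D ^ 2
        = √T * (2 + t * (1 + T)) / (2 * D * √D) := by
      rw [hDD]
      field_simp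
      rw [hDD, hD]; ring
    have hz2 : (σ * (t * √T / √D)) ^ 2 = σ ^ 2 * t ^ 2 * T / D := by
      rw [mul_pow, div_pow, mul_pow, hsT, hDD]; ring
    have e2 : √(1 + (σ * (t * √T / √D)) ^ 2) = √(D + σ ^ 2 * t ^ 2 * T) / √D := by
      rw [hz2, ← sqrt_div' _ hDp.le]
      congr 1
      field_simp
    have hN : (2 + t * (1 + T)) / 2 ≤ √(D + σ ^ 2 * t ^ 2 * T) := by
      apply le_sqrt_of_sq_le
      rw [hκ] at hTk
      rw [hD]
      nlinarith [mul_le_mul_of_nonneg_left hTk (sq_nonneg t)]
    have hNp : 0 < √(D + σ ^ 2 * t ^ 2 * T) := sqrt_pos.2 (by positivity)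
    simp only [Pi.div_apply] 
    rw [e1, e2]
    have : 2 * (m / σ) * ((√(D + σ ^ 2 * t ^ 2 * T) / √D)⁻¹ * (σ * (√T * (2 + t * (1 + T)) / (2 * D * √D))))
        = 2 * (m * √T) / D * (((2 + t * (1 + T)) / 2) / √(D + σ ^ 2 * t ^ 2 * T)) := by
      field_simp
    rw [sub_nonneg]
    calc _ = 2 * (m * √T) / D * (((2 + t * (1 + T)) / 2) / √(D + σ ^ 2 * t ^ 2 * T)) := by
          rw [← this]; ring
      _ ≤ 2 * (m * √T) / D * 1 := by
          apply mul_le_mul_of_nonneg_left _ (by positivity)
          rw [div_le_one hNp]; exact hN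
      _ = _ := by rw [mul_one]
  have hmono : MonotoneOn W (Icc 0 p) := by
    apply monotoneOn_of_deriv_nonneg (convex_Icc 0 p)
    · intro t ht; obtain ⟨w, -, h⟩ := hder t ht.1; exact h.continuousAt.continuousWithinAt
    · intro t ht; rw [interior_Icc] at ht
      obtain ⟨w, -, h⟩ := hder t ht.1.le; exact h.differentiableAt.differentiableWithinAt
    · intro t ht; rw [interior_Icc] at ht
      obtain ⟨w, hw, h⟩ := hder t ht.1.le; rw [h.deriv]; exact hw
  have := hmono (left_mem_Icc.2 hp0) (right_mem_Icc.2 hp0) hp0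
  simp only [hW, hG0] at this
  simp at this
  linarith

end Pool.Agent.X89.CA
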