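import Pool.Agent.X89.CA1

set_option autoImplicit false

open Set Real

namespace Pool.Agent.X89.CA

theorem log_bound {y : ℝ} (hy : 1 ≤ y) : log y ≤ (y - y⁻¹) / 2 := by
  have h := Real.self_le_sinh_iff.2 (Real.log_nonneg hy)
  rwa [Real.sinh_log (by linarith)] at h

theorem q_mono {v V : ℝ} (hv : 0 < v) (hvV : v ≤ V) (hV : V ≤ 1) :
    √(1 + 2 * v) * log (1 + v) / v ≤ √(1 + 2 * V) * log (1 + V) / V := by
  set q : ℝ → ℝ := fun x => √(1 + 2 * x) * log (1 + x) / x with hq
  have hder : ∀ x : ℝ, 0 < x → x ≤ 1 → ∃ w : ℝ, 0 ≤ w ∧ HasDerivAt q w x := by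
    intro x hx hx1
    have p1 : 0 < 1 + 2 * x := by linarith
    have p2 : 0 < 1 + x := by linarith
    have hs : 0 < √(1 + 2 * x) := sqrt_pos.2 p1
    have hss : √(1 + 2 * x) ^ 2 = 1 + 2 * x := sq_sqrt p1.le
    have d1 : HasDerivAt (fun x : ℝ => 1 + 2 * x) 2 x := by
      simpa using ((hasDerivAt_id x).const_mul 2).const_add 1
    have d2 := d1.sqrt p1.ne'
    have d3 : HasDerivAt (fun x : ℝ => 1 + x) 1 x := by simpa using (hasDerivAt_id x).const_add 1
    have d4 := d3.log p2.ne'
    have d5 := (d2.fun_mul d4).fun_div (hasDerivAt_id x) hx.ne'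
    refine ⟨_, ?_, d5⟩
    have hl : log (1 + x) ≤ x * (1 + 2 * x) / (1 + x) ^ 2 := by
      have h1 := log_bound (y := 1 + x) (by linarith)
      have h2 : ((1 + x) - (1 + x)⁻¹) / 2 = x * (2 + x) / (2 * (1 + x)) := by field_simp; ring
      rw [h2] at h1
      refine h1.trans ?_
      rw [div_le_div_iff₀ (by positivity) (by positivity)]
      nlinarith [mul_nonneg hx.le (mul_nonneg p2.le (mul_nonneg hx.le (sub_nonneg.2 hx1)))]
    simp only [id_eq]
    apply div_nonneg _ (by positivity)
    have e : (2 / (2 * √(1 + 2 * x)) * log (1 + x) + √(1 + 2 * x) * (1 / (1 + x))) * x - √(1 + 2 * x) * log (1 + x) * 1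
        = (1 + x) / √(1 + 2 * x) * (x * (1 + 2 * x) / (1 + x) ^ 2 - log (1 + x)) := by
      field_simp
      rw [hss]; ring
    rw [e]
    apply mul_nonneg (by positivity)
    linarith
  have hmono : MonotoneOn q (Icc v V) := by
    apply monotoneOn_of_deriv_nonneg (convex_Icc v V)
    · intro t ht; obtain ⟨w, -, h⟩ := hder t (hv.trans_le ht.1) (ht.2.trans hV)
      exact h.continuousAt.continuousWithinAt
    · intro t ht; rw [interior_Icc] at ht
      obtain ⟨w, -, h⟩ := hder t (hv.trans ht.1) (ht.2.le.trans hV)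
      exact h.differentiableAt.differentiableWithinAt
    · intro t ht; rw [interior_Icc] at ht
      obtain ⟨w, hw, h⟩ := hder t (hv.trans ht.1) (ht.2.le.trans hV)
      rw [h.deriv]; exact hw
  exact hmono (left_mem_Icc.2 hvV) (right_mem_Icc.2 hvV) hvV

theorem logV {V : ℝ} (hV0 : 0 < V) (hV : V ≤ 1) : log (1 + V) / V ≤ log (1 + 1 / V) := by
  have e : log (1 + 1 / V) = log (1 + V) - log V := by
    rw [← log_div (by linarith) hV0.ne']
    congr 1; field_simp; ring
  rw [e, div_le_iff₀ hV0]
  have h1 : log (1 + V) ≤ V := by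
    have := log_le_sub_one_of_pos (x := 1 + V) (by linarith); linarith
  have h2 : log V ≤ V - 1 := log_le_sub_one_of_pos hV0
  nlinarith

theorem exists_G {s T : ℝ} (hs : 1 / 3 ≤ s) (hs1 : s < 1) (hT0 : 0 < T) (hT1 : T * s ≤ 1) :
    ∃ G : ℝ → ℝ, (∀ t : ℝ, 0 ≤ t → HasDerivAt G (2 * (√s * √T) / ((1 + t) * (1 + t * T))) t) ∧
      G 0 = 0 ∧ G 1 ≤ log ((1 + s) / (1 - s)) := by
  have hs0 : 0 < s := by linarith
  have hsq : √s ^ 2 = s := sq_sqrt hs0.le
  have hsp : 0 < √s := sqrt_pos.2 hs0
  have hTp : 0 < √T := sqrt_pos.2 hT0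
  have hTsq : √T ^ 2 = T := sq_sqrt hT0.le
  have h1s : 0 < 1 - s := by linarith
  have hms : √s ≤ log ((1 + s) / (1 - s)) := by
    have h1 := le_log_one_add_of_nonneg (x := 2 * s / (1 - s)) (by positivity)
    have e1 : 2 * (2 * s / (1 - s)) / (2 * s / (1 - s) + 2) = 2 * s := by field_simp; ring
    have e2 : 1 + 2 * s / (1 - s) = (1 + s) / (1 - s) := by field_simp; ring
    rw [e1, e2] at h1
    refine le_trans ?_ h1
    nlinarith
  rcases eq_or_ne T 1 with hT | hT
  · subst hT
    refine ⟨fun t => 2 * √s * t / (1 + t), ?_, by simp, ?_⟩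
    · intro t ht
      have d1 : HasDerivAt (fun t : ℝ => 2 * √s * t) (2 * √s) t := by
        simpa using (hasDerivAt_id t).const_mul (2 * √s)
      have d2 : HasDerivAt (fun t : ℝ => 1 + t) 1 t := by simpa using (hasDerivAt_id t).const_add 1
      refine (d1.fun_div d2 (by positivity)).congr_deriv ?_
      rw [sqrt_one]
      field_simp
      ring
    · norm_num
      linarith
  · have hT' : T - 1 ≠ 0 := sub_ne_zero.2 hT
    refine ⟨fun t => 2 * (√s * √T) / (T - 1) * (log (1 + t * T) - log (1 + t)), ?_, by simp, ?_⟩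
    · intro t ht
      have hpos : 0 < 1 + t * T := by positivity
      have hpos1 : 0 < 1 + t := by positivity
      have d1 : HasDerivAt (fun t : ℝ => 1 + t * T) T t := by
        simpa using ((hasDerivAt_id t).mul_const T).const_add 1
      have d2 : HasDerivAt (fun t : ℝ => 1 + t) 1 t := by simpa using (hasDerivAt_id t).const_add 1
      refine (((d1.log hpos.ne').fun_sub (d2.log hpos1.ne')).const_mul _).congr_deriv ?_
      field_simp
      ring
    · simp only [one_mul]
      rcases lt_or_gt_of_ne hT with hlt | hgt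
      · have hl : log (1 + 1) - log (1 + T) ≤ (1 - T) / (1 + T) := by
          rw [← log_div (by norm_num) (by linarith)]
          have := log_le_sub_one_of_pos (x := (1 + 1) / (1 + T)) (by positivity)
          refine this.trans (le_of_eq ?_)
          field_simp; ring
        have e : 2 * (√s * √T) / (T - 1) * (log (1 + T) - log (1 + 1)) =
            2 * (√s * √T) / (1 - T) * (log (1 + 1) - log (1 + T)) := by
          have : 1 - T ≠ 0 := by intro h; apply hT; linarith
          field_simp; ring
        rw [e]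
        have h1T : 0 < 1 - T := by linarith
        calc _ ≤ 2 * (√s * √T) / (1 - T) * ((1 - T) / (1 + T)) :=
              mul_le_mul_of_nonneg_left hl (by positivity)
          _ = √s * (2 * √T / (1 + T)) := by field_simp
          _ ≤ √s * 1 := by
              apply mul_le_mul_of_nonneg_left _ hsp.le
              rw [div_le_one (by linarith)]
              nlinarith [sq_nonneg (√T - 1)]
          _ ≤ _ := by rw [mul_one]; exact hms
      · set v := (T - 1) / 2 with hv
        set V := (1 - s) / (2 * s) with hV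
        have hv0 : 0 < v := by rw [hv]; linarith
        have hvV : v ≤ V := by
          rw [hv, hV, div_le_div_iff₀ (by norm_num) (by positivity)]
          nlinarith
        have hV1 : V ≤ 1 := by
          rw [hV, div_le_one (by positivity)]; linarith
        have hTv : T = 1 + 2 * v := by rw [hv]; ring
        have e1 : log (1 + T) - log (1 + 1) = log (1 + v) := by
          rw [← log_div (by linarith) (by norm_num)]
          congr 1; rw [hTv]; ring
        have e2 : 2 * (√s * √T) / (T - 1) * (log (1 + T) - log (1 + 1)) = √s * (√(1 + 2 * v) * log (1 + v) / v) := by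
          rw [e1, ← hTv]
          have : T - 1 = 2 * v := by rw [hv]; ring
          rw [this]; field_simp
        have hV0 : 0 < V := hv0.trans_le hvV
        have e3 : √s * √(1 + 2 * V) = 1 := by
          rw [← sqrt_mul hs0.le, hV]
          have : s * (1 + 2 * ((1 - s) / (2 * s))) = 1 := by field_simp; ring
          rw [this, sqrt_one]
        have e4 : 1 + 1 / V = (1 + s) / (1 - s) := by rw [hV]; field_simp; ring
        rw [e2]
        calc _ ≤ √s * (√(1 + 2 * V) * log (1 + V) / V) := mul_le_mul_of_nonneg_left (q_mono hv0 hvV hV1) hsp.le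
          _ = (√s * √(1 + 2 * V)) * (log (1 + V) / V) := by ring
          _ = log (1 + V) / V := by rw [e3, one_mul]
          _ ≤ log (1 + 1 / V) := logV hV0 hV1
          _ = _ := by rw [e4]

end Pool.Agent.X89.CA
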