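import Mathlib

/-!
Definitions around GKK matrices, tau-matrices and stability (Holtz, Schneider, Mehrmann, Varga),
following the problem files MP_a5d893_al, MP_ba9f40_al, MP_f9eabf_al, MP_0e199b_al, MP_25f4f2_al,
MP_40f31b_al, MP_175e83_al.
-/

namespace Pool.Agent.X89.GK

open Matrix

/-- The minor `A[α,β]`, where `α, β` are increasing index sequences of length `k`, written as
(strictly monotone) maps `Fin k → Fin n`. -/
def minor {n k : ℕ} (A : Matrix (Fin n) (Fin n) ℂ) (α β : Fin k → Fin n) : ℂ :=
  (A.submatrix α β).det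

/-- The dispersal `#α - #(α ∩ β)` of the minor `A[α,β]`. -/
def dispersal {n k : ℕ} (α β : Fin k → Fin n) : ℕ :=
  k - (Finset.univ.image α ∩ Finset.univ.image β).card

/-- `z` is real and positive. -/
def RealPos (z : ℂ) : Prop := z.im = 0 ∧ 0 < z.re

/-- `z` is real and nonnegative. -/
def RealNonneg (z : ℂ) : Prop := z.im = 0 ∧ 0 ≤ z.re

/-- `P`-matrix: all principal minors are real and positive. -/
def IsPMatrix {n : ℕ} (A : Matrix (Fin n) (Fin n) ℂ) : Prop :=
  ∀ (k : ℕ) (α : Fin k → Fin n), StrictMono α → RealPos (minor A α α)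

/-- GKK matrix: a `P`-matrix such that `A[α,β] A[β,α] ≥ 0` for all almost principal minors
(minors of dispersal one). -/
def IsGKK {n : ℕ} (A : Matrix (Fin n) (Fin n) ℂ) : Prop :=
  IsPMatrix A ∧ ∀ (k : ℕ) (α β : Fin k → Fin n), StrictMono α → StrictMono β →
    dispersal α β = 1 → RealNonneg (minor A α β * minor A β α)

/-- Strict GKK matrix: a `P`-matrix such that `A[α,β] A[β,α] > 0` for all almost principal
minors (minors of dispersal one). -/
def IsStrictGKK {n : ℕ} (A : Matrix (Fin n) (Fin n) ℂ) : Prop :=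
  IsPMatrix A ∧ ∀ (k : ℕ) (α β : Fin k → Fin n), StrictMono α → StrictMono β →
    dispersal α β = 1 → RealPos (minor A α β * minor A β α)

/-- The least real eigenvalue `l(B) = min (σ(B) ∩ ℝ)`, with value `∞` if there is no real
eigenvalue (the set is finite, so the infimum in the extended reals is the minimum). -/
noncomputable def lmin {k : ℕ} (B : Matrix (Fin k) (Fin k) ℂ) : EReal :=
  sInf ((fun x : ℝ => (x : EReal)) '' {x : ℝ | (x : ℂ) ∈ spectrum ℂ B})

/-- `ω`-matrix: `l(A(α)) ≤ l(A(β)) < ∞` whenever `∅ ≠ β ⊆ α`. -/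
def IsOmega {n : ℕ} (A : Matrix (Fin n) (Fin n) ℂ) : Prop :=
  ∀ (k m : ℕ) (α : Fin k → Fin n) (β : Fin m → Fin n), StrictMono α → StrictMono β → 0 < m →
    Set.range β ⊆ Set.range α →
      lmin (A.submatrix α α) ≤ lmin (A.submatrix β β) ∧ lmin (A.submatrix β β) < ⊤

/-- `τ`-matrix: an `ω`-matrix with `l(A) ≥ 0`. -/
def IsTau {n : ℕ} (A : Matrix (Fin n) (Fin n) ℂ) : Prop :=
  IsOmega A ∧ 0 ≤ lmin A

/-- (Positive) stable matrix: every eigenvalue has positive real part. -/
def IsStable {n : ℕ} (A : Matrix (Fin n) (Fin n) ℂ) : Prop :=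
  ∀ z ∈ spectrum ℂ A, 0 < z.re

/-! ### Computable Laplace expansion -/

/-- Laplace expansion along the first row over a type with bare operations. -/
def detG {S : Type} (zero one : S) (add mul : S → S → S) (neg : S → S) :
    (k : ℕ) → (Fin k → Fin k → S) → S
  | 0, _ => one
  | k + 1, N => (List.finRange (k + 1)).foldr (fun j acc =>
      add (mul (if j.val % 2 = 0 then N 0 j else neg (N 0 j))
        (detG zero one add mul neg k (fun a b => N a.succ (j.succAbove b)))) acc) zero

theorem detG_map {S : Type} {R : Type*} [CommRing R] (zero one : S) (add mul : S → S → S)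
    (neg : S → S) (φ : S → R) (h0 : φ zero = 0) (h1 : φ one = 1)
    (ha : ∀ a b, φ (add a b) = φ a + φ b) (hm : ∀ a b, φ (mul a b) = φ a * φ b)
    (hn : ∀ a, φ (neg a) = - φ a) :
    ∀ (k : ℕ) (N : Fin k → Fin k → S),
      φ (detG zero one add mul neg k N) = (Matrix.of fun i j => φ (N i j)).det
  | 0, N => by simp [detG, h1]
  | k + 1, N => by
      have key : ∀ (l : List (Fin (k + 1))), φ (l.foldr (fun j acc =>
          add (mul (if j.val % 2 = 0 then N 0 j else neg (N 0 j))
            (detG zero one add mul neg k (fun a b => N a.succ (j.succAbove b)))) acc) zero)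
          = (l.map (fun j : Fin (k+1) => (-1 : R) ^ (j : ℕ) * φ (N 0 j) *
              (Matrix.of fun a b => φ (N (Fin.succ a) (j.succAbove b))).det)).sum := by
        intro l
        induction l with
        | nil => simp [h0]
        | cons j l ih =>
          rw [List.foldr_cons, ha, ih, List.map_cons, List.sum_cons, hm,
            detG_map zero one add mul neg φ h0 h1 ha hm hn k]
          congr 2
          rcases Nat.even_or_odd (j : ℕ) with hj | hj
          · rw [if_pos (Nat.even_iff.mp hj), hj.neg_one_pow, one_mul]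
          · rw [if_neg (by rw [Nat.odd_iff.mp hj]; decide), hn, hj.neg_one_pow, neg_one_mul]
      rw [detG, key, Matrix.det_succ_row_zero, ← List.ofFn_eq_map, List.sum_ofFn]
      rfl

/-- integer determinants -/
def detZ (k : ℕ) (N : Fin k → Fin k → ℤ) : ℤ := detG 0 1 (· + ·) (· * ·) (fun a => -a) k N

theorem detZ_cast {R : Type*} [CommRing R] (k : ℕ) (N : Fin k → Fin k → ℤ) :
    ((detZ k N : ℤ) : R) = (Matrix.of fun i j => ((N i j : ℤ) : R)).det :=
  detG_map 0 1 (· + ·) (· * ·) (fun a => -a) (fun a : ℤ => (a : R)) (by simp) (by simp)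
    (by intros; simp) (by intros; simp) (by intros; simp) k N

/-- evaluation of a coefficient list (constant coefficient first) -/
def ev {R : Type*} [CommRing R] (x : R) : List ℤ → R
  | [] => 0
  | a :: l => (a : R) + x * ev x l

def addP : List ℤ → List ℤ → List ℤ
  | [], q => q
  | a :: p, [] => a :: p
  | a :: p, b :: q => (a + b) :: addP p q

def smulP (c : ℤ) : List ℤ → List ℤ
  | [] => []
  | a :: p => (c * a) :: smulP c p

def mulP : List ℤ → List ℤ → List ℤ
  | [], _ => []
  | a :: p, q => addP (smulP a q) (0 :: mulP p q)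

def negP (p : List ℤ) : List ℤ := smulP (-1) p

theorem ev_addP {R : Type*} [CommRing R] (x : R) : ∀ p q : List ℤ,
    ev x (addP p q) = ev x p + ev x q
  | [], q => by simp [addP, ev]
  | a :: p, [] => by simp [addP, ev]
  | a :: p, b :: q => by
      simp only [addP, ev, ev_addP x p q]
      push_cast
      ring

theorem ev_smulP {R : Type*} [CommRing R] (x : R) (c : ℤ) : ∀ p : List ℤ,
    ev x (smulP c p) = (c : R) * ev x p
  | [] => by simp [smulP, ev]
  | a :: p => by
      simp only [smulP, ev, ev_smulP x c p]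
      push_cast
      ring

theorem ev_mulP {R : Type*} [CommRing R] (x : R) : ∀ p q : List ℤ,
    ev x (mulP p q) = ev x p * ev x q
  | [], q => by simp [mulP, ev]
  | a :: p, q => by
      simp only [mulP, ev, ev_addP, ev_smulP, ev_mulP x p q]
      push_cast
      ring

theorem ev_negP {R : Type*} [CommRing R] (x : R) (p : List ℤ) : ev x (negP p) = - ev x p := by
  simp [negP, ev_smulP]

/-- coefficient list of the determinant of a matrix of polynomials -/
def detP (k : ℕ) (N : Fin k → Fin k → List ℤ) : List ℤ := detG [] [1] addP mulP negP k N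

theorem ev_detP {R : Type*} [CommRing R] (x : R) (k : ℕ) (N : Fin k → Fin k → List ℤ) :
    ev x (detP k N) = (Matrix.of fun i j => ev x (N i j)).det :=
  detG_map [] [1] addP mulP negP (ev x) (by simp [ev]) (by simp [ev]) (ev_addP x) (ev_mulP x)
    (ev_negP x) k N

/-- coefficients all nonnegative and at least one positive -/
def goodP (p : List ℤ) : Bool := p.all (fun a => decide (0 ≤ a)) && p.any (fun a => decide (0 < a))

theorem ev_nonneg {x : ℝ} (hx : 0 < x) : ∀ p : List ℤ, (∀ a ∈ p, 0 ≤ a) → 0 ≤ ev x p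
  | [], _ => by simp [ev]
  | a :: p, h => by
      have h1 := ev_nonneg hx p (fun b hb => h b (List.mem_cons_of_mem _ hb))
      have h2 : 0 ≤ a := h a List.mem_cons_self
      have h3 : (0 : ℝ) ≤ a := by exact_mod_cast h2
      simp only [ev]
      positivity

theorem ev_pos {x : ℝ} (hx : 0 < x) : ∀ p : List ℤ, (∀ a ∈ p, 0 ≤ a) → (∃ a ∈ p, 0 < a) →
    0 < ev x p
  | [], _, h => by simp at h
  | a :: p, h, h' => by
      have h1 := ev_nonneg hx p (fun b hb => h b (List.mem_cons_of_mem _ hb))
      have h2 : 0 ≤ a := h a List.mem_cons_self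
      have h3 : (0 : ℝ) ≤ a := by exact_mod_cast h2
      simp only [ev]
      rcases h' with ⟨b, hb, hb0⟩
      rcases List.mem_cons.mp hb with rfl | hb
      · have : (0 : ℝ) < b := by exact_mod_cast hb0
        positivity
      · have := ev_pos hx p (fun b hb => h b (List.mem_cons_of_mem _ hb)) ⟨b, hb, hb0⟩
        positivity

theorem goodP_pos {p : List ℤ} (h : goodP p = true) {x : ℝ} (hx : 0 < x) : 0 < ev x p := by
  simp only [goodP, Bool.and_eq_true, List.all_eq_true, List.any_eq_true, decide_eq_true_eq] at h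
  exact ev_pos hx p h.1 h.2

end Pool.Agent.X89.GK
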