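import Pool.Agent.X89.GK1

namespace Pool.Agent.X89.GK

open Matrix

theorem mem_spec_iff {k : ℕ} (B : Matrix (Fin k) (Fin k) ℂ) (z : ℂ) :
    z ∈ spectrum ℂ B ↔ (B - z • (1 : Matrix (Fin k) (Fin k) ℂ)).det = 0 := by
  rw [spectrum.mem_iff, Matrix.isUnit_iff_isUnit_det, isUnit_iff_ne_zero, not_not]
  have : algebraMap ℂ (Matrix (Fin k) (Fin k) ℂ) z - B = -(B - z • 1) := by
    rw [Matrix.algebraMap_eq_diagonal]
    ext i j
    simp [Matrix.diagonal_apply, Matrix.one_apply]
  rw [this, Matrix.det_neg]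
  simp

/-- real version of the characteristic function `x ↦ det (R - x)` -/
noncomputable def cf {k : ℕ} (R : Matrix (Fin k) (Fin k) ℝ) (x : ℝ) : ℝ :=
  (R - x • (1 : Matrix (Fin k) (Fin k) ℝ)).det

theorem real_mem_spec_iff {k : ℕ} (R : Matrix (Fin k) (Fin k) ℝ) (x : ℝ) :
    (x : ℂ) ∈ spectrum ℂ (R.map ((↑) : ℝ → ℂ)) ↔ cf R x = 0 := by
  rw [mem_spec_iff, cf]
  have : (R.map ((↑) : ℝ → ℂ)) - (x : ℂ) • (1 : Matrix (Fin k) (Fin k) ℂ)
      = (R - x • (1 : Matrix (Fin k) (Fin k) ℝ)).map ((↑) : ℝ → ℂ) := by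
    ext i j
    by_cases h : i = j
    · subst h; simp
    · simp [Matrix.one_apply, h]
  rw [this]
  have h2 : ((R - x • (1 : Matrix (Fin k) (Fin k) ℝ)).map ((↑) : ℝ → ℂ)).det
      = (((R - x • (1 : Matrix (Fin k) (Fin k) ℝ)).det : ℝ) : ℂ) := by
    have := RingHom.map_det Complex.ofRealHom (R - x • (1 : Matrix (Fin k) (Fin k) ℝ))
    rw [RingHom.mapMatrix_apply] at this
    exact this.symm
  rw [h2]
  exact_mod_cast Iff.rfl

theorem cf_continuous {k : ℕ} (R : Matrix (Fin k) (Fin k) ℝ) : Continuous (cf R) := by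
  unfold cf
  apply Continuous.matrix_det
  fun_prop

/-- the complex matrix with integer entries `M` -/
def toC {n : ℕ} (M : Fin n → Fin n → ℤ) : Matrix (Fin n) (Fin n) ℂ :=
  Matrix.of fun i j => ((M i j : ℤ) : ℂ)

/-- the real matrix with integer entries `M` -/
def toR {n : ℕ} (M : Fin n → Fin n → ℤ) : Matrix (Fin n) (Fin n) ℝ :=
  Matrix.of fun i j => ((M i j : ℤ) : ℝ)

theorem toC_submatrix {n k : ℕ} (M : Fin n → Fin n → ℤ) (α β : Fin k → Fin n) :
    (toC M).submatrix α β = (toC fun i j => M (α i) (β j)) := rfl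

theorem toC_eq_map {n : ℕ} (M : Fin n → Fin n → ℤ) : toC M = (toR M).map ((↑) : ℝ → ℂ) := by
  ext i j; simp [toC, toR]

theorem mem_sub_iff {n k : ℕ} (M : Fin n → Fin n → ℤ) (α : Fin k → Fin n) (x : ℝ) :
    (x : ℂ) ∈ spectrum ℂ ((toC M).submatrix α α) ↔ cf (toR fun i j => M (α i) (α j)) x = 0 := by
  rw [toC_submatrix, toC_eq_map, real_mem_spec_iff]

theorem minor_toC {n k : ℕ} (M : Fin n → Fin n → ℤ) (α β : Fin k → Fin n) :
    minor (toC M) α β = ((detZ k (fun i j => M (α i) (β j)) : ℤ) : ℂ) := by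
  rw [detZ_cast]; rfl

theorem realPos_int {a : ℤ} (h : 0 < a) : RealPos (a : ℂ) := by
  refine ⟨by simp, ?_⟩
  simpa using h

theorem realNonneg_int {a : ℤ} (h : 0 ≤ a) : RealNonneg (a : ℂ) := by
  refine ⟨by simp, ?_⟩
  simpa using h

theorem isPMatrix_of_cert {n : ℕ} {M : Fin n → Fin n → ℤ}
    (h : ∀ (k : ℕ) (α : Fin k → Fin n), StrictMono α →
      0 < detZ k (fun i j => M (α i) (α j))) : IsPMatrix (toC M) := by
  intro k α hα
  rw [minor_toC]
  exact realPos_int (h k α hα)

theorem isGKK_of_cert {n : ℕ} {M : Fin n → Fin n → ℤ}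
    (h : ∀ (k : ℕ) (α : Fin k → Fin n), StrictMono α →
      0 < detZ k (fun i j => M (α i) (α j)))
    (h' : ∀ (k : ℕ) (α β : Fin k → Fin n), StrictMono α → StrictMono β → dispersal α β = 1 →
      0 ≤ detZ k (fun i j => M (α i) (β j)) * detZ k (fun i j => M (β i) (α j))) :
    IsGKK (toC M) := by
  refine ⟨isPMatrix_of_cert h, fun k α β hα hβ hd => ?_⟩
  rw [minor_toC, minor_toC, ← Int.cast_mul]
  exact realNonneg_int (h' k α β hα hβ hd)

theorem isStrictGKK_of_cert {n : ℕ} {M : Fin n → Fin n → ℤ}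
    (h : ∀ (k : ℕ) (α : Fin k → Fin n), StrictMono α →
      0 < detZ k (fun i j => M (α i) (α j)))
    (h' : ∀ (k : ℕ) (α β : Fin k → Fin n), StrictMono α → StrictMono β → dispersal α β = 1 →
      0 < detZ k (fun i j => M (α i) (β j)) * detZ k (fun i j => M (β i) (α j))) :
    IsStrictGKK (toC M) := by
  refine ⟨isPMatrix_of_cert h, fun k α β hα hβ hd => ?_⟩
  rw [minor_toC, minor_toC, ← Int.cast_mul]
  exact realPos_int (h' k α β hα hβ hd)

/-- polynomial certificate: `det (M(α) - v + t)` as a coefficient list in `t` -/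
def shiftP {n : ℕ} (M : Fin n → Fin n → ℤ) (k : ℕ) (α : Fin k → Fin n) (v : ℤ) : List ℤ :=
  detP k (fun i j => [M (α i) (α j) - (if i = j then v else 0), if i = j then 1 else 0])

theorem cf_eq_ev {n k : ℕ} (M : Fin n → Fin n → ℤ) (α : Fin k → Fin n) (v : ℤ) (x : ℝ) :
    cf (toR fun i j => M (α i) (α j)) x = ev ((v : ℝ) - x) (shiftP M k α v) := by
  rw [shiftP, ev_detP, cf]
  congr 1
  ext i j
  by_cases h : i = j
  · subst h
    simp [toR, ev]
  · simp [toR, ev, h, Matrix.one_apply]

theorem cf_pos_of_good {n k : ℕ} {M : Fin n → Fin n → ℤ} {α : Fin k → Fin n} {v : ℤ}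
    (h : goodP (shiftP M k α v) = true) {x : ℝ} (hx : x < v) :
    0 < cf (toR fun i j => M (α i) (α j)) x := by
  rw [cf_eq_ev M α v x]
  exact goodP_pos h (by linarith)

/-- value at an integer point -/
def valZ {n : ℕ} (M : Fin n → Fin n → ℤ) (k : ℕ) (α : Fin k → Fin n) (u : ℤ) : ℤ :=
  detZ k (fun i j => M (α i) (α j) - (if i = j then u else 0))

theorem cf_int {n k : ℕ} (M : Fin n → Fin n → ℤ) (α : Fin k → Fin n) (u : ℤ) :
    cf (toR fun i j => M (α i) (α j)) (u : ℝ) = ((valZ M k α u : ℤ) : ℝ) := by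
  rw [valZ, detZ_cast, cf]
  congr 1
  ext i j
  by_cases h : i = j
  · subst h
    simp [toR]
  · simp [toR, h, Matrix.one_apply]

theorem lmin_ge {n k : ℕ} {M : Fin n → Fin n → ℤ} {α : Fin k → Fin n} {v : ℤ}
    (h : goodP (shiftP M k α v) = true) :
    (((v : ℝ)) : EReal) ≤ lmin ((toC M).submatrix α α) := by
  unfold lmin
  apply le_sInf
  rintro _ ⟨x, hx, rfl⟩
  have hx := (mem_sub_iff M α x).mp hx
  by_contra hlt
  rw [not_le, EReal.coe_lt_coe_iff] at hlt
  exact absurd hx (cf_pos_of_good h hlt).ne'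

theorem lmin_le {n k : ℕ} {M : Fin n → Fin n → ℤ} {α : Fin k → Fin n} {u v : ℤ}
    (h : goodP (shiftP M k α v) = true) (hv : 0 < v) (hu : valZ M k α u ≤ 0) :
    lmin ((toC M).submatrix α α) ≤ (((u : ℝ)) : EReal) := by
  have h0 : 0 < cf (toR fun i j => M (α i) (α j)) 0 :=
    cf_pos_of_good h (by exact_mod_cast hv)
  have h1 : cf (toR fun i j => M (α i) (α j)) (u : ℝ) ≤ 0 := by
    rw [cf_int]; exact_mod_cast hu
  have hu0 : (0 : ℝ) < u := by
    by_contra hneg
    rw [not_lt] at hneg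
    have : 0 < cf (toR fun i j => M (α i) (α j)) (u : ℝ) :=
      cf_pos_of_good h (by
        have : (0 : ℝ) < v := by exact_mod_cast hv
        linarith)
    linarith
  obtain ⟨x, hx, hx0⟩ : ∃ x ∈ Set.Icc (0 : ℝ) u, cf (toR fun i j => M (α i) (α j)) x = 0 := by
    have := intermediate_value_Icc' hu0.le
      ((cf_continuous (toR fun i j => M (α i) (α j))).continuousOn)
    exact this ⟨h1, h0.le⟩
  calc lmin ((toC M).submatrix α α) ≤ (x : EReal) := by
        unfold lmin
        apply sInf_le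
        exact ⟨x, (mem_sub_iff M α x).mpr hx0, rfl⟩
    _ ≤ (((u : ℝ)) : EReal) := by exact_mod_cast hx.2

theorem isTau_of_cert {n : ℕ} {M : Fin n → Fin n → ℤ} (U V : Finset (Fin n) → ℤ)
    (hV : ∀ s, 0 < V s)
    (hUV : ∀ s t, t.Nonempty → t ⊂ s → U s ≤ V t)
    (hgood : ∀ (k : ℕ) (α : Fin k → Fin n), StrictMono α → 0 < k →
      goodP (shiftP M k α (V (Finset.univ.image α))) = true)
    (hneg : ∀ (k : ℕ) (α : Fin k → Fin n), StrictMono α → 0 < k →
      valZ M k α (U (Finset.univ.image α)) ≤ 0) : IsTau (toC M) := by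
  constructor
  · intro k m α β hα hβ hm hsub
    have hk : 0 < k := by
      rcases Nat.eq_zero_or_pos k with rfl | h
      · exfalso
        have : β ⟨0, hm⟩ ∈ Set.range α := hsub ⟨_, rfl⟩
        obtain ⟨x, -⟩ := this
        exact x.elim0
      · exact h
    have hβU : lmin ((toC M).submatrix β β) ≤ (((U (Finset.univ.image β) : ℝ)) : EReal) :=
      lmin_le (hgood m β hβ hm) (hV _) (hneg m β hβ hm)
    have hfin : lmin ((toC M).submatrix β β) < ⊤ := lt_of_le_of_lt hβU (EReal.coe_lt_top _)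
    refine ⟨?_, hfin⟩
    by_cases heq : Finset.univ.image β = Finset.univ.image α
    · have hcard : m = k := by
        have h1 := congrArg Finset.card heq
        rw [Finset.card_image_of_injective _ hβ.injective,
          Finset.card_image_of_injective _ hα.injective] at h1
        simpa using h1
      subst hcard
      have hr : Set.range β = Set.range α := by
        have := congrArg (fun s : Finset (Fin n) => (s : Set (Fin n))) heq
        simpa using this
      have : β = α := (StrictMono.range_inj hβ hα).mp hr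
      rw [this]
    · have hss : Finset.univ.image β ⊂ Finset.univ.image α := by
        refine Finset.ssubset_iff_subset_ne.mpr ⟨?_, heq⟩
        intro x hx
        simp only [Finset.mem_image, Finset.mem_univ, true_and] at hx ⊢
        exact hsub hx
      have hne : (Finset.univ.image β).Nonempty :=
        ⟨β ⟨0, hm⟩, Finset.mem_image_of_mem _ (Finset.mem_univ _)⟩
      have h1 : lmin ((toC M).submatrix α α) ≤ (((U (Finset.univ.image α) : ℝ)) : EReal) :=
        lmin_le (hgood k α hα hk) (hV _) (hneg k α hα hk)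
      have h2 : (((V (Finset.univ.image β) : ℝ)) : EReal) ≤ lmin ((toC M).submatrix β β) :=
        lmin_ge (hgood m β hβ hm)
      have h3 : (((U (Finset.univ.image α) : ℝ)) : EReal)
          ≤ (((V (Finset.univ.image β) : ℝ)) : EReal) := by
        exact_mod_cast hUV _ _ hne hss
      exact h1.trans (h3.trans h2)
  · rcases Nat.eq_zero_or_pos n with rfl | hn
    · unfold lmin
      apply le_sInf
      rintro _ ⟨x, hx, rfl⟩
      exfalso
      have hx := (mem_spec_iff _ _).mp hx
      simp at hx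
    · have h := lmin_ge (hgood n id strictMono_id hn)
      have h' : (toC M).submatrix id id = toC M := by simp
      rw [h'] at h
      refine le_trans ?_ h
      have := hV (Finset.univ.image (id : Fin n → Fin n))
      have h3 : (0 : ℝ) ≤ ((V (Finset.univ.image (id : Fin n → Fin n)) : ℤ) : ℝ) := by
        exact_mod_cast this.le
      exact_mod_cast h3

/-! ### instability -/

theorem exists_eig_re_neg {n : ℕ} (B : Matrix (Fin n) (Fin n) ℂ) (z : ℂ) (hz : z.re < 0)
    (h : ‖(B - z • (1 : Matrix (Fin n) (Fin n) ℂ)).det‖ < (-z.re) ^ n) :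
    ∃ w ∈ spectrum ℂ B, w.re < 0 := by
  by_contra hcon
  push Not at hcon
  have hsplit : B.charpoly.Splits := IsAlgClosed.splits B.charpoly
  have hprod := hsplit.eq_prod_roots_of_monic (Matrix.charpoly_monic B)
  have heval : B.charpoly.eval z = ((B.charpoly.roots.map (fun a => z - a))).prod := by
    conv_lhs => rw [hprod]
    rw [Polynomial.eval_multiset_prod, Multiset.map_map]
    simp
  have hcard : Multiset.card B.charpoly.roots = n := by
    rw [← hsplit.natDegree_eq_card_roots, Matrix.charpoly_natDegree_eq_dim]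
    simp
  have hbound : ∀ s : Multiset ℂ, (∀ a ∈ s, 0 ≤ a.re) →
      (-z.re) ^ (Multiset.card s) ≤ ‖(s.map (fun a => z - a)).prod‖ := by
    intro s
    induction s using Multiset.induction_on with
    | empty => intro _; simp
    | cons a s ih =>
      intro hs
      rw [Multiset.card_cons, Multiset.map_cons, Multiset.prod_cons, norm_mul, pow_succ, mul_comm]
      have h1 : -z.re ≤ ‖z - a‖ := by
        have h2 : |(z - a).re| ≤ ‖z - a‖ := Complex.abs_re_le_norm _
        have h3 : 0 ≤ a.re := hs a (Multiset.mem_cons_self a s)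
        have h4 : -(z - a).re ≤ |(z - a).re| := neg_le_abs _
        simp only [Complex.sub_re] at h2 h4
        linarith
      exact mul_le_mul h1 (ih fun b hb => hs b (Multiset.mem_cons_of_mem hb))
        (by positivity [neg_pos.mpr hz]) (norm_nonneg _)
  have hroots : ∀ a ∈ B.charpoly.roots, 0 ≤ a.re := by
    intro a ha
    apply hcon
    rw [Matrix.mem_spectrum_iff_isRoot_charpoly]
    exact Polynomial.isRoot_of_mem_roots ha
  have hb := hbound _ hroots
  rw [hcard, ← heval] at hb
  have hdet : ‖B.charpoly.eval z‖ = ‖(B - z • (1 : Matrix (Fin n) (Fin n) ℂ)).det‖ := by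
    rw [Matrix.eval_charpoly]
    have : (Matrix.scalar (Fin n)) z - B = -(B - z • 1) := by
      ext i j
      by_cases hij : i = j
      · subst hij; simp
      · simp [hij, Matrix.one_apply]
    rw [this, Matrix.det_neg]
    simp
  rw [hdet] at hb
  linarith

/-- Gaussian integers as pairs -/
def addC (a b : ℤ × ℤ) : ℤ × ℤ := (a.1 + b.1, a.2 + b.2)
def mulC (a b : ℤ × ℤ) : ℤ × ℤ := (a.1 * b.1 - a.2 * b.2, a.1 * b.2 + a.2 * b.1)
def negC (a : ℤ × ℤ) : ℤ × ℤ := (-a.1, -a.2)
noncomputable def phiC (a : ℤ × ℤ) : ℂ := (a.1 : ℂ) + (a.2 : ℂ) * Complex.I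

def detC (k : ℕ) (N : Fin k → Fin k → ℤ × ℤ) : ℤ × ℤ := detG (0, 0) (1, 0) addC mulC negC k N

theorem phiC_detC (k : ℕ) (N : Fin k → Fin k → ℤ × ℤ) :
    phiC (detC k N) = (Matrix.of fun i j => phiC (N i j)).det :=
  detG_map (0, 0) (1, 0) addC mulC negC phiC (by simp [phiC]) (by simp [phiC])
    (by intro a b; simp only [phiC, addC]; push_cast; ring)
    (by
      intro a b
      simp only [phiC, mulC]
      push_cast
      have := Complex.I_sq
      linear_combination (-(a.2 : ℂ) * b.2) * this)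
    (by intro a; simp only [phiC, negC]; push_cast; ring) k N

/-- numerical check of instability -/
def unstableCheck {n : ℕ} (M : Fin n → Fin n → ℤ) (p q : ℤ) : Bool :=
  let d := detC n (fun i j => (M i j - (if i = j then p else 0), if i = j then -q else 0))
  decide (p < 0) && decide (d.1 * d.1 + d.2 * d.2 < (p * p) ^ n)

theorem unstable_of_check {n : ℕ} {M : Fin n → Fin n → ℤ} {p q : ℤ}
    (h : unstableCheck M p q = true) : ∃ w ∈ spectrum ℂ (toC M), w.re < 0 := by
  simp only [unstableCheck, Bool.and_eq_true, decide_eq_true_eq] at h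
  obtain ⟨hp, hd⟩ := h
  have hz : (phiC (p, q)).re < 0 := by
    simp only [phiC, Complex.add_re, Complex.intCast_re, Complex.mul_re, Complex.I_re, mul_zero,
      Complex.intCast_im, Complex.I_im, mul_one, sub_self, add_zero]
    exact_mod_cast hp
  have hzre : (phiC (p, q)).re = (p : ℝ) := by
    simp [phiC]
  apply exists_eig_re_neg _ (phiC (p, q)) hz
  have hmat : toC M - phiC (p, q) • (1 : Matrix (Fin n) (Fin n) ℂ)
      = Matrix.of fun i j => phiC (M i j - (if i = j then p else 0), if i = j then -q else 0) := by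
    ext i j
    by_cases hij : i = j
    · subst hij
      simp only [toC, Matrix.sub_apply, Matrix.of_apply, Matrix.smul_apply, Matrix.one_apply_eq,
        smul_eq_mul, mul_one, if_true, phiC]
      push_cast
      ring
    · simp [toC, phiC, hij, Matrix.one_apply]
  rw [hmat, ← phiC_detC, hzre]
  set d := detC n (fun i j => (M i j - (if i = j then p else 0), if i = j then -q else 0)) with hdd
  have hnorm : ‖phiC d‖ ^ 2 = ((d.1 * d.1 + d.2 * d.2 : ℤ) : ℝ) := by
    rw [← Complex.normSq_eq_norm_sq, Complex.normSq_apply]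
    simp [phiC]
  have h2 : ((d.1 * d.1 + d.2 * d.2 : ℤ) : ℝ) < (((p * p) ^ n : ℤ) : ℝ) := by exact_mod_cast hd
  have hpp : (0 : ℝ) < -(p : ℝ) := by
    have : (p : ℝ) < 0 := by exact_mod_cast hp
    linarith
  have h3 : ((((p * p) ^ n : ℤ)) : ℝ) = ((-(p : ℝ)) ^ n) ^ 2 := by
    push_cast
    rw [← pow_mul, mul_comm n 2, pow_mul]
    congr 1
    ring
  rw [← hnorm, h3] at h2
  exact lt_of_pow_lt_pow_left₀ 2 (by positivity) h2

/-! ### enumeration of increasing sequences -/

theorem sm1 {n : ℕ} {Q : (Fin 1 → Fin n) → Prop} (h : ∀ a, Q ![a]) :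
    ∀ β, StrictMono β → Q β := by
  intro β _
  have : β = ![β 0] := by funext i; fin_cases i; rfl
  rw [this]; exact h _

theorem sm2 {n : ℕ} {Q : (Fin 2 → Fin n) → Prop} (h : ∀ a b, a < b → Q ![a, b]) :
    ∀ β, StrictMono β → Q β := by
  intro β hβ
  have : β = ![β 0, β 1] := by funext i; fin_cases i <;> rfl
  rw [this]; exact h _ _ (hβ (by decide))

theorem sm3 {n : ℕ} {Q : (Fin 3 → Fin n) → Prop}
    (h : ∀ a b, a < b → ∀ c, b < c → Q ![a, b, c]) :
    ∀ β, StrictMono β → Q β := by
  intro β hβ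
  have : β = ![β 0, β 1, β 2] := by funext i; fin_cases i <;> rfl
  rw [this]; exact h _ _ (hβ (by decide)) _ (hβ (by decide))

theorem sm4 {n : ℕ} {Q : (Fin 4 → Fin n) → Prop}
    (h : ∀ a b, a < b → ∀ c, b < c → ∀ d, c < d → Q ![a, b, c, d]) :
    ∀ β, StrictMono β → Q β := by
  intro β hβ
  have : β = ![β 0, β 1, β 2, β 3] := by funext i; fin_cases i <;> rfl
  rw [this]; exact h _ _ (hβ (by decide)) _ (hβ (by decide)) _ (hβ (by decide))

theorem sm5 {n : ℕ} {Q : (Fin 5 → Fin n) → Prop}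
    (h : ∀ a b, a < b → ∀ c, b < c → ∀ d, c < d → ∀ e, d < e → Q ![a, b, c, d, e]) :
    ∀ β, StrictMono β → Q β := by
  intro β hβ
  have : β = ![β 0, β 1, β 2, β 3, β 4] := by funext i; fin_cases i <;> rfl
  rw [this]
  exact h _ _ (hβ (by decide)) _ (hβ (by decide)) _ (hβ (by decide)) _ (hβ (by decide))

theorem card_le_of_strictMono {n k : ℕ} {α : Fin k → Fin n} (h : StrictMono α) : k ≤ n := by
  simpa using Fintype.card_le_of_injective α h.injective

end Pool.Agent.X89.GK
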