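import Pool.Agent.X89.GK2

namespace Pool.Agent.X89.GK

open Matrix

theorem det4 {R : Type*} [CommRing R] (A : Matrix (Fin 4) (Fin 4) R) : A.det =
    A 0 0 * (A 1 1 * (A 2 2 * A 3 3 - A 2 3 * A 3 2) - A 1 2 * (A 2 1 * A 3 3 - A 2 3 * A 3 1)
      + A 1 3 * (A 2 1 * A 3 2 - A 2 2 * A 3 1))
    - A 0 1 * (A 1 0 * (A 2 2 * A 3 3 - A 2 3 * A 3 2) - A 1 2 * (A 2 0 * A 3 3 - A 2 3 * A 3 0)
      + A 1 3 * (A 2 0 * A 3 2 - A 2 2 * A 3 0))
    + A 0 2 * (A 1 0 * (A 2 1 * A 3 3 - A 2 3 * A 3 1) - A 1 1 * (A 2 0 * A 3 3 - A 2 3 * A 3 0)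
      + A 1 3 * (A 2 0 * A 3 1 - A 2 1 * A 3 0))
    - A 0 3 * (A 1 0 * (A 2 1 * A 3 2 - A 2 2 * A 3 1) - A 1 1 * (A 2 0 * A 3 2 - A 2 2 * A 3 0)
      + A 1 2 * (A 2 0 * A 3 1 - A 2 1 * A 3 0)) := by
  rw [Matrix.det_succ_row_zero, Fin.sum_univ_four]
  simp only [Matrix.det_fin_three, Matrix.submatrix_apply]
  simp [Fin.succAbove]
  ring

theorem basic1 (A : Matrix (Fin 1) (Fin 1) ℂ) (hA : IsGKK A) :
    ∃ f0 : ℝ,
    0 < f0 ∧ (∀ z ∈ spectrum ℂ A, z ^ 1 - ((f0 : ℝ) : ℂ) = 0) := by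
  have hP := hA.1
  have hG := hA.2
  have pf0 := hP 1 ![0] (by decide)
  have qf0 : minor A ![0] ![0] = (((minor A ![0] ![0]).re : ℝ) : ℂ) := Complex.ext (by simp) (by simp [pf0.1])
  refine ⟨(minor A ![0] ![0]).re, pf0.2, ?_⟩
  · intro z hz
    rw [mem_spec_iff] at hz
    push_cast
    rw [← qf0]
    rw [Matrix.det_fin_one] at hz
    simp only [minor, Matrix.det_fin_one, Matrix.det_fin_two, Matrix.det_fin_three, det4, Matrix.submatrix_apply, Matrix.sub_apply, Matrix.smul_apply, Matrix.one_apply, smul_eq_mul] at hz ⊢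
    simp at hz ⊢
    linear_combination (-1 : ℂ) * hz

theorem basic2 (A : Matrix (Fin 2) (Fin 2) ℂ) (hA : IsGKK A) :
    ∃ f0 f1 f01 : ℝ,
    0 < f0 ∧ 0 < f1 ∧ 0 < f01 ∧ f01 ≤ f0 * f1 ∧ (∀ z ∈ spectrum ℂ A, z ^ 2 - ((f0 + f1 : ℝ) : ℂ) * z ^ 1 + ((f01 : ℝ) : ℂ) = 0) := by
  have hP := hA.1
  have hG := hA.2
  have pf0 := hP 1 ![0] (by decide)
  have qf0 : minor A ![0] ![0] = (((minor A ![0] ![0]).re : ℝ) : ℂ) := Complex.ext (by simp) (by simp [pf0.1])
  have pf1 := hP 1 ![1] (by decide)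
  have qf1 : minor A ![1] ![1] = (((minor A ![1] ![1]).re : ℝ) : ℂ) := Complex.ext (by simp) (by simp [pf1.1])
  have pf01 := hP 2 ![0, 1] (by decide)
  have qf01 : minor A ![0, 1] ![0, 1] = (((minor A ![0, 1] ![0, 1]).re : ℝ) : ℂ) := Complex.ext (by simp) (by simp [pf01.1])
  refine ⟨(minor A ![0] ![0]).re, (minor A ![1] ![1]).re, (minor A ![0, 1] ![0, 1]).re, pf0.2, pf1.2, pf01.2, ?_, ?_⟩
  · have h := hG 1 ![0] ![1] (by decide) (by decide) (by decide)
    have hid : minor A ![0] ![0] * minor A ![1] ![1] - minor A ![0, 1] ![0, 1] = minor A ![0] ![1] * minor A ![1] ![0] := by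
      simp only [minor, Matrix.det_fin_one, Matrix.det_fin_two, Matrix.submatrix_apply]; simp
    have h2 := h.2; rw [← hid, qf0, qf1, qf01] at h2
    simp only [← Complex.ofReal_mul, ← Complex.ofReal_sub, Complex.ofReal_re] at h2
    linarith
  · intro z hz
    rw [mem_spec_iff] at hz
    push_cast
    rw [← qf0, ← qf1, ← qf01]
    rw [Matrix.det_fin_two] at hz
    simp only [minor, Matrix.det_fin_one, Matrix.det_fin_two, Matrix.det_fin_three, det4, Matrix.submatrix_apply, Matrix.sub_apply, Matrix.smul_apply, Matrix.one_apply, smul_eq_mul] at hz ⊢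
    simp at hz ⊢
    linear_combination hz

theorem basic3 (A : Matrix (Fin 3) (Fin 3) ℂ) (hA : IsGKK A) :
    ∃ f0 f1 f2 f01 f02 f12 f012 : ℝ,
    0 < f0 ∧ 0 < f1 ∧ 0 < f2 ∧ 0 < f01 ∧ 0 < f02 ∧ 0 < f12 ∧ 0 < f012 ∧ f01 ≤ f0 * f1 ∧ f02 ≤ f0 * f2 ∧ f12 ≤ f1 * f2 ∧ f0 * f012 ≤ f01 * f02 ∧ f1 * f012 ≤ f01 * f12 ∧ f2 * f012 ≤ f02 * f12 ∧ (∀ z ∈ spectrum ℂ A, z ^ 3 - ((f0 + f1 + f2 : ℝ) : ℂ) * z ^ 2 + ((f01 + f02 + f12 : ℝ) : ℂ) * z ^ 1 - ((f012 : ℝ) : ℂ) = 0) := by
  have hP := hA.1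
  have hG := hA.2
  have pf0 := hP 1 ![0] (by decide)
  have qf0 : minor A ![0] ![0] = (((minor A ![0] ![0]).re : ℝ) : ℂ) := Complex.ext (by simp) (by simp [pf0.1])
  have pf1 := hP 1 ![1] (by decide)
  have qf1 : minor A ![1] ![1] = (((minor A ![1] ![1]).re : ℝ) : ℂ) := Complex.ext (by simp) (by simp [pf1.1])
  have pf2 := hP 1 ![2] (by decide)
  have qf2 : minor A ![2] ![2] = (((minor A ![2] ![2]).re : ℝ) : ℂ) := Complex.ext (by simp) (by simp [pf2.1])
  have pf01 := hP 2 ![0, 1] (by decide)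
  have qf01 : minor A ![0, 1] ![0, 1] = (((minor A ![0, 1] ![0, 1]).re : ℝ) : ℂ) := Complex.ext (by simp) (by simp [pf01.1])
  have pf02 := hP 2 ![0, 2] (by decide)
  have qf02 : minor A ![0, 2] ![0, 2] = (((minor A ![0, 2] ![0, 2]).re : ℝ) : ℂ) := Complex.ext (by simp) (by simp [pf02.1])
  have pf12 := hP 2 ![1, 2] (by decide)
  have qf12 : minor A ![1, 2] ![1, 2] = (((minor A ![1, 2] ![1, 2]).re : ℝ) : ℂ) := Complex.ext (by simp) (by simp [pf12.1])
  have pf012 := hP 3 ![0, 1, 2] (by decide)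
  have qf012 : minor A ![0, 1, 2] ![0, 1, 2] = (((minor A ![0, 1, 2] ![0, 1, 2]).re : ℝ) : ℂ) := Complex.ext (by simp) (by simp [pf012.1])
  refine ⟨(minor A ![0] ![0]).re, (minor A ![1] ![1]).re, (minor A ![2] ![2]).re, (minor A ![0, 1] ![0, 1]).re, (minor A ![0, 2] ![0, 2]).re, (minor A ![1, 2] ![1, 2]).re, (minor A ![0, 1, 2] ![0, 1, 2]).re, pf0.2, pf1.2, pf2.2, pf01.2, pf02.2, pf12.2, pf012.2, ?_, ?_, ?_, ?_, ?_, ?_, ?_⟩
  · have h := hG 1 ![0] ![1] (by decide) (by decide) (by decide)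
    have hid : minor A ![0] ![0] * minor A ![1] ![1] - minor A ![0, 1] ![0, 1] = minor A ![0] ![1] * minor A ![1] ![0] := by
      simp only [minor, Matrix.det_fin_one, Matrix.det_fin_two, Matrix.submatrix_apply]; simp
    have h2 := h.2; rw [← hid, qf0, qf1, qf01] at h2
    simp only [← Complex.ofReal_mul, ← Complex.ofReal_sub, Complex.ofReal_re] at h2
    linarith
  · have h := hG 1 ![0] ![2] (by decide) (by decide) (by decide)
    have hid : minor A ![0] ![0] * minor A ![2] ![2] - minor A ![0, 2] ![0, 2] = minor A ![0] ![2] * minor A ![2] ![0] := by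
      simp only [minor, Matrix.det_fin_one, Matrix.det_fin_two, Matrix.submatrix_apply]; simp
    have h2 := h.2; rw [← hid, qf0, qf2, qf02] at h2
    simp only [← Complex.ofReal_mul, ← Complex.ofReal_sub, Complex.ofReal_re] at h2
    linarith
  · have h := hG 1 ![1] ![2] (by decide) (by decide) (by decide)
    have hid : minor A ![1] ![1] * minor A ![2] ![2] - minor A ![1, 2] ![1, 2] = minor A ![1] ![2] * minor A ![2] ![1] := by
      simp only [minor, Matrix.det_fin_one, Matrix.det_fin_two, Matrix.submatrix_apply]; simp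
    have h2 := h.2; rw [← hid, qf1, qf2, qf12] at h2
    simp only [← Complex.ofReal_mul, ← Complex.ofReal_sub, Complex.ofReal_re] at h2
    linarith
  · have h := hG 2 ![0, 1] ![0, 2] (by decide) (by decide) (by decide)
    have hid : minor A ![0, 1] ![0, 1] * minor A ![0, 2] ![0, 2] - minor A ![0] ![0] * minor A ![0, 1, 2] ![0, 1, 2] = minor A ![0, 1] ![0, 2] * minor A ![0, 2] ![0, 1] := by
      simp only [minor, Matrix.det_fin_one, Matrix.det_fin_two, Matrix.det_fin_three, Matrix.submatrix_apply]; simp; ring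
    have h2 := h.2; rw [← hid, qf01, qf02, qf0, qf012] at h2
    simp only [← Complex.ofReal_mul, ← Complex.ofReal_sub, Complex.ofReal_re] at h2
    linarith
  · have h := hG 2 ![0, 1] ![1, 2] (by decide) (by decide) (by decide)
    have hid : minor A ![0, 1] ![0, 1] * minor A ![1, 2] ![1, 2] - minor A ![1] ![1] * minor A ![0, 1, 2] ![0, 1, 2] = minor A ![0, 1] ![1, 2] * minor A ![1, 2] ![0, 1] := by
      simp only [minor, Matrix.det_fin_one, Matrix.det_fin_two, Matrix.det_fin_three, Matrix.submatrix_apply]; simp; ring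
    have h2 := h.2; rw [← hid, qf01, qf12, qf1, qf012] at h2
    simp only [← Complex.ofReal_mul, ← Complex.ofReal_sub, Complex.ofReal_re] at h2
    linarith
  · have h := hG 2 ![0, 2] ![1, 2] (by decide) (by decide) (by decide)
    have hid : minor A ![0, 2] ![0, 2] * minor A ![1, 2] ![1, 2] - minor A ![2] ![2] * minor A ![0, 1, 2] ![0, 1, 2] = minor A ![0, 2] ![1, 2] * minor A ![1, 2] ![0, 2] := by
      simp only [minor, Matrix.det_fin_one, Matrix.det_fin_two, Matrix.det_fin_three, Matrix.submatrix_apply]; simp; ring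
    have h2 := h.2; rw [← hid, qf02, qf12, qf2, qf012] at h2
    simp only [← Complex.ofReal_mul, ← Complex.ofReal_sub, Complex.ofReal_re] at h2
    linarith
  · intro z hz
    rw [mem_spec_iff] at hz
    push_cast
    rw [← qf0, ← qf1, ← qf2, ← qf01, ← qf02, ← qf12, ← qf012]
    rw [Matrix.det_fin_three] at hz
    simp only [minor, Matrix.det_fin_one, Matrix.det_fin_two, Matrix.det_fin_three, det4, Matrix.submatrix_apply, Matrix.sub_apply, Matrix.smul_apply, Matrix.one_apply, smul_eq_mul] at hz ⊢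
    simp at hz ⊢
    linear_combination (-1 : ℂ) * hz

theorem basic4 (A : Matrix (Fin 4) (Fin 4) ℂ) (hA : IsGKK A) :
    ∃ f0 f1 f2 f3 f01 f02 f03 f12 f13 f23 f012 f013 f023 f123 f0123 : ℝ,
    0 < f0 ∧ 0 < f1 ∧ 0 < f2 ∧ 0 < f3 ∧ 0 < f01 ∧ 0 < f02 ∧ 0 < f03 ∧ 0 < f12 ∧ 0 < f13 ∧ 0 < f23 ∧ 0 < f012 ∧ 0 < f013 ∧ 0 < f023 ∧ 0 < f123 ∧ 0 < f0123 ∧ f01 ≤ f0 * f1 ∧ f02 ≤ f0 * f2 ∧ f03 ≤ f0 * f3 ∧ f12 ≤ f1 * f2 ∧ f13 ≤ f1 * f3 ∧ f23 ≤ f2 * f3 ∧ f0 * f012 ≤ f01 * f02 ∧ f0 * f013 ≤ f01 * f03 ∧ f0 * f023 ≤ f02 * f03 ∧ f1 * f012 ≤ f01 * f12 ∧ f1 * f013 ≤ f01 * f13 ∧ f1 * f123 ≤ f12 * f13 ∧ f2 * f012 ≤ f02 * f12 ∧ f2 * f023 ≤ f02 * f23 ∧ f2 * f123 ≤ f12 * f23 ∧ f3 * f013 ≤ f03 * f13 ∧ f3 * f023 ≤ f03 * f23 ∧ f3 * f123 ≤ f13 * f23 ∧ f01 * f0123 ≤ f012 * f013 ∧ f02 * f0123 ≤ f012 * f023 ∧ f03 * f0123 ≤ f013 * f023 ∧ f12 * f0123 ≤ f012 * f123 ∧ f13 * f0123 ≤ f013 * f123 ∧ f23 * f0123 ≤ f023 * f123 ∧ (∀ z ∈ spectrum ℂ A, z ^ 4 - ((f0 + f1 + f2 + f3 :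 ℝ) : ℂ) * z ^ 3 + ((f01 + f02 + f03 + f12 + f13 + f23 : ℝ) : ℂ) * z ^ 2 - ((f012 + f013 + f023 + f123 : ℝ) : ℂ) * z ^ 1 + ((f0123 : ℝ) : ℂ) = 0) := by
  have hP := hA.1
  have hG := hA.2
  have pf0 := hP 1 ![0] (by decide)
  have qf0 : minor A ![0] ![0] = (((minor A ![0] ![0]).re : ℝ) : ℂ) := Complex.ext (by simp) (by simp [pf0.1])
  have pf1 := hP 1 ![1] (by decide)
  have qf1 : minor A ![1] ![1] = (((minor A ![1] ![1]).re : ℝ) : ℂ) := Complex.ext (by simp) (by simp [pf1.1])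
  have pf2 := hP 1 ![2] (by decide)
  have qf2 : minor A ![2] ![2] = (((minor A ![2] ![2]).re : ℝ) : ℂ) := Complex.ext (by simp) (by simp [pf2.1])
  have pf3 := hP 1 ![3] (by decide)
  have qf3 : minor A ![3] ![3] = (((minor A ![3] ![3]).re : ℝ) : ℂ) := Complex.ext (by simp) (by simp [pf3.1])
  have pf01 := hP 2 ![0, 1] (by decide)
  have qf01 : minor A ![0, 1] ![0, 1] = (((minor A ![0, 1] ![0, 1]).re : ℝ) : ℂ) := Complex.ext (by simp) (by simp [pf01.1])
  have pf02 := hP 2 ![0, 2] (by decide)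
  have qf02 : minor A ![0, 2] ![0, 2] = (((minor A ![0, 2] ![0, 2]).re : ℝ) : ℂ) := Complex.ext (by simp) (by simp [pf02.1])
  have pf03 := hP 2 ![0, 3] (by decide)
  have qf03 : minor A ![0, 3] ![0, 3] = (((minor A ![0, 3] ![0, 3]).re : ℝ) : ℂ) := Complex.ext (by simp) (by simp [pf03.1])
  have pf12 := hP 2 ![1, 2] (by decide)
  have qf12 : minor A ![1, 2] ![1, 2] = (((minor A ![1, 2] ![1, 2]).re : ℝ) : ℂ) := Complex.ext (by simp) (by simp [pf12.1])
  have pf13 := hP 2 ![1, 3] (by decide)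
  have qf13 : minor A ![1, 3] ![1, 3] = (((minor A ![1, 3] ![1, 3]).re : ℝ) : ℂ) := Complex.ext (by simp) (by simp [pf13.1])
  have pf23 := hP 2 ![2, 3] (by decide)
  have qf23 : minor A ![2, 3] ![2, 3] = (((minor A ![2, 3] ![2, 3]).re : ℝ) : ℂ) := Complex.ext (by simp) (by simp [pf23.1])
  have pf012 := hP 3 ![0, 1, 2] (by decide)
  have qf012 : minor A ![0, 1, 2] ![0, 1, 2] = (((minor A ![0, 1, 2] ![0, 1, 2]).re : ℝ) : ℂ) := Complex.ext (by simp) (by simp [pf012.1])
  have pf013 := hP 3 ![0, 1, 3] (by decide)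
  have qf013 : minor A ![0, 1, 3] ![0, 1, 3] = (((minor A ![0, 1, 3] ![0, 1, 3]).re : ℝ) : ℂ) := Complex.ext (by simp) (by simp [pf013.1])
  have pf023 := hP 3 ![0, 2, 3] (by decide)
  have qf023 : minor A ![0, 2, 3] ![0, 2, 3] = (((minor A ![0, 2, 3] ![0, 2, 3]).re : ℝ) : ℂ) := Complex.ext (by simp) (by simp [pf023.1])
  have pf123 := hP 3 ![1, 2, 3] (by decide)
  have qf123 : minor A ![1, 2, 3] ![1, 2, 3] = (((minor A ![1, 2, 3] ![1, 2, 3]).re : ℝ) : ℂ) := Complex.ext (by simp) (by simp [pf123.1])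
  have pf0123 := hP 4 ![0, 1, 2, 3] (by decide)
  have qf0123 : minor A ![0, 1, 2, 3] ![0, 1, 2, 3] = (((minor A ![0, 1, 2, 3] ![0, 1, 2, 3]).re : ℝ) : ℂ) := Complex.ext (by simp) (by simp [pf0123.1])
  refine ⟨(minor A ![0] ![0]).re, (minor A ![1] ![1]).re, (minor A ![2] ![2]).re, (minor A ![3] ![3]).re, (minor A ![0, 1] ![0, 1]).re, (minor A ![0, 2] ![0, 2]).re, (minor A ![0, 3] ![0, 3]).re, (minor A ![1, 2] ![1, 2]).re, (minor A ![1, 3] ![1, 3]).re, (minor A ![2, 3] ![2, 3]).re, (minor A ![0, 1, 2] ![0, 1, 2]).re, (minor A ![0, 1, 3] ![0, 1, 3]).re, (minor A ![0, 2, 3] ![0, 2, 3]).re, (minor A ![1, 2, 3] ![1, 2, 3]).re, (minor A ![0, 1, 2, 3] ![0, 1, 2, 3]).re, pf0.2, pf1.2, pf2.2, pf3.2, pf01.2, pf02.2, pf03.2, pf12.2, pf13.2, pf23.2, pf012.2, pf013.2, pf023.2, pf123.2, pf0123.2, ?_, ?_, ?_, ?_, ?_, ?_, ?_, ?_, ?_, ?_, ?_, ?_, ?_, ?_, ?_, ?_, ?_, ?_, ?_, ?_, ?_, ?_, ?_, ?_, ?_⟩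
  · have h := hG 1 ![0] ![1] (by decide) (by decide) (by decide)
    have hid : minor A ![0] ![0] * minor A ![1] ![1] - minor A ![0, 1] ![0, 1] = minor A ![0] ![1] * minor A ![1] ![0] := by
      simp only [minor, Matrix.det_fin_one, Matrix.det_fin_two, Matrix.submatrix_apply]; simp
    have h2 := h.2; rw [← hid, qf0, qf1, qf01] at h2
    simp only [← Complex.ofReal_mul, ← Complex.ofReal_sub, Complex.ofReal_re] at h2
    linarith
  · have h := hG 1 ![0] ![2] (by decide) (by decide) (by decide)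
    have hid : minor A ![0] ![0] * minor A ![2] ![2] - minor A ![0, 2] ![0, 2] = minor A ![0] ![2] * minor A ![2] ![0] := by
      simp only [minor, Matrix.det_fin_one, Matrix.det_fin_two, Matrix.submatrix_apply]; simp
    have h2 := h.2; rw [← hid, qf0, qf2, qf02] at h2
    simp only [← Complex.ofReal_mul, ← Complex.ofReal_sub, Complex.ofReal_re] at h2
    linarith
  · have h := hG 1 ![0] ![3] (by decide) (by decide) (by decide)
    have hid : minor A ![0] ![0] * minor A ![3] ![3] - minor A ![0, 3] ![0, 3] = minor A ![0] ![3] * minor A ![3] ![0] := by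
      simp only [minor, Matrix.det_fin_one, Matrix.det_fin_two, Matrix.submatrix_apply]; simp
    have h2 := h.2; rw [← hid, qf0, qf3, qf03] at h2
    simp only [← Complex.ofReal_mul, ← Complex.ofReal_sub, Complex.ofReal_re] at h2
    linarith
  · have h := hG 1 ![1] ![2] (by decide) (by decide) (by decide)
    have hid : minor A ![1] ![1] * minor A ![2] ![2] - minor A ![1, 2] ![1, 2] = minor A ![1] ![2] * minor A ![2] ![1] := by
      simp only [minor, Matrix.det_fin_one, Matrix.det_fin_two, Matrix.submatrix_apply]; simp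
    have h2 := h.2; rw [← hid, qf1, qf2, qf12] at h2
    simp only [← Complex.ofReal_mul, ← Complex.ofReal_sub, Complex.ofReal_re] at h2
    linarith
  · have h := hG 1 ![1] ![3] (by decide) (by decide) (by decide)
    have hid : minor A ![1] ![1] * minor A ![3] ![3] - minor A ![1, 3] ![1, 3] = minor A ![1] ![3] * minor A ![3] ![1] := by
      simp only [minor, Matrix.det_fin_one, Matrix.det_fin_two, Matrix.submatrix_apply]; simp
    have h2 := h.2; rw [← hid, qf1, qf3, qf13] at h2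
    simp only [← Complex.ofReal_mul, ← Complex.ofReal_sub, Complex.ofReal_re] at h2
    linarith
  · have h := hG 1 ![2] ![3] (by decide) (by decide) (by decide)
    have hid : minor A ![2] ![2] * minor A ![3] ![3] - minor A ![2, 3] ![2, 3] = minor A ![2] ![3] * minor A ![3] ![2] := by
      simp only [minor, Matrix.det_fin_one, Matrix.det_fin_two, Matrix.submatrix_apply]; simp
    have h2 := h.2; rw [← hid, qf2, qf3, qf23] at h2
    simp only [← Complex.ofReal_mul, ← Complex.ofReal_sub, Complex.ofReal_re] at h2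
    linarith
  · have h := hG 2 ![0, 1] ![0, 2] (by decide) (by decide) (by decide)
    have hid : minor A ![0, 1] ![0, 1] * minor A ![0, 2] ![0, 2] - minor A ![0] ![0] * minor A ![0, 1, 2] ![0, 1, 2] = minor A ![0, 1] ![0, 2] * minor A ![0, 2] ![0, 1] := by
      simp only [minor, Matrix.det_fin_one, Matrix.det_fin_two, Matrix.det_fin_three, Matrix.submatrix_apply]; simp; ring
    have h2 := h.2; rw [← hid, qf01, qf02, qf0, qf012] at h2
    simp only [← Complex.ofReal_mul, ← Complex.ofReal_sub, Complex.ofReal_re] at h2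
    linarith
  · have h := hG 2 ![0, 1] ![0, 3] (by decide) (by decide) (by decide)
    have hid : minor A ![0, 1] ![0, 1] * minor A ![0, 3] ![0, 3] - minor A ![0] ![0] * minor A ![0, 1, 3] ![0, 1, 3] = minor A ![0, 1] ![0, 3] * minor A ![0, 3] ![0, 1] := by
      simp only [minor, Matrix.det_fin_one, Matrix.det_fin_two, Matrix.det_fin_three, Matrix.submatrix_apply]; simp; ring
    have h2 := h.2; rw [← hid, qf01, qf03, qf0, qf013] at h2
    simp only [← Complex.ofReal_mul, ← Complex.ofReal_sub, Complex.ofReal_re] at h2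
    linarith
  · have h := hG 2 ![0, 2] ![0, 3] (by decide) (by decide) (by decide)
    have hid : minor A ![0, 2] ![0, 2] * minor A ![0, 3] ![0, 3] - minor A ![0] ![0] * minor A ![0, 2, 3] ![0, 2, 3] = minor A ![0, 2] ![0, 3] * minor A ![0, 3] ![0, 2] := by
      simp only [minor, Matrix.det_fin_one, Matrix.det_fin_two, Matrix.det_fin_three, Matrix.submatrix_apply]; simp; ring
    have h2 := h.2; rw [← hid, qf02, qf03, qf0, qf023] at h2
    simp only [← Complex.ofReal_mul, ← Complex.ofReal_sub, Complex.ofReal_re] at h2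
    linarith
  · have h := hG 2 ![0, 1] ![1, 2] (by decide) (by decide) (by decide)
    have hid : minor A ![0, 1] ![0, 1] * minor A ![1, 2] ![1, 2] - minor A ![1] ![1] * minor A ![0, 1, 2] ![0, 1, 2] = minor A ![0, 1] ![1, 2] * minor A ![1, 2] ![0, 1] := by
      simp only [minor, Matrix.det_fin_one, Matrix.det_fin_two, Matrix.det_fin_three, Matrix.submatrix_apply]; simp; ring
    have h2 := h.2; rw [← hid, qf01, qf12, qf1, qf012] at h2
    simp only [← Complex.ofReal_mul, ← Complex.ofReal_sub, Complex.ofReal_re] at h2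
    linarith
  · have h := hG 2 ![0, 1] ![1, 3] (by decide) (by decide) (by decide)
    have hid : minor A ![0, 1] ![0, 1] * minor A ![1, 3] ![1, 3] - minor A ![1] ![1] * minor A ![0, 1, 3] ![0, 1, 3] = minor A ![0, 1] ![1, 3] * minor A ![1, 3] ![0, 1] := by
      simp only [minor, Matrix.det_fin_one, Matrix.det_fin_two, Matrix.det_fin_three, Matrix.submatrix_apply]; simp; ring
    have h2 := h.2; rw [← hid, qf01, qf13, qf1, qf013] at h2
    simp only [← Complex.ofReal_mul, ← Complex.ofReal_sub, Complex.ofReal_re] at h2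
    linarith
  · have h := hG 2 ![1, 2] ![1, 3] (by decide) (by decide) (by decide)
    have hid : minor A ![1, 2] ![1, 2] * minor A ![1, 3] ![1, 3] - minor A ![1] ![1] * minor A ![1, 2, 3] ![1, 2, 3] = minor A ![1, 2] ![1, 3] * minor A ![1, 3] ![1, 2] := by
      simp only [minor, Matrix.det_fin_one, Matrix.det_fin_two, Matrix.det_fin_three, Matrix.submatrix_apply]; simp; ring
    have h2 := h.2; rw [← hid, qf12, qf13, qf1, qf123] at h2
    simp only [← Complex.ofReal_mul, ← Complex.ofReal_sub, Complex.ofReal_re] at h2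
    linarith
  · have h := hG 2 ![0, 2] ![1, 2] (by decide) (by decide) (by decide)
    have hid : minor A ![0, 2] ![0, 2] * minor A ![1, 2] ![1, 2] - minor A ![2] ![2] * minor A ![0, 1, 2] ![0, 1, 2] = minor A ![0, 2] ![1, 2] * minor A ![1, 2] ![0, 2] := by
      simp only [minor, Matrix.det_fin_one, Matrix.det_fin_two, Matrix.det_fin_three, Matrix.submatrix_apply]; simp; ring
    have h2 := h.2; rw [← hid, qf02, qf12, qf2, qf012] at h2
    simp only [← Complex.ofReal_mul, ← Complex.ofReal_sub, Complex.ofReal_re] at h2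
    linarith
  · have h := hG 2 ![0, 2] ![2, 3] (by decide) (by decide) (by decide)
    have hid : minor A ![0, 2] ![0, 2] * minor A ![2, 3] ![2, 3] - minor A ![2] ![2] * minor A ![0, 2, 3] ![0, 2, 3] = minor A ![0, 2] ![2, 3] * minor A ![2, 3] ![0, 2] := by
      simp only [minor, Matrix.det_fin_one, Matrix.det_fin_two, Matrix.det_fin_three, Matrix.submatrix_apply]; simp; ring
    have h2 := h.2; rw [← hid, qf02, qf23, qf2, qf023] at h2
    simp only [← Complex.ofReal_mul, ← Complex.ofReal_sub, Complex.ofReal_re] at h2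
    linarith
  · have h := hG 2 ![1, 2] ![2, 3] (by decide) (by decide) (by decide)
    have hid : minor A ![1, 2] ![1, 2] * minor A ![2, 3] ![2, 3] - minor A ![2] ![2] * minor A ![1, 2, 3] ![1, 2, 3] = minor A ![1, 2] ![2, 3] * minor A ![2, 3] ![1, 2] := by
      simp only [minor, Matrix.det_fin_one, Matrix.det_fin_two, Matrix.det_fin_three, Matrix.submatrix_apply]; simp; ring
    have h2 := h.2; rw [← hid, qf12, qf23, qf2, qf123] at h2
    simp only [← Complex.ofReal_mul, ← Complex.ofReal_sub, Complex.ofReal_re] at h2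
    linarith
  · have h := hG 2 ![0, 3] ![1, 3] (by decide) (by decide) (by decide)
    have hid : minor A ![0, 3] ![0, 3] * minor A ![1, 3] ![1, 3] - minor A ![3] ![3] * minor A ![0, 1, 3] ![0, 1, 3] = minor A ![0, 3] ![1, 3] * minor A ![1, 3] ![0, 3] := by
      simp only [minor, Matrix.det_fin_one, Matrix.det_fin_two, Matrix.det_fin_three, Matrix.submatrix_apply]; simp; ring
    have h2 := h.2; rw [← hid, qf03, qf13, qf3, qf013] at h2
    simp only [← Complex.ofReal_mul, ← Complex.ofReal_sub, Complex.ofReal_re] at h2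
    linarith
  · have h := hG 2 ![0, 3] ![2, 3] (by decide) (by decide) (by decide)
    have hid : minor A ![0, 3] ![0, 3] * minor A ![2, 3] ![2, 3] - minor A ![3] ![3] * minor A ![0, 2, 3] ![0, 2, 3] = minor A ![0, 3] ![2, 3] * minor A ![2, 3] ![0, 3] := by
      simp only [minor, Matrix.det_fin_one, Matrix.det_fin_two, Matrix.det_fin_three, Matrix.submatrix_apply]; simp; ring
    have h2 := h.2; rw [← hid, qf03, qf23, qf3, qf023] at h2
    simp only [← Complex.ofReal_mul, ← Complex.ofReal_sub, Complex.ofReal_re] at h2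
    linarith
  · have h := hG 2 ![1, 3] ![2, 3] (by decide) (by decide) (by decide)
    have hid : minor A ![1, 3] ![1, 3] * minor A ![2, 3] ![2, 3] - minor A ![3] ![3] * minor A ![1, 2, 3] ![1, 2, 3] = minor A ![1, 3] ![2, 3] * minor A ![2, 3] ![1, 3] := by
      simp only [minor, Matrix.det_fin_one, Matrix.det_fin_two, Matrix.det_fin_three, Matrix.submatrix_apply]; simp; ring
    have h2 := h.2; rw [← hid, qf13, qf23, qf3, qf123] at h2
    simp only [← Complex.ofReal_mul, ← Complex.ofReal_sub, Complex.ofReal_re] at h2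
    linarith
  · have h := hG 3 ![0, 1, 2] ![0, 1, 3] (by decide) (by decide) (by decide)
    have hid : minor A ![0, 1, 2] ![0, 1, 2] * minor A ![0, 1, 3] ![0, 1, 3] - minor A ![0, 1] ![0, 1] * minor A ![0, 1, 2, 3] ![0, 1, 2, 3] = minor A ![0, 1, 2] ![0, 1, 3] * minor A ![0, 1, 3] ![0, 1, 2] := by
      simp only [minor, Matrix.det_fin_two, Matrix.det_fin_three, det4, Matrix.submatrix_apply]; simp; ring
    have h2 := h.2; rw [← hid, qf012, qf013, qf01, qf0123] at h2
    simp only [← Complex.ofReal_mul, ← Complex.ofReal_sub, Complex.ofReal_re] at h2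
    linarith
  · have h := hG 3 ![0, 1, 2] ![0, 2, 3] (by decide) (by decide) (by decide)
    have hid : minor A ![0, 1, 2] ![0, 1, 2] * minor A ![0, 2, 3] ![0, 2, 3] - minor A ![0, 2] ![0, 2] * minor A ![0, 1, 2, 3] ![0, 1, 2, 3] = minor A ![0, 1, 2] ![0, 2, 3] * minor A ![0, 2, 3] ![0, 1, 2] := by
      simp only [minor, Matrix.det_fin_two, Matrix.det_fin_three, det4, Matrix.submatrix_apply]; simp; ring
    have h2 := h.2; rw [← hid, qf012, qf023, qf02, qf0123] at h2
    simp only [← Complex.ofReal_mul, ← Complex.ofReal_sub, Complex.ofReal_re] at h2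
    linarith
  · have h := hG 3 ![0, 1, 3] ![0, 2, 3] (by decide) (by decide) (by decide)
    have hid : minor A ![0, 1, 3] ![0, 1, 3] * minor A ![0, 2, 3] ![0, 2, 3] - minor A ![0, 3] ![0, 3] * minor A ![0, 1, 2, 3] ![0, 1, 2, 3] = minor A ![0, 1, 3] ![0, 2, 3] * minor A ![0, 2, 3] ![0, 1, 3] := by
      simp only [minor, Matrix.det_fin_two, Matrix.det_fin_three, det4, Matrix.submatrix_apply]; simp; ring
    have h2 := h.2; rw [← hid, qf013, qf023, qf03, qf0123] at h2
    simp only [← Complex.ofReal_mul, ← Complex.ofReal_sub, Complex.ofReal_re] at h2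
    linarith
  · have h := hG 3 ![0, 1, 2] ![1, 2, 3] (by decide) (by decide) (by decide)
    have hid : minor A ![0, 1, 2] ![0, 1, 2] * minor A ![1, 2, 3] ![1, 2, 3] - minor A ![1, 2] ![1, 2] * minor A ![0, 1, 2, 3] ![0, 1, 2, 3] = minor A ![0, 1, 2] ![1, 2, 3] * minor A ![1, 2, 3] ![0, 1, 2] := by
      simp only [minor, Matrix.det_fin_two, Matrix.det_fin_three, det4, Matrix.submatrix_apply]; simp; ring
    have h2 := h.2; rw [← hid, qf012, qf123, qf12, qf0123] at h2
    simp only [← Complex.ofReal_mul, ← Complex.ofReal_sub, Complex.ofReal_re] at h2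
    linarith
  · have h := hG 3 ![0, 1, 3] ![1, 2, 3] (by decide) (by decide) (by decide)
    have hid : minor A ![0, 1, 3] ![0, 1, 3] * minor A ![1, 2, 3] ![1, 2, 3] - minor A ![1, 3] ![1, 3] * minor A ![0, 1, 2, 3] ![0, 1, 2, 3] = minor A ![0, 1, 3] ![1, 2, 3] * minor A ![1, 2, 3] ![0, 1, 3] := by
      simp only [minor, Matrix.det_fin_two, Matrix.det_fin_three, det4, Matrix.submatrix_apply]; simp; ring
    have h2 := h.2; rw [← hid, qf013, qf123, qf13, qf0123] at h2
    simp only [← Complex.ofReal_mul, ← Complex.ofReal_sub, Complex.ofReal_re] at h2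
    linarith
  · have h := hG 3 ![0, 2, 3] ![1, 2, 3] (by decide) (by decide) (by decide)
    have hid : minor A ![0, 2, 3] ![0, 2, 3] * minor A ![1, 2, 3] ![1, 2, 3] - minor A ![2, 3] ![2, 3] * minor A ![0, 1, 2, 3] ![0, 1, 2, 3] = minor A ![0, 2, 3] ![1, 2, 3] * minor A ![1, 2, 3] ![0, 2, 3] := by
      simp only [minor, Matrix.det_fin_two, Matrix.det_fin_three, det4, Matrix.submatrix_apply]; simp; ring
    have h2 := h.2; rw [← hid, qf023, qf123, qf23, qf0123] at h2
    simp only [← Complex.ofReal_mul, ← Complex.ofReal_sub, Complex.ofReal_re] at h2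
    linarith
  · intro z hz
    rw [mem_spec_iff] at hz
    push_cast
    rw [← qf0, ← qf1, ← qf2, ← qf3, ← qf01, ← qf02, ← qf03, ← qf12, ← qf13, ← qf23, ← qf012, ← qf013, ← qf023, ← qf123, ← qf0123]
    rw [det4] at hz
    simp only [minor, Matrix.det_fin_one, Matrix.det_fin_two, Matrix.det_fin_three, det4, Matrix.submatrix_apply, Matrix.sub_apply, Matrix.smul_apply, Matrix.one_apply, smul_eq_mul] at hz ⊢
    simp at hz ⊢
    linear_combination hz

/-! ### Hurwitz-type lemmas -/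

theorem stable2 {e1 e2 : ℝ} (h1 : 0 < e1) (h2 : 0 < e2) {z : ℂ}
    (hz : z ^ 2 - (e1 : ℂ) * z ^ 1 + (e2 : ℂ) = 0) : 0 < z.re := by
  obtain ⟨x, y⟩ := z
  have hre := congrArg Complex.re hz
  have him := congrArg Complex.im hz
  simp [pow_succ] at hre him
  show 0 < x
  by_contra hx
  rw [not_lt] at hx
  by_cases hy : y = 0
  · subst hy
    nlinarith [mul_nonneg h1.le (neg_nonneg.mpr hx), sq_nonneg x]
  · have h3 : y * (2 * x - e1) = 0 := by linear_combination him
    rcases mul_eq_zero.mp h3 with h | h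
    · exact hy h
    · linarith

theorem stable3 {e1 e2 e3 : ℝ} (h1 : 0 < e1) (h2 : 0 < e2) (h3 : 0 < e3) (h : e3 < e1 * e2)
    {z : ℂ} (hz : z ^ 3 - (e1 : ℂ) * z ^ 2 + (e2 : ℂ) * z ^ 1 - (e3 : ℂ) = 0) : 0 < z.re := by
  obtain ⟨x, y⟩ := z
  have hre := congrArg Complex.re hz
  have him := congrArg Complex.im hz
  simp [pow_succ] at hre him
  show 0 < x
  by_contra hx
  rw [not_lt] at hx
  by_cases hy : y = 0
  · subst hy
    have : x * x * x - e1 * (x * x) + e2 * x - e3 = 0 := by linear_combination hre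
    nlinarith [mul_nonneg h2.le (neg_nonneg.mpr hx), mul_nonneg h1.le (mul_self_nonneg x),
      mul_nonneg (mul_self_nonneg x) (neg_nonneg.mpr hx)]
  · have h4 : y * (3 * x ^ 2 - y ^ 2 - 2 * e1 * x + e2) = 0 := by linear_combination him
    have h5 : 3 * x ^ 2 - y ^ 2 - 2 * e1 * x + e2 = 0 := (mul_eq_zero.mp h4).resolve_left hy
    have h6 : x ^ 3 - 3 * x * y ^ 2 - e1 * (x ^ 2 - y ^ 2) + e2 * x - e3 = 0 := by
      linear_combination hre
    set b : ℝ := -2 * x with hb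
    set c : ℝ := x ^ 2 + y ^ 2 with hc
    set d : ℝ := -e1 - b with hd
    have hb0 : 0 ≤ b := by rw [hb]; linarith
    have hd0 : d < 0 := by rw [hd]; linarith
    have hc0 : 0 < c := by rw [hc]; positivity
    have q2 : c + b * d = e2 := by rw [hd, hc, hb]; linear_combination (-1 : ℝ) * h5
    have q3 : c * d = -e3 := by
      rw [hd, hc, hb]; linear_combination x * h5 - h6
    have key : e1 * e2 - e3 = -b * (c + d * (b + d)) := by
      have e1d : e1 = -(b + d) := by rw [hd]; ring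
      rw [← q2, e1d]
      linear_combination (-1 : ℝ) * q3
    have : 0 ≤ c + d * (b + d) := by
      have e1d : b + d = -e1 := by rw [hd]; ring
      rw [e1d]
      nlinarith
    nlinarith

theorem stable4 {e1 e2 e3 e4 : ℝ} (h1 : 0 < e1) (h2 : 0 < e2) (h3 : 0 < e3) (h4 : 0 < e4)
    (h : e3 ^ 2 + e1 ^ 2 * e4 < e1 * e2 * e3)
    {z : ℂ} (hz : z ^ 4 - (e1 : ℂ) * z ^ 3 + (e2 : ℂ) * z ^ 2 - (e3 : ℂ) * z ^ 1 + (e4 : ℂ) = 0) :
    0 < z.re := by
  obtain ⟨x, y⟩ := z
  have hre := congrArg Complex.re hz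
  have him := congrArg Complex.im hz
  simp [pow_succ] at hre him
  show 0 < x
  by_contra hx
  rw [not_lt] at hx
  by_cases hy : y = 0
  · subst hy
    have : x * x * x * x - e1 * (x * x * x) + e2 * (x * x) - e3 * x + e4 = 0 := by
      linear_combination hre
    nlinarith [mul_nonneg h3.le (neg_nonneg.mpr hx), mul_nonneg h2.le (mul_self_nonneg x),
      mul_nonneg h1.le (mul_nonneg (mul_self_nonneg x) (neg_nonneg.mpr hx)),
      mul_self_nonneg (x * x)]
  · have h5' : y * (4 * x ^ 3 - 4 * x * y ^ 2 - e1 * (3 * x ^ 2 - y ^ 2) + 2 * e2 * x - e3) = 0 := by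
      linear_combination him
    have h5 := (mul_eq_zero.mp h5').resolve_left hy
    have h6 : x ^ 4 - 6 * x ^ 2 * y ^ 2 + y ^ 4 - e1 * (x ^ 3 - 3 * x * y ^ 2)
        + e2 * (x ^ 2 - y ^ 2) - e3 * x + e4 = 0 := by
      linear_combination hre
    set b : ℝ := -2 * x with hb
    set c : ℝ := x ^ 2 + y ^ 2 with hc
    set d : ℝ := -e1 - b with hd
    set f : ℝ := e2 - b * d - c with hf
    have hb0 : 0 ≤ b := by rw [hb]; linarith
    have hd0 : d < 0 := by rw [hd]; linarith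
    have hc0 : 0 < c := by rw [hc]; positivity
    have q3 : b * f + c * d = -e3 := by
      rw [hf, hd, hc, hb]; linear_combination (-1 : ℝ) * h5
    have q4 : c * f = e4 := by
      rw [hf, hd, hc, hb]; linear_combination (-1 : ℝ) * h6 + x * h5
    have e1d : e1 = -(b + d) := by rw [hd]; ring
    have e2d : e2 = c + f + b * d := by rw [hf]; ring
    have e3d : e3 = -(b * f + c * d) := by linarith
    have key : e1 * e2 * e3 - e3 ^ 2 - e1 ^ 2 * e4 = b * d * ((c - f) ^ 2 + e1 * e3) := by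
      rw [e3d, ← q4, e2d, e1d]; ring
    have h7 : 0 ≤ (c - f) ^ 2 + e1 * e3 := by positivity
    have h8 : b * d ≤ 0 := mul_nonpos_of_nonneg_of_nonpos hb0 hd0.le
    nlinarith [mul_nonneg (neg_nonneg.mpr h8) h7]

theorem L1 {fi fj fij fjk fijk : ℝ} (hj : 0 < fj) (hjk : 0 < fjk) (h1 : fij ≤ fi * fj)
    (h2 : fj * fijk ≤ fij * fjk) : fijk ≤ fi * fjk := by
  have h3 : fj * fijk ≤ fj * (fi * fjk) := by
    calc fj * fijk ≤ fij * fjk := h2
      _ ≤ (fi * fj) * fjk := mul_le_mul_of_nonneg_right h1 hjk.le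
      _ = fj * (fi * fjk) := by ring
  exact le_of_mul_le_mul_left h3 hj

theorem L2 {fx fxy fxz fxyz fxzw e4 : ℝ} (hxz : 0 < fxz) (hxyz : 0 < fxyz) (hx : 0 < fx)
    (hxy : 0 < fxy) (hxzw : 0 < fxzw) (he : 0 < e4)
    (h1 : fx * fxyz ≤ fxy * fxz) (h2 : fxz * e4 ≤ fxyz * fxzw) : fx * e4 ≤ fxy * fxzw := by
  have h3 : (fxyz * fxz) * (fx * e4) ≤ (fxyz * fxz) * (fxy * fxzw) := by
    calc (fxyz * fxz) * (fx * e4) = (fx * fxyz) * (fxz * e4) := by ring
      _ ≤ (fxy * fxz) * (fxyz * fxzw) := mul_le_mul h1 h2 (by positivity) (by positivity)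
      _ = (fxyz * fxz) * (fxy * fxzw) := by ring
  exact le_of_mul_le_mul_left h3 (by positivity)

end Pool.Agent.X89.GK
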