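import Pool.Agent.X89.GK3

namespace Pool.Agent.X89.GK

open Matrix

theorem stable_order0 (A : Matrix (Fin 0) (Fin 0) ℂ) : IsStable A := by
  intro z hz
  rw [mem_spec_iff] at hz
  simp at hz

theorem stable_order1 (A : Matrix (Fin 1) (Fin 1) ℂ) (hA : IsGKK A) : IsStable A := by
  intro z hz
  obtain ⟨f0, h0, hs⟩ := basic1 A hA
  have h := hs z hz
  have h1 : z = (f0 : ℂ) := by linear_combination h
  rw [h1]; simpa using h0

theorem stable_order2 (A : Matrix (Fin 2) (Fin 2) ℂ) (hA : IsGKK A) : IsStable A := by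
  intro z hz
  obtain ⟨f0, f1, f01, h0, h1, h01, b1, hs⟩ := basic2 A hA
  have h := hs z hz
  have h' : z ^ 2 - ((f0 + f1 : ℝ) : ℂ) * z ^ 1 + ((f01 : ℝ) : ℂ) = 0 := by
    linear_combination h
  exact stable2 (by positivity) (by positivity) h'

theorem stable_order3 (A : Matrix (Fin 3) (Fin 3) ℂ) (hA : IsGKK A) : IsStable A := by
  intro z hz
  obtain ⟨f0, f1, f2, f01, f02, f12, f012, h0, h1, h2, h01, h02, h12, h012,
    b1, b2, b3, b4, b5, b6, hs⟩ := basic3 A hA
  have h := hs z hz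
  have h' : z ^ 3 - ((f0 + f1 + f2 : ℝ) : ℂ) * z ^ 2 + ((f01 + f02 + f12 : ℝ) : ℂ) * z ^ 1
      - ((f012 : ℝ) : ℂ) = 0 := by
    linear_combination h
  have k1 : f012 ≤ f0 * f12 := L1 h1 h12 b1 b5
  refine stable3 (by positivity) (by positivity) (by positivity) ?_ h'
  nlinarith [mul_pos h0 h01, mul_pos h0 h02, mul_pos h1 h01, mul_pos h1 h02, mul_pos h1 h12,
    mul_pos h2 h01, mul_pos h2 h02, mul_pos h2 h12]

theorem stable_order4 (A : Matrix (Fin 4) (Fin 4) ℂ) (hA : IsGKK A) : IsStable A := by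
  intro z hz
  obtain ⟨f0, f1, f2, f3, f01, f02, f03, f12, f13, f23, f012, f013, f023, f123, f0123, pf0, pf1, pf2, pf3, pf01, pf02, pf03, pf12, pf13, pf23, pf012, pf013, pf023, pf123, pf0123,
    b0, b1, b2, b3, b4, b5, b6, b7, b8, b9, b10, b11, b12, b13, b14, b15, b16, b17, b18, b19, b20, b21, b22, b23, hs⟩ := basic4 A hA
  have h := hs z hz
  have h' : z ^ 4 - ((f0 + f1 + f2 + f3 : ℝ) : ℂ) * z ^ 3 + ((f01 + f02 + f03 + f12 + f13 + f23 : ℝ) : ℂ) * z ^ 2 - ((f012 + f013 + f023 + f123 : ℝ) : ℂ) * z ^ 1 + ((f0123 : ℝ) : ℂ) = 0 := by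
    linear_combination h
  have c012 : f012 ≤ f0 * f12 := by
    refine L1 (fij := f01) pf1 pf12 ?_ ?_
    · linarith only [b0]
    · linarith only [b9]
  have c102 : f012 ≤ f1 * f02 := by
    refine L1 (fij := f01) pf0 pf02 ?_ ?_
    · linarith only [b0]
    · linarith only [b6]
  have c201 : f012 ≤ f2 * f01 := by
    refine L1 (fij := f02) pf0 pf01 ?_ ?_
    · linarith only [b1]
    · linarith only [b6]
  have c013 : f013 ≤ f0 * f13 := by
    refine L1 (fij := f01) pf1 pf13 ?_ ?_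
    · linarith only [b0]
    · linarith only [b10]
  have c103 : f013 ≤ f1 * f03 := by
    refine L1 (fij := f01) pf0 pf03 ?_ ?_
    · linarith only [b0]
    · linarith only [b7]
  have c301 : f013 ≤ f3 * f01 := by
    refine L1 (fij := f03) pf0 pf01 ?_ ?_
    · linarith only [b2]
    · linarith only [b7]
  have c023 : f023 ≤ f0 * f23 := by
    refine L1 (fij := f02) pf2 pf23 ?_ ?_
    · linarith only [b1]
    · linarith only [b13]
  have c203 : f023 ≤ f2 * f03 := by
    refine L1 (fij := f02) pf0 pf03 ?_ ?_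
    · linarith only [b1]
    · linarith only [b8]
  have c302 : f023 ≤ f3 * f02 := by
    refine L1 (fij := f03) pf0 pf02 ?_ ?_
    · linarith only [b2]
    · linarith only [b8]
  have c123 : f123 ≤ f1 * f23 := by
    refine L1 (fij := f12) pf2 pf23 ?_ ?_
    · linarith only [b3]
    · linarith only [b14]
  have c213 : f123 ≤ f2 * f13 := by
    refine L1 (fij := f12) pf1 pf13 ?_ ?_
    · linarith only [b3]
    · linarith only [b11]
  have c312 : f123 ≤ f3 * f12 := by
    refine L1 (fij := f13) pf1 pf12 ?_ ?_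
    · linarith only [b4]
    · linarith only [b11]
  have d01 : f0 * f0123 ≤ f01 * f023 := by
    refine L2 (fxz := f02) (fxyz := f012) pf02 pf012 pf0 pf01 pf023 pf0123 ?_ ?_
    · linarith only [b6]
    · linarith only [b19]
  have d02 : f0 * f0123 ≤ f02 * f013 := by
    refine L2 (fxz := f01) (fxyz := f012) pf01 pf012 pf0 pf02 pf013 pf0123 ?_ ?_
    · linarith only [b6]
    · linarith only [b18]
  have d03 : f0 * f0123 ≤ f03 * f012 := by
    refine L2 (fxz := f01) (fxyz := f013) pf01 pf013 pf0 pf03 pf012 pf0123 ?_ ?_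
    · linarith only [b7]
    · linarith only [b18]
  have d10 : f1 * f0123 ≤ f01 * f123 := by
    refine L2 (fxz := f12) (fxyz := f012) pf12 pf012 pf1 pf01 pf123 pf0123 ?_ ?_
    · linarith only [b9]
    · linarith only [b21]
  have d12 : f1 * f0123 ≤ f12 * f013 := by
    refine L2 (fxz := f01) (fxyz := f012) pf01 pf012 pf1 pf12 pf013 pf0123 ?_ ?_
    · linarith only [b9]
    · linarith only [b18]
  have d13 : f1 * f0123 ≤ f13 * f012 := by
    refine L2 (fxz := f01) (fxyz := f013) pf01 pf013 pf1 pf13 pf012 pf0123 ?_ ?_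
    · linarith only [b10]
    · linarith only [b18]
  have d20 : f2 * f0123 ≤ f02 * f123 := by
    refine L2 (fxz := f12) (fxyz := f012) pf12 pf012 pf2 pf02 pf123 pf0123 ?_ ?_
    · linarith only [b12]
    · linarith only [b21]
  have d21 : f2 * f0123 ≤ f12 * f023 := by
    refine L2 (fxz := f02) (fxyz := f012) pf02 pf012 pf2 pf12 pf023 pf0123 ?_ ?_
    · linarith only [b12]
    · linarith only [b19]
  have d23 : f2 * f0123 ≤ f23 * f012 := by
    refine L2 (fxz := f02) (fxyz := f023) pf02 pf023 pf2 pf23 pf012 pf0123 ?_ ?_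
    · linarith only [b13]
    · linarith only [b19]
  have d30 : f3 * f0123 ≤ f03 * f123 := by
    refine L2 (fxz := f13) (fxyz := f013) pf13 pf013 pf3 pf03 pf123 pf0123 ?_ ?_
    · linarith only [b15]
    · linarith only [b22]
  have d31 : f3 * f0123 ≤ f13 * f023 := by
    refine L2 (fxz := f03) (fxyz := f013) pf03 pf013 pf3 pf13 pf023 pf0123 ?_ ?_
    · linarith only [b15]
    · linarith only [b20]
  have d32 : f3 * f0123 ≤ f23 * f013 := by
    refine L2 (fxz := f03) (fxyz := f023) pf03 pf023 pf3 pf23 pf013 pf0123 ?_ ?_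
    · linarith only [b16]
    · linarith only [b20]
  have g01 : f0 * (f0 * f0123 + f1 * f0123) ≤ f0 * f01 * (f012 + f013 + f023 + f123) := by
    have u1 := mul_le_mul_of_nonneg_left d01 pf0.le
    have u2 := mul_le_mul_of_nonneg_left d10 pf0.le
    have u3 : 0 < f0 * f01 * (f012 + f013) := by positivity
    linarith only [u1, u2, u3]
  have g02 : f0 * (f0 * f0123 + f2 * f0123) ≤ f0 * f02 * (f012 + f013 + f023 + f123) := by
    have u1 := mul_le_mul_of_nonneg_left d02 pf0.le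
    have u2 := mul_le_mul_of_nonneg_left d20 pf0.le
    have u3 : 0 < f0 * f02 * (f012 + f023) := by positivity
    linarith only [u1, u2, u3]
  have g03 : f0 * (f0 * f0123 + f3 * f0123) ≤ f0 * f03 * (f012 + f013 + f023 + f123) := by
    have u1 := mul_le_mul_of_nonneg_left d03 pf0.le
    have u2 := mul_le_mul_of_nonneg_left d30 pf0.le
    have u3 : 0 < f0 * f03 * (f013 + f023) := by positivity
    linarith only [u1, u2, u3]
  have g10 : f1 * (f1 * f0123 + f0 * f0123) ≤ f1 * f01 * (f012 + f013 + f023 + f123) := by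
    have u1 := mul_le_mul_of_nonneg_left d10 pf1.le
    have u2 := mul_le_mul_of_nonneg_left d01 pf1.le
    have u3 : 0 < f1 * f01 * (f012 + f013) := by positivity
    linarith only [u1, u2, u3]
  have g12 : f1 * (f1 * f0123 + f2 * f0123) ≤ f1 * f12 * (f012 + f013 + f023 + f123) := by
    have u1 := mul_le_mul_of_nonneg_left d12 pf1.le
    have u2 := mul_le_mul_of_nonneg_left d21 pf1.le
    have u3 : 0 < f1 * f12 * (f012 + f123) := by positivity
    linarith only [u1, u2, u3]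
  have g13 : f1 * (f1 * f0123 + f3 * f0123) ≤ f1 * f13 * (f012 + f013 + f023 + f123) := by
    have u1 := mul_le_mul_of_nonneg_left d13 pf1.le
    have u2 := mul_le_mul_of_nonneg_left d31 pf1.le
    have u3 : 0 < f1 * f13 * (f013 + f123) := by positivity
    linarith only [u1, u2, u3]
  have g20 : f2 * (f2 * f0123 + f0 * f0123) ≤ f2 * f02 * (f012 + f013 + f023 + f123) := by
    have u1 := mul_le_mul_of_nonneg_left d20 pf2.le
    have u2 := mul_le_mul_of_nonneg_left d02 pf2.le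
    have u3 : 0 < f2 * f02 * (f012 + f023) := by positivity
    linarith only [u1, u2, u3]
  have g21 : f2 * (f2 * f0123 + f1 * f0123) ≤ f2 * f12 * (f012 + f013 + f023 + f123) := by
    have u1 := mul_le_mul_of_nonneg_left d21 pf2.le
    have u2 := mul_le_mul_of_nonneg_left d12 pf2.le
    have u3 : 0 < f2 * f12 * (f012 + f123) := by positivity
    linarith only [u1, u2, u3]
  have g23 : f2 * (f2 * f0123 + f3 * f0123) ≤ f2 * f23 * (f012 + f013 + f023 + f123) := by
    have u1 := mul_le_mul_of_nonneg_left d23 pf2.le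
    have u2 := mul_le_mul_of_nonneg_left d32 pf2.le
    have u3 : 0 < f2 * f23 * (f023 + f123) := by positivity
    linarith only [u1, u2, u3]
  have g30 : f3 * (f3 * f0123 + f0 * f0123) ≤ f3 * f03 * (f012 + f013 + f023 + f123) := by
    have u1 := mul_le_mul_of_nonneg_left d30 pf3.le
    have u2 := mul_le_mul_of_nonneg_left d03 pf3.le
    have u3 : 0 < f3 * f03 * (f013 + f023) := by positivity
    linarith only [u1, u2, u3]
  have g31 : f3 * (f3 * f0123 + f1 * f0123) ≤ f3 * f13 * (f012 + f013 + f023 + f123) := by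
    have u1 := mul_le_mul_of_nonneg_left d31 pf3.le
    have u2 := mul_le_mul_of_nonneg_left d13 pf3.le
    have u3 : 0 < f3 * f13 * (f013 + f123) := by positivity
    linarith only [u1, u2, u3]
  have g32 : f3 * (f3 * f0123 + f2 * f0123) ≤ f3 * f23 * (f012 + f013 + f023 + f123) := by
    have u1 := mul_le_mul_of_nonneg_left d32 pf3.le
    have u2 := mul_le_mul_of_nonneg_left d23 pf3.le
    have u3 : 0 < f3 * f23 * (f023 + f123) := by positivity
    linarith only [u1, u2, u3]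
  refine stable4 (by positivity) (by positivity) (by positivity) (by positivity) ?_ h'
  have hD : 0 ≤ (f0 * f12 - f012) + (f1 * f02 - f012) + (f2 * f01 - f012) + (f0 * f13 - f013) + (f1 * f03 - f013) + (f3 * f01 - f013) + (f0 * f23 - f023) + (f2 * f03 - f023) + (f3 * f02 - f023) + (f1 * f23 - f123) + (f2 * f13 - f123) + (f3 * f12 - f123) :=
    (add_nonneg (add_nonneg (add_nonneg (add_nonneg (add_nonneg (add_nonneg (add_nonneg (add_nonneg (add_nonneg (add_nonneg (add_nonneg (sub_nonneg.mpr c012) (sub_nonneg.mpr c102)) (sub_nonneg.mpr c201)) (sub_nonneg.mpr c013)) (sub_nonneg.mpr c103)) (sub_nonneg.mpr c301)) (sub_nonneg.mpr c023)) (sub_nonneg.mpr c203)) (sub_nonneg.mpr c302)) (sub_nonneg.mpr c123)) (sub_nonneg.mpr c213)) (sub_nonneg.mpr c312))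
  have hE : (f0 + f1 + f2 + f3) * (f01 + f02 + f03 + f12 + f13 + f23) = 3 * (f012 + f013 + f023 + f123) + (f0 * f01 + f0 * f02 + f0 * f03 + f1 * f01 + f1 * f12 + f1 * f13 + f2 * f02 + f2 * f12 + f2 * f23 + f3 * f03 + f3 * f13 + f3 * f23) + ((f0 * f12 - f012) + (f1 * f02 - f012) + (f2 * f01 - f012) + (f0 * f13 - f013) + (f1 * f03 - f013) + (f3 * f01 - f013) + (f0 * f23 - f023) + (f2 * f03 - f023) + (f3 * f02 - f023) + (f1 * f23 - f123) + (f2 * f13 - f123) + (f3 * f12 - f123)) := by ring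
  have hG0 : 0 ≤ (f0 * f01 * (f012 + f013 + f023 + f123) - f0 * (f0 * f0123 + f1 * f0123)) + (f0 * f02 * (f012 + f013 + f023 + f123) - f0 * (f0 * f0123 + f2 * f0123)) + (f0 * f03 * (f012 + f013 + f023 + f123) - f0 * (f0 * f0123 + f3 * f0123)) + (f1 * f01 * (f012 + f013 + f023 + f123) - f1 * (f1 * f0123 + f0 * f0123)) + (f1 * f12 * (f012 + f013 + f023 + f123) - f1 * (f1 * f0123 + f2 * f0123)) + (f1 * f13 * (f012 + f013 + f023 + f123) - f1 * (f1 * f0123 + f3 * f0123)) + (f2 * f02 * (f012 + f013 + f023 + f123) - f2 * (f2 * f0123 + f0 * f0123)) + (f2 * f12 * (f012 + f013 + f023 + f123) - f2 * (f2 * f0123 + f1 * f0123)) + (f2 * f23 * (f012 + f013 + f023 + f123) - f2 * (f2 * f0123 + f3 * f0123)) + (f3 * f03 * (f012 + f013 + f023 + f123) - f3 * (f3 * f0123 + f0 * f0123)) + (f3 * f13 * (f012 + f013 + f023 + f123) - f3 * (f3 * f0123 + f1 * f0123)) + (f3 * f23 * (f012 + f013 + f023 + f123) - f3 * (f3 * f0123 + f2 * f0123)) :=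
    (add_nonneg (add_nonneg (add_nonneg (add_nonneg (add_nonneg (add_nonneg (add_nonneg (add_nonneg (add_nonneg (add_nonneg (add_nonneg (sub_nonneg.mpr g01) (sub_nonneg.mpr g02)) (sub_nonneg.mpr g03)) (sub_nonneg.mpr g10)) (sub_nonneg.mpr g12)) (sub_nonneg.mpr g13)) (sub_nonneg.mpr g20)) (sub_nonneg.mpr g21)) (sub_nonneg.mpr g23)) (sub_nonneg.mpr g30)) (sub_nonneg.mpr g31)) (sub_nonneg.mpr g32))
  have hG : (f0 * f01 + f0 * f02 + f0 * f03 + f1 * f01 + f1 * f12 + f1 * f13 + f2 * f02 + f2 * f12 + f2 * f23 + f3 * f03 + f3 * f13 + f3 * f23) * (f012 + f013 + f023 + f123) = (f0 + f1 + f2 + f3) ^ 2 * f0123 + 2 * (f0 ^ 2 + f1 ^ 2 + f2 ^ 2 + f3 ^ 2) * f0123 + ((f0 * f01 * (f012 + f013 + f023 + f123) - f0 * (f0 * f0123 + f1 * f0123)) + (f0 * f02 * (f012 + f013 + f023 + f123) - f0 * (f0 * f0123 + f2 * f0123)) + (f0 * f03 * (f012 + f013 + f023 + f123) - f0 * (f0 * f0123 + f3 * f0123)) + (f1 * f01 * (f012 + f013 + f023 + f123) - f1 * (f1 * f0123 + f0 * f0123))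 + (f1 * f12 * (f012 + f013 + f023 + f123) - f1 * (f1 * f0123 + f2 * f0123)) + (f1 * f13 * (f012 + f013 + f023 + f123) - f1 * (f1 * f0123 + f3 * f0123)) + (f2 * f02 * (f012 + f013 + f023 + f123) - f2 * (f2 * f0123 + f0 * f0123)) + (f2 * f12 * (f012 + f013 + f023 + f123) - f2 * (f2 * f0123 + f1 * f0123)) + (f2 * f23 * (f012 + f013 + f023 + f123) - f2 * (f2 * f0123 + f3 * f0123)) + (f3 * f03 * (f012 + f013 + f023 + f123) - f3 * (f3 * f0123 + f0 * f0123)) + (f3 * f13 * (f012 + f013 + f023 + f123) - f3 * (f3 * f0123 + f1 * f0123)) + (f3 * f23 * (f012 + f013 + f023 + f123) - f3 * (f3 * f0123 + f2 * f0123))) := by ring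
  have s1 : 0 ≤ 2 * (f0 ^ 2 + f1 ^ 2 + f2 ^ 2 + f3 ^ 2) * f0123 := by positivity
  have hE3 : 0 < (f012 + f013 + f023 + f123) := by positivity
  have hfin : (f0 + f1 + f2 + f3) * (f01 + f02 + f03 + f12 + f13 + f23) * (f012 + f013 + f023 + f123) = 3 * (f012 + f013 + f023 + f123) * (f012 + f013 + f023 + f123) + (f0 * f01 + f0 * f02 + f0 * f03 + f1 * f01 + f1 * f12 + f1 * f13 + f2 * f02 + f2 * f12 + f2 * f23 + f3 * f03 + f3 * f13 + f3 * f23) * (f012 + f013 + f023 + f123) + ((f0 * f12 - f012) + (f1 * f02 - f012) + (f2 * f01 - f012) + (f0 * f13 - f013) + (f1 * f03 - f013) + (f3 * f01 - f013) + (f0 * f23 - f023) + (f2 * f03 - f023) + (f3 * f02 - f023) + (f1 * f23 - f123) + (f2 * f13 - f123) + (f3 * f12 - f123)) * (f012 + f013 + f023 + f123) := by rw [hE]; ring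
  rw [hfin, hG]
  have hDE : 0 ≤ ((f0 * f12 - f012) + (f1 * f02 - f012) + (f2 * f01 - f012) + (f0 * f13 - f013) + (f1 * f03 - f013) + (f3 * f01 - f013) + (f0 * f23 - f023) + (f2 * f03 - f023) + (f3 * f02 - f023) + (f1 * f23 - f123) + (f2 * f13 - f123) + (f3 * f12 - f123)) * (f012 + f013 + f023 + f123) := mul_nonneg hD hE3.le
  have hq := mul_pos hE3 hE3
  have hsq : (f012 + f013 + f023 + f123) ^ 2 = (f012 + f013 + f023 + f123) * (f012 + f013 + f023 + f123) := sq _
  generalize ((f0 * f12 - f012) + (f1 * f02 - f012) + (f2 * f01 - f012) + (f0 * f13 - f013) + (f1 * f03 - f013) + (f3 * f01 - f013) + (f0 * f23 - f023) + (f2 * f03 - f023) + (f3 * f02 - f023) + (f1 * f23 - f123) + (f2 * f13 - f123) + (f3 * f12 - f123)) * (f012 + f013 + f023 + f123) = Y1 at hDE ⊢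
  generalize (f0 * f01 * (f012 + f013 + f023 + f123) - f0 * (f0 * f0123 + f1 * f0123)) + (f0 * f02 * (f012 + f013 + f023 + f123) - f0 * (f0 * f0123 + f2 * f0123)) + (f0 * f03 * (f012 + f013 + f023 + f123) - f0 * (f0 * f0123 + f3 * f0123)) + (f1 * f01 * (f012 + f013 + f023 + f123) - f1 * (f1 * f0123 + f0 * f0123)) + (f1 * f12 * (f012 + f013 + f023 + f123) - f1 * (f1 * f0123 + f2 * f0123)) + (f1 * f13 * (f012 + f013 + f023 + f123) - f1 * (f1 * f0123 + f3 * f0123)) + (f2 * f02 * (f012 + f013 + f023 + f123) - f2 * (f2 * f0123 + f0 * f0123)) + (f2 * f12 * (f012 + f013 + f023 + f123) - f2 * (f2 * f0123 + f1 * f0123)) + (f2 * f23 * (f012 + f013 + f023 + f123) - f2 * (f2 * f0123 + f3 * f0123)) + (f3 * f03 * (f012 + f013 + f023 + f123) - f3 * (f3 * f0123 + f0 * f0123)) + (f3 * f13 * (f012 + f013 + f023 + f123) - f3 * (f3 * f0123 + f1 * f0123)) + (f3 * f23 * (f012 + f013 + f023 + f123) - f3 * (f3 * f0123 + f2 * f0123)) = Y2 at hG0 ⊢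
  generalize 2 * (f0 ^ 2 + f1 ^ 2 + f2 ^ 2 + f3 ^ 2) * f0123 = Y3 at s1 ⊢
  generalize (f0 + f1 + f2 + f3) ^ 2 * f0123 = Y4
  rw [hsq]
  generalize (f012 + f013 + f023 + f123) = Y5 at hq ⊢
  nlinarith only [hDE, hG0, s1, hq]

/-- every GKK matrix of order at most four is stable -/
theorem stable_of_order_le_four {n : ℕ} (hn : n ≤ 4) (A : Matrix (Fin n) (Fin n) ℂ)
    (hA : IsGKK A) : IsStable A := by
  interval_cases n
  · exact stable_order0 A
  · exact stable_order1 A hA
  · exact stable_order2 A hA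
  · exact stable_order3 A hA
  · exact stable_order4 A hA

end Pool.Agent.X89.GK
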