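import Pool.Agent.X89.GK4

namespace Pool.Agent.X89.GK

open Matrix

instance decStrictMono {n k : ℕ} (α : Fin k → Fin n) : Decidable (StrictMono α) :=
  decidable_of_iff (∀ a b : Fin k, a < b → α a < α b)
    ⟨fun h a b hab => h a b hab, fun h _ _ hab => h hab⟩

/-- a 4 x 4 GKK tau-matrix violating Newton's inequalities -/
def M4 : Fin 4 → Fin 4 → ℤ :=
  ![![10000, 1000, 1000, 1000],
    ![9000, 1000, 900, 900],
    ![9000, 0, 1000, 900],
    ![9000, 0, 0, 1000]]

/-- upper thresholds for the least real eigenvalues of the principal submatrices -/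
def U4 (s : Finset (Fin 4)) : ℤ :=
  [1, 10000, 1000, 93, 1000, 93, 1000, 40, 1000, 93, 1000, 40, 1000, 40, 1000, 9].getD
    (∑ i ∈ s, 2 ^ (i : ℕ)) 1

/-- lower thresholds for the least real eigenvalues of the principal submatrices -/
def V4 (s : Finset (Fin 4)) : ℤ :=
  [1, 10000, 1000, 91, 1000, 91, 1000, 39, 1000, 91, 1000, 39, 1000, 39, 1000, 7].getD
    (∑ i ∈ s, 2 ^ (i : ℕ)) 1

theorem V4_pos : ∀ s, 0 < V4 s := by decide +kernel

theorem UV4 : ∀ s t : Finset (Fin 4), t.Nonempty → t ⊂ s → U4 s ≤ V4 t := by decide +kernel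

theorem good4 : ∀ (k : ℕ) (α : Fin k → Fin 4), StrictMono α → 0 < k →
    goodP (shiftP M4 k α (V4 (Finset.univ.image α))) = true := by
  intro k α hα hk
  have hk4 := card_le_of_strictMono hα
  interval_cases k
  · revert α; apply sm1 (Q := fun α => goodP (shiftP M4 1 α (V4 (Finset.univ.image α))) = true)
    decide +kernel
  · revert α; apply sm2 (Q := fun α => goodP (shiftP M4 2 α (V4 (Finset.univ.image α))) = true)
    decide +kernel
  · revert α; apply sm3 (Q := fun α => goodP (shiftP M4 3 α (V4 (Finset.univ.image α))) = true)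
    decide +kernel
  · revert α; apply sm4 (Q := fun α => goodP (shiftP M4 4 α (V4 (Finset.univ.image α))) = true)
    decide +kernel

theorem neg4 : ∀ (k : ℕ) (α : Fin k → Fin 4), StrictMono α → 0 < k →
    valZ M4 k α (U4 (Finset.univ.image α)) ≤ 0 := by
  intro k α hα hk
  have hk4 := card_le_of_strictMono hα
  interval_cases k
  · revert α; apply sm1 (Q := fun α => valZ M4 1 α (U4 (Finset.univ.image α)) ≤ 0)
    decide +kernel
  · revert α; apply sm2 (Q := fun α => valZ M4 2 α (U4 (Finset.univ.image α)) ≤ 0)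
    decide +kernel
  · revert α; apply sm3 (Q := fun α => valZ M4 3 α (U4 (Finset.univ.image α)) ≤ 0)
    decide +kernel
  · revert α; apply sm4 (Q := fun α => valZ M4 4 α (U4 (Finset.univ.image α)) ≤ 0)
    decide +kernel

theorem tau4 : IsTau (toC M4) := isTau_of_cert U4 V4 V4_pos UV4 good4 neg4

theorem p4 : ∀ (k : ℕ) (α : Fin k → Fin 4), StrictMono α →
    0 < detZ k (fun i j => M4 (α i) (α j)) := by
  intro k α hα
  have hk4 := card_le_of_strictMono hα
  interval_cases k
  · decide +kernel +revert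
  · revert α; apply sm1 (Q := fun α => 0 < detZ 1 (fun i j => M4 (α i) (α j)))
    decide +kernel
  · revert α; apply sm2 (Q := fun α => 0 < detZ 2 (fun i j => M4 (α i) (α j)))
    decide +kernel
  · revert α; apply sm3 (Q := fun α => 0 < detZ 3 (fun i j => M4 (α i) (α j)))
    decide +kernel
  · revert α; apply sm4 (Q := fun α => 0 < detZ 4 (fun i j => M4 (α i) (α j)))
    decide +kernel

theorem g4 : ∀ (k : ℕ) (α β : Fin k → Fin 4), StrictMono α → StrictMono β → dispersal α β = 1 →
    0 ≤ detZ k (fun i j => M4 (α i) (β j)) * detZ k (fun i j => M4 (β i) (α j)) := by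
  intro k α β hα hβ
  have hk4 := card_le_of_strictMono hα
  interval_cases k
  · decide +kernel +revert
  · revert β; revert α
    apply sm1 (Q := fun α => ∀ β : Fin 1 → Fin 4, StrictMono β → dispersal α β = 1 →
      0 ≤ detZ 1 (fun i j => M4 (α i) (β j)) * detZ 1 (fun i j => M4 (β i) (α j)))
    intro a
    apply sm1 (Q := fun β => dispersal ![a] β = 1 →
      0 ≤ detZ 1 (fun i j => M4 (![a] i) (β j)) * detZ 1 (fun i j => M4 (β i) (![a] j)))
    revert a
    decide +kernel
  · revert β; revert α
    apply sm2 (Q := fun α => ∀ β : Fin 2 → Fin 4, StrictMono β → dispersal α β = 1 →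
      0 ≤ detZ 2 (fun i j => M4 (α i) (β j)) * detZ 2 (fun i j => M4 (β i) (α j)))
    intro a b hab
    apply sm2 (Q := fun β => dispersal ![a, b] β = 1 →
      0 ≤ detZ 2 (fun i j => M4 (![a, b] i) (β j)) * detZ 2 (fun i j => M4 (β i) (![a, b] j)))
    revert a b
    decide +kernel
  · revert β; revert α
    apply sm3 (Q := fun α => ∀ β : Fin 3 → Fin 4, StrictMono β → dispersal α β = 1 →
      0 ≤ detZ 3 (fun i j => M4 (α i) (β j)) * detZ 3 (fun i j => M4 (β i) (α j)))
    intro a b hab c hbc
    apply sm3 (Q := fun β => dispersal ![a, b, c] β = 1 →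
      0 ≤ detZ 3 (fun i j => M4 (![a, b, c] i) (β j)) *
        detZ 3 (fun i j => M4 (β i) (![a, b, c] j)))
    revert a b c
    decide +kernel
  · revert β; revert α
    apply sm4 (Q := fun α => ∀ β : Fin 4 → Fin 4, StrictMono β → dispersal α β = 1 →
      0 ≤ detZ 4 (fun i j => M4 (α i) (β j)) * detZ 4 (fun i j => M4 (β i) (α j)))
    intro a b hab c hbc d hcd
    apply sm4 (Q := fun β => dispersal ![a, b, c, d] β = 1 →
      0 ≤ detZ 4 (fun i j => M4 (![a, b, c, d] i) (β j)) *
        detZ 4 (fun i j => M4 (β i) (![a, b, c, d] j)))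
    revert a b c d
    decide +kernel

theorem gkk4 : IsGKK (toC M4) := isGKK_of_cert p4 g4

theorem stable_M4 : IsStable (toC M4) := stable_of_order_le_four le_rfl _ gkk4

end Pool.Agent.X89.GK
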