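import Pool.Agent.X89.GK5

namespace Pool.Agent.X89.GK

open Matrix

/-- the matrix -/
def M5 : Fin 5 → Fin 5 → ℤ :=
  ![![5000000000000000, 10000000000000, 10000000000000, 10000000000000, 10000000000000],
    ![4995000000000000, 10000000000000, 9989999000000, 9989999999000, 9989999999999],
    ![4995000000000000, 6000000000000, 10000000000000, 9989999000000, 9989999999000],
    ![4995000000000000, 5200000000000, 7800000000000, 10000000000000, 9989999000000],
    ![4995000000000000, 4000000000000, 5200000000000, 6000000000000, 10000000000000]]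

/-- upper thresholds for the least real eigenvalues of the principal submatrices -/
def U5 (s : Finset (Fin 5)) : ℤ :=
  [1, 5000000000000000, 10000000000000, 10029960100, 10000000000000, 10029960100, 2269197185390, 4021307008, 10000000000000, 10029960100, 2806466422060, 3909605395, 1178519843239, 5083399873, 1151934217617, 51979695, 10000000000000, 10029960100, 3697000787031, 3528407091, 2806466422060, 3909605395, 2245521511110, 24882087, 2269197185390, 4021307008, 2245521511110, 24882087, 1151934217617, 51979695, 1082967604078, 124774].getD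
    (∑ i ∈ s, 2 ^ (i : ℕ)) 1

/-- lower thresholds for the least real eigenvalues of the principal submatrices -/
def V5 (s : Finset (Fin 5)) : ℤ :=
  [1, 5000000000000000, 10000000000000, 9930159501, 10000000000000, 9930159501, 2246618108918, 3981294002, 10000000000000, 9930159501, 2778541383034, 3870703848, 1166793277634, 5032818779, 1140472185600, 51462483, 10000000000000, 9930159501, 3660214709547, 3493298562, 2778541383034, 3870703848, 2223178013486, 24634503, 2246618108918, 3981294002, 2223178013486, 24634503, 1140472185600, 51462483, 1072191807022, 123532].getD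
    (∑ i ∈ s, 2 ^ (i : ℕ)) 1

theorem V5_pos : ∀ s, 0 < V5 s := by decide +kernel

theorem U5V5 : ∀ s t : Finset (Fin 5), t.Nonempty → t ⊂ s → U5 s ≤ V5 t := by decide +kernel

theorem good5 : ∀ (k : ℕ) (α : Fin k → Fin 5), StrictMono α → 0 < k →
    goodP (shiftP M5 k α (V5 (Finset.univ.image α))) = true := by
  intro k α hα hk
  have hk4 := card_le_of_strictMono hα
  interval_cases k
  · revert α; apply sm1 (Q := fun α => goodP (shiftP M5 1 α (V5 (Finset.univ.image α))) = true)
    decide +kernel
  · revert α; apply sm2 (Q := fun α => goodP (shiftP M5 2 α (V5 (Finset.univ.image α))) = true)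
    decide +kernel
  · revert α; apply sm3 (Q := fun α => goodP (shiftP M5 3 α (V5 (Finset.univ.image α))) = true)
    decide +kernel
  · revert α; apply sm4 (Q := fun α => goodP (shiftP M5 4 α (V5 (Finset.univ.image α))) = true)
    decide +kernel
  · revert α; apply sm5 (Q := fun α => goodP (shiftP M5 5 α (V5 (Finset.univ.image α))) = true)
    decide +kernel

theorem neg5 : ∀ (k : ℕ) (α : Fin k → Fin 5), StrictMono α → 0 < k →
    valZ M5 k α (U5 (Finset.univ.image α)) ≤ 0 := by
  intro k α hα hk
  have hk4 := card_le_of_strictMono hα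
  interval_cases k
  · revert α; apply sm1 (Q := fun α => valZ M5 1 α (U5 (Finset.univ.image α)) ≤ 0)
    decide +kernel
  · revert α; apply sm2 (Q := fun α => valZ M5 2 α (U5 (Finset.univ.image α)) ≤ 0)
    decide +kernel
  · revert α; apply sm3 (Q := fun α => valZ M5 3 α (U5 (Finset.univ.image α)) ≤ 0)
    decide +kernel
  · revert α; apply sm4 (Q := fun α => valZ M5 4 α (U5 (Finset.univ.image α)) ≤ 0)
    decide +kernel
  · revert α; apply sm5 (Q := fun α => valZ M5 5 α (U5 (Finset.univ.image α)) ≤ 0)
    decide +kernel

theorem tau5 : IsTau (toC M5) := isTau_of_cert U5 V5 V5_pos U5V5 good5 neg5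

theorem p5 : ∀ (k : ℕ) (α : Fin k → Fin 5), StrictMono α →
    0 < detZ k (fun i j => M5 (α i) (α j)) := by
  intro k α hα
  have hk4 := card_le_of_strictMono hα
  interval_cases k
  · decide +kernel +revert
  · revert α; apply sm1 (Q := fun α => 0 < detZ 1 (fun i j => M5 (α i) (α j)))
    decide +kernel
  · revert α; apply sm2 (Q := fun α => 0 < detZ 2 (fun i j => M5 (α i) (α j)))
    decide +kernel
  · revert α; apply sm3 (Q := fun α => 0 < detZ 3 (fun i j => M5 (α i) (α j)))
    decide +kernel
  · revert α; apply sm4 (Q := fun α => 0 < detZ 4 (fun i j => M5 (α i) (α j)))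
    decide +kernel
  · revert α; apply sm5 (Q := fun α => 0 < detZ 5 (fun i j => M5 (α i) (α j)))
    decide +kernel

theorem g5 : ∀ (k : ℕ) (α β : Fin k → Fin 5), StrictMono α → StrictMono β → dispersal α β = 1 →
    0 < detZ k (fun i j => M5 (α i) (β j)) * detZ k (fun i j => M5 (β i) (α j)) := by
  intro k α β hα hβ
  have hk4 := card_le_of_strictMono hα
  interval_cases k
  · decide +kernel +revert
  · revert β; revert α
    apply sm1 (Q := fun α => ∀ β : Fin 1 → Fin 5, StrictMono β → dispersal α β = 1 →
      0 < detZ 1 (fun i j => M5 (α i) (β j)) * detZ 1 (fun i j => M5 (β i) (α j)))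
    intro a
    apply sm1 (Q := fun β => dispersal ![a] β = 1 →
      0 < detZ 1 (fun i j => M5 (![a] i) (β j)) * detZ 1 (fun i j => M5 (β i) (![a] j)))
    revert a
    decide +kernel
  · revert β; revert α
    apply sm2 (Q := fun α => ∀ β : Fin 2 → Fin 5, StrictMono β → dispersal α β = 1 →
      0 < detZ 2 (fun i j => M5 (α i) (β j)) * detZ 2 (fun i j => M5 (β i) (α j)))
    intro a b hab
    apply sm2 (Q := fun β => dispersal ![a, b] β = 1 →
      0 < detZ 2 (fun i j => M5 (![a, b] i) (β j)) * detZ 2 (fun i j => M5 (β i) (![a, b] j)))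
    revert a b
    decide +kernel
  · revert β; revert α
    apply sm3 (Q := fun α => ∀ β : Fin 3 → Fin 5, StrictMono β → dispersal α β = 1 →
      0 < detZ 3 (fun i j => M5 (α i) (β j)) * detZ 3 (fun i j => M5 (β i) (α j)))
    intro a b hab c hbc
    apply sm3 (Q := fun β => dispersal ![a, b, c] β = 1 →
      0 < detZ 3 (fun i j => M5 (![a, b, c] i) (β j)) * detZ 3 (fun i j => M5 (β i) (![a, b, c] j)))
    revert a b c
    decide +kernel
  · revert β; revert α
    apply sm4 (Q := fun α => ∀ β : Fin 4 → Fin 5, StrictMono β → dispersal α β = 1 →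
      0 < detZ 4 (fun i j => M5 (α i) (β j)) * detZ 4 (fun i j => M5 (β i) (α j)))
    intro a b hab c hbc d hcd
    apply sm4 (Q := fun β => dispersal ![a, b, c, d] β = 1 →
      0 < detZ 4 (fun i j => M5 (![a, b, c, d] i) (β j)) * detZ 4 (fun i j => M5 (β i) (![a, b, c, d] j)))
    revert a b c d
    decide +kernel
  · revert β; revert α
    apply sm5 (Q := fun α => ∀ β : Fin 5 → Fin 5, StrictMono β → dispersal α β = 1 →
      0 < detZ 5 (fun i j => M5 (α i) (β j)) * detZ 5 (fun i j => M5 (β i) (α j)))
    intro a b hab c hbc d hcd e hde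
    apply sm5 (Q := fun β => dispersal ![a, b, c, d, e] β = 1 →
      0 < detZ 5 (fun i j => M5 (![a, b, c, d, e] i) (β j)) * detZ 5 (fun i j => M5 (β i) (![a, b, c, d, e] j)))
    revert a b c d e
    decide +kernel

theorem gkk5 : IsStrictGKK (toC M5) := isStrictGKK_of_cert p5 g5

theorem unstable5 : ∃ w ∈ spectrum ℂ (toC M5), w.re < 0 :=
  unstable_of_check (p := -128675140000) (q := 430200390000) (by decide +kernel)

end Pool.Agent.X89.GK
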