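import Mathlib

open MeasureTheory Measure Set Metric Function

namespace Pool.Agent.X89.HM


variable {E : Type*} [NormedAddCommGroup E] [NormedSpace ℝ E] [MeasurableSpace E] [BorelSpace E]
  [FiniteDimensional ℝ E] [Nontrivial E] (μ : Measure E) [μ.IsAddHaarMeasure]

theorem polar_mul (f : sphere (0 : E) 1 → ℝ) (w : ℝ → ℝ) (g : E → ℝ)
    (hg : ∀ x : sphere (0 : E) 1, ∀ r : ℝ, 0 < r → g (r • (x : E)) = f x * w r) :
    ∫ x, g x ∂μ = (∫ x, f x ∂μ.toSphere) * ∫ r in Ioi (0 : ℝ), r ^ (Module.finrank ℝ E - 1) * w r :=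
  calc
    ∫ x, g x ∂μ = ∫ x : ({(0)}ᶜ : Set E), g x.1 ∂(μ.comap (↑)) := by
      rw [integral_subtype_comap (measurableSet_singleton _).compl fun x ↦ g x,
        restrict_compl_singleton]
    _ = ∫ x : ({(0)}ᶜ : Set E), (fun p : sphere (0 : E) 1 × Ioi (0 : ℝ) => f p.1 * w p.2)
          (homeomorphUnitSphereProd E x) ∂(μ.comap (↑)) := by
      refine integral_congr_ae (Filter.Eventually.of_forall fun x => ?_)
      have h1 := hg (homeomorphUnitSphereProd E x).1 (homeomorphUnitSphereProd E x).2
        (homeomorphUnitSphereProd E x).2.2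
      simp only
      rw [← h1]
      congr 1
      have h2 := congrArg Subtype.val ((homeomorphUnitSphereProd E).symm_apply_apply x)
      rw [homeomorphUnitSphereProd_symm_apply_coe] at h2
      exact h2.symm
    _ = ∫ p, f p.1 * w p.2 ∂μ.toSphere.prod (.volumeIoiPow (Module.finrank ℝ E - 1)) := by
      exact μ.measurePreserving_homeomorphUnitSphereProd.integral_comp
        (Homeomorph.measurableEmbedding _) (fun p : sphere (0 : E) 1 × Ioi (0 : ℝ) => f p.1 * w p.2)
    _ = (∫ x, f x ∂μ.toSphere) * ∫ x : Ioi (0 : ℝ), w x ∂.volumeIoiPow (Module.finrank ℝ E - 1) :=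
      integral_prod_mul f (fun x : Ioi (0 : ℝ) => w x)
    _ = _ := by
      simp only [Measure.volumeIoiPow, ENNReal.ofReal]
      rw [integral_withDensity_eq_integral_smul,
        integral_subtype_comap measurableSet_Ioi fun a ↦ Real.toNNReal (a ^ (Module.finrank ℝ E - 1)) • w a,
        setIntegral_congr_fun measurableSet_Ioi fun x hx ↦ ?_]
      · rw [NNReal.smul_def, Real.coe_toNNReal _ (pow_nonneg hx.out.le _), smul_eq_mul]
      · exact (measurable_subtype_coe.pow_const _).real_toNNReal

end Pool.Agent.X89.HM
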