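import Pool.Agent.X89.HM1

open MeasureTheory Measure Set Metric Function

namespace Pool.Agent.X89.HM

/-- Expectation with respect to the normalized surface measure on the unit sphere of `ℝⁿ`. -/
noncomputable def sphE (n : ℕ) (f : EuclideanSpace ℝ (Fin n) → ℝ) : ℝ :=
  ⨍ x : Metric.sphere (0 : EuclideanSpace ℝ (Fin n)) 1, f x
    ∂(volume : Measure (EuclideanSpace ℝ (Fin n))).toSphere

abbrev E7 := EuclideanSpace ℝ (Fin 7)

lemma radial (m : ℕ) : ∫ r in Ioi (0 : ℝ), r ^ (Module.finrank ℝ E7 - 1) * (r ^ (2 * m) * Real.exp (-r ^ 2))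
    = 1 / 2 * Real.Gamma (m + 7 / 2) := by
  have h1 : Module.finrank ℝ E7 - 1 = 6 := by simp [E7]
  rw [h1]
  have h2 := integral_rpow_mul_exp_neg_rpow (p := 2) (q := ((6 + 2 * m : ℕ) : ℝ)) (by norm_num)
    (lt_of_lt_of_le (by norm_num) (Nat.cast_nonneg _))
  have h3 : (((6 + 2 * m : ℕ) : ℝ) + 1) / 2 = m + 7 / 2 := by push_cast; ring
  rw [h3] at h2
  rw [← h2]
  refine setIntegral_congr_fun measurableSet_Ioi fun x hx => ?_
  beta_reduce
  rw [Real.rpow_natCast, show (-x ^ (2 : ℝ)) = -x ^ 2 by norm_cast]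
  ring

lemma gauss1 (m : ℕ) : ∫ x : ℝ, x ^ (2 * m) * Real.exp (-x ^ 2) = Real.Gamma (m + 1 / 2) := by
  have h0 : ∀ x : ℝ, x ^ (2 * m) * Real.exp (-x ^ 2) = |x| ^ (2 * m) * Real.exp (-|x| ^ 2) := by
    intro x
    rw [pow_mul, pow_mul, sq_abs]
  rw [show (fun x : ℝ => x ^ (2 * m) * Real.exp (-x ^ 2)) =
    fun x => (fun y : ℝ => y ^ (2 * m) * Real.exp (-y ^ 2)) |x| from funext h0]
  rw [integral_comp_abs (f := fun x => x ^ (2 * m) * Real.exp (-x ^ 2))]
  have h2 := integral_rpow_mul_exp_neg_rpow (p := 2) (q := ((2 * m : ℕ) : ℝ)) (by norm_num)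
    (lt_of_lt_of_le (by norm_num) (Nat.cast_nonneg _))
  have h3 : (((2 * m : ℕ) : ℝ) + 1) / 2 = m + 1 / 2 := by push_cast; ring
  rw [h3] at h2
  have h4 : ∫ x in Ioi (0 : ℝ), x ^ (2 * m) * Real.exp (-x ^ 2) = 1 / 2 * Real.Gamma (m + 1 / 2) := by
    rw [← h2]
    refine setIntegral_congr_fun measurableSet_Ioi fun x hx => ?_
    beta_reduce
    rw [Real.rpow_natCast, show (-x ^ (2 : ℝ)) = -x ^ 2 by norm_cast]
  rw [h4]
  ring

lemma gauss7 (m : ℕ) : ∫ x : E7, (x 0) ^ (2 * m) * Real.exp (-‖x‖ ^ 2)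
    = Real.Gamma (m + 1 / 2) * (∫ x : ℝ, Real.exp (-x ^ 2)) ^ 6 := by
  have h1 : ∀ x : E7, (x 0) ^ (2 * m) * Real.exp (-‖x‖ ^ 2) =
      ∏ i : Fin 7, (fun (i : Fin 7) (t : ℝ) => if i = 0 then t ^ (2 * m) * Real.exp (-t ^ 2) else
        Real.exp (-t ^ 2)) i (x i) := by
    intro x
    rw [EuclideanSpace.real_norm_sq_eq]
    rw [← Finset.sum_neg_distrib, Real.exp_sum]
    conv_lhs => rw [Fin.prod_univ_succ]
    conv_rhs => rw [Fin.prod_univ_succ]
    simp only [Fin.succ_ne_zero, if_true, if_false]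
    ring
  rw [← (PiLp.volume_preserving_toLp (Fin 7)).integral_comp (MeasurableEquiv.toLp 2 _).measurableEmbedding]
  have h2 : ∀ y : Fin 7 → ℝ, ((WithLp.toLp 2 y : E7) 0) ^ (2 * m) * Real.exp (-‖(WithLp.toLp 2 y : E7)‖ ^ 2) =
      ∏ i : Fin 7, (fun (i : Fin 7) (t : ℝ) => if i = 0 then t ^ (2 * m) * Real.exp (-t ^ 2) else
        Real.exp (-t ^ 2)) i (y i) := by
    intro y
    rw [h1]
  simp_rw [h2]
  rw [integral_fintype_prod_volume_eq_prod (fun (i : Fin 7) (t : ℝ) => if i = 0 then t ^ (2 * m) * Real.exp (-t ^ 2) else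
        Real.exp (-t ^ 2))]
  rw [Fin.prod_univ_succ]
  simp only [Fin.succ_ne_zero, if_true, if_false, Finset.prod_const, Finset.card_univ, Fintype.card_fin]
  rw [gauss1]

/-- un-normalized integral over the sphere -/
lemma sphE_eq (n : ℕ) (f : EuclideanSpace ℝ (Fin n) → ℝ) :
    sphE n f = ((volume : Measure (EuclideanSpace ℝ (Fin n))).toSphere.real univ)⁻¹ *
      ∫ x : Metric.sphere (0 : EuclideanSpace ℝ (Fin n)) 1, f x
    ∂(volume : Measure (EuclideanSpace ℝ (Fin n))).toSphere := by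
  rw [sphE, average_eq, smul_eq_mul]

lemma Gpos (m : ℕ) (a : ℝ) (ha : 0 < a) : 0 < Real.Gamma (m + a) := Real.Gamma_pos_of_pos (by positivity)

lemma exp_pos_radial : ∫ r in Ioi (0 : ℝ), r ^ (Module.finrank ℝ E7 - 1) * Real.exp (-r ^ 2) ≠ 0 := by
  have h := radial 0
  simp only [mul_zero, pow_zero, one_mul] at h
  rw [h]
  have := Gpos 0 (7 / 2) (by norm_num)
  positivity

theorem int_comp (U : E7 ≃ₗᵢ[ℝ] E7) (f : E7 → ℝ) :
    ∫ x : Metric.sphere (0 : E7) 1, f (U x) ∂(volume : Measure E7).toSphere =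
    ∫ x : Metric.sphere (0 : E7) 1, f x ∂(volume : Measure E7).toSphere := by
  have h1 := polar_mul (volume : Measure E7) (fun x => f (U x)) (fun r => Real.exp (-r ^ 2))
    (fun x => f (U (‖x‖⁻¹ • x)) * Real.exp (-‖x‖ ^ 2)) (by
      intro x r hr
      have hx : ‖(x : E7)‖ = 1 := by simp
      have hr' : ‖r • (x : E7)‖ = r := by rw [norm_smul, hx, mul_one, Real.norm_of_nonneg hr.le]
      rw [hr', smul_smul, inv_mul_cancel₀ hr.ne', one_smul])
  have h2 := polar_mul (volume : Measure E7) (fun x => f x) (fun r => Real.exp (-r ^ 2))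
    (fun x => f (‖x‖⁻¹ • x) * Real.exp (-‖x‖ ^ 2)) (by
      intro x r hr
      have hx : ‖(x : E7)‖ = 1 := by simp
      have hr' : ‖r • (x : E7)‖ = r := by rw [norm_smul, hx, mul_one, Real.norm_of_nonneg hr.le]
      rw [hr', smul_smul, inv_mul_cancel₀ hr.ne', one_smul])
  have h3 := U.measurePreserving.integral_comp U.toHomeomorph.measurableEmbedding
    (fun x => f (‖x‖⁻¹ • x) * Real.exp (-‖x‖ ^ 2))
  have h4 : ∀ x : E7, f (‖U x‖⁻¹ • U x) * Real.exp (-‖U x‖ ^ 2) =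
      f (U (‖x‖⁻¹ • x)) * Real.exp (-‖x‖ ^ 2) := by
    intro x
    rw [U.norm_map, map_smul]
  simp_rw [h4] at h3
  rw [h1, h2] at h3
  exact mul_right_cancel₀ exp_pos_radial h3

theorem sphE_comp (U : E7 ≃ₗᵢ[ℝ] E7) (f : E7 → ℝ) :
    sphE 7 (fun x => f (U x)) = sphE 7 f := by
  rw [sphE_eq, sphE_eq, int_comp]

lemma mom_aux (m : ℕ) : (∫ x : Metric.sphere (0 : E7) 1, ((x : E7) 0) ^ (2 * m) ∂(volume : Measure E7).toSphere)
    * ((2 * m + 1) * (2 * m + 3) * (2 * m + 5)) = 16 * (∫ x : ℝ, Real.exp (-x ^ 2)) ^ 6 := by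
  have h1 := polar_mul (volume : Measure E7) (fun x => ((x : E7) 0) ^ (2 * m))
    (fun r => r ^ (2 * m) * Real.exp (-r ^ 2))
    (fun x => (x 0) ^ (2 * m) * Real.exp (-‖x‖ ^ 2)) (by
      intro x r hr
      have hx : ‖(x : E7)‖ = 1 := by simp
      have hr' : ‖r • (x : E7)‖ = r := by rw [norm_smul, hx, mul_one, Real.norm_of_nonneg hr.le]
      rw [hr']
      simp only [PiLp.smul_apply, smul_eq_mul]
      ring)
  rw [gauss7, radial] at h1
  have hG : Real.Gamma ((m : ℝ) + 7 / 2) = (m + 5 / 2) * ((m + 3 / 2) * ((m + 1 / 2) * Real.Gamma (m + 1 / 2))) := by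
    have hm : (0 : ℝ) ≤ m := Nat.cast_nonneg _
    rw [show (m : ℝ) + 7 / 2 = (m + 5 / 2) + 1 by ring, Real.Gamma_add_one (by positivity),
      show (m : ℝ) + 5 / 2 = (m + 3 / 2) + 1 by ring, Real.Gamma_add_one (by positivity),
      show (m : ℝ) + 3 / 2 = (m + 1 / 2) + 1 by ring, Real.Gamma_add_one (by positivity)]
  rw [hG] at h1
  have hpos := Gpos m (1 / 2) (by norm_num)
  have h5 : Real.Gamma ((m : ℝ) + 1 / 2) *
    ((∫ x : Metric.sphere (0 : E7) 1, ((x : E7) 0) ^ (2 * m) ∂(volume : Measure E7).toSphere)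
      * ((2 * m + 1) * (2 * m + 3) * (2 * m + 5))) = Real.Gamma ((m : ℝ) + 1 / 2) *
      (16 * (∫ x : ℝ, Real.exp (-x ^ 2)) ^ 6) := by
    linear_combination (-16) * h1
  exact mul_left_cancel₀ hpos.ne' h5

theorem mom (m : ℕ) : sphE 7 (fun x => (x 0) ^ (2 * m)) = 15 / ((2 * m + 1) * (2 * m + 3) * (2 * m + 5)) := by
  have h0 := mom_aux 0
  have hm := mom_aux m
  rw [sphE_eq]
  simp only [mul_zero, pow_zero, CharP.cast_eq_zero, zero_add, one_mul] at h0
  have h1 : (∫ x : Metric.sphere (0 : E7) 1, (1 : ℝ) ∂(volume : Measure E7).toSphere) =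
    (volume : Measure E7).toSphere.real univ := by simp
  rw [h1] at h0
  have hK : 0 < (∫ x : ℝ, Real.exp (-x ^ 2)) := by
    have := gauss1 0
    simp only [mul_zero, pow_zero, one_mul] at this
    rw [this]; exact Gpos 0 _ (by norm_num)
  have hu : (volume : Measure E7).toSphere.real univ = 16 / 15 * (∫ x : ℝ, Real.exp (-x ^ 2)) ^ 6 := by linarith
  rw [hu]
  have hp : (0 : ℝ) < (2 * m + 1) * (2 * m + 3) * (2 * m + 5) := by positivity
  rw [eq_div_iff hp.ne', mul_assoc, hm]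
  field_simp

end Pool.Agent.X89.HM
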