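import Pool.Agent.X89.HM2

open MeasureTheory Measure Set Metric Function

namespace Pool.Agent.X89.HM

noncomputable abbrev σ7 : Measure (Metric.sphere (0 : E7) 1) := (volume : Measure E7).toSphere

lemma integ (f : E7 → ℝ) (hf : Continuous f) :
    Integrable (fun x : Metric.sphere (0 : E7) 1 => f x) σ7 :=
  (hf.comp continuous_subtype_val).integrable_of_hasCompactSupport (HasCompactSupport.of_compactSpace _)

lemma U_pos : 0 < σ7.real univ := by
  have h0 := mom_aux 0
  simp only [mul_zero, pow_zero, CharP.cast_eq_zero, zero_add, one_mul] at h0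
  have h1 : (∫ x : Metric.sphere (0 : E7) 1, (1 : ℝ) ∂(volume : Measure E7).toSphere) =
    (volume : Measure E7).toSphere.real univ := by simp
  rw [h1] at h0
  have hK : 0 < (∫ x : ℝ, Real.exp (-x ^ 2)) := by
    have := gauss1 0
    simp only [mul_zero, pow_zero, one_mul] at this
    rw [this]; exact Gpos 0 _ (by norm_num)
  have : 0 < 16 * (∫ x : ℝ, Real.exp (-x ^ 2)) ^ 6 := by positivity
  rw [← h0] at this
  linarith

lemma sphE_add (f g : E7 → ℝ) (hf : Continuous f) (hg : Continuous g) :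
    sphE 7 (fun x => f x + g x) = sphE 7 f + sphE 7 g := by
  rw [sphE_eq, sphE_eq, sphE_eq, integral_add (integ f hf) (integ g hg)]
  ring

lemma sphE_mul (c : ℝ) (f : E7 → ℝ) :
    sphE 7 (fun x => c * f x) = c * sphE 7 f := by
  rw [sphE_eq, sphE_eq, integral_const_mul]
  ring

lemma sphE_sum {ι : Type*} (s : Finset ι) (f : ι → E7 → ℝ) (hf : ∀ i ∈ s, Continuous (f i)) :
    sphE 7 (fun x => ∑ i ∈ s, f i x) = ∑ i ∈ s, sphE 7 (f i) := by
  rw [sphE_eq, integral_finsetSum _ fun i hi => integ (f i) (hf i hi), Finset.mul_sum]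
  refine Finset.sum_congr rfl fun i _ => ?_
  rw [sphE_eq]

lemma sphE_congr (f g : E7 → ℝ) (h : ∀ x : E7, ‖x‖ = 1 → f x = g x) : sphE 7 f = sphE 7 g := by
  rw [sphE_eq, sphE_eq]
  congr 1
  refine integral_congr_ae (Filter.Eventually.of_forall fun x => ?_)
  exact h x (by simp)

lemma sphE_mono (f g : E7 → ℝ) (hf : Continuous f) (hg : Continuous g)
    (h : ∀ x : E7, ‖x‖ = 1 → f x ≤ g x) : sphE 7 f ≤ sphE 7 g := by
  rw [sphE_eq, sphE_eq]
  refine mul_le_mul_of_nonneg_left ?_ (inv_nonneg.2 measureReal_nonneg)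
  exact integral_mono (integ f hf) (integ g hg) fun x => h x (by simp)

lemma sphE_const (c : ℝ) : sphE 7 (fun _ => c) = c := by
  rw [sphE_eq, integral_const, smul_eq_mul, ← mul_assoc, inv_mul_cancel₀ U_pos.ne', one_mul]

lemma sphE_abs_le (f g : E7 → ℝ) (hf : Continuous f) (hg : Continuous g) (ε : ℝ)
    (h : ∀ x : E7, ‖x‖ = 1 → |f x - g x| ≤ ε) : |sphE 7 f - sphE 7 g| ≤ ε := by
  have h1 : sphE 7 f ≤ sphE 7 g + ε := by
    rw [← sphE_const ε, ← sphE_add _ _ hg continuous_const]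
    refine sphE_mono _ _ hf (hg.add continuous_const) fun x hx => ?_
    have := (abs_le.1 (h x hx)).2
    linarith
  have h2 : sphE 7 g ≤ sphE 7 f + ε := by
    rw [← sphE_const ε, ← sphE_add _ _ hf continuous_const]
    refine sphE_mono _ _ hg (hf.add continuous_const) fun x hx => ?_
    have := (abs_le.1 (h x hx)).1
    linarith
  rw [abs_le]; constructor <;> linarith

lemma sq_le_one (x : E7) (hx : ‖x‖ = 1) (i : Fin 7) : (x i) ^ 2 ≤ 1 := by
  have h := EuclideanSpace.real_norm_sq_eq x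
  rw [hx] at h
  have : (x i) ^ 2 ≤ ∑ j, (x j) ^ 2 := Finset.single_le_sum (f := fun j => (x j) ^ 2)
    (fun j _ => sq_nonneg _) (Finset.mem_univ i)
  rw [← h] at this
  simpa using this

lemma int1d (m : ℕ) : ∫ u in (0 : ℝ)..1, (u ^ 2) ^ m * (1 - u ^ 2) ^ 2 =
    (8 : ℝ) / ((2 * m + 1) * (2 * m + 3) * (2 * m + 5)) := by
  have h1 : ∀ u : ℝ, (u ^ 2) ^ m * (1 - u ^ 2) ^ 2 = u ^ (2 * m) - 2 * u ^ (2 * m + 2) + u ^ (2 * m + 4) := by
    intro u
    rw [← pow_mul]; ring
  simp_rw [h1]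
  rw [intervalIntegral.integral_add, intervalIntegral.integral_sub, intervalIntegral.integral_const_mul,
    integral_pow, integral_pow, integral_pow]
  · have hm : (0 : ℝ) ≤ m := Nat.cast_nonneg _
    push_cast
    field_simp
    ring
  all_goals exact Continuous.intervalIntegrable (by fun_prop) _ _

lemma law_poly (p : Polynomial ℝ) : sphE 7 (fun x => p.eval ((x 0) ^ 2)) =
    15 / 8 * ∫ u in (0 : ℝ)..1, p.eval (u ^ 2) * (1 - u ^ 2) ^ 2 := by
  induction p using Polynomial.induction_on' with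
  | add p q hp hq =>
    simp only [Polynomial.eval_add]
    rw [sphE_add _ _ (by fun_prop) (by fun_prop), hp, hq]
    simp only [add_mul]
    rw [intervalIntegral.integral_add]
    · ring
    all_goals exact Continuous.intervalIntegrable (by fun_prop) _ _
  | monomial n a =>
    simp only [Polynomial.eval_monomial]
    rw [sphE_mul]
    simp only [mul_assoc]
    rw [intervalIntegral.integral_const_mul, int1d]
    have h := mom n
    simp only [← pow_mul]
    rw [h]
    ring

theorem law (g : ℝ → ℝ) (hg : Continuous g) : sphE 7 (fun x => g ((x 0) ^ 2)) =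
    15 / 8 * ∫ u in (0 : ℝ)..1, g (u ^ 2) * (1 - u ^ 2) ^ 2 := by
  have key : ∀ ε : ℝ, 0 < ε → |sphE 7 (fun x => g ((x 0) ^ 2)) -
    15 / 8 * ∫ u in (0 : ℝ)..1, g (u ^ 2) * (1 - u ^ 2) ^ 2| ≤ ε := by
    intro ε hε
    obtain ⟨p, hp⟩ := exists_polynomial_near_of_continuousOn 0 1 g hg.continuousOn (ε / 4) (by positivity)
    have h1 : |sphE 7 (fun x => p.eval ((x 0) ^ 2)) - sphE 7 (fun x => g ((x 0) ^ 2))| ≤ ε / 4 := by
      refine sphE_abs_le _ _ (by fun_prop) (by fun_prop) _ fun x hx => ?_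
      exact (hp _ ⟨sq_nonneg _, sq_le_one x hx 0⟩).le
    have h2 : |(∫ u in (0 : ℝ)..1, p.eval (u ^ 2) * (1 - u ^ 2) ^ 2) -
        ∫ u in (0 : ℝ)..1, g (u ^ 2) * (1 - u ^ 2) ^ 2| ≤ ε / 4 := by
      rw [← intervalIntegral.integral_sub (Continuous.intervalIntegrable (by fun_prop) _ _)
        (Continuous.intervalIntegrable (by fun_prop) _ _)]
      have h3 := intervalIntegral.norm_integral_le_of_norm_le_const (a := (0 : ℝ)) (b := 1)
        (f := fun u => p.eval (u ^ 2) * (1 - u ^ 2) ^ 2 - g (u ^ 2) * (1 - u ^ 2) ^ 2) (C := ε / 4) (by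
          intro u hu
          rw [uIoc_of_le zero_le_one] at hu
          have hu2 : u ^ 2 ≤ 1 := by nlinarith [hu.1, hu.2]
          rw [← sub_mul, norm_mul]
          have h4 := (hp (u ^ 2) ⟨sq_nonneg _, hu2⟩).le
          have h5 : ‖(1 - u ^ 2) ^ 2‖ ≤ 1 := by
            rw [Real.norm_of_nonneg (sq_nonneg _)]
            nlinarith [sq_nonneg u]
          calc _ ≤ ε / 4 * 1 := mul_le_mul h4 h5 (norm_nonneg _) (by positivity)
            _ = ε / 4 := mul_one _)
      simpa using h3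
    rw [law_poly] at h1
    rw [abs_le] at h1 h2 ⊢
    constructor
    · linarith [h1.1, h1.2, h2.1, h2.2]
    · linarith [h1.1, h1.2, h2.1, h2.2]
  have : |sphE 7 (fun x => g ((x 0) ^ 2)) -
    15 / 8 * ∫ u in (0 : ℝ)..1, g (u ^ 2) * (1 - u ^ 2) ^ 2| ≤ 0 :=
    le_of_forall_pos_le_add fun ε hε => by simpa using key ε hε
  exact sub_eq_zero.1 (abs_nonpos_iff.1 this)

end Pool.Agent.X89.HM
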