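import Pool.Agent.X89.HM3

open MeasureTheory Measure Set Metric Function

namespace Pool.Agent.X89.HM

noncomputable def flp (j : Fin 7) : E7 ≃ₗᵢ[ℝ] E7 :=
  LinearIsometryEquiv.piLpCongrRight 2
    (fun i => if i = j then LinearIsometryEquiv.neg ℝ else LinearIsometryEquiv.refl ℝ ℝ)

lemma flp_apply (j i : Fin 7) (x : E7) : flp j x i = if i = j then - x i else x i := by
  simp only [flp, LinearIsometryEquiv.piLpCongrRight_apply]
  split_ifs <;> simp

noncomputable def swp (i j : Fin 7) : E7 ≃ₗᵢ[ℝ] E7 :=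
  LinearIsometryEquiv.piLpCongrLeft 2 ℝ ℝ (Equiv.swap i j)

lemma swp_apply (i j k : Fin 7) (x : E7) : swp i j x k = x (Equiv.swap i j k) := by
  simp [swp, LinearIsometryEquiv.piLpCongrLeft_apply, Equiv.piCongrLeft']

noncomputable def Q (h : ℝ → ℝ) (i j : Fin 7) : ℝ := sphE 7 (fun x => x i * x j * h ((x 0) ^ 2))

lemma Q_off (h : ℝ → ℝ) (i j : Fin 7) (hij : i ≠ j) : Q h i j = 0 := by
  have h1 := sphE_comp (flp i) (fun x => x i * x j * h ((x 0) ^ 2))
  have h2 : ∀ x : E7, (flp i x i * flp i x j * h ((flp i x 0) ^ 2)) =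
      (-1) * (x i * x j * h ((x 0) ^ 2)) := by
    intro x
    rw [flp_apply, flp_apply, flp_apply, if_pos rfl, if_neg hij.symm]
    have : (if (0 : Fin 7) = i then -x 0 else x 0) ^ 2 = (x 0) ^ 2 := by
      split_ifs <;> ring
    rw [this]; ring
  simp_rw [h2] at h1
  rw [sphE_mul] at h1
  unfold Q
  linarith

lemma Q_eq (h : ℝ → ℝ) (i j : Fin 7) (hi : i ≠ 0) (hj : j ≠ 0) : Q h i i = Q h j j := by
  have h1 := sphE_comp (swp i j) (fun x => x i * x i * h ((x 0) ^ 2))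
  have h2 : ∀ x : E7, (swp i j x i * swp i j x i * h ((swp i j x 0) ^ 2)) =
      (x j * x j * h ((x 0) ^ 2)) := by
    intro x
    rw [swp_apply, swp_apply, Equiv.swap_apply_left, Equiv.swap_apply_of_ne_of_ne hi.symm hj.symm]
  simp_rw [h2] at h1
  unfold Q
  exact h1.symm

lemma Q_sum (h : ℝ → ℝ) (hh : Continuous h) : ∑ i, Q h i i = sphE 7 (fun x => h ((x 0) ^ 2)) := by
  unfold Q
  rw [← sphE_sum _ _ (fun i _ => by fun_prop)]
  refine sphE_congr _ _ fun x hx => ?_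
  rw [← Finset.sum_mul]
  have h1 := EuclideanSpace.real_norm_sq_eq x
  rw [hx] at h1
  have h2 : ∑ i, x i * x i = 1 := by
    rw [show (∑ i, x i * x i) = ∑ i, x i ^ 2 from Finset.sum_congr rfl fun i _ => by ring, ← h1]
    norm_num
  rw [h2, one_mul]

lemma Q_diag (h : ℝ → ℝ) (hh : Continuous h) (i : Fin 7) (hi : i ≠ 0) :
    Q h i i = (sphE 7 (fun x => h ((x 0) ^ 2)) - Q h 0 0) / 6 := by
  have h1 := Q_sum h hh
  rw [Fin.sum_univ_succ] at h1
  have h2 : ∑ k : Fin 6, Q h k.succ k.succ = ∑ k : Fin 6, Q h i i :=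
    Finset.sum_congr rfl fun k _ => Q_eq h _ _ (Fin.succ_ne_zero k) hi
  rw [h2] at h1
  simp at h1
  linarith

lemma apply_i (B : Matrix (Fin 7) (Fin 7) ℝ) (x : E7) (i : Fin 7) :
    (Matrix.toEuclideanLin B x) i = ∑ j, B i j * x j := by
  simp [Matrix.toEuclideanLin_apply, Matrix.mulVec, dotProduct]

theorem bil (e : Fin 7 → ℝ) (B : Matrix (Fin 7) (Fin 7) ℝ) (h : ℝ → ℝ) (hh : Continuous h) :
    sphE 7 (fun x => ∑ i, (e i * x i * h ((x 0) ^ 2)) * (Matrix.toEuclideanLin B x) i) =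
      ∑ i, e i * B i i * Q h i i := by
  have h1 : ∀ x : E7, ∑ i, (e i * x i * h ((x 0) ^ 2)) * (Matrix.toEuclideanLin B x) i =
      ∑ i, ∑ j, (e i * B i j) * (x i * x j * h ((x 0) ^ 2)) := by
    intro x
    refine Finset.sum_congr rfl fun i _ => ?_
    rw [apply_i, Finset.mul_sum]
    refine Finset.sum_congr rfl fun j _ => ?_
    ring
  simp_rw [h1]
  rw [sphE_sum _ _ (fun i _ => by fun_prop)]
  refine Finset.sum_congr rfl fun i _ => ?_
  rw [sphE_sum _ _ (fun j _ => by fun_prop)]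
  simp_rw [sphE_mul]
  rw [Finset.sum_eq_single i]
  · rfl
  · intro j _ hj
    have := Q_off h i j hj.symm
    unfold Q at this
    rw [this, mul_zero]
  · intro h; exact absurd (Finset.mem_univ _) h

/-- `‖A‖_{H^p}` -/
noncomputable def Hnorm (p : ℝ) {n : ℕ} (A : Matrix (Fin n) (Fin n) ℝ) : ℝ :=
  (sphE n fun x => ‖Matrix.toEuclideanLin A x‖ ^ p) ^ (1 / p)

/-- `⟨A, B⟩ = E_x ⟨Ax, Bx⟩` -/
noncomputable def ip {n : ℕ} (A B : Matrix (Fin n) (Fin n) ℝ) : ℝ :=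
  sphE n fun x => inner ℝ (Matrix.toEuclideanLin A x) (Matrix.toEuclideanLin B x)

/-- the set whose supremum is the dual norm `‖A‖_{H^1_*}` -/
def dualSet {n : ℕ} (A : Matrix (Fin n) (Fin n) ℝ) : Set ℝ := {r | ∃ B, Hnorm 1 B ≤ 1 ∧ r = ip A B}

/-- `‖A‖_{H^1_*}` -/
noncomputable def dualNorm {n : ℕ} (A : Matrix (Fin n) (Fin n) ℝ) : ℝ := sSup (dualSet A)

/-- the constant `c_n` -/
noncomputable def cc (n : ℕ) : ℝ :=
  2 ^ (5 / 4 : ℝ) / Real.sqrt Real.pi * (Real.Gamma (((n : ℝ) + 1) / 2) / Real.Gamma ((n : ℝ) / 2)) *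
    (((n : ℝ) + 2) ^ (1 / 4 : ℝ) / (n : ℝ) ^ (3 / 4 : ℝ))

lemma Hnorm_one {n : ℕ} (B : Matrix (Fin n) (Fin n) ℝ) :
    Hnorm 1 B = sphE n fun x => ‖Matrix.toEuclideanLin B x‖ := by
  simp [Hnorm]

lemma diag_apply (d : Fin 7 → ℝ) (x : E7) (i : Fin 7) :
    (Matrix.toEuclideanLin (Matrix.diagonal d) x) i = d i * x i := by
  rw [apply_i, Finset.sum_eq_single i]
  · simp
  · intro j _ hj
    rw [Matrix.diagonal_apply_ne _ hj.symm, zero_mul]
  · intro h; exact absurd (Finset.mem_univ _) h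

lemma Q_one (i : Fin 7) : Q (fun _ => 1) i i = 1 / 7 := by
  have h0 : Q (fun _ => 1) 0 0 = 1 / 7 := by
    have := mom 1
    unfold Q
    rw [show (fun x : E7 => x 0 * x 0 * 1) = fun x => (x 0) ^ (2 * 1) from funext fun x => by ring, this]
    norm_num
  by_cases hi : i = 0
  · rw [hi, h0]
  · rw [Q_diag _ continuous_const i hi, h0, sphE_const]
    norm_num

lemma ip_diag (d : Fin 7 → ℝ) (B : Matrix (Fin 7) (Fin 7) ℝ) :
    ip (Matrix.diagonal d) B = ∑ i, d i * B i i * (1 / 7) := by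
  unfold ip
  have h1 : ∀ x : E7, inner ℝ (Matrix.toEuclideanLin (Matrix.diagonal d) x) (Matrix.toEuclideanLin B x) =
      ∑ i, (d i * x i * (fun _ : ℝ => (1 : ℝ)) ((x 0) ^ 2)) * (Matrix.toEuclideanLin B x) i := by
    intro x
    rw [PiLp.inner_apply]
    refine Finset.sum_congr rfl fun i _ => ?_
    rw [diag_apply]
    simp [mul_comm]
  simp_rw [h1]
  rw [bil d B (fun _ => 1) continuous_const]
  refine Finset.sum_congr rfl fun i _ => ?_
  rw [Q_one]

end Pool.Agent.X89.HM
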