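import Pool.Agent.X89.HM4

open MeasureTheory Measure Set Metric Function

namespace Pool.Agent.X89.HM

noncomputable def hh (s : ℝ) : ℝ := 1 / Real.sqrt ((64 / 1025) ^ 2 + (1023 / 1025) ^ 2 * |s|)

lemma hh_cont : Continuous hh := by
  unfold hh
  refine Continuous.div continuous_const (by fun_prop) fun s => ?_
  have : 0 < (64 / 1025 : ℝ) ^ 2 + (1023 / 1025) ^ 2 * |s| := by positivity
  exact (Real.sqrt_pos.2 this).ne'

lemma hh_sq (s : ℝ) (hs : 0 ≤ s) : (hh s) ^ 2 * ((64 / 1025) ^ 2 + (1023 / 1025) ^ 2 * s) = 1 := by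
  unfold hh
  rw [abs_of_nonneg hs, div_pow, Real.sq_sqrt (by positivity)]
  have : 0 < (64 / 1025 : ℝ) ^ 2 + (1023 / 1025) ^ 2 * s := by positivity
  field_simp

noncomputable def R (u : ℝ) : ℝ := Real.sqrt ((64 / 1025) ^ 2 + (1023 / 1025) ^ 2 * u ^ 2)

lemma R_pos (u : ℝ) : 0 < R u := Real.sqrt_pos.2 (by positivity)

lemma R_sq (u : ℝ) : R u ^ 2 = (64 / 1025) ^ 2 + (1023 / 1025) ^ 2 * u ^ 2 :=
  Real.sq_sqrt (by positivity)

lemma R_cont : Continuous R := by unfold R; fun_prop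

lemma R_inv_cont : Continuous fun u => (R u)⁻¹ := R_cont.inv₀ fun u => (R_pos u).ne'

noncomputable def Mo (j : ℕ) : ℝ := ∫ u in (0 : ℝ)..1, u ^ (2 * j) * (R u)⁻¹

lemma Mo_int (j : ℕ) : IntervalIntegrable (fun u => u ^ (2 * j) * (R u)⁻¹) volume 0 1 := by
  have := R_inv_cont
  exact Continuous.intervalIntegrable (by fun_prop) _ _

lemma hh_eq (u : ℝ) : hh (u ^ 2) = (R u)⁻¹ := by
  unfold hh R
  rw [abs_of_nonneg (sq_nonneg u), one_div]

lemma R_one : R 1 = 1 := by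
  unfold R
  rw [show (64 / 1025 : ℝ) ^ 2 + (1023 / 1025) ^ 2 * 1 ^ 2 = 1 by norm_num, Real.sqrt_one]

lemma Mo_zero : Mo 0 = 1025 / 1023 * (5 * Real.log 2) := by
  have h1 : ∀ u ∈ uIcc (0 : ℝ) 1, HasDerivAt (fun u => 1025 / 1023 * Real.arsinh (1023 / 64 * u))
      (u ^ (2 * 0) * (R u)⁻¹) u := by
    intro u _
    have h2 : HasDerivAt (fun u : ℝ => 1023 / 64 * u) (1023 / 64) u := by
      simpa using (hasDerivAt_id u).const_mul (1023 / 64 : ℝ)
    have h3 := ((Real.hasDerivAt_arsinh (1023 / 64 * u)).comp u h2).const_mul (1025 / 1023 : ℝ)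
    refine HasDerivAt.congr_deriv (show HasDerivAt
      (fun u => 1025 / 1023 * Real.arsinh (1023 / 64 * u)) _ u from h3) ?_
    have h4 : R u = 64 / 1025 * Real.sqrt (1 + (1023 / 64 * u) ^ 2) := by
      unfold R
      rw [show (64 / 1025 : ℝ) ^ 2 + (1023 / 1025) ^ 2 * u ^ 2 =
        (64 / 1025) ^ 2 * (1 + (1023 / 64 * u) ^ 2) by ring, Real.sqrt_mul (by positivity),
        Real.sqrt_sq (by norm_num)]
    have h5 : 0 < Real.sqrt (1 + (1023 / 64 * u) ^ 2) := Real.sqrt_pos.2 (by positivity)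
    rw [h4]
    field_simp
    norm_num
  unfold Mo
  rw [intervalIntegral.integral_eq_sub_of_hasDerivAt h1 (Mo_int 0)]
  have h6 : Real.arsinh (1023 / 64 * 1) = 5 * Real.log 2 := by
    unfold Real.arsinh
    rw [show (1 : ℝ) + (1023 / 64 * 1) ^ 2 = (1025 / 64) ^ 2 by norm_num, Real.sqrt_sq (by norm_num),
      show (1023 / 64 * 1 + 1025 / 64 : ℝ) = 2 ^ 5 by norm_num, Real.log_pow]
    norm_num
  rw [h6]
  simp

lemma Mo_rec (i : ℕ) : (2 * i + 1) * (64 / 1025) ^ 2 * Mo i + (2 * i + 2) * (1023 / 1025) ^ 2 * Mo (i + 1) = 1 := by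
  have h1 : ∀ u ∈ uIcc (0 : ℝ) 1, HasDerivAt (fun u => u ^ (2 * i + 1) * R u)
      ((2 * i + 1) * (64 / 1025) ^ 2 * (u ^ (2 * i) * (R u)⁻¹) +
        (2 * i + 2) * (1023 / 1025) ^ 2 * (u ^ (2 * (i + 1)) * (R u)⁻¹)) u := by
    intro u _
    have h2 : HasDerivAt (fun u : ℝ => (64 / 1025 : ℝ) ^ 2 + (1023 / 1025) ^ 2 * u ^ 2)
        ((1023 / 1025) ^ 2 * (2 * u)) u := by
      have := ((hasDerivAt_pow 2 u).const_mul ((1023 / 1025 : ℝ) ^ 2)).const_add ((64 / 1025 : ℝ) ^ 2)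
      simpa using this
    have h3 : HasDerivAt R ((1023 / 1025) ^ 2 * (2 * u) / (2 * R u)) u :=
      h2.sqrt (by positivity)
    have h4 := (hasDerivAt_pow (2 * i + 1) u).mul h3
    refine HasDerivAt.congr_deriv (show HasDerivAt
      (fun u => u ^ (2 * i + 1) * R u) _ u from h4) ?_
    have hR := R_pos u
    have hR2 := R_sq u
    have h5 : R u = (R u ^ 2) * (R u)⁻¹ := by field_simp
    have h6 : ((2 * i + 1 : ℕ) : ℝ) * u ^ (2 * i + 1 - 1) * R u = (2 * i + 1) * u ^ (2 * i) *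
      (((64 / 1025) ^ 2 + (1023 / 1025) ^ 2 * u ^ 2) * (R u)⁻¹) := by
      rw [← hR2, ← h5]
      push_cast
      simp
    rw [h6]
    field_simp
    ring
  have h7 := intervalIntegral.integral_eq_sub_of_hasDerivAt h1
    (((Mo_int i).const_mul _).add ((Mo_int (i + 1)).const_mul _))
  rw [intervalIntegral.integral_add ((Mo_int i).const_mul _) ((Mo_int (i + 1)).const_mul _),
    intervalIntegral.integral_const_mul, intervalIntegral.integral_const_mul] at h7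
  unfold Mo
  rw [h7, R_one]
  simp

lemma H_eq : sphE 7 (fun x => hh ((x 0) ^ 2)) = 15 / 8 * (Mo 0 - 2 * Mo 1 + Mo 2) := by
  rw [law hh hh_cont]
  congr 1
  unfold Mo
  rw [← intervalIntegral.integral_const_mul, ← intervalIntegral.integral_sub (Mo_int 0) ((Mo_int 1).const_mul _),
    ← intervalIntegral.integral_add ((Mo_int 0).sub ((Mo_int 1).const_mul _)) (Mo_int 2)]
  refine intervalIntegral.integral_congr fun u _ => ?_
  beta_reduce
  rw [hh_eq]
  ring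

lemma Q00_eq : Q hh 0 0 = 15 / 8 * (Mo 1 - 2 * Mo 2 + Mo 3) := by
  have h0 : Q hh 0 0 = sphE 7 (fun x => (fun s => s * hh s) ((x 0) ^ 2)) := by
    unfold Q
    congr 1
    funext x
    ring
  have hc := hh_cont
  rw [h0, law (fun s => s * hh s) (by fun_prop)]
  congr 1
  unfold Mo
  rw [← intervalIntegral.integral_const_mul, ← intervalIntegral.integral_sub (Mo_int 1) ((Mo_int 2).const_mul _),
    ← intervalIntegral.integral_add ((Mo_int 1).sub ((Mo_int 2).const_mul _)) (Mo_int 3)]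
  refine intervalIntegral.integral_congr fun u _ => ?_
  beta_reduce
  rw [hh_eq]
  ring

noncomputable def aa : ℝ := 7 * Q hh 0 0
noncomputable def bb : ℝ := 7 * (64 / 1025) * ((sphE 7 (fun x => hh ((x 0) ^ 2)) - Q hh 0 0) / 6)

lemma aa_lo : 2.134343 < aa ∧ 0.350901 < bb := by
  have hl1 := Real.log_two_gt_d9
  have hl2 := Real.log_two_lt_d9
  have h0 := Mo_zero
  have h1 := Mo_rec 0
  have h2 := Mo_rec 1
  have h3 := Mo_rec 2
  norm_num at h1 h2 h3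
  unfold aa bb
  rw [H_eq, Q00_eq]
  constructor
  · norm_num
    linarith
  · norm_num
    linarith

lemma sum_sq (x : E7) (hx : ‖x‖ = 1) : ∑ i : Fin 6, (x i.succ) ^ 2 = 1 - (x 0) ^ 2 := by
  have h1 := EuclideanSpace.real_norm_sq_eq x
  rw [hx, Fin.sum_univ_succ] at h1
  linarith

noncomputable def dd (i : Fin 7) : ℝ := if i = 0 then aa else bb
noncomputable def ee (i : Fin 7) : ℝ := if i = 0 then 1 else 64 / 1025

lemma dd_eq (i : Fin 7) : dd i * (1 / 7) = ee i * Q hh i i := by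
  unfold dd ee
  split_ifs with h
  · rw [h]; unfold aa; ring
  · rw [Q_diag hh hh_cont i h]; unfold bb; ring

theorem dual_le (B : Matrix (Fin 7) (Fin 7) ℝ) : ip (Matrix.diagonal dd) B ≤ Hnorm 1 B := by
  have hc := hh_cont
  have h1 : ip (Matrix.diagonal dd) B = ∑ i, ee i * B i i * Q hh i i := by
    rw [ip_diag]
    refine Finset.sum_congr rfl fun i _ => ?_
    have := dd_eq i
    linear_combination (B i i) * this
  have hB : Continuous fun x : E7 => Matrix.toEuclideanLin B x :=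
    (Matrix.toEuclideanLin B).continuous_of_finiteDimensional
  rw [h1, ← bil ee B hh hh_cont, Hnorm_one]
  refine sphE_mono _ _ ?_ hB.norm ?_
  · refine continuous_finsetSum _ fun i _ => ?_
    refine Continuous.mul (by fun_prop) ?_
    exact (continuous_apply i).comp ((PiLp.continuous_ofLp 2 _).comp hB)
  · intro x hx
    have h2 := Finset.sum_mul_sq_le_sq_mul_sq Finset.univ (fun i => ee i * x i * hh ((x 0) ^ 2))
      (fun i => (Matrix.toEuclideanLin B x) i)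
    have h3 : ∑ i, (ee i * x i * hh ((x 0) ^ 2)) ^ 2 = 1 := by
      rw [Fin.sum_univ_succ]
      have h4 : ∀ i : Fin 6, (ee i.succ * x i.succ * hh ((x 0) ^ 2)) ^ 2 =
          ((64 / 1025) ^ 2 * (hh ((x 0) ^ 2)) ^ 2) * (x i.succ) ^ 2 := by
        intro i
        unfold ee
        rw [if_neg (Fin.succ_ne_zero i)]
        ring
      simp_rw [h4]
      rw [← Finset.mul_sum, sum_sq x hx]
      have h5 := hh_sq ((x 0) ^ 2) (sq_nonneg _)
      unfold ee
      rw [if_pos rfl]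
      linear_combination h5
    rw [h3, one_mul, ← EuclideanSpace.real_norm_sq_eq] at h2
    exact (abs_le_of_sq_le_sq' h2 (norm_nonneg _)).2

lemma N4 : sphE 7 (fun x => ‖Matrix.toEuclideanLin (Matrix.diagonal dd) x‖ ^ (4 : ℝ)) =
    bb ^ 4 * (16 / 21) + aa ^ 2 * bb ^ 2 * (4 / 21) + aa ^ 4 * (1 / 21) := by
  have h1 : sphE 7 (fun x => ‖Matrix.toEuclideanLin (Matrix.diagonal dd) x‖ ^ (4 : ℝ)) =
      sphE 7 (fun x => (bb ^ 4 * (x 0) ^ (2 * 0) + (2 * bb ^ 2 * (aa ^ 2 - bb ^ 2)) * (x 0) ^ (2 * 1)) +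
        ((aa ^ 2 - bb ^ 2) ^ 2) * (x 0) ^ (2 * 2)) := by
    refine sphE_congr _ _ fun x hx => ?_
    have h2 : ‖Matrix.toEuclideanLin (Matrix.diagonal dd) x‖ ^ 2 = aa ^ 2 * (x 0) ^ 2 + bb ^ 2 * (1 - (x 0) ^ 2) := by
      rw [EuclideanSpace.real_norm_sq_eq, Fin.sum_univ_succ]
      have h4 : ∀ i : Fin 6, ((Matrix.toEuclideanLin (Matrix.diagonal dd) x) i.succ) ^ 2 =
          bb ^ 2 * (x i.succ) ^ 2 := by
        intro i
        rw [diag_apply]
        unfold dd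
        rw [if_neg (Fin.succ_ne_zero i)]
        ring
      simp_rw [h4]
      rw [← Finset.mul_sum, sum_sq x hx, diag_apply]
      unfold dd
      rw [if_pos rfl]
      ring
    have h3 : ‖Matrix.toEuclideanLin (Matrix.diagonal dd) x‖ ^ (4 : ℝ) =
        (‖Matrix.toEuclideanLin (Matrix.diagonal dd) x‖ ^ 2) ^ 2 := by
      rw [← pow_mul]; norm_cast
    rw [h3, h2]
    ring
  rw [h1, sphE_add _ _ (by fun_prop) (by fun_prop), sphE_add _ _ (by fun_prop) (by fun_prop),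
    sphE_mul, sphE_mul, sphE_mul, mom, mom, mom]
  norm_num
  ring

lemma cc7 : cc 7 = (288 / 343 : ℝ) ^ (1 / 4 : ℝ) * (16 / (5 * Real.pi)) := by
  unfold cc
  have hpi := Real.pi_pos
  have h1 : Real.Gamma ((((7 : ℕ) : ℝ) + 1) / 2) = 6 := by
    rw [show (((7 : ℕ) : ℝ) + 1) / 2 = ((3 : ℕ) : ℝ) + 1 by norm_num, Real.Gamma_nat_eq_factorial]
    norm_num [Nat.factorial]
  have h2 : Real.Gamma (((7 : ℕ) : ℝ) / 2) = 15 / 8 * Real.sqrt Real.pi := by
    rw [show (((7 : ℕ) : ℝ)) / 2 = (5 / 2 : ℝ) + 1 by norm_num, Real.Gamma_add_one (by norm_num),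
      show (5 / 2 : ℝ) = (3 / 2 : ℝ) + 1 by norm_num, Real.Gamma_add_one (by norm_num),
      show (3 / 2 : ℝ) = (1 / 2 : ℝ) + 1 by norm_num, Real.Gamma_add_one (by norm_num), Real.Gamma_one_half_eq]
    ring
  have h3 : (2 : ℝ) ^ (5 / 4 : ℝ) = (32 : ℝ) ^ (1 / 4 : ℝ) := by
    rw [show (32 : ℝ) = 2 ^ (5 : ℝ) by norm_num, ← Real.rpow_mul (by norm_num)]
    norm_num
  have h4 : ((7 : ℕ) : ℝ) ^ (3 / 4 : ℝ) = (343 : ℝ) ^ (1 / 4 : ℝ) := by
    rw [show (343 : ℝ) = 7 ^ (3 : ℝ) by norm_num, ← Real.rpow_mul (by norm_num)]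
    norm_num
  rw [h1, h2, h3, h4, show (((7 : ℕ) : ℝ) + 2) = 9 by norm_num,
    show (288 / 343 : ℝ) = 32 * 9 / 343 by norm_num, Real.div_rpow (by norm_num) (by norm_num),
    Real.mul_rpow (by norm_num) (by norm_num)]
  have h5 : Real.sqrt Real.pi * Real.sqrt Real.pi = Real.pi := Real.mul_self_sqrt hpi.le
  have h6 : 0 < Real.sqrt Real.pi := Real.sqrt_pos.2 hpi
  have h7 : (0 : ℝ) < (343 : ℝ) ^ (1 / 4 : ℝ) := by positivity
  field_simp
  rw [show Real.sqrt Real.pi ^ 2 = Real.pi by rw [sq]; exact h5]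
  ring

theorem big : 1 < cc 7 * Hnorm 4 (Matrix.diagonal dd) := by
  unfold Hnorm
  rw [N4, cc7]
  set X : ℝ := bb ^ 4 * (16 / 21) + aa ^ 2 * bb ^ 2 * (4 / 21) + aa ^ 4 * (1 / 21) with hX
  obtain ⟨ha, hb⟩ := aa_lo
  have hXlo : 2.134343 ^ 4 * (1 / 21 : ℝ) + 2.134343 ^ 2 * 0.350901 ^ 2 * (4 / 21) + 0.350901 ^ 4 * (16 / 21) ≤ X := by
    rw [hX]
    have h1 : (2.134343 : ℝ) ^ 4 ≤ aa ^ 4 := pow_le_pow_left₀ (by norm_num) ha.le _
    have h2 : (2.134343 : ℝ) ^ 2 ≤ aa ^ 2 := pow_le_pow_left₀ (by norm_num) ha.le _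
    have h3 : (0.350901 : ℝ) ^ 4 ≤ bb ^ 4 := pow_le_pow_left₀ (by norm_num) hb.le _
    have h4 : (0.350901 : ℝ) ^ 2 ≤ bb ^ 2 := pow_le_pow_left₀ (by norm_num) hb.le _
    have h5 : (2.134343 : ℝ) ^ 2 * 0.350901 ^ 2 ≤ aa ^ 2 * bb ^ 2 := mul_le_mul h2 h4 (by norm_num) (by positivity)
    linarith
  have hX0 : 0 < X := lt_of_lt_of_le (by norm_num) hXlo
  have hpi := Real.pi_pos
  have hpi2 := Real.pi_lt_d6
  have hp4 : Real.pi ^ 4 ≤ 3.141593 ^ 4 := pow_le_pow_left₀ hpi.le hpi2.le _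
  set y : ℝ := (288 / 343 * X) ^ (1 / 4 : ℝ) with hy
  have hy0 : 0 ≤ y := by positivity
  have hy4 : y ^ 4 = 288 / 343 * X := by
    rw [hy, ← Real.rpow_natCast, ← Real.rpow_mul (by positivity)]
    norm_num
  have h8 : (288 / 343 : ℝ) ^ (1 / 4 : ℝ) * (16 / (5 * Real.pi)) * X ^ (1 / 4 : ℝ) = y * 16 / (5 * Real.pi) := by
    rw [hy, Real.mul_rpow (by norm_num) hX0.le]
    ring
  rw [h8, lt_div_iff₀ (by positivity)]
  by_contra hcon
  push Not at hcon
  have h9 : (y * 16) ^ 4 ≤ (1 * (5 * Real.pi)) ^ 4 := pow_le_pow_left₀ (by positivity) hcon _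
  have h10 : (y * 16) ^ 4 = 65536 * (288 / 343 * X) := by rw [mul_pow, hy4]; norm_num; ring
  rw [h10] at h9
  have h11 : (1 * (5 * Real.pi)) ^ 4 = 625 * Real.pi ^ 4 := by ring
  rw [h11] at h9
  have h12 : (2.134343 : ℝ) ^ 4 * (1 / 21 : ℝ) + 2.134343 ^ 2 * 0.350901 ^ 2 * (4 / 21) + 0.350901 ^ 4 * (16 / 21) ≥ 1.106575 := by
    norm_num
  have h13 : (3.141593 : ℝ) ^ 4 ≤ 97.40914 := by norm_num
  linarith

end Pool.Agent.X89.HM
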