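import Mathlib

open Polynomial

namespace Pool.Agent.X89.JE

/-- the double confluent Heun equation (*) has a nonzero polynomial solution -/
def HasPolySol (l : ℕ) (μ lam : ℝ) : Prop :=
  ∃ E : ℂ[X], E ≠ 0 ∧ ∀ z : ℂ,
    z ^ 2 * (derivative (derivative E)).eval z +
      ((1 - l) * z + μ * (1 - z ^ 2)) * (derivative E).eval z +
      (lam + μ * (l - 1) * z) * E.eval z = 0

lemma poly_eq {l : ℕ} {μ lam : ℝ} {E : ℂ[X]} (h : ∀ z : ℂ,
    z ^ 2 * (derivative (derivative E)).eval z +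
      ((1 - l) * z + μ * (1 - z ^ 2)) * (derivative E).eval z +
      (lam + μ * (l - 1) * z) * E.eval z = 0) :
    X ^ 2 * derivative (derivative E) + C (1 - (l : ℂ)) * (X * derivative E) +
      C (μ : ℂ) * derivative E - C (μ : ℂ) * (X ^ 2 * derivative E) + C (lam : ℂ) * E +
      C ((μ : ℂ) * (l - 1)) * (X * E) = 0 := by
  refine Polynomial.funext fun z => ?_
  have := h z
  simp only [eval_add, eval_mul, eval_sub, eval_pow, eval_X, eval_C, eval_zero]
  linear_combination this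

lemma coef0 {l : ℕ} {μ lam : ℝ} {E : ℂ[X]} (h : ∀ z : ℂ,
    z ^ 2 * (derivative (derivative E)).eval z +
      ((1 - l) * z + μ * (1 - z ^ 2)) * (derivative E).eval z +
      (lam + μ * (l - 1) * z) * E.eval z = 0) :
    (lam : ℂ) * E.coeff 0 + μ * E.coeff 1 = 0 := by
  have h1 := congrArg (fun P : ℂ[X] => P.coeff 0) (poly_eq h)
  simp only [coeff_add, coeff_sub, coeff_C_mul, coeff_X_pow_mul', coeff_X_mul_zero, coeff_derivative,
    coeff_zero] at h1
  simp at h1
  linear_combination h1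

lemma coefS {l : ℕ} {μ lam : ℝ} {E : ℂ[X]} (h : ∀ z : ℂ,
    z ^ 2 * (derivative (derivative E)).eval z +
      ((1 - l) * z + μ * (1 - z ^ 2)) * (derivative E).eval z +
      (lam + μ * (l - 1) * z) * E.eval z = 0) (k : ℕ) :
    (((k : ℂ) + 1) * (k + 1 - l) + lam) * E.coeff (k + 1) + μ * (k + 2) * E.coeff (k + 2) +
      μ * (l - k - 1) * E.coeff k = 0 := by
  have h1 := congrArg (fun P : ℂ[X] => P.coeff (k + 1)) (poly_eq h)
  rcases k with _ | k
  · simp only [coeff_add, coeff_sub, coeff_C_mul, coeff_X_pow_mul', coeff_X_mul, coeff_derivative,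
      coeff_zero] at h1
    norm_num at h1 ⊢
    linear_combination h1
  · simp only [coeff_add, coeff_sub, coeff_C_mul, coeff_X_pow_mul', coeff_X_mul, coeff_derivative,
      coeff_zero] at h1
    rw [if_pos (by omega), show k + 1 + 1 - 2 = k by omega] at h1
    push_cast at h1 ⊢
    rw [show k + 1 + 2 = k + 1 + 1 + 1 by omega]
    linear_combination h1

lemma deg {l : ℕ} {μ lam : ℝ} (hμ : μ ≠ 0) {E : ℂ[X]} (hE : E ≠ 0) (h : ∀ z : ℂ,
    z ^ 2 * (derivative (derivative E)).eval z +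
      ((1 - l) * z + μ * (1 - z ^ 2)) * (derivative E).eval z +
      (lam + μ * (l - 1) * z) * E.eval z = 0) : E.natDegree + 1 = l := by
  have h1 := coefS h E.natDegree
  rw [coeff_eq_zero_of_natDegree_lt (by omega : E.natDegree < E.natDegree + 1),
    coeff_eq_zero_of_natDegree_lt (by omega : E.natDegree < E.natDegree + 2)] at h1
  have h2 : E.coeff E.natDegree ≠ 0 := by
    rw [coeff_natDegree]; exact leadingCoeff_ne_zero.2 hE
  have h3 : (μ : ℂ) ≠ 0 := by exact_mod_cast hμ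
  have h4 : ((l : ℂ) - E.natDegree - 1) = 0 := by
    have : (μ : ℂ) * (l - E.natDegree - 1) * E.coeff E.natDegree = 0 := by linear_combination h1
    rcases mul_eq_zero.1 this with h5 | h5
    · rcases mul_eq_zero.1 h5 with h6 | h6
      · exact absurd h6 h3
      · exact h6
    · exact absurd h5 h2
  have h5 : ((E.natDegree + 1 : ℕ) : ℂ) = (l : ℂ) := by push_cast; linear_combination -h4
  exact_mod_cast h5

lemma sol1 {μ lam : ℝ} (hμ : μ ≠ 0) (h : HasPolySol 1 μ lam) : lam = 0 := by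
  obtain ⟨E, hE, h⟩ := h
  have hd := deg hμ hE h
  have h0 := coef0 h
  have e1 : E.coeff 1 = 0 := coeff_eq_zero_of_natDegree_lt (by omega)
  have e0 : E.coeff 0 ≠ 0 := by
    have : E.natDegree = 0 := by omega
    have h2 := leadingCoeff_ne_zero.2 hE
    rw [leadingCoeff, this] at h2; exact h2
  rw [e1, mul_zero, add_zero] at h0
  rcases mul_eq_zero.1 h0 with h1 | h1
  · exact_mod_cast h1
  · exact absurd h1 e0

lemma sol2 {μ lam : ℝ} (hμ : μ ≠ 0) (h : HasPolySol 2 μ lam) : lam * (lam - 1) = μ ^ 2 := by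
  obtain ⟨E, hE, h⟩ := h
  have hd := deg hμ hE h
  have h0 := coef0 h
  have h1 := coefS h 0
  have e2 : E.coeff 2 = 0 := coeff_eq_zero_of_natDegree_lt (by omega)
  have e1 : E.coeff 1 ≠ 0 := by
    have : E.natDegree = 1 := by omega
    have h2 := leadingCoeff_ne_zero.2 hE
    rw [leadingCoeff, this] at h2; exact h2
  norm_num [e2] at h1
  have h3 : ((lam : ℂ) * (lam - 1) - μ ^ 2) * E.coeff 1 = 0 := by
    linear_combination (lam : ℂ) * h1 - (μ : ℂ) * h0
  rcases mul_eq_zero.1 h3 with h4 | h4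
  · have : (lam : ℂ) * (lam - 1) = μ ^ 2 := by linear_combination h4
    exact_mod_cast this
  · exact absurd h4 e1

lemma sol3 {μ lam : ℝ} (hμ : μ ≠ 0) (h : HasPolySol 3 μ lam) :
    lam * (lam - 2) ^ 2 = 4 * μ ^ 2 * (lam - 1) := by
  obtain ⟨E, hE, h⟩ := h
  have hd := deg hμ hE h
  have h0 := coef0 h
  have h1 := coefS h 0
  have h2 := coefS h 1
  have e3 : E.coeff 3 = 0 := coeff_eq_zero_of_natDegree_lt (by omega)
  have e2 : E.coeff 2 ≠ 0 := by
    have : E.natDegree = 2 := by omega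
    have h2 := leadingCoeff_ne_zero.2 hE
    rw [leadingCoeff, this] at h2; exact h2
  norm_num [e3] at h1 h2
  have hμ' : (μ : ℂ) ≠ 0 := by exact_mod_cast hμ
  have h3 : ((lam : ℂ) * (lam - 2) ^ 2 - 4 * μ ^ 2 * (lam - 1)) * E.coeff 2 = 0 := by
    have h4 : (μ : ℂ) * (((lam : ℂ) * (lam - 2) ^ 2 - 4 * μ ^ 2 * (lam - 1)) * E.coeff 2) = 0 := by
      linear_combination ((lam : ℂ) * (lam - 2) * μ - 2 * μ ^ 3) * h2 - (μ : ℂ) ^ 2 * lam * h1 + 2 * (μ : ℂ) ^ 3 * h0
    rcases mul_eq_zero.1 h4 with h5 | h5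
    · exact absurd h5 hμ'
    · exact h5
  rcases mul_eq_zero.1 h3 with h4 | h4
  · have : (lam : ℂ) * (lam - 2) ^ 2 = 4 * μ ^ 2 * (lam - 1) := by linear_combination h4
    exact_mod_cast this
  · exact absurd h4 e2

lemma has1 (μ : ℝ) : HasPolySol 1 μ 0 := by
  refine ⟨1, one_ne_zero, fun z => ?_⟩
  simp

lemma has2 {μ lam : ℝ} (hμ : μ ≠ 0) (h : lam * (lam - 1) = μ ^ 2) : HasPolySol 2 μ lam := by
  have hc : (lam : ℂ) * (lam - 1) = μ ^ 2 := by exact_mod_cast h
  refine ⟨C (lam : ℂ) * X - C (μ : ℂ), ?_, fun z => ?_⟩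
  · intro h0
    have := congrArg (fun P : ℂ[X] => P.coeff 0) h0
    simp at this
    exact hμ this
  · simp
    linear_combination z * hc

lemma has3 {μ lam : ℝ} (hμ : μ ≠ 0) (h : lam * (lam - 2) ^ 2 = 4 * μ ^ 2 * (lam - 1)) :
    HasPolySol 3 μ lam := by
  have hc : (lam : ℂ) * (lam - 2) ^ 2 = 4 * μ ^ 2 * (lam - 1) := by exact_mod_cast h
  refine ⟨C (-(μ : ℂ) * lam) * X ^ 2 + C ((lam : ℂ) * (lam - 2)) * X + C (-(μ : ℂ) * (lam - 2)), ?_,
    fun z => ?_⟩
  · intro h0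
    have h1 := congrArg (fun P : ℂ[X] => P.eval 0) h0
    have h2 := congrArg (fun P : ℂ[X] => P.eval 1) h0
    have h3 := congrArg (fun P : ℂ[X] => P.eval (-1)) h0
    have hμ' : (μ : ℂ) ≠ 0 := by exact_mod_cast hμ
    simp only [eval_add, eval_mul, eval_pow, eval_X, eval_C, eval_zero] at h1 h2 h3
    have h4 : (μ : ℂ) = 0 := by linear_combination (-1 / 2 : ℂ) * (h2 + h3) / 2 + h1
    exact hμ' h4
  · simp
    linear_combination z * hc

end Pool.Agent.X89.JE
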