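import Mathlib

/-! Staircase lemma for Toeplitz blocks (used for `MP_3c4fb9_al`). -/

open Finset

namespace Pool.Agent.X89.KC

/-- partial sums -/
def tau (D : ℕ → ℕ) (n : ℕ) : ℕ := ∑ i ∈ range n, D i

lemma tau_succ (D : ℕ → ℕ) (n : ℕ) : tau D (n + 1) = tau D n + D n := by
  simp [tau, sum_range_succ]

lemma tau_zero (D : ℕ → ℕ) : tau D 0 = 0 := rfl

lemma tau_mono (D : ℕ → ℕ) {a b : ℕ} (h : a ≤ b) : tau D a ≤ tau D b :=
  sum_le_sum_of_subset (range_subset_range.2 h)

/-- the covering property -/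
lemma cover {D : ℕ → ℕ} {p : ℕ} (hmono : ∀ i j, i ≤ j → j < p → D i ≤ D j)
    (hc : ∀ d, 1 ≤ d → d * #((range p).filter (fun i => D i = d)) ≤
      #((range p).filter (fun i => D i < d))) {q b : ℕ} (hq : q < p) (hb : b < p)
    (h : tau D b + b < tau D (q + 1)) : D b < D q := by
  by_contra hcon
  push Not at hcon
  rcases Nat.eq_zero_or_pos (D q) with h0 | h0
  · have : tau D (q + 1) = 0 := by
      unfold tau
      refine sum_eq_zero fun i hi => ?_
      have := hmono i q (by simp at hi; omega) hq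
      omega
    omega
  · have h1 := hc (D q) h0
    have h2 : tau D (q + 1) ≤ (∑ i ∈ (range p).filter (fun i => D i < D q), D i) +
        D q * #((range p).filter (fun i => D i = D q)) := by
      have e : D q * #((range p).filter (fun i => D i = D q)) =
          ∑ i ∈ (range p).filter (fun i => D i = D q), D i := by
        rw [sum_congr rfl (g := fun _ => D q) (fun i hi => (mem_filter.1 hi).2)]
        simp [mul_comm]
      rw [e, ← sum_union]
      · refine sum_le_sum_of_subset fun i hi => ?_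
        have hi' : i < q + 1 := by simpa using hi
        have := hmono i q (by omega) hq
        simp only [mem_union, mem_filter, mem_range]
        rcases this.lt_or_eq with h | h
        · left; exact ⟨by omega, h⟩
        · right; exact ⟨by omega, h⟩
      · rw [disjoint_filter]
        intro i _ hi
        omega
    have h3 : (∑ i ∈ (range p).filter (fun i => D i < D q), D i) +
        #((range p).filter (fun i => D i < D q)) ≤ tau D b + b := by
      have e1 : (∑ i ∈ (range p).filter (fun i => D i < D q), D i) +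
          #((range p).filter (fun i => D i < D q)) =
          ∑ i ∈ (range p).filter (fun i => D i < D q), (D i + 1) := by
        rw [sum_add_distrib]; simp
      have e2 : tau D b + b = ∑ i ∈ range b, (D i + 1) := by
        rw [sum_add_distrib]; simp [tau]
      rw [e1, e2]
      refine sum_le_sum_of_subset fun i hi => ?_
      simp only [mem_filter, mem_range] at hi ⊢
      by_contra hbi
      push Not at hbi
      have := hmono b i hbi hi.1
      omega
    omega

/-- coefficients of the staircase map -/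
noncomputable def gam (D : ℕ → ℕ) (q b : ℕ) (t : ℤ) : ℂ :=
  if (tau D q ≤ tau D b + b ∧ tau D b + b < tau D (q + 1) ∧
      t = ((min (tau D b + b - tau D q) (D q - (D b + 1)) : ℕ) : ℤ)) ∨
    (tau D b + b < tau D q ∧ tau D q < tau D (b + 1) + (b + 1) ∧ t = 0) then 1 else 0

lemma gam_supp {D : ℕ → ℕ} {p : ℕ} (hmono : ∀ i j, i ≤ j → j < p → D i ≤ D j)
    (hc : ∀ d, 1 ≤ d → d * #((range p).filter (fun i => D i = d)) ≤
      #((range p).filter (fun i => D i < d))) {q b : ℕ} (hq : q < p) (hb : b < p) {t : ℤ}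
    (h : gam D q b t ≠ 0) : 0 ≤ t ∧ t + D b + 1 ≤ D q := by
  unfold gam at h
  split_ifs at h with h'
  · rcases h' with ⟨h1, h2, rfl⟩ | ⟨h1, h2, rfl⟩
    · have := cover hmono hc hq hb h2
      omega
    · have := cover hmono hc hq hb (lt_of_lt_of_le h1 (tau_mono D (Nat.le_succ q)))
      omega
  · exact absurd rfl h

/-- basis vector in `ℕ`-coordinates -/
def eb (p : ℕ) (D : ℕ → ℕ) (q i : ℕ) : (Σ q : Fin p, Fin (D q)) → ℂ :=
  fun x => if x.1.val = q ∧ x.2.val = i then 1 else 0

/-- image of a basis vector -/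
noncomputable def im (p : ℕ) (D : ℕ → ℕ) (b j : ℕ) : (Σ q : Fin p, Fin (D q)) → ℂ :=
  fun x => gam D x.1 b ((x.2 : ℕ) - (j : ℤ))

section
variable {D : ℕ → ℕ} {p : ℕ} (hmono : ∀ i j, i ≤ j → j < p → D i ≤ D j)
    (hc : ∀ d, 1 ≤ d → d * #((range p).filter (fun i => D i = d)) ≤
      #((range p).filter (fun i => D i < d)))
include hmono hc

/-- a piece inside one target -/
lemma im_inside {q b j : ℕ} (hq : q < p) (hb : b < p)
    (h1 : tau D q ≤ tau D b + b) (h2 : tau D (b + 1) + (b + 1) ≤ tau D (q + 1)) :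
    im p D b j = eb p D q (tau D b + b - tau D q + j) := by
  have hb1 := tau_succ D b
  have hq1 := tau_succ D q
  funext ⟨⟨q', hq'⟩, ⟨i, hi⟩⟩
  have hi' : i < D q' := hi
  have hq'1 := tau_succ D q'
  simp only [im, eb, gam]
  refine if_congr ?_ rfl rfl
  rcases lt_trichotomy q' q with h | h | h
  · have := tau_mono D (show q' + 1 ≤ q by omega)
    constructor
    · rintro (⟨a1, a2, a3⟩ | ⟨a1, a2, a3⟩) <;> omega
    · rintro ⟨a1, a2⟩; omega
  · subst h
    constructor
    · rintro (⟨a1, a2, a3⟩ | ⟨a1, a2, a3⟩) <;> omega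
    · rintro ⟨a1, a2⟩
      left
      refine ⟨h1, by omega, by omega⟩
  · have := tau_mono D (show q + 1 ≤ q' by omega)
    constructor
    · rintro (⟨a1, a2, a3⟩ | ⟨a1, a2, a3⟩) <;> omega
    · rintro ⟨a1, a2⟩; omega

/-- a piece crossing the right end of a target -/
lemma im_cross {q b j : ℕ} (hq : q < p) (hb : b < p) (hj : j < D b + 1)
    (h1 : tau D q ≤ tau D b + b) (h2 : tau D b + b < tau D (q + 1))
    (h3 : tau D (q + 1) < tau D (b + 1) + (b + 1)) :
    im p D b j = eb p D q (D q - (D b + 1) + j) + eb p D (q + 1) j := by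
  have hb1 := tau_succ D b
  have hq1 := tau_succ D q
  have hbq := cover hmono hc hq hb h2
  funext ⟨⟨q', hq'⟩, ⟨i, hi⟩⟩
  have hi' : i < D q' := hi
  have hq'1 := tau_succ D q'
  have e : (eb p D q (D q - (D b + 1) + j) + eb p D (q + 1) j) ⟨⟨q', hq'⟩, ⟨i, hi⟩⟩ =
      if (q' = q ∧ i = D q - (D b + 1) + j) ∨ (q' = q + 1 ∧ i = j) then 1 else 0 := by
    simp only [Pi.add_apply, eb]
    by_cases a : q' = q ∧ i = D q - (D b + 1) + j
    · have : ¬ (q' = q + 1 ∧ i = j) := by omega
      simp [a, this]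
    · by_cases a' : q' = q + 1 ∧ i = j
      · simp [a, a']
      · simp [a, a']
  rw [e]
  simp only [im, gam]
  refine if_congr ?_ rfl rfl
  rcases lt_trichotomy q' q with h | h | h
  · have := tau_mono D (show q' + 1 ≤ q by omega)
    constructor
    · rintro (⟨a1, a2, a3⟩ | ⟨a1, a2, a3⟩) <;> omega
    · rintro (⟨a1, a2⟩ | ⟨a1, a2⟩) <;> omega
  · subst h
    constructor
    · rintro (⟨a1, a2, a3⟩ | ⟨a1, a2, a3⟩)
      · left; omega
      · omega
    · rintro (⟨a1, a2⟩ | ⟨a1, a2⟩)
      · left
        refine ⟨h1, by omega, by omega⟩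
      · omega
  · rcases Nat.lt_or_ge (q + 1) q' with h' | h'
    · -- q' ≥ q + 2
      have m1 := tau_mono D (show q + 1 + 1 ≤ q' by omega)
      have m2 := tau_succ D (q + 1)
      have m3 := hmono q (q + 1) (by omega) (by omega)
      constructor
      · rintro (⟨a1, a2, a3⟩ | ⟨a1, a2, a3⟩) <;> omega
      · rintro (⟨a1, a2⟩ | ⟨a1, a2⟩) <;> omega
    · have hq'' : q' = q + 1 := by omega
      subst hq''
      constructor
      · rintro (⟨a1, a2, a3⟩ | ⟨a1, a2, a3⟩)
        · omega
        · right; omega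
      · rintro (⟨a1, a2⟩ | ⟨a1, a2⟩)
        · omega
        · right
          refine ⟨h2, h3, by omega⟩

end

end Pool.Agent.X89.KC
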