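import Pool.Agent.X89.KC1

/-! Staircase lemma: surjectivity. -/

open Finset

namespace Pool.Agent.X89.KC

lemma exists_piece (D : ℕ → ℕ) (p : ℕ) {x : ℕ} (hx : x < tau D p + p) :
    ∃ b < p, tau D b + b ≤ x ∧ x < tau D (b + 1) + (b + 1) := by
  classical
  have h : ∃ n, x < tau D n + n := ⟨p, hx⟩
  obtain ⟨n, hn, hmin⟩ : ∃ n, x < tau D n + n ∧ ∀ m < n, ¬ x < tau D m + m :=
    ⟨Nat.find h, Nat.find_spec h, fun m hm => Nat.find_min h hm⟩
  have hnp : n ≤ p := by
    by_contra hc
    exact hmin p (by omega) hx
  rcases n with _ | n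
  · simp [tau_zero] at hn
  · exact ⟨n, by omega, by have := hmin n (by omega); omega, hn⟩

lemma eb_mem_low {D : ℕ → ℕ} {p : ℕ} (hmono : ∀ i j, i ≤ j → j < p → D i ≤ D j)
    (hc : ∀ d, 1 ≤ d → d * #((range p).filter (fun i => D i = d)) ≤
      #((range p).filter (fun i => D i < d)))
    (W : Submodule ℂ ((Σ q : Fin p, Fin (D q)) → ℂ))
    (hW : ∀ b j, b < p → j < D b + 1 → im p D b j ∈ W) :
    ∀ x q i b, q < p → b < p → i < D q → x = tau D q + i → tau D b + b ≤ x →
      x < tau D (b + 1) + (b + 1) →
      ¬ (tau D q ≤ tau D b + b ∧ tau D (q + 1) < tau D (b + 1) + (b + 1)) →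
      eb p D q i ∈ W := by
  intro x
  induction x using Nat.strong_induction_on with
  | _ x ih =>
    intro q i b hq hb hi hx h1 h2 h3
    have hb1 := tau_succ D b
    have hq1 := tau_succ D q
    rcases Nat.lt_or_ge (tau D b + b) (tau D q) with h | h
    · -- the piece starts before the target
      have hq0 : 0 < q := by
        rcases Nat.eq_zero_or_pos q with h0 | h0
        · subst h0; simp [tau_zero] at h
        · exact h0
      obtain ⟨r, rfl⟩ : ∃ r, q = r + 1 := ⟨q - 1, by omega⟩
      have hr1 := tau_succ D r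
      have hbr : D b < D r := cover hmono hc (q := r) (by omega) hb h
      have hrb : tau D r ≤ tau D b + b := by
        by_contra hcon
        push Not at hcon
        omega
      have him := im_cross hmono hc (q := r) (b := b) (j := i) (by omega) hb (by omega) hrb h
        (by omega)
      have hlow : eb p D r (D r - (D b + 1) + i) ∈ W := by
        obtain ⟨b', hb', h1', h2'⟩ := exists_piece D p (x := tau D r + (D r - (D b + 1) + i))
          (by have := tau_mono D (show r + 1 ≤ p by omega); omega)
        refine ih (tau D r + (D r - (D b + 1) + i)) (by omega) r _ b' (by omega) hb' (by omega)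
          rfl h1' h2' ?_
        rintro ⟨-, a2⟩
        -- `b' < b`
        have hlt : b' < b := by
          by_contra hcon
          push Not at hcon
          have := tau_mono D hcon
          omega
        have := tau_mono D (show b' + 1 ≤ b by omega)
        omega
      have := W.sub_mem (hW b i hb (by omega)) hlow
      rw [him] at this
      simpa using this
    · -- the piece starts inside the target
      have h4 : tau D (b + 1) + (b + 1) ≤ tau D (q + 1) := by
        by_contra hcon
        push Not at hcon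
        exact h3 ⟨h, hcon⟩
      have him := im_inside hmono hc (q := q) (b := b) (j := x - (tau D b + b)) hq hb h h4
      have := hW b (x - (tau D b + b)) hb (by omega)
      rw [him] at this
      have e : tau D b + b - tau D q + (x - (tau D b + b)) = i := by omega
      rwa [e] at this

lemma eb_mem {D : ℕ → ℕ} {p : ℕ} (hmono : ∀ i j, i ≤ j → j < p → D i ≤ D j)
    (hc : ∀ d, 1 ≤ d → d * #((range p).filter (fun i => D i = d)) ≤
      #((range p).filter (fun i => D i < d)))
    (W : Submodule ℂ ((Σ q : Fin p, Fin (D q)) → ℂ))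
    (hW : ∀ b j, b < p → j < D b + 1 → im p D b j ∈ W) :
    ∀ k q i, q < p → i < D q → tau D p = tau D q + i + k → eb p D q i ∈ W := by
  intro k
  induction k using Nat.strong_induction_on with
  | _ k ih =>
    intro q i hq hi hk
    have hq1 := tau_succ D q
    obtain ⟨b, hb, h1, h2⟩ := exists_piece D p (x := tau D q + i) (by omega)
    by_cases h3 : tau D q ≤ tau D b + b ∧ tau D (q + 1) < tau D (b + 1) + (b + 1)
    · obtain ⟨h3, h4⟩ := h3
      have hb1 := tau_succ D b
      have hbq : D b < D q := cover hmono hc hq hb (by omega)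
      obtain ⟨j, hj⟩ : ∃ j, i = D q - (D b + 1) + j := ⟨i - (D q - (D b + 1)), by omega⟩
      have him := im_cross hmono hc (q := q) (b := b) (j := j) hq hb (by omega) h3 (by omega) h4
      have hhigh : eb p D (q + 1) j ∈ W := by
        rcases Nat.lt_or_ge (q + 1) p with hp | hp
        · have hm := hmono q (q + 1) (by omega) hp
          have hq2 := tau_succ D (q + 1)
          have htop := tau_mono D (show q + 1 + 1 ≤ p by omega)
          exact ih (tau D p - (tau D (q + 1) + j)) (by omega) (q + 1) j hp (by omega) (by omega)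
        · have : eb p D (q + 1) j = 0 := by
            funext ⟨⟨q', hq'⟩, y⟩
            simp only [eb, Pi.zero_apply]
            rw [if_neg]
            omega
          rw [this]
          exact W.zero_mem
      have := W.sub_mem (hW b j hb (by omega)) hhigh
      rw [him, ← hj] at this
      simpa using this
    · exact eb_mem_low hmono hc W hW _ q i b hq hb hi rfl h1 h2 h3

/-- sorted version of the staircase lemma -/
theorem staircase_sorted {p : ℕ} (δ : Fin p → ℕ) (hmono : Monotone δ)
    (hc : ∀ d, 1 ≤ d → d * #{b | δ b = d} ≤ #{b | δ b < d}) :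
    ∃ γ : Fin p → Fin p → ℤ → ℂ,
      (∀ q b t, γ q b t ≠ 0 → 0 ≤ t ∧ t + δ b + 1 ≤ δ q) ∧
      ∀ v : (Σ q : Fin p, Fin (δ q)) → ℂ, ∃ u : (Σ b : Fin p, Fin (δ b + 1)) → ℂ,
        ∀ x, v x = ∑ y, γ x.1 y.1 ((x.2 : ℕ) - ((y.2 : ℕ) : ℤ)) * u y := by
  classical
  obtain ⟨D, hD⟩ : ∃ D : ℕ → ℕ, ∀ b : Fin p, D b = δ b :=
    ⟨fun n => if h : n < p then δ ⟨n, h⟩ else 0, fun b => by simp⟩
  obtain rfl : δ = fun b : Fin p => D b := by funext b; rw [hD]
  have hm : ∀ i j, i ≤ j → j < p → D i ≤ D j := fun i j hij hj =>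
    hmono (show (⟨i, by omega⟩ : Fin p) ≤ ⟨j, hj⟩ from hij)
  have hc' : ∀ d, 1 ≤ d → d * #((range p).filter (fun i => D i = d)) ≤
      #((range p).filter (fun i => D i < d)) := by
    intro d hd
    have := hc d hd
    simp only [card_filter] at this ⊢
    rw [sum_range, sum_range]
    exact this
  refine ⟨fun q b t => gam D q b t, fun q b t ht => gam_supp hm hc' q.2 b.2 ht, ?_⟩
  -- the range of the map
  let G : ((Σ b : Fin p, Fin (D b + 1)) → ℂ) →ₗ[ℂ] ((Σ q : Fin p, Fin (D q)) → ℂ) :=
    { toFun := fun u x => ∑ y, gam D x.1 y.1 ((x.2 : ℕ) - ((y.2 : ℕ) : ℤ)) * u y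
      map_add' := by
        intro u v; funext x; simp [mul_add, sum_add_distrib]
      map_smul' := by
        intro c u; funext x; simp only [Pi.smul_apply, smul_eq_mul, RingHom.id_apply, mul_sum]
        exact sum_congr rfl fun _ _ => by ring }
  have hG : ∀ b j, b < p → j < D b + 1 → im p D b j ∈ LinearMap.range G := by
    intro b j hb hj
    refine ⟨Pi.single ⟨⟨b, hb⟩, ⟨j, hj⟩⟩ 1, ?_⟩
    funext x
    change ∑ y, _ * _ = _
    rw [sum_eq_single ⟨⟨b, hb⟩, ⟨j, hj⟩⟩]
    · simp [im]
    · intro y _ hy
      rw [Pi.single_eq_of_ne hy, mul_zero]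
    · intro h; exact absurd (mem_univ _) h
  have htop : LinearMap.range G = ⊤ := by
    rw [eq_top_iff]
    intro v _
    have hv : v = ∑ x, v x • eb p D x.1 x.2 := by
      funext y
      rw [Finset.sum_apply, sum_eq_single y]
      · simp [eb]
      · intro x _ hx
        have : ¬ (y.1.val = x.1.val ∧ y.2.val = x.2.val) := by
          rintro ⟨a1, a2⟩
          apply hx
          obtain ⟨x1, x2⟩ := x
          obtain ⟨y1, y2⟩ := y
          obtain rfl : x1 = y1 := Fin.ext a1.symm
          congr 1
          exact Fin.ext a2.symm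
        simp [eb, this]
      · intro h; exact absurd (mem_univ _) h
    rw [hv]
    refine Submodule.sum_mem _ fun x _ => Submodule.smul_mem _ _ ?_
    have hlt : tau D x.1 + (x.2 : ℕ) ≤ tau D p := by
      have h1 := tau_succ D x.1
      have h2 := tau_mono D (show (x.1 : ℕ) + 1 ≤ p from x.1.2)
      have h3 := x.2.2
      omega
    exact eb_mem hm hc' _ hG (tau D p - (tau D x.1 + (x.2 : ℕ))) x.1 x.2 x.1.2 x.2.2 (by omega)
  intro v
  have : v ∈ LinearMap.range G := by rw [htop]; trivial
  obtain ⟨u, hu⟩ := this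
  exact ⟨u, fun x => by rw [← hu]; rfl⟩

end Pool.Agent.X89.KC
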