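import Pool.Agent.X89.KC2

/-! Staircase lemma for unsorted sizes; points in general position. -/

open Finset

namespace Pool.Agent.X89.KC

/-- staircase lemma, arbitrary order of the blocks -/
theorem staircase {p : ℕ} (δ : Fin p → ℕ)
    (hc : ∀ d, 1 ≤ d → d * #{b | δ b = d} ≤ #{b | δ b < d}) :
    ∃ γ : Fin p → Fin p → ℤ → ℂ,
      (∀ q b t, γ q b t ≠ 0 → 0 ≤ t ∧ t + δ b + 1 ≤ δ q) ∧
      ∀ v : (Σ q : Fin p, Fin (δ q)) → ℂ, ∃ u : (Σ b : Fin p, Fin (δ b + 1)) → ℂ,
        ∀ x, v x = ∑ y, γ x.1 y.1 ((x.2 : ℕ) - ((y.2 : ℕ) : ℤ)) * u y := by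
  classical
  obtain ⟨π, hπ⟩ : ∃ π : Equiv.Perm (Fin p), Monotone (δ ∘ π) := ⟨Tuple.sort δ, Tuple.monotone_sort δ⟩
  obtain ⟨g, hg, hs⟩ := staircase_sorted (δ ∘ π) hπ (by
    intro d hd
    have e1 : #{b | (δ ∘ π) b = d} = #{b | δ b = d} := by
      refine card_bij (fun b _ => π b) ?_ ?_ ?_
      · intro b hb; simpa using hb
      · intro a _ b _ h; exact π.injective h
      · intro b hb; exact ⟨π.symm b, by simpa using hb, by simp⟩
    have e2 : #{b | (δ ∘ π) b < d} = #{b | δ b < d} := by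
      refine card_bij (fun b _ => π b) ?_ ?_ ?_
      · intro b hb; simpa using hb
      · intro a _ b _ h; exact π.injective h
      · intro b hb; exact ⟨π.symm b, by simpa using hb, by simp⟩
    rw [e1, e2]
    exact hc d hd)
  refine ⟨fun q b => g (π.symm q) (π.symm b), ?_, ?_⟩
  · intro q b t h
    have := hg _ _ t h
    simpa using this
  · intro v
    obtain ⟨u, hu⟩ := hs (fun x => v ⟨π x.1, x.2⟩)
    let e : (Σ b : Fin p, Fin ((δ ∘ π) b + 1)) ≃ (Σ b : Fin p, Fin (δ b + 1)) :=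
      Equiv.sigmaCongrLeft (β := fun b => Fin (δ b + 1)) π
    refine ⟨fun y => u (e.symm y), ?_⟩
    rintro ⟨q, i⟩
    obtain ⟨q, rfl⟩ := π.surjective q
    have h1 := hu ⟨q, i⟩
    simp only at h1
    rw [h1, ← e.sum_comp]
    refine sum_congr rfl fun y _ => ?_
    have e1 : (e y).1 = π y.1 := rfl
    have e2 : ((e y).2 : ℕ) = y.2 := rfl
    change _ = g (π.symm (π q)) (π.symm (e y).1) ((i : ℕ) - (((e y).2 : ℕ) : ℤ)) * u (e.symm (e y))
    rw [Equiv.symm_apply_apply, e2, e1, Equiv.symm_apply_apply, Equiv.symm_apply_apply]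

/-- evaluation of component `b` at `z` -/
noncomputable def ev {p : ℕ} (δ : Fin p → ℕ) (z : ℂ) (b : Fin p) :
    ((Σ b : Fin p, Fin (δ b + 1)) → ℂ) →ₗ[ℂ] ℂ where
  toFun u := ∑ i : Fin (δ b + 1), u ⟨b, i⟩ * z ^ (i : ℕ)
  map_add' u v := by simp [add_mul, sum_add_distrib]
  map_smul' c u := by
    simp only [Pi.smul_apply, smul_eq_mul, RingHom.id_apply, mul_sum]
    exact sum_congr rfl fun _ _ => by ring

/-- a nonzero vector has a component that does not vanish outside a finite set -/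
lemma exists_ev {p : ℕ} {δ : Fin p → ℕ} {u : (Σ b : Fin p, Fin (δ b + 1)) → ℂ} (hu : u ≠ 0) :
    ∃ b, ∃ S : Finset ℂ, ∀ z, z ∉ S → ev δ z b u ≠ 0 := by
  classical
  obtain ⟨⟨b, i⟩, hbi⟩ : ∃ x, u x ≠ 0 := by
    by_contra h
    push Not at h
    exact hu (funext h)
  obtain ⟨P, hP⟩ : ∃ P : Polynomial ℂ, P = ∑ i : Fin (δ b + 1), Polynomial.monomial (i : ℕ) (u ⟨b, i⟩) :=
    ⟨_, rfl⟩
  have hP0 : P ≠ 0 := by
    intro h
    have : P.coeff (i : ℕ) = u ⟨b, i⟩ := by
      rw [hP, Polynomial.finsetSum_coeff, sum_eq_single i]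
      · simp
      · intro j _ hj
        rw [Polynomial.coeff_monomial, if_neg]
        exact fun h => hj (Fin.ext h)
      · intro h; exact absurd (mem_univ _) h
    rw [h] at this
    exact hbi (by simpa using this.symm)
  refine ⟨b, P.roots.toFinset, fun z hz h => hz ?_⟩
  rw [Multiset.mem_toFinset, Polynomial.mem_roots hP0, Polynomial.IsRoot, hP,
    Polynomial.eval_finsetSum]
  rw [← h]
  exact sum_congr rfl fun j _ => by rw [Polynomial.eval_monomial]

/-- simultaneous points in general position for two spaces -/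
lemma general_position {p : ℕ} (hp : 0 < p) (δ ε : Fin p → ℕ) : ∀ n : ℕ,
    ∀ (K : Submodule ℂ ((Σ b : Fin p, Fin (δ b + 1)) → ℂ))
      (K' : Submodule ℂ ((Σ b : Fin p, Fin (ε b + 1)) → ℂ)),
    Module.finrank ℂ K ≤ n → Module.finrank ℂ K' ≤ n →
    ∃ (z : Fin n → ℂ) (b c : Fin n → Fin p),
      (∀ u ∈ K, (∀ k, ev δ (z k) (b k) u = 0) → u = 0) ∧
      (∀ u ∈ K', (∀ k, ev ε (z k) (c k) u = 0) → u = 0) := by
  intro n
  induction n with
  | zero =>
    intro K K' h h'
    refine ⟨Fin.elim0, Fin.elim0, Fin.elim0, fun u hu _ => ?_, fun u hu _ => ?_⟩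
    · have := Submodule.finrank_eq_zero.1 (Nat.le_zero.1 h)
      rw [this] at hu
      simpa using hu
    · have := Submodule.finrank_eq_zero.1 (Nat.le_zero.1 h')
      rw [this] at hu
      simpa using hu
  | succ n ih =>
    intro K K' h h'
    -- choose components
    have step : ∀ (η : Fin p → ℕ) (L : Submodule ℂ ((Σ b : Fin p, Fin (η b + 1)) → ℂ)),
        ∃ b, ∃ S : Finset ℂ, ∀ z, z ∉ S → Module.finrank ℂ L ≤ n + 1 →
          Module.finrank ℂ (L ⊓ LinearMap.ker (ev η z b) : Submodule ℂ _) ≤ n := by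
      intro η L
      by_cases hL : L = ⊥
      · refine ⟨⟨0, hp⟩, ∅, fun z _ _ => ?_⟩
        rw [hL, bot_inf_eq, finrank_bot]
        exact Nat.zero_le _
      · obtain ⟨u, huL, hu0⟩ := Submodule.exists_mem_ne_zero_of_ne_bot hL
        obtain ⟨b, S, hS⟩ := exists_ev hu0
        refine ⟨b, S, fun z hz hfin => ?_⟩
        have hlt : Module.finrank ℂ (L ⊓ LinearMap.ker (ev η z b) : Submodule ℂ _) <
            Module.finrank ℂ L := by
          refine Submodule.finrank_lt_finrank_of_lt (lt_of_le_of_ne inf_le_left ?_)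
          intro he
          have : u ∈ L ⊓ LinearMap.ker (ev η z b) := by rw [he]; exact huL
          exact hS z hz (by simpa using this.2)
        omega
    obtain ⟨b, S, hS⟩ := step δ K
    obtain ⟨c, S', hS'⟩ := step ε K'
    obtain ⟨z, hz⟩ : ∃ z, z ∉ S ∪ S' := Infinite.exists_notMem_finset _
    rw [mem_union, not_or] at hz
    obtain ⟨zs, bs, cs, h1, h2⟩ := ih _ _ (hS z hz.1 h) (hS' z hz.2 h')
    refine ⟨Fin.cons z zs, Fin.cons b bs, Fin.cons c cs, fun u hu hk => ?_, fun u hu hk => ?_⟩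
    · refine h1 u ⟨hu, ?_⟩ fun k => ?_
      · have := hk 0
        simpa using this
      · have := hk k.succ
        simpa using this
    · refine h2 u ⟨hu, ?_⟩ fun k => ?_
      · have := hk 0
        simpa using this
      · have := hk k.succ
        simpa using this

/-- a Hankel pairing that is nondegenerate on two given subspaces -/
theorem hankel {p : ℕ} (δ ε : Fin p → ℕ)
    (K : Submodule ℂ ((Σ b : Fin p, Fin (δ b + 1)) → ℂ))
    (K' : Submodule ℂ ((Σ b : Fin p, Fin (ε b + 1)) → ℂ))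
    (hK : Module.finrank ℂ K = p) (hK' : Module.finrank ℂ K' = p) :
    ∃ h : Fin p → Fin p → ℕ → ℂ, ∀ u ∈ K,
      (∀ w ∈ K', ∑ x, w x * ∑ y, h x.1 y.1 ((x.2 : ℕ) + (y.2 : ℕ)) * u y = 0) → u = 0 := by
  classical
  rcases Nat.eq_zero_or_pos p with hp | hp
  · subst hp
    refine ⟨fun _ _ _ => 0, fun u _ _ => ?_⟩
    funext x
    exact x.1.elim0
  obtain ⟨z, b, c, h1, h2⟩ := general_position hp δ ε p K K' hK.le hK'.le
  refine ⟨fun c' b' n => ∑ k, if c k = c' ∧ b k = b' then z k ^ n else 0, fun u hu hw => ?_⟩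
  -- the evaluation map on `K'` is onto
  let B : K' →ₗ[ℂ] (Fin p → ℂ) := LinearMap.pi fun k => (ev ε (z k) (c k)).comp K'.subtype
  have hBinj : Function.Injective B := by
    rw [← LinearMap.ker_eq_bot, LinearMap.ker_eq_bot']
    intro w hw
    have := h2 w.1 w.2 (fun k => congrFun hw k)
    exact Subtype.ext this
  have hBsurj : Function.Surjective B := by
    refine (LinearMap.injective_iff_surjective_of_finrank_eq_finrank ?_).1 hBinj
    rw [hK']; simp
  refine h1 u hu fun k => ?_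
  obtain ⟨w, hwk⟩ := hBsurj (Pi.single k 1)
  have key : ∑ x, w.1 x * ∑ y, (∑ k, if c k = x.1 ∧ b k = y.1 then z k ^ ((x.2 : ℕ) + (y.2 : ℕ))
      else 0) * u y = ∑ k, ev ε (z k) (c k) w.1 * ev δ (z k) (b k) u := by
    have e1 : ∀ k, ev ε (z k) (c k) w.1 =
        ∑ x : (Σ b : Fin p, Fin (ε b + 1)), if c k = x.1 then w.1 x * z k ^ (x.2 : ℕ) else 0 := by
      intro k
      rw [Fintype.sum_sigma, sum_eq_single (c k)]
      · simp [ev]
      · intro b' _ hb'
        exact sum_eq_zero fun i _ => by rw [if_neg (Ne.symm hb')]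
      · intro h; exact absurd (mem_univ _) h
    have e2 : ∀ k, ev δ (z k) (b k) u =
        ∑ y : (Σ b : Fin p, Fin (δ b + 1)), if b k = y.1 then u y * z k ^ (y.2 : ℕ) else 0 := by
      intro k
      rw [Fintype.sum_sigma, sum_eq_single (b k)]
      · simp [ev]
      · intro b' _ hb'
        exact sum_eq_zero fun i _ => by rw [if_neg (Ne.symm hb')]
      · intro h; exact absurd (mem_univ _) h
    calc _ = ∑ x, ∑ y, ∑ k, (if c k = x.1 then w.1 x * z k ^ (x.2 : ℕ) else 0) *
          (if b k = y.1 then u y * z k ^ (y.2 : ℕ) else 0) := by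
          refine sum_congr rfl fun x _ => ?_
          rw [mul_sum]
          refine sum_congr rfl fun y _ => ?_
          rw [sum_mul, mul_sum]
          refine sum_congr rfl fun k _ => ?_
          by_cases a1 : c k = x.1 <;> by_cases a2 : b k = y.1
          · simp only [a1, a2, and_self, if_true]; ring
          · simp [a1, a2]
          · simp [a1, a2]
          · simp [a1, a2]
      _ = ∑ k, ∑ x, ∑ y, (if c k = x.1 then w.1 x * z k ^ (x.2 : ℕ) else 0) *
          (if b k = y.1 then u y * z k ^ (y.2 : ℕ) else 0) := by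
          rw [sum_congr rfl (fun x _ => sum_comm), sum_comm]
      _ = _ := by
          refine sum_congr rfl fun k _ => ?_
          rw [e1, e2, sum_mul_sum]
  have h3 := hw w.1 w.2
  rw [key] at h3
  rw [sum_eq_single k] at h3
  · have : ev ε (z k) (c k) w.1 = 1 := by
      have := congrFun hwk k
      simpa [B] using this
    rwa [this, one_mul] at h3
  · intro k' _ hk'
    have : ev ε (z k') (c k') w.1 = 0 := by
      have := congrFun hwk k'
      simpa [B, hk'] using this
    rw [this, zero_mul]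
  · intro h; exact absurd (mem_univ _) h

end Pool.Agent.X89.KC
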