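import Mathlib

set_option autoImplicit false

open Quaternion

namespace Pool.Agent.X89.QN

/-- involution -/
def IsInvolution (φ : ℍ[ℝ] →ₗ[ℝ] ℍ[ℝ]) : Prop :=
  (∀ x y, φ (x * y) = φ y * φ x) ∧ ∀ x, φ (φ x) = x

theorem normSq_of_sq {q : ℍ[ℝ]} (h : q * q = -1) : normSq q = 1 := by
  have h1 : normSq q * normSq q = 1 := by
    rw [← map_mul, h]; simp
  have h0 : (0:ℝ) ≤ normSq q := normSq_nonneg
  nlinarith

theorem star_of_sq {q : ℍ[ℝ]} (h : q * q = -1) : star q = -q := by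
  have h2 : normSq q = 1 := normSq_of_sq h
  have h3 : q * star q = 1 := by
    rw [self_mul_star, h2]; simp
  have hq : q ≠ 0 := by
    rintro rfl
    simp at h3
  have h4 : q * (star q + q) = 0 := by
    rw [mul_add, h3, h]; simp
  rcases mul_eq_zero.1 h4 with h5 | h5
  · exact absurd h5 hq
  · exact eq_neg_of_add_eq_zero_left h5

noncomputable def e1 : ℍ[ℝ] := ⟨0,1,0,0⟩
noncomputable def e2 : ℍ[ℝ] := ⟨0,0,1,0⟩
noncomputable def e3 : ℍ[ℝ] := ⟨0,0,0,1⟩

@[simp] theorem e1r : e1.re = 0 := rfl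
@[simp] theorem e1i : e1.imI = 1 := rfl
@[simp] theorem e1j : e1.imJ = 0 := rfl
@[simp] theorem e1k : e1.imK = 0 := rfl
@[simp] theorem e2r : e2.re = 0 := rfl
@[simp] theorem e2i : e2.imI = 0 := rfl
@[simp] theorem e2j : e2.imJ = 1 := rfl
@[simp] theorem e2k : e2.imK = 0 := rfl
@[simp] theorem e3r : e3.re = 0 := rfl
@[simp] theorem e3i : e3.imI = 0 := rfl
@[simp] theorem e3j : e3.imJ = 0 := rfl
@[simp] theorem e3k : e3.imK = 1 := rfl

theorem e11 : e1 * e1 = -1 := by ext <;> simp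
theorem e22 : e2 * e2 = -1 := by ext <;> simp
theorem e12 : e1 * e2 = e3 := by ext <;> simp
theorem e21 : e2 * e1 = -e3 := by ext <;> simp
theorem e31 : e3 * e1 = e2 := by ext <;> simp
theorem e32 : e3 * e2 = -e1 := by ext <;> simp
theorem decomp (x : ℍ[ℝ]) : x = x.re • 1 + x.imI • e1 + x.imJ • e2 + x.imK • e3 := by
  ext <;> simp

/-- intertwiner -/
noncomputable def gg (I' J' y : ℍ[ℝ]) : ℍ[ℝ] :=
  y - I' * y * e1 - J' * y * e2 - (I' * J') * y * e3

theorem gg_ne (I' J' : ℍ[ℝ]) : ∃ y, gg I' J' y ≠ 0 := by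
  by_contra hcon
  push Not at hcon
  have h1 := congrArg QuaternionAlgebra.re (hcon 1)
  have h2 := congrArg QuaternionAlgebra.imI (hcon e1)
  have h3 := congrArg QuaternionAlgebra.imJ (hcon e2)
  have h4 := congrArg QuaternionAlgebra.imK (hcon e3)
  simp [gg] at h1 h2 h3 h4
  linarith

theorem gg_comm1 {I' J' : ℍ[ℝ]} (hI : I' * I' = -1) (y : ℍ[ℝ]) :
    I' * gg I' J' y = gg I' J' y * e1 := by
  have h1 : I' * (I' * y * e1) = - (y * e1) := by
    rw [← mul_assoc, ← mul_assoc, hI]; simp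
  have h2 : I' * (I' * J' * y * e3) = - (J' * y * e3) := by
    rw [← mul_assoc, ← mul_assoc, ← mul_assoc, hI]; simp
  have h3 : I' * y * e1 * e1 = - (I' * y) := by rw [mul_assoc, e11]; simp
  have h4 : J' * y * e2 * e1 = - (J' * y * e3) := by rw [mul_assoc, e21]; simp
  have h5 : I' * J' * y * e3 * e1 = I' * J' * y * e2 := by rw [mul_assoc, e31]
  unfold gg
  rw [mul_sub, mul_sub, mul_sub, h1, h2, sub_mul, sub_mul, sub_mul, h3, h4, h5]
  simp only [mul_assoc]
  abel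

theorem gg_comm2 {I' J' : ℍ[ℝ]} (hJ : J' * J' = -1) (hJI : J' * I' = -(I' * J')) (y : ℍ[ℝ]) :
    J' * gg I' J' y = gg I' J' y * e2 := by
  have h1 : J' * (J' * y * e2) = - (y * e2) := by
    rw [← mul_assoc, ← mul_assoc, hJ]; simp
  have h0 : J' * (I' * J') = I' := by
    rw [← mul_assoc, hJI, neg_mul, mul_assoc, hJ]; simp
  have h2 : J' * (I' * J' * y * e3) = I' * y * e3 := by
    rw [← mul_assoc, ← mul_assoc, h0]
  have h2' : J' * (I' * y * e1) = - (I' * J' * y * e1) := by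
    rw [← mul_assoc, ← mul_assoc, hJI]; simp
  have h3 : J' * y * e2 * e2 = - (J' * y) := by rw [mul_assoc, e22]; simp
  have h4 : I' * y * e1 * e2 = (I' * y * e3) := by rw [mul_assoc, e12]
  have h5 : I' * J' * y * e3 * e2 = - (I' * J' * y * e1) := by rw [mul_assoc, e32]; simp
  unfold gg
  rw [mul_sub, mul_sub, mul_sub, h1, h2, h2', sub_mul, sub_mul, sub_mul, h3, h4, h5]
  abel

/-- every involution is `x ↦ g x* g⁻¹` -/
theorem exists_g {φ : ℍ[ℝ] →ₗ[ℝ] ℍ[ℝ]} (h : IsInvolution φ) :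
    ∃ g : ℍ[ℝ], g ≠ 0 ∧ ∀ x, φ x * g = g * star x := by
  obtain ⟨hm, hi⟩ := h
  have h1 : φ 1 = 1 := by
    have h2 := hm (φ 1) 1
    rw [mul_one, hi, mul_one] at h2
    exact h2.symm
  set I' : ℍ[ℝ] := - φ e1 with hI'
  set J' : ℍ[ℝ] := - φ e2 with hJ'
  have hI : I' * I' = -1 := by
    rw [hI', neg_mul_neg, ← hm, e11, map_neg, h1]
  have hJ : J' * J' = -1 := by
    rw [hJ', neg_mul_neg, ← hm, e22, map_neg, h1]
  have hIJ : I' * J' = - φ e3 := by
    rw [hI', hJ', neg_mul_neg, ← hm, e21, map_neg]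
  have hJI : J' * I' = - (I' * J') := by
    rw [hIJ, hI', hJ', neg_mul_neg, ← hm, e12, neg_neg]
  obtain ⟨y, hy⟩ := gg_ne I' J'
  refine ⟨gg I' J' y, hy, ?_⟩
  have c1 := gg_comm1 (J' := J') hI y
  have c2 := gg_comm2 hJ hJI y
  set g := gg I' J' y
  have c3 : φ e3 * g = - (g * e3) := by
    have : I' * J' * g = g * e3 := by
      rw [mul_assoc, c2, ← mul_assoc, c1, mul_assoc, e12]
    rw [hIJ] at this
    rw [← this]; simp
  have c1' : φ e1 * g = - (g * e1) := by
    rw [← c1, hI']; simp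
  have c2' : φ e2 * g = - (g * e2) := by
    rw [← c2, hJ']; simp
  intro x
  have hx : φ x = x.re • 1 + x.imI • φ e1 + x.imJ • φ e2 + x.imK • φ e3 := by
    conv_lhs => rw [decomp x]
    simp [h1]
  have hs : star x = x.re • 1 - x.imI • e1 - x.imJ • e2 - x.imK • e3 := by
    ext <;> simp
  rw [hx, hs]
  simp only [add_mul, mul_sub, smul_mul_assoc, mul_smul_comm, c1', c2', c3, one_mul, mul_one, smul_neg]
  abel


theorem exists_q {φ : ℍ[ℝ] →ₗ[ℝ] ℍ[ℝ]} (h : IsInvolution φ) (hns : ∃ x, φ x ≠ star x) :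
    ∃ q : ℍ[ℝ], q * q = -1 ∧ φ q = -q ∧ ∀ x, φ x = -(q * star x * q) := by
  obtain ⟨g, hg, hgx⟩ := exists_g h
  have hre : g.re = 0 := by
    by_contra hne
    obtain ⟨x, hx⟩ := hns
    apply hx
    have h1 : g * star (φ x) = x * g := by
      rw [← hgx (φ x), h.2]
    have h2 : star g * star (φ x) = x * star g := by
      have := congrArg star (hgx x)
      simpa using this
    have h3 : (g + star g) * star (φ x) = x * (g + star g) := by
      rw [add_mul, mul_add, h1, h2]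
    have h4 : g + star g = ((2 * g.re : ℝ) : ℍ[ℝ]) := by
      ext <;> simp <;> ring
    rw [h4, ← coe_commutes] at h3
    have h5 : ((2 * g.re : ℝ) : ℍ[ℝ]) ≠ 0 := by
      intro h6
      have := congrArg QuaternionAlgebra.re h6
      simp at this
      exact hne this
    have h6 : star (φ x) = x := mul_left_cancel₀ h5 h3
    calc φ x = star (star (φ x)) := (star_star _).symm
      _ = star x := by rw [h6]
  have hst : star g = -g := by
    ext <;> simp [hre]
  have hn : 0 < ‖g‖ := norm_pos_iff.2 hg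
  have hgg : g * g = ((-(‖g‖ * ‖g‖) : ℝ) : ℍ[ℝ]) := by
    have h1 : g * star g = ((‖g‖ * ‖g‖ : ℝ) : ℍ[ℝ]) := by
      rw [self_mul_star, normSq_eq_norm_mul_self]
    rw [hst, mul_neg] at h1
    have h2 := congrArg Neg.neg h1
    rw [neg_neg] at h2
    rw [h2]; simp
  have hqq : (‖g‖⁻¹ • g) * (‖g‖⁻¹ • g) = (-1 : ℍ[ℝ]) := by
    rw [smul_mul_smul_comm, hgg]
    ext <;> simp
    field_simp
  have hcm : ∀ x, φ x * (‖g‖⁻¹ • g) = (‖g‖⁻¹ • g) * star x := by
    intro x
    rw [mul_smul_comm, hgx, smul_mul_assoc]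
  refine ⟨‖g‖⁻¹ • g, hqq, ?_, ?_⟩
  · set q := ‖g‖⁻¹ • g
    have h1 : φ q * q = (-q) * q := by
      rw [hcm, star_of_sq hqq]; simp
    have hq0 : q ≠ 0 := by
      intro h0; rw [h0] at hqq; simp at hqq
    exact mul_right_cancel₀ hq0 h1
  · intro x
    set q := ‖g‖⁻¹ • g
    have hq0 : q ≠ 0 := by
      intro h0; rw [h0] at hqq; simp at hqq
    apply mul_right_cancel₀ hq0
    rw [hcm, neg_mul, mul_assoc, hqq]; simp

theorem formula {φ : ℍ[ℝ] →ₗ[ℝ] ℍ[ℝ]} (h : IsInvolution φ) (hns : ∃ x, φ x ≠ star x)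
    {q : ℍ[ℝ]} (hq : q * q = -1) (hφq : φ q = -q) : ∀ x, φ x = -(q * star x * q) := by
  obtain ⟨p, hp, -, hf⟩ := exists_q h hns
  have hp0 : p ≠ 0 := by
    intro h0; rw [h0] at hp; simp at hp
  have h1 : p * q * p = -q := by
    have := hf q
    rw [hφq, star_of_sq hq] at this
    rw [this]; simp
  have h2 : p * q = q * p := by
    have h3 : p * (p * q * p) = p * (-q) := by rw [h1]
    rw [← mul_assoc, ← mul_assoc, hp] at h3
    simp at h3
    exact h3.symm
  have h3 : (q * p - 1) * (q * p + 1) = 0 := by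
    have : (q * p) * (q * p) = 1 := by
      calc (q * p) * (q * p) = q * (p * q) * p := by simp only [mul_assoc]
        _ = (q * q) * (p * p) := by rw [h2]; simp only [mul_assoc]
        _ = 1 := by rw [hq, hp]; simp
    rw [sub_mul, mul_add, this, mul_one, one_mul]; abel
  intro x
  rcases mul_eq_zero.1 h3 with h4 | h4
  · have h5 : q = -p := by
      apply mul_right_cancel₀ hp0
      rw [neg_mul, hp, sub_eq_zero.1 h4]; simp
    rw [hf, h5]; simp
  · have h5 : q = p := by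
      apply mul_right_cancel₀ hp0
      rw [hp]; exact eq_neg_of_add_eq_zero_left h4
    rw [hf, h5]

theorem exists_w {q : ℍ[ℝ]} (hq : q * q = -1) : ∃ w : ℍ[ℝ], w * w = -1 ∧ w * q = -(q * w) := by
  have hsq := star_of_sq hq
  have hq0 : q ≠ 0 := by
    intro h0; rw [h0] at hq; simp at hq
  -- some unit does not commute
  have hex : ∃ x : ℍ[ℝ], star x = -x ∧ x + q * x * q ≠ 0 := by
    by_contra hcon
    push Not at hcon
    have key : ∀ x : ℍ[ℝ], star x = -x → q * x = x * q := by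
      intro x hx
      have h1 := hcon x hx
      have h2 : x * q + q * x * q * q = 0 := by
        rw [← add_mul, h1, zero_mul]
      rw [mul_assoc (q * x), hq] at h2
      have h3 : x * q = q * x := by
        have : x * q - q * x = 0 := by rw [← h2]; simp [sub_eq_add_neg]
        exact sub_eq_zero.1 this
      exact h3.symm
    have k1 := key e1 (by ext <;> simp)
    have k2 := key e2 (by ext <;> simp)
    have a1 := congrArg QuaternionAlgebra.imJ k1
    have a2 := congrArg QuaternionAlgebra.imK k1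
    have a3 := congrArg QuaternionAlgebra.imK k2
    simp at a1 a2 a3
    have a4 := congrArg QuaternionAlgebra.re hsq
    simp at a4
    have hz : q = 0 := by
      ext
      · simp; linarith
      · simp; linarith
      · simp; linarith
      · simp; linarith
    exact hq0 hz
  obtain ⟨x, hx, hv⟩ := hex
  set v := x + q * x * q with hvdef
  have hsv : star v = -v := by
    rw [hvdef, star_add, star_mul, star_mul, hsq, hx]
    simp [mul_assoc]
    abel
  have hvq : v * q = -(q * v) := by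
    rw [hvdef, add_mul, mul_add, mul_assoc (q * x), hq, ← mul_assoc, ← mul_assoc, hq]
    simp
  have hn : 0 < ‖v‖ := norm_pos_iff.2 hv
  have hvv : v * v = ((-(‖v‖ * ‖v‖) : ℝ) : ℍ[ℝ]) := by
    have h1 : v * star v = ((‖v‖ * ‖v‖ : ℝ) : ℍ[ℝ]) := by
      rw [self_mul_star, normSq_eq_norm_mul_self]
    rw [hsv, mul_neg] at h1
    have h2 := congrArg Neg.neg h1
    rw [neg_neg] at h2
    rw [h2]; simp
  refine ⟨‖v‖⁻¹ • v, ?_, ?_⟩
  · rw [smul_mul_smul_comm, hvv]
    ext <;> simp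
    field_simp
  · rw [smul_mul_assoc, hvq, mul_smul_comm, smul_neg]



theorem phi_w {φ : ℍ[ℝ] →ₗ[ℝ] ℍ[ℝ]} {q w : ℍ[ℝ]} (hf : ∀ x, φ x = -(q * star x * q))
    (hq : q * q = -1) (hw : w * w = -1) (hwq : w * q = -(q * w)) : φ w = w := by
  rw [hf, star_of_sq hw, mul_neg, neg_mul, neg_neg, mul_assoc, hwq, mul_neg, ← mul_assoc, hq]
  simp

theorem norm_phi {φ : ℍ[ℝ] →ₗ[ℝ] ℍ[ℝ]} {q : ℍ[ℝ]} (hf : ∀ x, φ x = -(q * star x * q))
    (hq : q * q = -1) (x : ℍ[ℝ]) : ‖φ x‖ = ‖x‖ := by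
  have h1 : ‖q‖ = 1 := by
    have := normSq_of_sq hq
    rw [normSq_eq_norm_mul_self] at this
    nlinarith [norm_nonneg q]
  rw [hf, norm_neg, norm_mul, norm_mul, norm_star, h1]; simp

theorem comm_q {q x : ℍ[ℝ]} (hq : q * q = -1) (hx : q * x = x * q) :
    ∃ a b : ℝ, x = (a : ℍ[ℝ]) + b * q := by
  have hsq := star_of_sq hq
  set y : ℍ[ℝ] := x - (x.re : ℍ[ℝ]) with hy
  have hys : star y = -y := by
    rw [hy]; ext <;> simp
  have hyq : q * y = y * q := by
    rw [hy, mul_sub, sub_mul, hx, coe_commutes]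
  have h1 : star (y * q) = y * q := by
    rw [star_mul, hys, hsq, neg_mul_neg, hyq]
  have h2 : y * q = (((y * q).re : ℝ) : ℍ[ℝ]) := by
    have k1 := congrArg QuaternionAlgebra.imI h1
    have k2 := congrArg QuaternionAlgebra.imJ h1
    have k3 := congrArg QuaternionAlgebra.imK h1
    rw [Quaternion.imI_star] at k1
    rw [Quaternion.imJ_star] at k2
    rw [Quaternion.imK_star] at k3
    apply Quaternion.ext
    · simp only [Quaternion.re_coe]
    · rw [Quaternion.imI_coe]; linarith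
    · rw [Quaternion.imJ_coe]; linarith
    · rw [Quaternion.imK_coe]; linarith
  refine ⟨x.re, -(y * q).re, ?_⟩
  have h3 : y = -(y * q * q) := by rw [mul_assoc, hq]; simp
  have h4 : x = (x.re : ℍ[ℝ]) + y := by rw [hy]; abel
  calc x = (x.re : ℍ[ℝ]) + y := h4
    _ = (x.re : ℍ[ℝ]) + -(y * q * q) := by rw [← h3]
    _ = (x.re : ℍ[ℝ]) + -((((y * q).re : ℝ) : ℍ[ℝ]) * q) := by rw [← h2]
    _ = _ := by push_cast; rw [neg_mul]

theorem real_of_comm {q w x : ℍ[ℝ]} (hq : q * q = -1) (hw : w * w = -1) (hwq : w * q = -(q * w))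
    (hx : q * x = x * q) (hx' : w * x = x * w) : ∃ a : ℝ, x = (a : ℍ[ℝ]) := by
  obtain ⟨a, b, rfl⟩ := comm_q hq hx
  have hqw : q * w ≠ 0 := by
    intro h0
    have : (q * q) * (w * w) = 0 := by
      rw [mul_assoc, ← mul_assoc q w w, h0]; simp
    rw [hq, hw] at this; simp at this
  have h1 : (b : ℍ[ℝ]) * (q * w) = 0 := by
    rw [mul_add, add_mul, ← coe_commutes, add_right_inj, ← mul_assoc, ← coe_commutes, mul_assoc, hwq,
      mul_assoc] at hx'
    have h2 : (2 : ℝ) • ((b : ℍ[ℝ]) * (q * w)) = 0 := by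
      rw [two_smul]
      nth_rewrite 1 [← hx']
      simp
    rcases smul_eq_zero.1 h2 with h3 | h3
    · norm_num at h3
    · exact h3
  rcases mul_eq_zero.1 h1 with h3 | h3
  · exact ⟨a, by rw [h3]; simp⟩
  · exact absurd h3 hqw

theorem poly_bdd {P0 P1 P2 : ℍ[ℝ]} {C : ℝ} (h : ∀ s : ℝ, ‖P0 + s • P1 + s ^ 2 • P2‖ ≤ C) :
    P1 = 0 ∧ P2 = 0 := by
  have h2 : P2 = 0 := by
    by_contra hne
    have hp : 0 < ‖P2‖ := norm_pos_iff.2 hne
    have key : ∀ s : ℝ, s ^ 2 * ‖P2‖ ≤ C + ‖P0‖ := by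
      intro s
      have a1 := h s
      have a2 := h (-s)
      have e : (2:ℝ) • (s ^ 2 • P2) = (P0 + s • P1 + s ^ 2 • P2) + (P0 + (-s) • P1 + (-s) ^ 2 • P2) - (2:ℝ) • P0 := by
        rw [neg_sq]; module
      have a3 := congrArg norm e
      rw [norm_smul, norm_smul] at a3
      have a4 := norm_sub_le ((P0 + s • P1 + s ^ 2 • P2) + (P0 + (-s) • P1 + (-s) ^ 2 • P2)) ((2:ℝ) • P0)
      have a5 := norm_add_le (P0 + s • P1 + s ^ 2 • P2) (P0 + (-s) • P1 + (-s) ^ 2 • P2)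
      rw [norm_smul (2:ℝ) P0] at a4
      simp only [Real.norm_eq_abs, abs_two, abs_pow, sq_abs] at a3 a4
      nlinarith
    have h0 : 0 ≤ C + ‖P0‖ := by have := key 0; simpa using this
    have := key (1 + (C + ‖P0‖) / ‖P2‖)
    have e2 : (1 + (C + ‖P0‖) / ‖P2‖) ^ 2 * ‖P2‖ = ‖P2‖ + 2 * (C + ‖P0‖) + (C + ‖P0‖) ^ 2 / ‖P2‖ := by
      field_simp
      ring
    rw [e2] at this
    have : 0 ≤ (C + ‖P0‖) ^ 2 / ‖P2‖ := by positivity
    linarith
  refine ⟨?_, h2⟩
  by_contra hne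
  have hp : 0 < ‖P1‖ := norm_pos_iff.2 hne
  subst h2
  have key : ∀ s : ℝ, 0 ≤ s → s * ‖P1‖ ≤ C + ‖P0‖ := by
    intro s hs
    have a1 := h s
    have a3 := norm_sub_le (P0 + s • P1 + s ^ 2 • (0 : ℍ[ℝ])) P0
    have e : P0 + s • P1 + s ^ 2 • (0 : ℍ[ℝ]) - P0 = s • P1 := by simp
    rw [e, norm_smul, Real.norm_of_nonneg hs] at a3
    linarith
  have h0 : 0 ≤ C + ‖P0‖ := by have := key 0 le_rfl; simpa using this
  have := key (1 + (C + ‖P0‖) / ‖P1‖) (by positivity)
  have e2 : (1 + (C + ‖P0‖) / ‖P1‖) * ‖P1‖ = ‖P1‖ + (C + ‖P0‖) := by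
    field_simp
  rw [e2] at this
  linarith

/-- the sesquilinear form `x_φ A y` -/
noncomputable def B {n : ℕ} (φ : ℍ[ℝ] →ₗ[ℝ] ℍ[ℝ]) (A : Matrix (Fin n) (Fin n) ℍ[ℝ])
    (x y : Fin n → ℍ[ℝ]) : ℍ[ℝ] := ∑ i, ∑ j, φ (x i) * A i j * y j

section form
variable {n : ℕ} {φ : ℍ[ℝ] →ₗ[ℝ] ℍ[ℝ]} (A : Matrix (Fin n) (Fin n) ℍ[ℝ])

theorem B_add_left (x x' y : Fin n → ℍ[ℝ]) : B φ A (x + x') y = B φ A x y + B φ A x' y := by
  unfold B
  rw [← Finset.sum_add_distrib]
  refine Finset.sum_congr rfl fun i _ => ?_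
  rw [← Finset.sum_add_distrib]
  refine Finset.sum_congr rfl fun j _ => ?_
  simp [add_mul]

theorem B_add_right (x y y' : Fin n → ℍ[ℝ]) : B φ A x (y + y') = B φ A x y + B φ A x y' := by
  unfold B
  rw [← Finset.sum_add_distrib]
  refine Finset.sum_congr rfl fun i _ => ?_
  rw [← Finset.sum_add_distrib]
  refine Finset.sum_congr rfl fun j _ => ?_
  simp [mul_add]

theorem B_mul_right (x y : Fin n → ℍ[ℝ]) (l : ℍ[ℝ]) :
    B φ A x (fun i => y i * l) = B φ A x y * l := by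
  unfold B
  rw [Finset.sum_mul]
  refine Finset.sum_congr rfl fun i _ => ?_
  rw [Finset.sum_mul]
  refine Finset.sum_congr rfl fun j _ => ?_
  simp [mul_assoc]

theorem B_mul_left (hm : ∀ x y, φ (x * y) = φ y * φ x) (x y : Fin n → ℍ[ℝ]) (l : ℍ[ℝ]) :
    B φ A (fun i => x i * l) y = φ l * B φ A x y := by
  unfold B
  rw [Finset.mul_sum]
  refine Finset.sum_congr rfl fun i _ => ?_
  rw [Finset.mul_sum]
  refine Finset.sum_congr rfl fun j _ => ?_
  rw [hm]; simp [mul_assoc]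

theorem B_single (i j : Fin n) (l m : ℍ[ℝ]) :
    B φ A (Pi.single i l) (Pi.single j m) = φ l * A i j * m := by
  unfold B
  rw [Finset.sum_eq_single i, Finset.sum_eq_single j]
  · simp
  · intro b _ hb; simp [Pi.single_eq_of_ne hb]
  · intro h; exact absurd (Finset.mem_univ _) h
  · intro b _ hb
    refine Finset.sum_eq_zero fun c _ => ?_
    simp [Pi.single_eq_of_ne hb]
  · intro h; exact absurd (Finset.mem_univ _) h

theorem single_mul' (k : Fin n) (m l : ℍ[ℝ]) :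
    (Pi.single k (m * l) : Fin n → ℍ[ℝ]) = fun i => (Pi.single k m : Fin n → ℍ[ℝ]) i * l := by
  funext i
  by_cases h : i = k
  · subst h; simp
  · simp [Pi.single_eq_of_ne h]

theorem B_expand (hm : ∀ x y, φ (x * y) = φ y * φ x) (v : Fin n → ℍ[ℝ]) (k : Fin n) (l m : ℍ[ℝ]) :
    B φ A ((fun i => v i * l) + Pi.single k m) ((fun i => v i * l) + Pi.single k m)
      = φ l * B φ A v v * l + φ l * B φ A v (Pi.single k 1) * m
        + φ m * B φ A (Pi.single k 1) v * l + φ m * A k k * m := by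
  have e1 : (Pi.single k m : Fin n → ℍ[ℝ]) = fun i => (Pi.single k 1 : Fin n → ℍ[ℝ]) i * m := by
    rw [← single_mul', one_mul]
  have h1 : B φ A (fun i => v i * l) (Pi.single k m) = φ l * B φ A v (Pi.single k 1) * m := by
    rw [e1, B_mul_left A hm, B_mul_right, mul_assoc]
  have h2 : B φ A (Pi.single k m) (fun i => v i * l) = φ m * B φ A (Pi.single k 1) v * l := by
    rw [e1, B_mul_left A hm, B_mul_right, mul_assoc]
  have h3 : B φ A (fun i => v i * l) (fun i => v i * l) = φ l * B φ A v v * l := by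
    rw [B_mul_left A hm, B_mul_right, mul_assoc]
  rw [B_add_left, B_add_right, B_add_right, h1, h2, h3, B_single]
  simp only [add_assoc]

end form

theorem alg1 {R : Type*} [Ring R] [Algebra ℝ R] {q u : R} (hq : q * q = -1) (hu : u * u = -1) (s : ℝ) :
    (1 - s • q) * 1 * (1 + s • q) + (1 - s • q) * 0 * (s • u) + (s • u) * 0 * (1 + s • q)
      + (s • u) * 1 * (s • u) = 1 := by
  simp only [mul_one, mul_zero, zero_mul, sub_mul, mul_add, one_mul, smul_mul_assoc,
    mul_smul_comm, hq, hu]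
  module

theorem alg2 {R : Type*} [Ring R] [Algebra ℝ R] (q u a b c d : R) (s : ℝ) :
    (1 - s • q) * a * (1 + s • q) + (1 - s • q) * b * (s • u) + (s • u) * c * (1 + s • q)
      + (s • u) * d * (s • u) =
    a + s • (a * q - q * a + (b * u + u * c)) +
      s ^ 2 • (-(q * a * q) - q * b * u + u * c * q + u * d * u) := by
  simp only [mul_one, sub_mul, mul_add, add_mul, one_mul, smul_mul_assoc,
    mul_smul_comm, mul_assoc]
  module

theorem alg3 {R : Type*} [Ring R] [Algebra ℝ R] (q a b c w : R) :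
    (2:ℝ) • (a * q - q * a) = (a * q - q * a + (b * w + w * c)) + (a * q - q * a + (b * -w + -w * c)) := by
  rw [mul_neg, neg_mul]; module

theorem alg4 {R : Type*} [Ring R] [Algebra ℝ R] (q a b c d w : R) :
    (2:ℝ) • (-(q * a * q) + w * d * w) = (-(q * a * q) - q * b * w + w * c * q + w * d * w)
        + (-(q * a * q) - q * b * -w + -w * c * q + -w * d * -w) := by
  simp only [mul_neg, neg_mul, neg_neg]; module


end Pool.Agent.X89.QN
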