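import Pool.Agent.X89.QN1

set_option autoImplicit false

open Quaternion

namespace Pool.Agent.X89.QN

/-- the sphere -/
def Sph {n : ℕ} (φ : ℍ[ℝ] →ₗ[ℝ] ℍ[ℝ]) (α : ℍ[ℝ]) : Set (Fin n → ℍ[ℝ]) :=
  {x | ∑ i, φ (x i) * x i = α}

/-- the numerical range -/
def W {n : ℕ} (φ : ℍ[ℝ] →ₗ[ℝ] ℍ[ℝ]) (α : ℍ[ℝ]) (A : Matrix (Fin n) (Fin n) ℍ[ℝ]) : Set ℍ[ℝ] :=
  {z | ∃ x ∈ Sph φ α, z = ∑ i, ∑ j, φ (x i) * A i j * x j}

theorem form_one {n : ℕ} {φ : ℍ[ℝ] →ₗ[ℝ] ℍ[ℝ]} (x : Fin n → ℍ[ℝ]) :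
    B φ 1 x x = ∑ i, φ (x i) * x i := by
  unfold B
  refine Finset.sum_congr rfl fun i _ => ?_
  rw [Finset.sum_eq_single i]
  · simp
  · intro b _ hb; simp [Matrix.one_apply_ne' hb]
  · intro h; exact absurd (Finset.mem_univ _) h

theorem form_one' {n : ℕ} {φ : ℍ[ℝ] →ₗ[ℝ] ℍ[ℝ]} (x : Fin n → ℍ[ℝ]) (k : Fin n) (hx : x k = 0) :
    B φ 1 x (Pi.single k 1) = 0 := by
  unfold B
  refine Finset.sum_eq_zero fun i _ => Finset.sum_eq_zero fun j _ => ?_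
  by_cases hj : j = k
  · by_cases hi : i = k
    · subst hj; rw [hi, hx]; simp
    · subst hj; simp [Matrix.one_apply_ne hi]
  · simp [Pi.single_eq_of_ne hj]

theorem form_one'' {n : ℕ} {φ : ℍ[ℝ] →ₗ[ℝ] ℍ[ℝ]} (x : Fin n → ℍ[ℝ]) (k : Fin n) (hx : x k = 0) :
    B φ 1 (Pi.single k 1) x = 0 := by
  unfold B
  refine Finset.sum_eq_zero fun i _ => Finset.sum_eq_zero fun j _ => ?_
  by_cases hj : j = k
  · subst hj; rw [hx]; simp
  · by_cases hi : i = k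
    · subst hi; simp [Matrix.one_apply_ne' hj]
    · simp [Pi.single_eq_of_ne hi]

noncomputable def fam {n : ℕ} (v : Fin n → ℍ[ℝ]) (k : Fin n) (l m : ℍ[ℝ]) : Fin n → ℍ[ℝ] :=
  (fun i => v i * l) + Pi.single k m

theorem fam_mem {n : ℕ} {φ : ℍ[ℝ] →ₗ[ℝ] ℍ[ℝ]} (hm : ∀ x y, φ (x * y) = φ y * φ x) {q u : ℍ[ℝ]}
    (hq : q * q = -1) (hu : u * u = -1) (hφl : ∀ s : ℝ, φ (1 + s • q) = 1 - s • q) (hφu : φ u = u)
    (v : Fin n → ℍ[ℝ]) (k : Fin n) (hv : ∑ i, φ (v i) * v i = 1) (hvk : v k = 0) (s : ℝ) :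
    fam v k (1 + s • q) (s • u) ∈ Sph φ 1 := by
  have h1 : B φ 1 (fam v k (1 + s • q) (s • u)) (fam v k (1 + s • q) (s • u)) = 1 := by
    unfold fam
    rw [B_expand 1 hm, form_one, hv, form_one' v k hvk, form_one'' v k hvk, hφl,
        map_smul, hφu, Matrix.one_apply_eq]
    exact alg1 hq hu s
  rw [form_one] at h1
  exact h1

/-- the basic consequence of boundedness -/
theorem key {n : ℕ} {φ : ℍ[ℝ] →ₗ[ℝ] ℍ[ℝ]} (hφ : IsInvolution φ) {q w : ℍ[ℝ]}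
    (hf : ∀ x, φ x = -(q * star x * q)) (hq : q * q = -1) (hw : w * w = -1)
    (hwq : w * q = -(q * w)) (A : Matrix (Fin n) (Fin n) ℍ[ℝ]) (hb : Bornology.IsBounded (W φ 1 A))
    (v : Fin n → ℍ[ℝ]) (k : Fin n) (hv : ∑ i, φ (v i) * v i = 1) (hvk : v k = 0) :
    q * B φ A v v = B φ A v v * q ∧
    B φ A v (Pi.single k 1) * w + w * B φ A (Pi.single k 1) v = 0 ∧
    B φ A v v + w * A k k * w = 0 := by
  obtain ⟨hm, hi⟩ := hφ
  have hφw : φ w = w := phi_w hf hq hw hwq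
  have hφq : φ q = -q := by
    rw [hf, star_of_sq hq, mul_neg, neg_mul, neg_neg, hq]; simp
  have hφ1 : φ 1 = 1 := by rw [hf]; simp [hq]
  have hφl : ∀ s : ℝ, φ (1 + s • q) = 1 - s • q := by
    intro s; rw [map_add, map_smul, hφ1, hφq, smul_neg, sub_eq_add_neg]
  obtain ⟨C, hC⟩ := hb.exists_norm_le
  -- general statement for any admissible w
  have gen : ∀ u : ℍ[ℝ], u * u = -1 → u * q = -(q * u) → φ u = u →
      (B φ A v v * q - q * B φ A v v + (B φ A v (Pi.single k 1) * u + u * B φ A (Pi.single k 1) v) = 0 ∧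
      (-(q * B φ A v v * q) - q * B φ A v (Pi.single k 1) * u + u * B φ A (Pi.single k 1) v * q
        + u * A k k * u = 0)) := by
    intro u hu huq hφu
    apply poly_bdd (P0 := B φ A v v) (C := C)
    intro s
    have hmem : B φ A (fam v k (1 + s • q) (s • u)) (fam v k (1 + s • q) (s • u)) ∈ W φ 1 A :=
      ⟨fam v k (1 + s • q) (s • u), fam_mem hm hq hu hφl hφu v k hv hvk s, rfl⟩
    have h1 := hC _ hmem
    unfold fam at h1
    rw [B_expand A hm, hφl, map_smul, hφu] at h1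
    rw [alg2] at h1
    exact h1
  obtain ⟨a1, a2⟩ := gen w hw hwq hφw
  have hnw : (-w) * (-w) = -1 := by rw [neg_mul_neg, hw]
  have hnwq : (-w) * q = -(q * (-w)) := by rw [neg_mul, hwq, mul_neg, neg_neg]
  have hφnw : φ (-w) = -w := by rw [map_neg, hφw]
  obtain ⟨b1, b2⟩ := gen (-w) hnw hnwq hφnw
  set α := B φ A v v
  set β := B φ A v (Pi.single k 1)
  set γ := B φ A (Pi.single k 1) v
  have c1 : α * q - q * α = 0 := by
    have e := alg3 q α β γ w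
    rw [a1, b1, add_zero] at e
    rcases smul_eq_zero.1 e with h | h
    · norm_num at h
    · exact h
  have c2 : β * w + w * γ = 0 := by rw [c1, zero_add] at a1; exact a1
  have c3 : -(q * α * q) + w * A k k * w = 0 := by
    have e := alg4 q α β γ (A k k) w
    rw [a2, b2, add_zero] at e
    rcases smul_eq_zero.1 e with h | h
    · norm_num at h
    · exact h
  have c1' : q * α = α * q := (sub_eq_zero.1 c1).symm
  refine ⟨c1', c2, ?_⟩
  rw [c1', mul_assoc, hq, mul_neg, mul_one, neg_neg] at c3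
  exact c3

end Pool.Agent.X89.QN
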