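import Pool.Agent.X89.QN2

set_option autoImplicit false

open Quaternion

namespace Pool.Agent.X89.QN

theorem cancel_ww {w x y : ℍ[ℝ]} (hw : w * w = -1) (h : x + w * y * w = 0) : y = -(w * x * w) := by
  have h1 : w * (x + w * y * w) * w = 0 := by rw [h]; simp
  rw [mul_add, add_mul] at h1
  have h2 : w * (w * y * w) * w = y := by
    calc w * (w * y * w) * w = (w * w) * y * (w * w) := by simp only [mul_assoc]
      _ = y := by rw [hw]; simp
  rw [h2] at h1
  exact eq_neg_of_add_eq_zero_right h1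

theorem conj_real {w : ℍ[ℝ]} (hw : w * w = -1) (a : ℝ) : w * (a : ℍ[ℝ]) * w = -(a : ℍ[ℝ]) := by
  rw [← coe_commutes, mul_assoc, hw]; simp

theorem conj_q {q w : ℍ[ℝ]} (hw : w * w = -1) (hwq : w * q = -(q * w)) :
    w * q * w = q := by
  rw [hwq, neg_mul, mul_assoc, hw]; simp

theorem conj_aq {q w : ℍ[ℝ]} (hw : w * w = -1) (hwq : w * q = -(q * w)) (a b : ℝ) :
    w * ((a : ℍ[ℝ]) + b * q) * w = -(a : ℍ[ℝ]) + b * q := by
  rw [mul_add, add_mul, conj_real hw, ← mul_assoc, ← coe_commutes, mul_assoc (b : ℍ[ℝ]) w q,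
    mul_assoc (b : ℍ[ℝ]), conj_q hw hwq]

theorem pair {n : ℕ} {φ : ℍ[ℝ] →ₗ[ℝ] ℍ[ℝ]} (hφ : IsInvolution φ) {q w : ℍ[ℝ]}
    (hf : ∀ x, φ x = -(q * star x * q)) (hq : q * q = -1) (hw : w * w = -1)
    (hwq : w * q = -(q * w)) (A : Matrix (Fin n) (Fin n) ℍ[ℝ]) (hb : Bornology.IsBounded (W φ 1 A))
    (i k : Fin n) (hik : i ≠ k) :
    q * A i i = A i i * q ∧ A i k * w + w * A k i = 0 ∧ A i i + w * A k k * w = 0 := by
  have hφ1 : φ 1 = 1 := by rw [hf]; simp [hq]
  have h := key hφ hf hq hw hwq A hb (Pi.single i 1) k (by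
    rw [Finset.sum_eq_single i]
    · simp [hφ1]
    · intro b _ hb; simp [Pi.single_eq_of_ne hb]
    · intro h; exact absurd (Finset.mem_univ _) h) (by simp [Pi.single_eq_of_ne hik.symm])
  simpa only [B_single, hφ1, one_mul, mul_one] using h

theorem two_only_if {φ : ℍ[ℝ] →ₗ[ℝ] ℍ[ℝ]} (hφ : IsInvolution φ) {q : ℍ[ℝ]}
    (hf : ∀ x, φ x = -(q * star x * q)) (hq : q * q = -1)
    (A : Matrix (Fin 2) (Fin 2) ℍ[ℝ]) (hb : Bornology.IsBounded (W φ 1 A)) :
    ∃ a b c d : ℝ, A = !![(a : ℍ[ℝ]) + b * q, -(c : ℍ[ℝ]) - d * q; (c : ℍ[ℝ]) - d * q, (a : ℍ[ℝ]) - b * q] := by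
  obtain ⟨w, hw, hwq⟩ := exists_w hq
  obtain ⟨h1, h2, h3⟩ := pair hφ hf hq hw hwq A hb 0 1 (by decide)
  have hw' : (q * w) * (q * w) = -1 := by
    calc (q * w) * (q * w) = q * (w * q) * w := by simp only [mul_assoc]
      _ = -((q * q) * (w * w)) := by rw [hwq]; simp only [mul_neg, neg_mul, mul_assoc]
      _ = -1 := by rw [hq, hw]; simp
  have hwq' : (q * w) * q = -(q * (q * w)) := by
    rw [mul_assoc, hwq, mul_neg]
  obtain ⟨-, k2, -⟩ := pair hφ hf hq hw' hwq' A hb 0 1 (by decide)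
  have fromsum : ∀ u : ℍ[ℝ], u * u = -1 → A 0 1 * u + u * A 1 0 = 0 → A 0 1 = u * A 1 0 * u := by
    intro u hu h
    calc A 0 1 = -(A 0 1 * u * u) := by rw [mul_assoc, hu]; simp
      _ = -(-(u * A 1 0) * u) := by rw [eq_neg_of_add_eq_zero_left h]
      _ = u * A 1 0 * u := by rw [neg_mul, neg_neg]
  have e1 := fromsum w hw h2
  have e2 := fromsum (q * w) hw' k2
  have hw0 : w ≠ 0 := by
    intro h0; rw [h0] at hw; simp at hw
  have e3 : w * A 1 0 = q * w * A 1 0 * q := by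
    apply mul_right_cancel₀ hw0
    rw [← e1, e2]
    simp only [mul_assoc]
  have hqw : q * w = -(w * q) := by rw [hwq, neg_neg]
  have e4 : A 1 0 = -(q * A 1 0 * q) := by
    apply mul_left_cancel₀ hw0
    conv_lhs => rw [e3, hqw]
    simp only [neg_mul, mul_neg, mul_assoc]
  have e5 : q * A 1 0 = A 1 0 * q := by
    conv_lhs => rw [e4]
    rw [mul_neg, ← mul_assoc, ← mul_assoc, hq]
    simp
  obtain ⟨a, b, hab⟩ := comm_q hq h1
  obtain ⟨c, d, hcd⟩ := comm_q hq e5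
  have e6 := cancel_ww hw h3
  rw [hab, conj_aq hw hwq] at e6
  rw [hcd, conj_aq hw hwq] at e1
  refine ⟨a, b, c, -d, ?_⟩
  rw [Matrix.eta_fin_two A, hab, hcd, e6, e1]
  simp [sub_eq_add_neg]
  exact add_comm _ _

theorem quad_identity (x y q : ℍ[ℝ]) (hq : q.re = 0) :
    normSq (star x * q * x + star y * q * y) =
      ((normSq x - normSq y) ^ 2 + 4 * (star x * y).re ^ 2) * normSq q + 4 * (star x * q * y).re ^ 2 := by
  simp only [normSq_def', re_mul, imI_mul, imJ_mul, imK_mul, re_add, imI_add, imJ_add, imK_add,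
    Quaternion.re_star, Quaternion.imI_star, Quaternion.imJ_star, Quaternion.imK_star, hq]
  ring

theorem bounds {x y q : ℍ[ℝ]} (hq : q * q = -1) (h : star x * q * x + star y * q * y = q) :
    |normSq x - normSq y| ≤ 1 ∧ 2 * |(star x * y).re| ≤ 1 ∧ 2 * |(star x * q * y).re| ≤ 1 := by
  have hre : q.re = 0 := by
    have := congrArg QuaternionAlgebra.re (star_of_sq hq)
    simp at this; linarith
  have h1 := quad_identity x y q hre
  rw [h, normSq_of_sq hq] at h1
  refine ⟨?_, ?_, ?_⟩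
  · apply abs_le_of_sq_le_sq _ zero_le_one
    nlinarith [sq_nonneg (star x * y).re, sq_nonneg (star x * q * y).re]
  · have : |2 * (star x * y).re| ≤ 1 := by
      apply abs_le_of_sq_le_sq _ zero_le_one
      nlinarith [sq_nonneg (normSq x - normSq y), sq_nonneg (star x * q * y).re]
    rwa [abs_mul, abs_two] at this
  · have : |2 * (star x * q * y).re| ≤ 1 := by
      apply abs_le_of_sq_le_sq _ zero_le_one
      nlinarith [sq_nonneg (normSq x - normSq y), sq_nonneg (star x * y).re]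
    rwa [abs_mul, abs_two] at this

end Pool.Agent.X89.QN
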