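import Pool.Agent.X89.QN3

set_option autoImplicit false

open Quaternion

namespace Pool.Agent.X89.QN

theorem coe_two_re (y : ℍ[ℝ]) : ((2 * y.re : ℝ) : ℍ[ℝ]) = y + star y := by
  ext
  · simp; ring
  · simp
  · simp
  · simp

theorem two_if {φ : ℍ[ℝ] →ₗ[ℝ] ℍ[ℝ]} {q : ℍ[ℝ]}
    (hf : ∀ x, φ x = -(q * star x * q)) (hq : q * q = -1) (a b c d : ℝ) :
    Bornology.IsBounded (W φ 1
      !![(a : ℍ[ℝ]) + b * q, -(c : ℍ[ℝ]) - d * q; (c : ℍ[ℝ]) - d * q, (a : ℍ[ℝ]) - b * q]) := by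
  rw [isBounded_iff_forall_norm_le]
  refine ⟨|a| + |b| + |c| + |d|, ?_⟩
  rintro z ⟨x, hx, rfl⟩
  set x0 := x 0 with hx0
  set x1 := x 1 with hx1
  have hx' : φ x0 * x0 + φ x1 * x1 = 1 := by
    have h : ∑ i, φ (x i) * x i = 1 := hx
    rwa [Fin.sum_univ_two] at h
  have hnq : ‖q‖ = 1 := by
    have := normSq_of_sq hq
    rw [normSq_eq_norm_mul_self] at this
    nlinarith [norm_nonneg q]
  -- constraint
  have hc : star x0 * q * x0 + star x1 * q * x1 = q := by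
    have h1 : q * (φ x0 * x0 + φ x1 * x1) = q := by rw [hx']; simp
    rw [hf, hf, mul_add] at h1
    have h2 : ∀ y : ℍ[ℝ], q * (-(q * star y * q) * y) = star y * q * y := by
      intro y
      calc q * (-(q * star y * q) * y) = -((q * q) * (star y * q * y)) := by
            simp only [neg_mul, mul_neg, mul_assoc]
        _ = _ := by rw [hq]; simp
    rw [h2, h2] at h1
    exact h1
  obtain ⟨b1, b2, b3⟩ := bounds hq hc
  have t1 : ∀ y z : ℍ[ℝ], φ y * q * z = q * (star y * z) := by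
    intro y z
    calc φ y * q * z = -(q * star y * (q * q) * z) := by rw [hf]; simp only [neg_mul, mul_assoc]
      _ = q * (star y * z) := by rw [hq]; simp [mul_assoc]
  have hsq := star_of_sq hq
  have t2 : φ x1 * x0 - φ x0 * x1 = q * ((2 * (star x0 * q * x1).re : ℝ) : ℍ[ℝ]) := by
    have e : ((2 * (star x0 * q * x1).re : ℝ) : ℍ[ℝ]) = star x0 * q * x1 - star x1 * q * x0 := by
      rw [coe_two_re, star_mul, star_mul, star_star, hsq]
      simp only [mul_neg, neg_mul, sub_eq_add_neg, mul_assoc]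
    rw [e, hf, hf, mul_sub]
    simp only [neg_mul, mul_assoc]
    abel
  have t3 : star x0 * x1 + star x1 * x0 = ((2 * (star x0 * x1).re : ℝ) : ℍ[ℝ]) := by
    rw [coe_two_re, star_mul, star_star]
  have t4 : star x0 * x0 - star x1 * x1 = ((normSq x0 - normSq x1 : ℝ) : ℍ[ℝ]) := by
    rw [star_mul_self, star_mul_self]; push_cast; rfl
  have main : ∑ i, ∑ j, φ (x i) * (!![(a : ℍ[ℝ]) + b * q, -(c : ℍ[ℝ]) - d * q; (c : ℍ[ℝ]) - d * q, (a : ℍ[ℝ]) - b * q] : Matrix (Fin 2) (Fin 2) ℍ[ℝ]) i j * x j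
      = a • (1 : ℍ[ℝ]) + b • (q * ((normSq x0 - normSq x1 : ℝ) : ℍ[ℝ]))
        + c • (q * ((2 * (star x0 * q * x1).re : ℝ) : ℍ[ℝ]))
        - d • (q * ((2 * (star x0 * x1).re : ℝ) : ℍ[ℝ])) := by
    rw [← t2, ← t3, ← t4, ← hx', Fin.sum_univ_two, Fin.sum_univ_two, Fin.sum_univ_two]
    simp only [Matrix.cons_val', Matrix.cons_val_zero, Matrix.cons_val_one, Matrix.of_apply,
      Matrix.cons_val_fin_one, ← hx0, ← hx1]
    have r : ∀ (s : ℝ) (y z : ℍ[ℝ]), φ y * (s : ℍ[ℝ]) * z = s • (φ y * z) := by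
      intro s y z
      rw [← coe_commutes, mul_assoc, coe_mul_eq_smul]
    have r' : ∀ (s : ℝ) (y z : ℍ[ℝ]), φ y * ((s : ℍ[ℝ]) * q) * z = s • (q * (star y * z)) := by
      intro s y z
      rw [← t1, ← mul_assoc, ← coe_commutes, mul_assoc, mul_assoc, coe_mul_eq_smul, mul_assoc]
    simp only [mul_add, mul_sub, add_mul, sub_mul, mul_neg, neg_mul, r, r']
    module
  rw [main]
  have n1 : ∀ (s r : ℝ), ‖s • (q * (r : ℍ[ℝ]))‖ = |s| * |r| := by
    intro s r
    rw [norm_smul, norm_mul, hnq, norm_coe, Real.norm_eq_abs, Real.norm_eq_abs, one_mul]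
  have n2 : ‖a • (1 : ℍ[ℝ])‖ = |a| := by
    rw [norm_smul, norm_one, mul_one, Real.norm_eq_abs]
  calc _ ≤ ‖a • (1 : ℍ[ℝ])‖ + ‖b • (q * ((normSq x0 - normSq x1 : ℝ) : ℍ[ℝ]))‖
        + ‖c • (q * ((2 * (star x0 * q * x1).re : ℝ) : ℍ[ℝ]))‖
        + ‖d • (q * ((2 * (star x0 * x1).re : ℝ) : ℍ[ℝ]))‖ := by
        refine (norm_sub_le _ _).trans (add_le_add_left ?_ _)
        refine (norm_add_le _ _).trans (add_le_add_left ?_ _)
        exact norm_add_le _ _
    _ ≤ _ := by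
        rw [n1, n1, n1, n2]
        rw [abs_mul 2, abs_mul 2, abs_two]
        have h1 := mul_le_mul_of_nonneg_left b1 (abs_nonneg b)
        have h2 := mul_le_mul_of_nonneg_left b3 (abs_nonneg c)
        have h3 := mul_le_mul_of_nonneg_left b2 (abs_nonneg d)
        linarith

end Pool.Agent.X89.QN
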