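import Mathlib

open MeasureTheory Real Set Filter Topology
open scoped FourierTransform ENNReal

namespace X89SQ

noncomputable def box (r x : ℝ) : ℝ := if |x| ≤ r then 1 else 0
noncomputable def P (k : ℝ) (v : ℝ → ℝ) (x : ℝ) : ℝ := v x / 2 + (v (x - k) + v (x + k)) / 4
noncomputable def T (k : ℝ) (v : ℝ → ℝ) (x : ℝ) : ℝ := v x / 2 - (v (x - k) + v (x + k)) / 4

def Good (v : ℝ → ℝ) : Prop := Measurable v ∧ ∃ C ρ : ℝ, ∀ x, |v x| ≤ C ∧ (ρ < |x| → v x = 0)

lemma good_box (r : ℝ) : Good (box r) := by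
  refine ⟨?_, 1, r, fun x => ⟨?_, fun h => ?_⟩⟩
  · unfold box
    exact Measurable.ite (measurableSet_le measurable_id.abs measurable_const)
      measurable_const measurable_const
  · unfold box; split_ifs <;> simp
  · unfold box; rw [if_neg (not_le.mpr h)]

lemma Good.shift {v : ℝ → ℝ} (h : Good v) (s : ℝ) : Good (fun x => v (x - s)) := by
  obtain ⟨hm, C, ρ, hb⟩ := h
  refine ⟨hm.comp (measurable_id.sub_const s), C, ρ + |s|, fun x => ⟨(hb _).1, fun hx => (hb _).2 ?_⟩⟩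
  have := abs_sub_abs_le_abs_sub x s
  linarith

lemma Good.add {v w : ℝ → ℝ} (h : Good v) (h' : Good w) : Good (fun x => v x + w x) := by
  obtain ⟨hm, C, ρ, hb⟩ := h
  obtain ⟨hm', C', ρ', hb'⟩ := h'
  refine ⟨hm.add hm', C + C', max ρ ρ', fun x => ⟨?_, fun hx => ?_⟩⟩
  · exact (abs_add_le _ _).trans (add_le_add (hb x).1 (hb' x).1)
  · simp only [(hb x).2 (lt_of_le_of_lt (le_max_left _ _) hx), (hb' x).2 (lt_of_le_of_lt (le_max_right _ _) hx), add_zero]

lemma Good.smul {v : ℝ → ℝ} (h : Good v) (c : ℝ) : Good (fun x => c * v x) := by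
  obtain ⟨hm, C, ρ, hb⟩ := h
  refine ⟨hm.const_mul c, |c| * C, ρ, fun x => ⟨?_, fun hx => ?_⟩⟩
  · rw [abs_mul]; exact mul_le_mul_of_nonneg_left (hb x).1 (abs_nonneg _)
  · simp only [(hb x).2 hx, mul_zero]

lemma good_P {v : ℝ → ℝ} (h : Good v) (k : ℝ) : Good (P k v) := by
  have h1 := ((h.smul (1/2)).add ((h.shift k).smul (1/4))).add ((h.shift (-k)).smul (1/4))
  have : P k v = fun x => 1/2 * v x + 1/4 * v (x - k) + 1/4 * v (x - -k) := by
    funext x; unfold P; rw [sub_neg_eq_add]; ring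
  rw [this]; exact h1

lemma good_T {v : ℝ → ℝ} (h : Good v) (k : ℝ) : Good (T k v) := by
  have h1 := ((h.smul (1/2)).add ((h.shift k).smul (-(1/4)))).add ((h.shift (-k)).smul (-(1/4)))
  have : T k v = fun x => 1/2 * v x + -(1/4) * v (x - k) + -(1/4) * v (x - -k) := by
    funext x; unfold T; rw [sub_neg_eq_add]; ring
  rw [this]; exact h1

/-- complex-weighted integrability -/
lemma Good.int {v : ℝ → ℝ} (h : Good v) {g : ℝ → ℂ} (hg : Continuous g) :
    Integrable (fun x => g x * (v x : ℂ)) := by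
  obtain ⟨hm, C, ρ, hb⟩ := h
  have h1 : IntegrableOn (fun x => g x * (v x : ℂ)) (Icc (-|ρ|) |ρ|) := by
    have hgi : IntegrableOn g (Icc (-|ρ|) |ρ|) := hg.continuousOn.integrableOn_Icc
    refine hgi.mul_bdd (c := C) ?_ ?_
    · exact (Complex.measurable_ofReal.comp hm).aestronglyMeasurable
    · refine Filter.Eventually.of_forall fun x => ?_
      simpa using (hb x).1
  refine (integrableOn_iff_integrable_of_support_subset ?_).1 h1
  intro x hx
  by_contra hx'
  apply hx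
  have : ρ < |x| := by
    rw [mem_Icc, ← abs_le, not_le] at hx'
    exact lt_of_le_of_lt (le_abs_self ρ) hx'
  simp [(hb x).2 this]

lemma Good.intR {v : ℝ → ℝ} (h : Good v) {g : ℝ → ℝ} (hg : Continuous g) :
    Integrable (fun x => g x * v x) := by
  have := (h.int (g := fun x => (g x : ℂ)) (Complex.continuous_ofReal.comp hg)).re
  simpa using this

lemma Good.int1 {v : ℝ → ℝ} (h : Good v) : Integrable v := by
  simpa using h.intR (g := fun _ => 1) continuous_const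

/-- Fourier integral -/
noncomputable def FF (v : ℝ → ℝ) (ξ : ℝ) : ℂ := ∫ x : ℝ, Complex.exp (↑(-2 * π * x * ξ) * Complex.I) * (v x : ℂ)

lemma exp_cont (ξ : ℝ) : Continuous (fun x : ℝ => Complex.exp (↑(-2 * π * x * ξ) * Complex.I)) := by
  fun_prop

lemma FF_shift (v : ℝ → ℝ) (s ξ : ℝ) :
    FF (fun x => v (x - s)) ξ = Complex.exp (↑(-2 * π * s * ξ) * Complex.I) * FF v ξ := by
  unfold FF
  rw [← integral_sub_right_eq_self (fun x : ℝ => Complex.exp (↑(-2 * π * x * ξ) * Complex.I) * (v x : ℂ)) s,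
    ← integral_const_mul]
  congr 1
  funext x
  rw [← mul_assoc, ← Complex.exp_add]
  congr 2
  push_cast
  ring

lemma FF_lin3 (v : ℝ → ℝ) (hv : Good v) (a b c s : ℝ) (ξ : ℝ) :
    FF (fun x => a * v x + b * v (x - s) + c * v (x - -s)) ξ
      = a * FF v ξ + b * FF (fun x => v (x - s)) ξ + c * FF (fun x => v (x - -s)) ξ := by
  unfold FF
  rw [← integral_const_mul, ← integral_const_mul, ← integral_const_mul,
    ← integral_add, ← integral_add]
  · congr 1
    funext x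
    push_cast
    ring
  · exact ((hv.int (exp_cont ξ)).const_mul _).add (((hv.shift s).int (exp_cont ξ)).const_mul _)
  · exact ((hv.shift (-s)).int (exp_cont ξ)).const_mul _
  · exact (hv.int (exp_cont ξ)).const_mul _
  · exact ((hv.shift s).int (exp_cont ξ)).const_mul _

lemma exp_sum (s ξ : ℝ) : Complex.exp (↑(-2 * π * s * ξ) * Complex.I)
    + Complex.exp (↑(-2 * π * (-s) * ξ) * Complex.I) = ((2 * Real.cos (2 * (π * s * ξ)) : ℝ) : ℂ) := by
  rw [Complex.exp_mul_I, Complex.exp_mul_I]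
  rw [← Complex.ofReal_cos, ← Complex.ofReal_cos, ← Complex.ofReal_sin, ← Complex.ofReal_sin]
  have h1 : -2 * π * s * ξ = -(2 * (π * s * ξ)) := by ring
  have h2 : -2 * π * -s * ξ = (2 * (π * s * ξ)) := by ring
  rw [h1, h2, Real.cos_neg, Real.sin_neg]
  push_cast
  ring

lemma FF_P (v : ℝ → ℝ) (hv : Good v) (k ξ : ℝ) :
    FF (P k v) ξ = ((Real.cos (π * k * ξ) ^ 2 : ℝ) : ℂ) * FF v ξ := by
  have : P k v = fun x => 1/2 * v x + 1/4 * v (x - k) + 1/4 * v (x - -k) := by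
    funext x; unfold P; rw [sub_neg_eq_add]; ring
  rw [this, FF_lin3 v hv, FF_shift, FF_shift]
  have h := exp_sum k ξ
  have h2 : Real.cos (π * k * ξ) ^ 2 = 1/2 + 1/4 * (2 * Real.cos (2 * (π * k * ξ))) := by
    rw [Real.cos_two_mul]; ring
  rw [h2]
  have e2 : ((1/2 + 1/4 * (2 * Real.cos (2 * (π * k * ξ))) : ℝ) : ℂ)
      = (1/2 : ℂ) + 1/4 * ((2 * Real.cos (2 * (π * k * ξ)) : ℝ) : ℂ) := by push_cast; ring
  rw [e2, ← h]
  push_cast
  ring

lemma FF_T (v : ℝ → ℝ) (hv : Good v) (k ξ : ℝ) :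
    FF (T k v) ξ = ((Real.sin (π * k * ξ) ^ 2 : ℝ) : ℂ) * FF v ξ := by
  have : T k v = fun x => 1/2 * v x + -(1/4) * v (x - k) + -(1/4) * v (x - -k) := by
    funext x; unfold T; rw [sub_neg_eq_add]; ring
  rw [this, FF_lin3 v hv, FF_shift, FF_shift]
  have h := exp_sum k ξ
  have h2 : Real.sin (π * k * ξ) ^ 2 = 1/2 - 1/4 * (2 * Real.cos (2 * (π * k * ξ))) := by
    rw [Real.cos_two_mul, Real.sin_sq]; ring
  rw [h2]
  have e2 : ((1/2 - 1/4 * (2 * Real.cos (2 * (π * k * ξ))) : ℝ) : ℂ)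
      = (1/2 : ℂ) - 1/4 * ((2 * Real.cos (2 * (π * k * ξ)) : ℝ) : ℂ) := by push_cast; ring
  rw [e2, ← h]
  push_cast
  ring

lemma box_eq_indicator (r : ℝ) : box r = (Icc (-r) r).indicator (fun _ => (1:ℝ)) := by
  funext x
  unfold box
  by_cases h : |x| ≤ r
  · rw [if_pos h, indicator_of_mem (mem_Icc.2 (abs_le.1 h))]
  · rw [if_neg h, indicator_of_notMem]
    intro h'
    exact h (abs_le.2 (mem_Icc.1 h'))

lemma FF_box (r : ℝ) (hr : 0 ≤ r) (ξ : ℝ) :
    (π * ξ : ℂ) * FF (box r) ξ = ((Real.sin (2 * π * r * ξ) : ℝ) : ℂ) := by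
  by_cases hξ : ξ = 0
  · subst hξ; simp
  unfold FF
  have h1 : (fun x : ℝ => Complex.exp (↑(-2 * π * x * ξ) * Complex.I) * ((box r x : ℝ) : ℂ))
      = (Icc (-r) r).indicator (fun x : ℝ => Complex.exp (((-2 * π * ξ : ℝ) * Complex.I) * x)) := by
    funext x
    rw [box_eq_indicator]
    by_cases h : x ∈ Icc (-r) r
    · rw [indicator_of_mem h, indicator_of_mem h]
      push_cast
      rw [mul_one]
      congr 1
      ring
    · rw [indicator_of_notMem h, indicator_of_notMem h]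
      simp
  rw [h1, integral_indicator measurableSet_Icc, integral_Icc_eq_integral_Ioc,
    ← intervalIntegral.integral_of_le (by linarith)]
  have hc : (((-2 * π * ξ : ℝ) : ℂ) * Complex.I) ≠ 0 := by
    have : (-2 * π * ξ : ℝ) ≠ 0 := by
      have := Real.pi_ne_zero
      simp [hξ, this]
    exact mul_ne_zero (by exact_mod_cast this) Complex.I_ne_zero
  rw [integral_exp_mul_complex hc]
  have e1 : ((-2 * π * ξ : ℝ) : ℂ) * Complex.I * (r : ℂ) = ((-(2 * π * r * ξ) : ℝ) : ℂ) * Complex.I := by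
    push_cast; ring
  have e2 : ((-2 * π * ξ : ℝ) : ℂ) * Complex.I * ((-r : ℝ) : ℂ) = (((2 * π * r * ξ) : ℝ) : ℂ) * Complex.I := by
    push_cast; ring
  rw [e1, e2, Complex.exp_mul_I, Complex.exp_mul_I, ← Complex.ofReal_cos, ← Complex.ofReal_cos,
    ← Complex.ofReal_sin, ← Complex.ofReal_sin, Real.cos_neg, Real.sin_neg]
  have hpi : (π : ℂ) ≠ 0 := by exact_mod_cast Real.pi_ne_zero
  have hx : (ξ : ℂ) ≠ 0 := by exact_mod_cast hξ
  have hI := Complex.I_ne_zero
  push_cast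
  field_simp
  ring

end X89SQ
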