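import Pool.Agent.X89.SQ1

open MeasureTheory Real Set Filter Topology
open scoped FourierTransform ENNReal

namespace X89SQ

/-- the smoothed indicator -/
noncomputable def A (R : ℝ) : ℝ → ℝ := P 2 (P 6 (P 18 (box R)))
noncomputable def L1 : ℝ → ℝ := T 2 (box 1)
noncomputable def L2 : ℝ → ℝ := P 2 (T 6 (box 3))
noncomputable def L3 : ℝ → ℝ := P 2 (P 6 (T 18 (box 9)))
noncomputable def S (x : ℝ) : ℝ := L1 x + L2 x + L3 x
noncomputable def u0 (R x : ℝ) : ℝ := A R x + -(9/10) * S x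

lemma good_A (R : ℝ) : Good (A R) := good_P (good_P (good_P (good_box R) 18) 6) 2
lemma good_L1 : Good L1 := good_T (good_box 1) 2
lemma good_L2 : Good L2 := good_P (good_T (good_box 3) 6) 2
lemma good_L3 : Good L3 := good_P (good_P (good_T (good_box 9) 18) 6) 2
lemma good_S : Good S := (good_L1.add good_L2).add good_L3
lemma good_u0 (R : ℝ) : Good (u0 R) := (good_A R).add (good_S.smul _)

lemma FF_add {v w : ℝ → ℝ} (hv : Good v) (hw : Good w) (ξ : ℝ) :
    FF (fun x => v x + w x) ξ = FF v ξ + FF w ξ := by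
  unfold FF
  rw [← integral_add (hv.int (exp_cont ξ)) (hw.int (exp_cont ξ))]
  congr 1; funext x; push_cast; ring

lemma FF_smul (v : ℝ → ℝ) (c ξ : ℝ) :
    FF (fun x => c * v x) ξ = c * FF v ξ := by
  unfold FF
  rw [← integral_const_mul]
  congr 1; funext x; push_cast; ring

lemma FF_u0 (R : ℝ) (hR : 0 ≤ R) (ξ : ℝ) :
    ‖(π * ξ : ℂ) * FF (u0 R) ξ‖ ≤ 1 := by
  have h1 : (π * ξ : ℂ) * FF (A R) ξ = ((Real.cos (π * 2 * ξ) ^ 2 * (Real.cos (π * 6 * ξ) ^ 2 *
      (Real.cos (π * 18 * ξ) ^ 2 * Real.sin (2 * π * R * ξ))) : ℝ) : ℂ) := by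
    unfold A
    rw [FF_P _ (good_P (good_P (good_box R) 18) 6), FF_P _ (good_P (good_box R) 18),
      FF_P _ (good_box R)]
    have := FF_box R hR ξ
    push_cast at this ⊢
    rw [← this]; ring
  have h2 : (π * ξ : ℂ) * FF L1 ξ = ((Real.sin (π * 2 * ξ) ^ 2 * Real.sin (2 * π * 1 * ξ) : ℝ) : ℂ) := by
    unfold L1
    rw [FF_T _ (good_box 1)]
    have := FF_box 1 (by norm_num) ξ
    push_cast at this ⊢
    rw [← this]; ring
  have h3 : (π * ξ : ℂ) * FF L2 ξ = ((Real.cos (π * 2 * ξ) ^ 2 * (Real.sin (π * 6 * ξ) ^ 2 *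
      Real.sin (2 * π * 3 * ξ)) : ℝ) : ℂ) := by
    unfold L2
    rw [FF_P _ (good_T (good_box 3) 6), FF_T _ (good_box 3)]
    have := FF_box 3 (by norm_num) ξ
    push_cast at this ⊢
    rw [← this]; ring
  have h4 : (π * ξ : ℂ) * FF L3 ξ = ((Real.cos (π * 2 * ξ) ^ 2 * (Real.cos (π * 6 * ξ) ^ 2 *
      (Real.sin (π * 18 * ξ) ^ 2 * Real.sin (2 * π * 9 * ξ))) : ℝ) : ℂ) := by
    unfold L3
    rw [FF_P _ (good_P (good_T (good_box 9) 18) 6), FF_P _ (good_T (good_box 9) 18), FF_T _ (good_box 9)]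
    have := FF_box 9 (by norm_num) ξ
    push_cast at this ⊢
    rw [← this]; ring
  have h5 : FF (u0 R) ξ = FF (A R) ξ + ((-(9/10) : ℝ) : ℂ) * (FF L1 ξ + FF L2 ξ + FF L3 ξ) := by
    have e : u0 R = fun x => A R x + -(9/10) * S x := rfl
    rw [e, FF_add (good_A R) (good_S.smul _), FF_smul]
    congr 2
    have e2 : S = fun x => (L1 x + L2 x) + L3 x := rfl
    rw [e2, FF_add (good_L1.add good_L2) good_L3, FF_add good_L1 good_L2]
  set c1 := Real.cos (π * 2 * ξ)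
  set c2 := Real.cos (π * 6 * ξ)
  set c3 := Real.cos (π * 18 * ξ)
  set s1 := Real.sin (π * 2 * ξ)
  set s2 := Real.sin (π * 6 * ξ)
  set s3 := Real.sin (π * 18 * ξ)
  set t0 := Real.sin (2 * π * R * ξ)
  set t1 := Real.sin (2 * π * 1 * ξ)
  set t2 := Real.sin (2 * π * 3 * ξ)
  set t3 := Real.sin (2 * π * 9 * ξ)
  have e : (π * ξ : ℂ) * FF (u0 R) ξ = ((c1 ^ 2 * (c2 ^ 2 * (c3 ^ 2 * t0))
      + (-(9/10)) * (s1 ^ 2 * t1 + c1 ^ 2 * (s2 ^ 2 * t2) + c1 ^ 2 * (c2 ^ 2 * (s3 ^ 2 * t3))) : ℝ) : ℂ) := by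
    rw [h5]
    have : (π * ξ : ℂ) * (FF (A R) ξ + ((-(9/10) : ℝ) : ℂ) * (FF L1 ξ + FF L2 ξ + FF L3 ξ))
      = (π * ξ : ℂ) * FF (A R) ξ + ((-(9/10) : ℝ) : ℂ) * ((π * ξ : ℂ) * FF L1 ξ + (π * ξ : ℂ) * FF L2 ξ
        + (π * ξ : ℂ) * FF L3 ξ) := by ring
    rw [this, h1, h2, h3, h4]
    push_cast
    ring
  rw [e, Complex.norm_real, Real.norm_eq_abs]
  have a1 : s1 ^ 2 = 1 - c1 ^ 2 := Real.sin_sq _
  have a2 : s2 ^ 2 = 1 - c2 ^ 2 := Real.sin_sq _
  have a3 : s3 ^ 2 = 1 - c3 ^ 2 := Real.sin_sq _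
  have b0 : |t0| ≤ 1 := Real.abs_sin_le_one _
  have b1 : |t1| ≤ 1 := Real.abs_sin_le_one _
  have b2 : |t2| ≤ 1 := Real.abs_sin_le_one _
  have b3 : |t3| ≤ 1 := Real.abs_sin_le_one _
  have p0 : 0 ≤ c1 ^ 2 * (c2 ^ 2 * (c3 ^ 2)) := by positivity
  have p1 : 0 ≤ s1 ^ 2 := by positivity
  have p2 : 0 ≤ c1 ^ 2 * (s2 ^ 2) := by positivity
  have p3 : 0 ≤ c1 ^ 2 * (c2 ^ 2 * (s3 ^ 2)) := by positivity
  have hsum : c1 ^ 2 * (c2 ^ 2 * (c3 ^ 2)) + (s1 ^ 2 + c1 ^ 2 * (s2 ^ 2) + c1 ^ 2 * (c2 ^ 2 * (s3 ^ 2))) = 1 := by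
    rw [a1, a2, a3]; ring
  rw [abs_le] at b0 b1 b2 b3 ⊢
  constructor
  · nlinarith [mul_le_mul_of_nonneg_left b0.1 p0, mul_le_mul_of_nonneg_left b1.2 p1,
      mul_le_mul_of_nonneg_left b2.2 p2, mul_le_mul_of_nonneg_left b3.2 p3]
  · nlinarith [mul_le_mul_of_nonneg_left b0.2 p0, mul_le_mul_of_nonneg_left b1.1 p1,
      mul_le_mul_of_nonneg_left b2.1 p2, mul_le_mul_of_nonneg_left b3.1 p3]

/-! pointwise values -/

lemma P_const {k : ℝ} (hk : 0 ≤ k) {v : ℝ → ℝ} {a c : ℝ} (h : ∀ x, |x| < a + k → v x = c) :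
    ∀ x, |x| < a → P k v x = c := by
  intro x hx
  unfold P
  rw [abs_lt] at hx
  rw [h x (by rw [abs_lt]; constructor <;> linarith), h (x - k) (by rw [abs_lt]; constructor <;> linarith),
    h (x + k) (by rw [abs_lt]; constructor <;> linarith)]
  ring

lemma P_const' {k : ℝ} (hk : 0 ≤ k) {v : ℝ → ℝ} {a c : ℝ} (h : ∀ x, |x| ≤ a + k → v x = c) :
    ∀ x, |x| ≤ a → P k v x = c := by
  intro x hx
  unfold P
  rw [abs_le] at hx
  rw [h x (by rw [abs_le]; constructor <;> linarith), h (x - k) (by rw [abs_le]; constructor <;> linarith),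
    h (x + k) (by rw [abs_le]; constructor <;> linarith)]
  ring

lemma T_box_half {k r : ℝ} (hr : 2 * r ≤ k) : ∀ x, |x| < r → T k (box r) x = 1 / 2 := by
  intro x hx
  unfold T box
  rw [if_pos hx.le]
  rw [abs_lt] at hx
  rw [if_neg (by rw [abs_le]; rintro ⟨h1, h2⟩; linarith), if_neg (by rw [abs_le]; rintro ⟨h1, h2⟩; linarith)]
  norm_num

lemma P_supp {k : ℝ} (hk : 0 ≤ k) {v : ℝ → ℝ} {a : ℝ} (h : ∀ x, a < |x| → v x = 0) :
    ∀ x, a + k < |x| → P k v x = 0 := by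
  intro x hx
  unfold P
  have h1 : a < |x - k| := by
    have := abs_sub_abs_le_abs_sub x k
    rw [abs_of_nonneg hk] at this
    linarith
  have h2 : a < |x + k| := by
    have := abs_sub_abs_le_abs_sub x (-k)
    rw [abs_neg, abs_of_nonneg hk, sub_neg_eq_add] at this
    linarith
  rw [h x (by linarith), h _ h1, h _ h2]
  norm_num

lemma T_supp {k : ℝ} (hk : 0 ≤ k) {v : ℝ → ℝ} {a : ℝ} (h : ∀ x, a < |x| → v x = 0) :
    ∀ x, a + k < |x| → T k v x = 0 := by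
  intro x hx
  unfold T
  have h1 : a < |x - k| := by
    have := abs_sub_abs_le_abs_sub x k
    rw [abs_of_nonneg hk] at this
    linarith
  have h2 : a < |x + k| := by
    have := abs_sub_abs_le_abs_sub x (-k)
    rw [abs_neg, abs_of_nonneg hk, sub_neg_eq_add] at this
    linarith
  rw [h x (by linarith), h _ h1, h _ h2]
  norm_num

lemma box_supp (r : ℝ) : ∀ x, r < |x| → box r x = 0 := by
  intro x hx; unfold box; rw [if_neg (not_le.2 hx)]

lemma S_center {x : ℝ} (hx : |x| < 1) : S x = 3 / 2 := by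
  have h1 : L1 x = 1/2 := T_box_half (by norm_num) x hx
  have h2 : L2 x = 1/2 := by
    refine P_const (a := 1) (by norm_num) (fun y hy => T_box_half (by norm_num) y ?_) x hx
    linarith
  have h3 : L3 x = 1/2 := by
    refine P_const (a := 1) (by norm_num) (P_const (by norm_num) (fun y hy => T_box_half (by norm_num) y ?_)) x hx
    linarith
  unfold S; rw [h1, h2, h3]; norm_num

lemma S_supp {x : ℝ} (hx : 35 < |x|) : S x = 0 := by
  have h1 : L1 x = 0 := T_supp (by norm_num) (box_supp 1) x (by linarith)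
  have h2 : L2 x = 0 := P_supp (by norm_num) (T_supp (by norm_num) (box_supp 3)) x (by linarith)
  have h3 : L3 x = 0 := P_supp (by norm_num) (P_supp (by norm_num) (T_supp (by norm_num) (box_supp 9))) x
    (by linarith)
  unfold S; rw [h1, h2, h3]; norm_num

lemma A_one {R x : ℝ} (hx : |x| ≤ R - 26) : A R x = 1 := by
  refine P_const' (a := R - 26) (by norm_num) (P_const' (by norm_num) (P_const' (by norm_num) ?_)) x hx
  intro y hy
  unfold box
  rw [if_pos (by linarith)]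

lemma A_supp {R x : ℝ} (hx : R + 26 < |x|) : A R x = 0 :=
  P_supp (by norm_num) (P_supp (by norm_num) (P_supp (by norm_num) (box_supp R))) x (by linarith)

lemma P_nonneg {k : ℝ} {v : ℝ → ℝ} (h : ∀ x, 0 ≤ v x) : ∀ x, 0 ≤ P k v x := by
  intro x; unfold P; linarith [h x, h (x - k), h (x + k)]

lemma box_nonneg (r : ℝ) : ∀ x, 0 ≤ box r x := by
  intro x; unfold box; split_ifs <;> norm_num

lemma P_pos {k : ℝ} (_hk : 0 ≤ k) {v : ℝ → ℝ} (h0 : ∀ x, 0 ≤ v x) {a : ℝ} (ha : k ≤ a) (h : ∀ x, |x| ≤ a → 0 < v x) :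
    ∀ x, |x| ≤ a + k → 0 < P k v x := by
  intro x hx
  unfold P
  rw [abs_le] at hx
  rcases le_total 0 x with hx0 | hx0
  · have := h (x - k) (by rw [abs_le]; constructor <;> linarith)
    linarith [h0 x, h0 (x + k)]
  · have := h (x + k) (by rw [abs_le]; constructor <;> linarith)
    linarith [h0 x, h0 (x - k)]

lemma A_nonneg (R x : ℝ) : 0 ≤ A R x := P_nonneg (P_nonneg (P_nonneg (box_nonneg R))) x

lemma A_pos {R x : ℝ} (hR : 100 ≤ R) (hx : |x| ≤ R + 26) : 0 < A R x := by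
  have hb : ∀ x, |x| ≤ R → 0 < box R x := by
    intro y hy; unfold box; rw [if_pos hy]; norm_num
  have h1 := P_pos (k := 18) (by norm_num) (box_nonneg R) (a := R) (by linarith) hb
  have h2 := P_pos (k := 6) (by norm_num) (P_nonneg (box_nonneg R)) (a := R + 18) (by linarith) h1
  have h3 := P_pos (k := 2) (by norm_num) (P_nonneg (P_nonneg (box_nonneg R))) (a := R + 18 + 6) (by linarith) h2
  exact h3 x (by linarith)

lemma P_int {k : ℝ} {v : ℝ → ℝ} {N : ℤ} (h : ∀ x, ∃ z : ℤ, N * v x = z) :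
    ∀ x, ∃ z : ℤ, ((4 * N : ℤ) : ℝ) * P k v x = z := by
  intro x
  obtain ⟨z1, h1⟩ := h x
  obtain ⟨z2, h2⟩ := h (x - k)
  obtain ⟨z3, h3⟩ := h (x + k)
  refine ⟨2 * z1 + z2 + z3, ?_⟩
  unfold P
  push_cast
  rw [← h1, ← h2, ← h3]; ring

lemma T_int {k : ℝ} {v : ℝ → ℝ} {N : ℤ} (h : ∀ x, ∃ z : ℤ, N * v x = z) :
    ∀ x, ∃ z : ℤ, ((4 * N : ℤ) : ℝ) * T k v x = z := by
  intro x
  obtain ⟨z1, h1⟩ := h x
  obtain ⟨z2, h2⟩ := h (x - k)
  obtain ⟨z3, h3⟩ := h (x + k)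
  refine ⟨2 * z1 - z2 - z3, ?_⟩
  unfold T
  push_cast
  rw [← h1, ← h2, ← h3]; ring

lemma box_int (r : ℝ) : ∀ x, ∃ z : ℤ, ((1 : ℤ) : ℝ) * box r x = z := by
  intro x; unfold box; split_ifs
  · exact ⟨1, by norm_num⟩
  · exact ⟨0, by norm_num⟩

lemma S_int (x : ℝ) : ∃ z : ℤ, 64 * S x = z := by
  obtain ⟨z1, h1⟩ := T_int (k := 2) (box_int 1) x
  obtain ⟨z2, h2⟩ := P_int (k := 2) (T_int (k := 6) (box_int 3)) x
  obtain ⟨z3, h3⟩ := P_int (k := 2) (P_int (k := 6) (T_int (k := 18) (box_int 9))) x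
  refine ⟨16 * z1 + 4 * z2 + z3, ?_⟩
  have e1 : L1 x = T 2 (box 1) x := rfl
  have e2 : L2 x = P 2 (T 6 (box 3)) x := rfl
  have e3 : L3 x = P 2 (P 6 (T 18 (box 9))) x := rfl
  unfold S
  rw [e1, e2, e3]
  push_cast at h1 h2 h3 ⊢
  rw [← h1, ← h2, ← h3]
  ring

lemma u0_ne_zero {R x : ℝ} (hR : 100 ≤ R) (hx : |x| ≤ R + 26) : u0 R x ≠ 0 := by
  unfold u0
  by_cases h : |x| ≤ 35
  · rw [A_one (by linarith)]
    obtain ⟨z, hz⟩ := S_int x
    intro h0
    have h1 : (9 : ℝ) * z = 640 := by rw [← hz]; linarith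
    have h2 : (9 : ℤ) * z = 640 := by exact_mod_cast h1
    omega
  · rw [not_le] at h
    rw [S_supp h, mul_zero, add_zero]
    exact (A_pos hR hx).ne'

lemma u0_supp {R x : ℝ} (hR : 100 ≤ R) (hx : R + 26 < |x|) : u0 R x = 0 := by
  unfold u0
  rw [A_supp hx, S_supp (by linarith)]; norm_num

lemma u0_center {R x : ℝ} (hR : 100 ≤ R) (hx : |x| < 1) : u0 R x = -(7/20) := by
  unfold u0
  rw [A_one (by linarith), S_center hx]; norm_num

/-! integrals -/

lemma int_shift (v : ℝ → ℝ) (s : ℝ) : ∫ x, v (x - s) = ∫ x, v x := integral_sub_right_eq_self v s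

lemma int_P (v : ℝ → ℝ) (hv : Good v) (k : ℝ) : ∫ x, P k v x = ∫ x, v x := by
  have : P k v = fun x => 1/2 * v x + 1/4 * v (x - k) + 1/4 * v (x - -k) := by
    funext x; unfold P; rw [sub_neg_eq_add]; ring
  rw [this, integral_add, integral_add, integral_const_mul, integral_const_mul, integral_const_mul,
    int_shift, int_shift]
  · ring
  · exact hv.int1.const_mul _
  · exact (hv.shift k).int1.const_mul _
  · exact (hv.int1.const_mul _).add ((hv.shift k).int1.const_mul _)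
  · exact (hv.shift (-k)).int1.const_mul _

lemma int_T (v : ℝ → ℝ) (hv : Good v) (k : ℝ) : ∫ x, T k v x = 0 := by
  have : T k v = fun x => 1/2 * v x + -(1/4) * v (x - k) + -(1/4) * v (x - -k) := by
    funext x; unfold T; rw [sub_neg_eq_add]; ring
  rw [this, integral_add, integral_add, integral_const_mul, integral_const_mul, integral_const_mul,
    int_shift, int_shift]
  · ring
  · exact hv.int1.const_mul _
  · exact (hv.shift k).int1.const_mul _
  · exact (hv.int1.const_mul _).add ((hv.shift k).int1.const_mul _)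
  · exact (hv.shift (-k)).int1.const_mul _

lemma int_box (r : ℝ) (hr : 0 ≤ r) : ∫ x, box r x = 2 * r := by
  rw [box_eq_indicator, integral_indicator measurableSet_Icc]
  simp
  rw [max_eq_left (by linarith)]
  ring

lemma int_u0 (R : ℝ) (hR : 0 ≤ R) : ∫ x, u0 R x = 2 * R := by
  unfold u0
  rw [integral_add (good_A R).int1 (good_S.smul _).int1, integral_const_mul]
  have h1 : ∫ x, A R x = 2 * R := by
    unfold A
    rw [int_P _ (good_P (good_P (good_box R) 18) 6), int_P _ (good_P (good_box R) 18),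
      int_P _ (good_box R), int_box R hR]
  have h2 : ∫ x, S x = 0 := by
    unfold S
    rw [integral_add (good_L1.add good_L2).int1 good_L3.int1, integral_add good_L1.int1 good_L2.int1]
    unfold L1 L2 L3
    rw [int_T _ (good_box 1), int_P _ (good_T (good_box 3) 6), int_T _ (good_box 3),
      int_P _ (good_P (good_T (good_box 9) 18) 6), int_P _ (good_T (good_box 9) 18), int_T _ (good_box 9)]
    norm_num
  rw [h1, h2]; ring

lemma abs_u0_lower (R : ℝ) (hR : 100 ≤ R) : 2 * R + 7/5 ≤ ∫ x, |u0 R x| := by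
  have hi := (good_u0 R).int1
  -- |u0| ≥ u0 + (7/10) * indicator of (-1,1)
  have h1 : ∀ x, u0 R x + (Ioo (-1:ℝ) 1).indicator (fun _ => (7/10:ℝ)) x ≤ |u0 R x| := by
    intro x
    by_cases hx : x ∈ Ioo (-1:ℝ) 1
    · rw [indicator_of_mem hx, u0_center hR (abs_lt.2 hx)]
      norm_num [abs_of_nonneg]
    · rw [indicator_of_notMem hx, add_zero]; exact le_abs_self _
  have hind : Integrable ((Ioo (-1:ℝ) 1).indicator (fun _ => (7/10:ℝ))) := by
    rw [integrable_indicator_iff measurableSet_Ioo]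
    exact integrableOn_const (by simp) (by simp)
  have h2 := integral_mono (hi.add hind) hi.abs h1
  have h3 : ∫ x, (u0 R x + (Ioo (-1:ℝ) 1).indicator (fun _ => (7/10:ℝ)) x) = 2 * R + 7/5 := by
    rw [integral_add hi hind, int_u0 R (by linarith), integral_indicator measurableSet_Ioo]
    simp
    norm_num
  rw [← h3]
  exact h2

end X89SQ
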