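import Pool.Agent.X89.SQ2

open MeasureTheory Real Set Filter Topology
open scoped FourierTransform ENNReal

namespace X89SQ

noncomputable def mom (α : ℝ) (v : ℝ → ℝ) (s : ℝ) : ℝ := ∫ x, |x + s| ^ α * v x

lemma cont_w {α : ℝ} (hα : 0 < α) (s : ℝ) : Continuous (fun x : ℝ => |x + s| ^ α) :=
  (continuous_abs.comp (continuous_add_const s)).rpow_const (fun _ => Or.inr hα.le)

lemma mom_P {α : ℝ} (hα : 0 < α) (v : ℝ → ℝ) (hv : Good v) (k s : ℝ) :
    mom α (P k v) s = P k (mom α v) s := by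
  have hsh : ∀ a, ∫ x, |x + s| ^ α * v (x - a) = mom α v (s + a) := by
    intro a
    unfold mom
    rw [← integral_sub_right_eq_self (fun x => |x + (s + a)| ^ α * v x) a]
    congr 1; funext x
    rw [show x - a + (s + a) = x + s by ring]
  have h0 : ∀ a, Integrable (fun x => |x + s| ^ α * v (x - a)) := fun a => (hv.shift a).intR (cont_w hα s)
  have h00 : Integrable (fun x => |x + s| ^ α * v x) := hv.intR (cont_w hα s)
  have e : mom α (P k v) s = ∫ x, (1/2 * (|x + s| ^ α * v x) + 1/4 * (|x + s| ^ α * v (x - k))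
      + 1/4 * (|x + s| ^ α * v (x - -k))) := by
    unfold mom P
    congr 1; funext x
    rw [sub_neg_eq_add]; ring
  rw [e, integral_add, integral_add, integral_const_mul, integral_const_mul, integral_const_mul, hsh, hsh]
  · unfold P
    rw [← sub_eq_add_neg]
    unfold mom
    ring
  · exact h00.const_mul _
  · exact (h0 k).const_mul _
  · exact (h00.const_mul _).add ((h0 k).const_mul _)
  · exact (h0 (-k)).const_mul _

lemma int_abs_rpow {α : ℝ} (hα : 0 < α) {a b : ℝ} (ha : 0 ≤ a) (hb : 0 ≤ b) :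
    ∫ x in (-a)..b, |x| ^ α = (a ^ (α + 1) + b ^ (α + 1)) / (α + 1) := by
  have hc : Continuous (fun x : ℝ => |x| ^ α) := continuous_abs.rpow_const (fun _ => Or.inr hα.le)
  have key : ∀ b : ℝ, 0 ≤ b → ∫ x in (0:ℝ)..b, |x| ^ α = b ^ (α + 1) / (α + 1) := by
    intro b hb
    have h1 : ∫ x in (0:ℝ)..b, |x| ^ α = ∫ x in (0:ℝ)..b, x ^ α := by
      apply intervalIntegral.integral_congr
      intro x hx
      rw [uIcc_of_le hb] at hx
      simp only [abs_of_nonneg hx.1]
    rw [h1, integral_rpow (Or.inl (by linarith)), Real.zero_rpow (by linarith)]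
    ring
  rw [← intervalIntegral.integral_add_adjacent_intervals (hc.intervalIntegrable _ _) (hc.intervalIntegrable _ _)
    (b := 0), key b hb]
  have h2 : ∫ x in (-a)..0, |x| ^ α = ∫ x in (0:ℝ)..a, |x| ^ α := by
    have := intervalIntegral.integral_comp_neg (a := -a) (b := 0) (fun x : ℝ => |x| ^ α)
    simp only [abs_neg, neg_zero, neg_neg] at this
    exact this
  rw [h2, key a ha]
  ring

lemma mom_box {α : ℝ} (hα : 0 < α) {R s : ℝ} (hs : |s| ≤ R) :
    mom α (box R) s = ((R + s) ^ (α + 1) + (R - s) ^ (α + 1)) / (α + 1) := by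
  rw [abs_le] at hs
  unfold mom
  have h1 : (fun x : ℝ => |x + s| ^ α * box R x) = (Icc (-R) R).indicator (fun x : ℝ => |x + s| ^ α) := by
    funext x
    rw [box_eq_indicator]
    by_cases h : x ∈ Icc (-R) R
    · rw [indicator_of_mem h, indicator_of_mem h, mul_one]
    · rw [indicator_of_notMem h, indicator_of_notMem h, mul_zero]
  rw [h1, integral_indicator measurableSet_Icc, integral_Icc_eq_integral_Ioc,
    ← intervalIntegral.integral_of_le (by linarith),
    intervalIntegral.integral_comp_add_right (fun x : ℝ => |x| ^ α) s,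
    show -R + s = -(R - s) by ring, int_abs_rpow hα (by linarith) (by linarith)]
  ring

lemma P_le {k : ℝ} (hk : 0 ≤ k) {φ : ℝ → ℝ} {a B : ℝ} (h : ∀ s, |s| ≤ a + k → φ s ≤ B) :
    ∀ s, |s| ≤ a → P k φ s ≤ B := by
  intro s hs
  rw [abs_le] at hs
  unfold P
  have h1 := h s (by rw [abs_le]; constructor <;> linarith)
  have h2 := h (s - k) (by rw [abs_le]; constructor <;> linarith)
  have h3 := h (s + k) (by rw [abs_le]; constructor <;> linarith)
  linarith

lemma mom_A_le {α : ℝ} (hα : 0 < α) {R B : ℝ}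
    (h : ∀ s, |s| ≤ 26 → mom α (box R) s ≤ B) : mom α (A R) 0 ≤ B := by
  have e : ∀ s, mom α (A R) s = P 2 (P 6 (P 18 (mom α (box R)))) s := by
    intro s
    unfold A
    rw [mom_P hα _ (good_P (good_P (good_box R) 18) 6)]
    have : mom α (P 6 (P 18 (box R))) = P 6 (P 18 (mom α (box R))) := by
      funext s
      rw [mom_P hα _ (good_P (good_box R) 18)]
      have : mom α (P 18 (box R)) = P 18 (mom α (box R)) := by
        funext s
        rw [mom_P hα _ (good_box R)]
      rw [this]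
    rw [this]
  rw [e]
  refine P_le (a := 0) (by norm_num) (P_le (by norm_num) (P_le (by norm_num) ?_)) 0 (by simp)
  intro s hs
  exact h s (by linarith)

/-- asymptotic comparison -/
lemma asym {β : ℝ} (hβ : 1 < β) (K : ℝ) :
    ∃ R : ℝ, 100 ≤ R ∧ ∃ B : ℝ, (∀ s, |s| ≤ 26 → ((R + s) ^ β + (R - s) ^ β) / 2 ≤ B) ∧
      B + K < (R + 7/10) ^ β := by
  have hβ0 : 0 < β := by linarith
  -- the even function
  have hd : HasDerivAt (fun y : ℝ => ((1 + y) ^ β + (1 - y) ^ β) / 2) 0 0 := by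
    have h1 : HasDerivAt (fun y : ℝ => (1 + y) ^ β) (1 * β * (1 + 0) ^ (β - 1)) (0:ℝ) :=
      ((hasDerivAt_id (0:ℝ)).const_add 1).rpow_const (Or.inl (by norm_num))
    have h2 : HasDerivAt (fun y : ℝ => (1 - y) ^ β) (-1 * β * (1 - 0) ^ (β - 1)) (0:ℝ) :=
      ((hasDerivAt_id (0:ℝ)).const_sub 1).rpow_const (Or.inl (by norm_num))
    have h3 := (h1.add h2).div_const 2
    have e : (1 * β * (1 + 0 : ℝ) ^ (β - 1) + -1 * β * (1 - 0 : ℝ) ^ (β - 1)) / 2 = 0 := by
      rw [add_zero, sub_zero, Real.one_rpow]; ring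
    rw [e] at h3
    exact h3
  set δ : ℝ := β * (7/20) / 26 with hδ
  have hδ0 : 0 < δ := by positivity
  have hlo := (hasDerivAt_iff_isLittleO_nhds_zero.1 hd).def hδ0
  simp only [zero_add, smul_zero, sub_zero, add_zero, Real.one_rpow, Real.norm_eq_abs] at hlo
  obtain ⟨y0, hy0, hlo⟩ := Metric.eventually_nhds_iff.1 hlo
  have hev1 : ∀ᶠ R : ℝ in atTop, 100 ≤ R := eventually_ge_atTop 100
  have hev2 : ∀ᶠ R : ℝ in atTop, 26 / y0 < R := eventually_gt_atTop _
  have hev3 : ∀ᶠ R : ℝ in atTop, K / (7/20 * β) < R ^ (β - 1) :=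
    (tendsto_rpow_atTop (by linarith : 0 < β - 1)).eventually_gt_atTop _
  obtain ⟨R, h1, h2, h3⟩ := (hev1.and (hev2.and hev3)).exists
  have hR : 0 < R := by linarith
  refine ⟨R, h1, R ^ β + 7/20 * β * R ^ (β - 1), ?_, ?_⟩
  · intro s hs
    have hy : |s / R| ≤ 26 / R := by
      rw [abs_div, abs_of_pos hR]; gcongr
    have hy' : |s / R| < y0 := by
      refine lt_of_le_of_lt hy ?_
      rw [div_lt_iff₀ hR]
      rw [div_lt_iff₀ hy0] at h2
      linarith
    have hE := hlo (y := s / R) (by rw [Real.dist_eq, sub_zero]; exact hy')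
    have hE1 : ((1 + s / R) ^ β + (1 - s / R) ^ β) / 2 ≤ 1 + δ * |s / R| := by
      have := (abs_le.1 hE).2
      norm_num at this
      linarith
    have hy1 : |s / R| ≤ 1 := by
      refine hy.trans ?_
      rw [div_le_one hR]; linarith
    rw [abs_le] at hy1
    have e1 : (R + s) ^ β = R ^ β * (1 + s / R) ^ β := by
      rw [← Real.mul_rpow hR.le (by linarith)]
      congr 1; field_simp
    have e2 : (R - s) ^ β = R ^ β * (1 - s / R) ^ β := by
      rw [← Real.mul_rpow hR.le (by linarith)]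
      congr 1; field_simp
    rw [e1, e2]
    have hRb : 0 < R ^ β := Real.rpow_pos_of_pos hR _
    calc (R ^ β * (1 + s / R) ^ β + R ^ β * (1 - s / R) ^ β) / 2
        = R ^ β * (((1 + s / R) ^ β + (1 - s / R) ^ β) / 2) := by ring
      _ ≤ R ^ β * (1 + δ * |s / R|) := by gcongr
      _ ≤ R ^ β * (1 + δ * (26 / R)) := by gcongr
      _ = R ^ β + 7/20 * β * R ^ (β - 1) := by
          rw [Real.rpow_sub_one hR.ne', hδ]; field_simp
  · have hB : 1 + β * (7/10 / R) ≤ (1 + 7/10 / R) ^ β :=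
      one_add_mul_self_le_rpow_one_add (by have : 0 < 7/10 / R := by positivity
                                           linarith) hβ.le
    have e3 : (R + 7/10) ^ β = R ^ β * (1 + 7/10 / R) ^ β := by
      rw [← Real.mul_rpow hR.le (by positivity)]
      congr 1; field_simp
    rw [e3]
    have hRb : 0 < R ^ β := Real.rpow_pos_of_pos hR _
    have h4 : R ^ β * (1 + β * (7/10 / R)) ≤ R ^ β * (1 + 7/10 / R) ^ β := by gcongr
    have h5 : R ^ β * (1 + β * (7/10 / R)) = R ^ β + 7/10 * β * R ^ (β - 1) := by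
      rw [Real.rpow_sub_one hR.ne']; field_simp
    have h6 : K < 7/20 * β * R ^ (β - 1) := by
      rw [div_lt_iff₀ (by positivity)] at h3
      linarith
    linarith

/-- the main real inequality: existence of a good `R`. -/
lemma exists_R {α : ℝ} (hα : 0 < α) :
    ∃ R : ℝ, 100 ≤ R ∧ (α + 1) * 2 ^ α * (∫ x, |x| ^ α * |u0 R x|) < (∫ x, |u0 R x|) ^ (α + 1) := by
  set β := α + 1 with hβ
  set K : ℝ := β / 2 * (9/10 * ∫ x, |x| ^ α * |S x|) with hK
  obtain ⟨R, hR, B, hB, hlt⟩ := asym (β := β) (by linarith) K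
  refine ⟨R, hR, ?_⟩
  have hβ0 : 0 < β := by linarith
  have h1 : mom α (A R) 0 ≤ 2 / β * B := by
    apply mom_A_le hα
    intro s hs
    rw [mom_box hα (by linarith)]
    have := hB s hs
    rw [← hβ]
    rw [div_le_iff₀ (by norm_num)] at this
    rw [div_le_iff₀ hβ0]
    have e : 2 / β * B * β = 2 * B := by field_simp
    rw [e]; linarith
  have hc : Continuous (fun x : ℝ => |x| ^ α) := continuous_abs.rpow_const (fun _ => Or.inr hα.le)
  have hSabs : Integrable (fun x => |x| ^ α * |S x|) := by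
    have := (good_S.intR hc).abs
    refine this.congr (Filter.Eventually.of_forall fun x => ?_)
    simp only [abs_mul, abs_of_nonneg (Real.rpow_nonneg (abs_nonneg x) α)]
  have hAint : Integrable (fun x => |x| ^ α * A R x) := (good_A R).intR hc
  have huabs : Integrable (fun x => |x| ^ α * |u0 R x|) := by
    have := ((good_u0 R).intR hc).abs
    refine this.congr (Filter.Eventually.of_forall fun x => ?_)
    simp only [abs_mul, abs_of_nonneg (Real.rpow_nonneg (abs_nonneg x) α)]
  have h2 : ∫ x, |x| ^ α * |u0 R x| ≤ mom α (A R) 0 + 9/10 * ∫ x, |x| ^ α * |S x| := by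
    have e : mom α (A R) 0 = ∫ x, |x| ^ α * A R x := by unfold mom; simp
    rw [e, ← integral_const_mul, ← integral_add hAint (hSabs.const_mul _)]
    refine integral_mono huabs (hAint.add (hSabs.const_mul _)) fun x => ?_
    have hx : 0 ≤ |x| ^ α := Real.rpow_nonneg (abs_nonneg x) α
    have h3 : |u0 R x| ≤ A R x + 9/10 * |S x| := by
      unfold u0
      refine (abs_add_le _ _).trans ?_
      rw [abs_of_nonneg (A_nonneg R x), abs_mul]
      norm_num
    calc |x| ^ α * |u0 R x| ≤ |x| ^ α * (A R x + 9/10 * |S x|) := by gcongr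
      _ = |x| ^ α * A R x + 9/10 * (|x| ^ α * |S x|) := by ring
  have h3 := abs_u0_lower R hR
  have h4 : (2 * R + 7/5) ^ β ≤ (∫ x, |u0 R x|) ^ β :=
    Real.rpow_le_rpow (by linarith) h3 hβ0.le
  have h5 : (2 * R + 7/5) ^ β = 2 ^ β * (R + 7/10) ^ β := by
    rw [← Real.mul_rpow (by norm_num) (by linarith)]
    congr 1; ring
  have h6 : (2:ℝ) ^ β = 2 * 2 ^ α := by
    rw [hβ, Real.rpow_add_one (by norm_num)]; ring
  refine lt_of_lt_of_le ?_ h4
  rw [h5, h6]
  have h7 : (0:ℝ) < 2 ^ α := Real.rpow_pos_of_pos (by norm_num) _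
  calc β * 2 ^ α * (∫ x, |x| ^ α * |u0 R x|)
      ≤ β * 2 ^ α * (2 / β * B + 9/10 * ∫ x, |x| ^ α * |S x|) := by
        have := h2.trans (add_le_add_left h1 _)
        gcongr
    _ = 2 * 2 ^ α * (B + K) := by rw [hK]; field_simp
    _ < 2 * 2 ^ α * (R + 7/10) ^ β := by gcongr

end X89SQ
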